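import Pool.Agent.Lib.MP_6febbd_ag.Defs

set_option autoImplicit false

open scoped Matrix.Norms.Elementwise Real
open Complex Matrix

noncomputable section

namespace MP6feb

/-- The Fourier series of `Bf`, indexed by all natural numbers (the term at `0` vanishes). -/
theorem Bf_hasSum' (r : ℝ) :
    HasSum (fun j : ℕ => (-1 : ℝ) ^ j * Real.cos (2 * π * j * r) / (π ^ 2 * (j : ℝ) ^ 2))
      (Bf r) := by
  have hu : (r - round r + 1 / 2) ∈ Set.Icc (0 : ℝ) 1 := by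
    have h := abs_sub_round r
    rw [abs_le] at h
    constructor <;> linarith [h.1, h.2]
  have h := (hasSum_one_div_nat_pow_mul_cos (k := 1) one_ne_zero hu).mul_left (1 / π ^ 2)
  have hpi : (π : ℝ) ≠ 0 := Real.pi_ne_zero
  convert! h using 1
  · funext j
    have hc : Real.cos (2 * π * (j : ℝ) * (r - round r + 1 / 2)) =
        (-1 : ℝ) ^ j * Real.cos (2 * π * j * r) := by
      have e : 2 * π * (j : ℝ) * (r - round r + 1 / 2) =
          2 * π * j * r + (j : ℕ) * π - ((j : ℤ) * round r : ℤ) * (2 * π) := by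
        push_cast; ring
      rw [e, Real.cos_sub_int_mul_two_pi, Real.cos_add_nat_mul_pi]
    rw [hc]
    rcases Nat.eq_zero_or_pos j with hj | hj
    · subst hj; simp
    · have hj' : (j : ℝ) ≠ 0 := by positivity
      rw [mul_one]
      field_simp
  · have hB : (Polynomial.map (algebraMap ℚ ℝ) (Polynomial.bernoulli (2 * 1))).eval
        (r - round r + 1 / 2) = Bf r := by
      have : Polynomial.bernoulli 2 = (Polynomial.X ^ 2 - Polynomial.X + Polynomial.C (1 / 6) :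
          Polynomial ℚ) := by
        rw [Polynomial.bernoulli]
        simp only [Finset.sum_range_succ, Finset.sum_range_zero, zero_add]
        norm_num [bernoulli_one, bernoulli_two, Nat.choose]
        have e1 : (Polynomial.monomial 1 (1 : ℚ)) = Polynomial.X := rfl
        rw [e1, sub_eq_add_neg, Polynomial.monomial_one_right_eq_X_pow]
      rw [show 2 * 1 = 2 from rfl, this]
      simp [Bf]
      ring
    rw [hB]
    simp
    field_simp

/-- Fourier series of `Bf`: `Bf r = ∑_{k ≥ 1} (-1)^k cos(2πkr)/(π² k²)`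
(Mathlib `hasSum_one_div_nat_pow_mul_cos` for the Bernoulli polynomial `B₂` at
`x = r - round r + 1/2`, where `x² - x + 1/6 = (r - round r)² - 1/12`). -/
theorem Bf_hasSum (r : ℝ) :
    HasSum (fun k : ℕ => (-1 : ℝ) ^ (k + 1) * Real.cos (2 * π * (k + 1) * r) /
      (π ^ 2 * (k + 1) ^ 2)) (Bf r) := by
  have h := (hasSum_nat_add_iff' 1).mpr (Bf_hasSum' r)
  simpa using h

/-- The series over the multiples of `n`. -/
theorem hasSum_dvd {n : ℕ} (hn : n ≠ 0) :
    HasSum (fun j : ℕ => if n ∣ j then (1 : ℝ) / (j : ℝ) ^ 2 else 0)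
      (π ^ 2 / (6 * (n : ℝ) ^ 2)) := by
  have hinj : Function.Injective (fun i : ℕ => n * i) := fun a b h => by
    simpa [hn] using h
  have hn' : (n : ℝ) ≠ 0 := by exact_mod_cast hn
  rw [← hinj.hasSum_iff]
  · have h := hasSum_zeta_two.mul_left (1 / (n : ℝ) ^ 2)
    convert! h using 1
    · funext i
      simp only [Function.comp, dvd_mul_right, if_true, Nat.cast_mul]
      rw [mul_pow, one_div_mul_one_div]
    · field_simp
  · intro j hj
    rw [if_neg]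
    rintro ⟨i, rfl⟩
    exact hj ⟨i, rfl⟩

/-- The cosine sums as real parts of character sums. -/
theorem cos_lc {g n : ℕ} [NeZero n] (c : Fin g ⊕ Fin g → ℤ) (j : ℕ)
    (x : Fin g ⊕ Fin g → ZMod n) :
    Real.cos (2 * π * j * lc n c x) =
      (cexp (2 * π * I * ((j : ℂ) * (∑ i, (c (Sum.inl i) : ℂ) * (c (Sum.inr i) : ℂ)) / 2)) *
        chr n (fun i => (j : ℤ) * c i) x).re := by
  have hn : (n : ℂ) ≠ 0 := by exact_mod_cast NeZero.ne n
  rw [chr, ← Complex.exp_add]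
  have e : 2 * π * I * ((j : ℂ) * (∑ i, (c (Sum.inl i) : ℂ) * (c (Sum.inr i) : ℂ)) / 2) +
      2 * π * I * ((∑ i, (((j : ℤ) * c i : ℤ) : ℂ) * ((x i).val : ℂ)) / n) =
      ((2 * π * j * lc n c x : ℝ) : ℂ) * I := by
    simp only [lc]
    push_cast
    simp only [mul_assoc]
    rw [← Finset.mul_sum]
    ring
  rw [e, Complex.exp_ofReal_mul_I_re]

/-- Good sets satisfy the cusp condition. Proof. `n = 2^k`, `c` not divisible by two.
`∑_{x∈X} Bf(lc n c x) = ∑_{j≥1} (-1)^j/(π²j²) Re(e(j c'·c''/2) ∑_{x∈X} chr n (j c) x)`.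
For `n ∣ j` the summand is `+|X|/(π²j²)` (`j` is even, `chr = 1`, and `j c'·c''/2` is an
integer); the sum of these is `|X|/(6n²)`. For `n ∤ j` some coordinate of `j c` is not
divisible by `n` (take `c_i` odd), so the summand is at least
`-|X|/((n²-1) π² j²)`; the sum of these is at least
`-(|X|/(n²-1)) (1/6 - 1/(6n²)) = -|X|/(6n²)`. -/
theorem cusp_of_good_aux {g k n : ℕ} (hk : 1 ≤ k) (hn : n = 2 ^ k)
    (X : Finset (Fin g ⊕ Fin g → ZMod n))
    (hX : GoodSet n X) (c : Fin g ⊕ Fin g → ℤ) (hc : ∃ i, ¬ ((2 : ℤ) ∣ c i)) :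
    0 ≤ ∑ x ∈ X, Bf (lc n c x) := by
  obtain ⟨-, hX⟩ := hX
  obtain ⟨i₀, hi₀⟩ := hc
  have hn2 : 2 ≤ n := by
    calc 2 = 2 ^ 1 := by norm_num
      _ ≤ 2 ^ k := Nat.pow_le_pow_right (by norm_num) hk
      _ = n := hn.symm
  have hn0 : n ≠ 0 := by omega
  have : NeZero n := ⟨hn0⟩
  have hnR : (2 : ℝ) ≤ n := by exact_mod_cast hn2
  have hd : (0 : ℝ) < (n : ℝ) ^ 2 - 1 := by nlinarith
  have hpi : (0 : ℝ) < π := Real.pi_pos
  -- the series
  have hs : HasSum (fun j : ℕ => ∑ x ∈ X,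
      (-1 : ℝ) ^ j * Real.cos (2 * π * j * lc n c x) / (π ^ 2 * (j : ℝ) ^ 2))
      (∑ x ∈ X, Bf (lc n c x)) := hasSum_sum (fun x _ => Bf_hasSum' _)
  -- the lower bound
  have hg : HasSum (fun j : ℕ => (X.card : ℝ) / π ^ 2 *
      ((1 + 1 / ((n : ℝ) ^ 2 - 1)) * (if n ∣ j then (1 : ℝ) / (j : ℝ) ^ 2 else 0) -
        1 / ((n : ℝ) ^ 2 - 1) * (1 / (j : ℝ) ^ 2))) 0 := by
    have h := (((hasSum_dvd hn0).mul_left (1 + 1 / ((n : ℝ) ^ 2 - 1))).sub
      (hasSum_zeta_two.mul_left (1 / ((n : ℝ) ^ 2 - 1)))).mul_left ((X.card : ℝ) / π ^ 2)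
    convert! h using 1
    have h1 : (n : ℝ) ≠ 0 := by positivity
    have h2 : (n : ℝ) ^ 2 - 1 ≠ 0 := hd.ne'
    field_simp
    ring
  refine hasSum_le (fun j => ?_) hg hs
  have hsum : ∑ x ∈ X, (-1 : ℝ) ^ j * Real.cos (2 * π * j * lc n c x) / (π ^ 2 * (j : ℝ) ^ 2) =
      (1 / (π ^ 2 * (j : ℝ) ^ 2)) * ((-1 : ℝ) ^ j *
        (cexp (2 * π * I * ((j : ℂ) * (∑ i, (c (Sum.inl i) : ℂ) * (c (Sum.inr i) : ℂ)) / 2)) *
          ∑ x ∈ X, chr n (fun i => (j : ℤ) * c i) x).re) := by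
    rw [Finset.mul_sum, Complex.re_sum, Finset.mul_sum, Finset.mul_sum]
    refine Finset.sum_congr rfl (fun x _ => ?_)
    rw [cos_lc]
    ring
  rw [hsum]
  by_cases hj : n ∣ j
  · rw [if_pos hj]
    obtain ⟨l, rfl⟩ := hj
    have hev : Even (n * l) := by
      refine Even.mul_right ?_ l
      rw [hn]
      exact (Nat.even_pow.mpr ⟨even_two, by omega⟩)
    have hchr : ∀ x ∈ X, chr n (fun i => ((n * l : ℕ) : ℤ) * c i) x = 1 := by
      intro x _
      rw [chr]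
      have e : 2 * (π : ℂ) * I * ((∑ j, ((((n * l : ℕ) : ℤ) * c j : ℤ) : ℂ) *
          ((x j).val : ℂ)) / n) = ((l * ∑ j, c j * ((x j).val : ℤ) : ℤ) : ℂ) * (2 * π * I) := by
        have hnC : (n : ℂ) ≠ 0 := by exact_mod_cast hn0
        push_cast
        rw [Finset.mul_sum]
        have : ∑ x_1, (n : ℂ) * l * (c x_1) * ((x x_1).val : ℂ) =
            n * ∑ x_1, (l : ℂ) * ((c x_1) * ((x x_1).val : ℂ)) := by
          rw [Finset.mul_sum]
          exact Finset.sum_congr rfl (fun _ _ => by ring)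
        rw [this, mul_div_cancel_left₀ _ hnC]
        ring
      rw [e, Complex.exp_int_mul_two_pi_mul_I]
    have hphase : cexp (2 * π * I * (((n * l : ℕ) : ℂ) *
        (∑ i, (c (Sum.inl i) : ℂ) * (c (Sum.inr i) : ℂ)) / 2)) = 1 := by
      obtain ⟨q, hq⟩ := hev
      have e : 2 * (π : ℂ) * I * (((n * l : ℕ) : ℂ) *
        (∑ i, (c (Sum.inl i) : ℂ) * (c (Sum.inr i) : ℂ)) / 2) =
          (((q : ℤ) * ∑ i, c (Sum.inl i) * c (Sum.inr i) : ℤ) : ℂ) * (2 * π * I) := by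
        rw [hq]
        push_cast
        ring
      rw [e, Complex.exp_int_mul_two_pi_mul_I]
    rw [Finset.sum_congr rfl hchr, hphase, hev.neg_one_pow]
    simp only [Finset.sum_const, nsmul_eq_mul, mul_one, one_mul, Complex.natCast_re]
    apply le_of_eq
    rcases Nat.eq_zero_or_pos (n * l) with h0 | h0
    · rw [h0]; simp
    · have h0' : (((n * l : ℕ)) : ℝ) ≠ 0 := by exact_mod_cast h0.ne'
      field_simp
      ring
  · rw [if_neg hj]
    have hj0 : j ≠ 0 := fun h => hj (h ▸ dvd_zero n)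
    have hjp : (0 : ℝ) < (j : ℝ) ^ 2 := by positivity
    have hnd : ¬ ((n : ℤ) ∣ (j : ℤ) * c i₀) := by
      intro h
      apply hj
      have hcop : IsCoprime ((n : ℕ) : ℤ) (c i₀) := by
        rw [hn]
        push_cast
        refine IsCoprime.pow_left ?_
        rw [Prime.coprime_iff_not_dvd Int.prime_two]
        exact hi₀
      have := hcop.dvd_of_dvd_mul_right h
      exact_mod_cast this
    have hb := hX (fun i => (j : ℤ) * c i) ⟨i₀, hnd⟩
    have hnorm : ‖cexp (2 * π * I * ((j : ℂ) *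
        (∑ i, (c (Sum.inl i) : ℂ) * (c (Sum.inr i) : ℂ)) / 2))‖ = 1 := by
      have e : 2 * (π : ℂ) * I * ((j : ℂ) *
        (∑ i, (c (Sum.inl i) : ℂ) * (c (Sum.inr i) : ℂ)) / 2) =
          ((2 * π * (j * (∑ i, (c (Sum.inl i) : ℝ) * (c (Sum.inr i) : ℝ)) / 2) : ℝ) : ℂ) * I := by
        push_cast
        ring
      rw [e, Complex.norm_exp_ofReal_mul_I]
    set z : ℂ := cexp (2 * π * I * ((j : ℂ) *
        (∑ i, (c (Sum.inl i) : ℂ) * (c (Sum.inr i) : ℂ)) / 2)) *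
          ∑ x ∈ X, chr n (fun i => (j : ℤ) * c i) x with hz
    have hz1 : ‖z‖ ≤ X.card / ((n : ℝ) ^ 2 - 1) := by
      rw [hz, norm_mul, hnorm, one_mul, le_div_iff₀ hd]
      exact hb
    have hre : -(X.card / ((n : ℝ) ^ 2 - 1)) ≤ (-1 : ℝ) ^ j * z.re := by
      have h1 : |(-1 : ℝ) ^ j * z.re| ≤ X.card / ((n : ℝ) ^ 2 - 1) := by
        rw [abs_mul, abs_pow, abs_neg, abs_one, one_pow, one_mul]
        exact (Complex.abs_re_le_norm z).trans hz1
      exact (abs_le.mp h1).1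
    calc (X.card : ℝ) / π ^ 2 * ((1 + 1 / ((n : ℝ) ^ 2 - 1)) * 0 -
          1 / ((n : ℝ) ^ 2 - 1) * (1 / (j : ℝ) ^ 2))
        = (1 / (π ^ 2 * (j : ℝ) ^ 2)) * -(X.card / ((n : ℝ) ^ 2 - 1)) := by
          have h2 : (n : ℝ) ^ 2 - 1 ≠ 0 := hd.ne'
          field_simp
          ring
      _ ≤ (1 / (π ^ 2 * (j : ℝ) ^ 2)) * ((-1 : ℝ) ^ j * z.re) :=
          mul_le_mul_of_nonneg_left hre (by positivity)

/-- Good sets satisfy the cusp condition. See `cusp_of_good_aux`. -/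
theorem cusp_of_good {g k : ℕ} (hk : 1 ≤ k) (X : Finset (Fin g ⊕ Fin g → ZMod (2 ^ k)))
    (hX : GoodSet (2 ^ k) X) (c : Fin g ⊕ Fin g → ℤ) (hc : ∃ i, ¬ ((2 : ℤ) ∣ c i)) :
    0 ≤ ∑ x ∈ X, Bf (lc (2 ^ k) c x) :=
  cusp_of_good_aux hk rfl X hX c hc

end MP6feb
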