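import Pool.Agent.Lib.MP_6febbd_ag.Defs

set_option autoImplicit false

open scoped Matrix.Norms.Elementwise Real
open Complex Matrix

noncomputable section

namespace MP6feb

/-- A linear projection with kernel spanned by `e`: after choosing `j` with `e j ≠ 0`, take
`pr z = (z_i - (e_i/e_j) z_j)_{i ≠ j}` (`Fin.succAbove`), or any isomorphism of the quotient
by the line with `Fin k → ℂ`. -/
theorem exists_proj {k : ℕ} {e : Fin (k + 1) → ℂ} (he : e ≠ 0) :
    ∃ pr : (Fin (k + 1) → ℂ) →L[ℂ] (Fin k → ℂ), Function.Surjective pr ∧ pr e = 0 ∧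
      ∀ z, pr z = 0 → ∃ c : ℂ, z = c • e := by
  obtain ⟨j, hj⟩ : ∃ j, e j ≠ 0 := by
    by_contra h
    push Not at h
    exact he (funext h)
  let pl : (Fin (k + 1) → ℂ) →ₗ[ℂ] (Fin k → ℂ) :=
    { toFun := fun z i => z (j.succAbove i) - e (j.succAbove i) / e j * z j
      map_add' := by
        intro x y
        funext i
        simp only [Pi.add_apply]
        ring
      map_smul' := by
        intro c x
        funext i
        simp only [Pi.smul_apply, smul_eq_mul, RingHom.id_apply]
        ring }
  have hpl : ∀ z i, LinearMap.toContinuousLinearMap pl z i =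
      z (j.succAbove i) - e (j.succAbove i) / e j * z j := fun z i => rfl
  refine ⟨LinearMap.toContinuousLinearMap pl, ?_, ?_, ?_⟩
  · intro w
    refine ⟨j.insertNth (0 : ℂ) w, ?_⟩
    funext i
    rw [hpl, Fin.insertNth_apply_same, Fin.insertNth_apply_succAbove, mul_zero, sub_zero]
  · funext i
    rw [hpl, div_mul_cancel₀ _ hj, sub_self, Pi.zero_apply]
  · intro z hz
    refine ⟨z j / e j, ?_⟩
    funext i
    rw [Pi.smul_apply, smul_eq_mul]
    rcases Fin.eq_self_or_eq_succAbove j i with h | ⟨i', h⟩
    · rw [h, div_mul_cancel₀ _ hj]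
    · have h1 := congrFun hz i'
      rw [hpl, Pi.zero_apply, sub_eq_zero] at h1
      rw [h, h1]
      ring

end MP6feb
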