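import Pool.Agent.Lib.MP_6febbd_ag.Defs

set_option autoImplicit false

open scoped Matrix.Norms.Elementwise Real
open Complex Matrix

noncomputable section

namespace MP6feb

/-- Implicit function theorem for a regular zero. Proof: `Ψ z = (G z, pr z)` is `C¹`
with invertible derivative at `p` (kernel: `pr v = 0` gives `v = c e`, and
`G'(p) e ≠ 0`); `y w = Ψ⁻¹(0, w)` (`ContDiffAt.toOpenPartialHomeomorph`,
`ContDiffAt.to_localInverse`), Lipschitz near `pr p` because it is `C¹`. -/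
theorem chart {k : ℕ} {G : (Fin (k + 1) → ℂ) → ℂ} (hG : ContDiff ℂ 1 G)
    {p e : Fin (k + 1) → ℂ} (hp : G p = 0) (he : fderiv ℂ G p e ≠ 0)
    (pr : (Fin (k + 1) → ℂ) →L[ℂ] (Fin k → ℂ)) (hpr : Function.Surjective pr)
    (hker : ∀ z, pr z = 0 → ∃ c : ℂ, z = c • e) :
    ∃ (y : (Fin k → ℂ) → (Fin (k + 1) → ℂ)) (ρ r Lp : ℝ), 0 < ρ ∧ 0 < r ∧ 0 ≤ Lp ∧
      y (pr p) = p ∧ DifferentiableOn ℂ y (Metric.ball (pr p) ρ) ∧
      (∀ w ∈ Metric.ball (pr p) ρ, G (y w) = 0 ∧ pr (y w) = w) ∧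
      (∀ w ∈ Metric.ball (pr p) ρ, ∀ w' ∈ Metric.ball (pr p) ρ,
        ‖y w - y w'‖ ≤ Lp * ‖w - w'‖) ∧
      (∀ z ∈ Metric.ball p r, pr z ∈ Metric.ball (pr p) ρ ∧ (G z = 0 → z = y (pr z))) := by
  set Ψ : (Fin (k + 1) → ℂ) → ℂ × (Fin k → ℂ) := fun z => (G z, pr z) with hΨ
  have hΨc : ContDiff ℂ 1 Ψ := hG.prodMk pr.contDiff
  set A : (Fin (k + 1) → ℂ) →L[ℂ] ℂ × (Fin k → ℂ) := (fderiv ℂ G p).prod pr with hA
  have hΨd : HasFDerivAt Ψ A p :=
    ((hG.differentiable one_ne_zero) p).hasFDerivAt.prodMk pr.hasFDerivAt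
  have hinj : Function.Injective A.toLinearMap := by
    rw [injective_iff_map_eq_zero]
    intro v hv
    have h1 : fderiv ℂ G p v = 0 := congrArg Prod.fst hv
    have h2 : pr v = 0 := congrArg Prod.snd hv
    obtain ⟨c, rfl⟩ := hker v h2
    rw [map_smul, smul_eq_mul] at h1
    rcases mul_eq_zero.mp h1 with h | h
    · rw [h, zero_smul]
    · exact absurd h he
  have hdim : Module.finrank ℂ (Fin (k + 1) → ℂ) = Module.finrank ℂ (ℂ × (Fin k → ℂ)) := by
    rw [Module.finrank_prod]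
    simp [add_comm]
  set A' : (Fin (k + 1) → ℂ) ≃L[ℂ] ℂ × (Fin k → ℂ) :=
    (LinearMap.linearEquivOfInjective A.toLinearMap hinj hdim).toContinuousLinearEquiv with hA'
  have hAA : (A' : (Fin (k + 1) → ℂ) →L[ℂ] ℂ × (Fin k → ℂ)) = A := by
    ext1 v
    rfl
  have hd : HasFDerivAt Ψ (A' : (Fin (k + 1) → ℂ) →L[ℂ] ℂ × (Fin k → ℂ)) p := by
    rw [hAA]
    exact hΨd
  have hca : ContDiffAt ℂ 1 Ψ p := hΨc.contDiffAt
  set Φ := hca.toOpenPartialHomeomorph Ψ hd one_ne_zero with hΦ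
  have hΦc : ∀ z, Φ z = (G z, pr z) := fun z => rfl
  have hsrc : p ∈ Φ.source := hca.mem_toOpenPartialHomeomorph_source hd one_ne_zero
  have htgt : Ψ p ∈ Φ.target := hca.image_mem_toOpenPartialHomeomorph_target hd one_ne_zero
  have hΨp : Ψ p = (0, pr p) := by
    rw [hΨ]
    simp only [hp]
  have hinv : ContDiffAt ℂ 1 Φ.symm (Ψ p) := hca.to_localInverse hd one_ne_zero
  set y : (Fin k → ℂ) → (Fin (k + 1) → ℂ) := fun w => Φ.symm (0, w) with hy
  have hi : ContDiff ℂ 1 (fun w : Fin k → ℂ => ((0 : ℂ), w)) := contDiff_const.prodMk contDiff_id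
  have hyc : ContDiffAt ℂ 1 y (pr p) := by
    rw [hΨp] at hinv
    exact ContDiffAt.comp (pr p) hinv hi.contDiffAt
  obtain ⟨K, t, ht, hK⟩ := hyc.exists_lipschitzOnWith
  have hdiff : ∀ᶠ w in nhds (pr p), DifferentiableAt ℂ y w := by
    have h1 := hyc.eventually (by simp)
    exact h1.mono (fun w hw => hw.differentiableAt one_ne_zero)
  have htg : ∀ᶠ w in nhds (pr p), ((0 : ℂ), w) ∈ Φ.target := by
    have h1 : Filter.Tendsto (fun w : Fin k → ℂ => ((0 : ℂ), w)) (nhds (pr p))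
        (nhds (0, pr p)) := hi.continuous.continuousAt
    apply h1
    apply Φ.open_target.mem_nhds
    rw [← hΨp]
    exact htgt
  obtain ⟨ρ, hρ, hball⟩ := Metric.eventually_nhds_iff_ball.mp
    (((Filter.eventually_of_mem ht (fun w hw => hw)).and hdiff).and htg)
  have hsrcn : ∀ᶠ z in nhds p, z ∈ Φ.source ∧ pr z ∈ Metric.ball (pr p) ρ := by
    refine (Φ.open_source.mem_nhds hsrc |> fun h => Filter.eventually_of_mem h
      (fun z hz => hz)).and ?_
    exact pr.continuous.continuousAt.eventually (Metric.ball_mem_nhds _ hρ)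
  obtain ⟨r, hr, hball2⟩ := Metric.eventually_nhds_iff_ball.mp hsrcn
  refine ⟨y, ρ, r, K, hρ, hr, K.2, ?_, ?_, ?_, ?_, ?_⟩
  · rw [hy]
    simp only
    rw [← hΨp]
    exact Φ.left_inv hsrc
  · intro w hw
    exact (hball w hw).1.2.differentiableWithinAt
  · intro w hw
    have h1 := Φ.right_inv (hball w hw).2
    rw [hΦc] at h1
    exact ⟨congrArg Prod.fst h1, congrArg Prod.snd h1⟩
  · intro w hw w' hw'
    have h1 := hK.dist_le_mul w (hball w hw).1.1 w' (hball w' hw').1.1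
    rwa [dist_eq_norm, dist_eq_norm] at h1
  · intro z hz
    obtain ⟨h1, h2⟩ := hball2 z hz
    refine ⟨h2, fun hGz => ?_⟩
    have h3 := Φ.left_inv h1
    rw [hΦc, hGz] at h3
    exact h3.symm

end MP6feb
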