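import Pool.Agent.Lib.MP_6febbd_ag.Defs

set_option autoImplicit false

open scoped Matrix.Norms.Elementwise Real
open Complex Matrix

noncomputable section

namespace MP6feb

private theorem chr_prod {g n : ℕ} (c : Fin g ⊕ Fin g → ℤ) (x : Fin g ⊕ Fin g → ZMod n) :
    chr n c x = ∏ j, cexp (2 * π * I * ((c j : ℂ) / n)) ^ (x j).val := by
  unfold chr
  rw [Finset.sum_div, Finset.mul_sum, Complex.exp_sum]
  apply Finset.prod_congr rfl
  intro j _
  rw [← Complex.exp_nat_mul]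
  congr 1
  ring

private theorem sum_val_eq_zero {n : ℕ} [NeZero n] (ζ : ℂ) (h1 : ζ ^ n = 1) (h2 : ζ ≠ 1) :
    ∑ t : ZMod n, ζ ^ t.val = 0 := by
  have hmod : ∀ m : ℕ, ζ ^ (m % n) = ζ ^ m := by
    intro m
    conv_rhs => rw [← Nat.div_add_mod m n, pow_add, pow_mul, h1, one_pow, one_mul]
  have h3 : ∑ t : ZMod n, ζ ^ (t + 1).val = ∑ t : ZMod n, ζ ^ t.val :=
    Fintype.sum_equiv (Equiv.addRight (1 : ZMod n)) _ _ (fun _ => rfl)
  have h4 : ∀ t : ZMod n, ζ ^ (t + 1).val = ζ ^ t.val * ζ := by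
    intro t
    rw [ZMod.val_add, ZMod.val_one_eq_one_mod, hmod, pow_add, hmod, pow_one]
  simp only [h4] at h3
  rw [← Finset.sum_mul] at h3
  have h5 : (∑ t : ZMod n, ζ ^ t.val) * (ζ - 1) = 0 := by
    rw [mul_sub, mul_one, h3, sub_self]
  rcases mul_eq_zero.mp h5 with h | h
  · exact h
  · exact absurd (sub_eq_zero.mp h) h2

/-- Orthogonality of characters: translate by the basis vector `i` with `n ∤ c_i`. -/
theorem sum_chr_eq_zero {g n : ℕ} [NeZero n] (c : Fin g ⊕ Fin g → ℤ)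
    (hc : ∃ i, ¬ ((n : ℤ) ∣ c i)) : ∑ x : Fin g ⊕ Fin g → ZMod n, chr n c x = 0 := by
  obtain ⟨i, hi⟩ := hc
  have hn : (n : ℂ) ≠ 0 := by exact_mod_cast NeZero.ne n
  simp only [chr_prod]
  have h1 := Finset.prod_univ_sum (fun _ : Fin g ⊕ Fin g => (Finset.univ : Finset (ZMod n)))
    (fun j t => cexp (2 * π * I * ((c j : ℂ) / n)) ^ t.val)
  rw [Fintype.piFinset_univ] at h1
  rw [← h1]
  apply Finset.prod_eq_zero (Finset.mem_univ i)
  apply sum_val_eq_zero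
  · rw [← Complex.exp_nat_mul, Complex.exp_eq_one_iff]
    refine ⟨c i, ?_⟩
    field_simp
  · intro h
    rw [Complex.exp_eq_one_iff] at h
    obtain ⟨m, hm⟩ := h
    apply hi
    refine ⟨m, ?_⟩
    have hpi : (2 * (π : ℂ) * I) ≠ 0 := Complex.two_pi_I_ne_zero
    have h2 : (c i : ℂ) / n = m := by
      have h3 : (2 * (π : ℂ) * I) * ((c i : ℂ) / n) = (2 * (π : ℂ) * I) * m := by
        rw [hm]
        ring
      exact mul_left_cancel₀ hpi h3
    rw [div_eq_iff hn] at h2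
    have h4 : (c i : ℂ) = ((n : ℤ) * m : ℤ) := by
      rw [h2]
      push_cast
      ring
    exact_mod_cast h4

theorem norm_chr {g n : ℕ} (c : Fin g ⊕ Fin g → ℤ) (x : Fin g ⊕ Fin g → ZMod n) :
    ‖chr n c x‖ = 1 := by
  unfold chr
  have h1 : 2 * (π : ℂ) * I * ((∑ j, (c j : ℂ) * ((x j).val : ℂ)) / n) =
      ((2 * π * ((∑ j, (c j : ℝ) * ((x j).val : ℝ)) / n) : ℝ) : ℂ) * I := by
    push_cast
    ring
  rw [h1, Complex.norm_exp_ofReal_mul_I]

/-- Few zeros imply goodness. For `c` not divisible by `n`: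
`|∑_{NV} chr| = |∑_{zeros} chr| ≤ #zeros ≤ n^(2k)`, and
`#NV = n^(2k+2) - #zeros ≥ n^(2k) (n²-1)`. -/
theorem good_of_card {k n : ℕ} [NeZero n] (hn : 2 ≤ n)
    (τ : Matrix (Fin (k + 1)) (Fin (k + 1)) ℂ)
    (h : {x : Fin (k + 1) ⊕ Fin (k + 1) → ZMod n | thx n x τ = 0}.ncard ≤ n ^ (2 * k)) :
    GoodSet n (NV n τ) := by
  classical
  let Z : Finset (Fin (k + 1) ⊕ Fin (k + 1) → ZMod n) :=
    Finset.univ.filter (fun x => thx n x τ = 0)
  have hZ : Z.card ≤ n ^ (2 * k) := by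
    rw [← Set.ncard_coe_finset]
    refine le_trans (le_of_eq ?_) h
    congr 1
    ext x
    simp [Z]
  have hNV : NV n τ = Zᶜ := by
    ext x
    simp [NV, Z]
  have hcard : (NV n τ).card = n ^ (2 * k + 2) - Z.card := by
    rw [hNV, Finset.card_compl, Fintype.card_fun, ZMod.card, Fintype.card_sum, Fintype.card_fin]
    congr 2
    ring
  have hnR : (2 : ℝ) ≤ n := by exact_mod_cast hn
  have hpow : (1 : ℝ) ≤ (n : ℝ) ^ (2 * k) := one_le_pow₀ (by linarith)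
  have hZR : (Z.card : ℝ) ≤ (n : ℝ) ^ (2 * k) := by exact_mod_cast hZ
  have hle : Z.card ≤ n ^ (2 * k + 2) :=
    hZ.trans (Nat.pow_le_pow_right (by omega) (by omega))
  have hcR : ((NV n τ).card : ℝ) = (n : ℝ) ^ (2 * k + 2) - Z.card := by
    rw [hcard, Nat.cast_sub hle]
    push_cast
    ring
  have hsq : (4 : ℝ) ≤ (n : ℝ) ^ 2 := by nlinarith
  have hlow : (n : ℝ) ^ (2 * k) * ((n : ℝ) ^ 2 - 1) ≤ ((NV n τ).card : ℝ) := by
    rw [hcR, pow_add]
    linarith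
  refine ⟨?_, ?_⟩
  · rw [← Finset.card_pos]
    have h3 : (0 : ℝ) < ((NV n τ).card : ℝ) := by
      refine lt_of_lt_of_le ?_ hlow
      apply mul_pos (by linarith) (by linarith)
    exact_mod_cast h3
  · intro c hc
    have h3 := sum_chr_eq_zero c hc
    have h4 : ∑ x ∈ NV n τ, chr n c x = -∑ x ∈ Z, chr n c x := by
      rw [hNV, eq_neg_iff_add_eq_zero, Finset.sum_compl_add_sum, h3]
    have h5 : ‖∑ x ∈ NV n τ, chr n c x‖ ≤ Z.card := by
      rw [h4, norm_neg]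
      refine (norm_sum_le _ _).trans (le_of_eq ?_)
      simp only [norm_chr, Finset.sum_const, nsmul_eq_mul, mul_one]
    calc ‖∑ x ∈ NV n τ, chr n c x‖ * ((n : ℝ) ^ 2 - 1)
        ≤ (n : ℝ) ^ (2 * k) * ((n : ℝ) ^ 2 - 1) :=
          mul_le_mul_of_nonneg_right (h5.trans hZR) (by linarith)
      _ ≤ _ := hlow

end MP6feb
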