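import Pool.Agent.Lib.MP_6febbd_ag.Defs

set_option autoImplicit false

open scoped Matrix.Norms.Elementwise Real
open Complex Matrix

noncomputable section

namespace MP6feb

private theorem gs_geom {c : ℝ} (hc : 0 < c) :
    Summable (fun m : ℤ => Real.exp (c * (5 / 4)) * Real.exp (-(c * |(m : ℝ)|))) := by
  refine Summable.mul_left _ ?_
  have h1 : Summable (fun n : ℕ => Real.exp ((n : ℝ) * (-c))) :=
    Real.summable_exp_nat_mul_iff.mpr (by linarith)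
  refine Summable.of_nat_of_neg ?_ ?_
  · refine h1.congr fun n => ?_
    congr 1
    rw [Int.cast_natCast, Nat.abs_cast]
    ring
  · refine h1.congr fun n => ?_
    congr 1
    rw [Int.cast_neg, abs_neg, Int.cast_natCast, Nat.abs_cast]
    ring

private theorem gs_one {c : ℝ} (hc : 0 < c) :
    ∃ C : ℝ, 0 ≤ C ∧ ∀ (α : ℝ) (u : Finset ℤ),
      ∑ m ∈ u, Real.exp (-(c * ((m : ℝ) + α) ^ 2)) ≤ C := by
  refine ⟨∑' m : ℤ, Real.exp (c * (5 / 4)) * Real.exp (-(c * |(m : ℝ)|)),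
    tsum_nonneg fun m => by positivity, fun α u => ?_⟩
  have h1 : ∑ m ∈ u, Real.exp (-(c * ((m : ℝ) + α) ^ 2)) =
      ∑ m ∈ u.map (Equiv.addRight ⌊α⌋).toEmbedding,
        Real.exp (-(c * ((m : ℝ) + Int.fract α) ^ 2)) := by
    rw [Finset.sum_map]
    refine Finset.sum_congr rfl fun m _ => ?_
    have h2 : (((Equiv.addRight ⌊α⌋).toEmbedding m : ℤ) : ℝ) + Int.fract α = (m : ℝ) + α := by
      have h3 : ((Equiv.addRight ⌊α⌋).toEmbedding m : ℤ) = m + ⌊α⌋ := rfl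
      rw [h3, Int.cast_add, add_assoc, Int.floor_add_fract]
    rw [h2]
  rw [h1]
  refine (Finset.sum_le_sum fun m _ => ?_).trans
    ((gs_geom hc).sum_le_tsum _ fun m _ => by positivity)
  rw [← Real.exp_add]
  refine Real.exp_le_exp.mpr ?_
  have h2 : |(m : ℝ)| - 1 ≤ |(m : ℝ) + Int.fract α| := by
    have h3 := abs_sub_abs_le_abs_sub (m : ℝ) (-Int.fract α)
    rw [sub_neg_eq_add, abs_neg, abs_of_nonneg (Int.fract_nonneg α)] at h3
    have h4 := (Int.fract_lt_one α).le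
    linarith
  have h5 : ((m : ℝ) + Int.fract α) ^ 2 = |(m : ℝ) + Int.fract α| ^ 2 := (sq_abs _).symm
  rw [h5]
  nlinarith [sq_nonneg (|(m : ℝ) + Int.fract α| - 1 / 2)]

private theorem gs_all {ι : Type} [Fintype ι] {c : ℝ} (hc : 0 < c) :
    ∃ C : ℝ, ∀ (a : ι → ℝ) (u : Finset (ι → ℤ)),
      ∑ m ∈ u, Real.exp (-(c * ∑ i, ((m i : ℝ) + a i) ^ 2)) ≤ C := by
  classical
  obtain ⟨C, hC, h⟩ := gs_one hc
  refine ⟨∏ _i : ι, C, fun a u => ?_⟩
  have h1 : ∀ m : ι → ℤ, Real.exp (-(c * ∑ i, ((m i : ℝ) + a i) ^ 2)) =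
      ∏ i, Real.exp (-(c * ((m i : ℝ) + a i) ^ 2)) := by
    intro m
    rw [← Real.exp_sum, Finset.mul_sum, Finset.sum_neg_distrib]
  simp only [h1]
  have h2 : u ⊆ Fintype.piFinset fun i => u.image fun m => m i := by
    intro m hm
    rw [Fintype.mem_piFinset]
    exact fun i => Finset.mem_image.mpr ⟨m, hm, rfl⟩
  refine (Finset.sum_le_sum_of_subset_of_nonneg h2 fun m _ _ =>
    Finset.prod_nonneg fun i _ => (Real.exp_pos _).le).trans ?_
  have h3 := Finset.prod_univ_sum (fun i => u.image fun m => m i)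
    (fun i (j : ℤ) => Real.exp (-(c * ((j : ℝ) + a i) ^ 2)))
  rw [← h3]
  exact Finset.prod_le_prod (fun i _ => Finset.sum_nonneg fun j _ => (Real.exp_pos _).le)
    fun i _ => h (a i) _

/-- `∑_m exp(-c |m + a|²)` converges, and its value is bounded uniformly in `a`.
Proof. `exp(-c ∑ (m_i+a_i)²)` is a product over `i` of one variable terms: `Summable` of a
product over a finite type (e.g. by induction, or `summable_prod`-type lemmas, or bound
`∑ (m_i+a_i)² ≥ ∑ (|m_i| /2 - ...)`). One variable: `a` may be moved to `[0,1)` by an integer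
translation of `m`, then `(m+a)² ≥ |m| - 1` for all integers `m` (as `(m+a)² ≥ (|m|-1)²`
and `t² ≥ t - 1/4`), so the terms are at most `e^{c·5/4} e^{-c|m|}`; geometric series. -/
theorem summable_gauss {ι : Type} [Fintype ι] {c : ℝ} (hc : 0 < c) (a : ι → ℝ) :
    Summable (fun m : ι → ℤ => Real.exp (-(c * ∑ i, ((m i : ℝ) + a i) ^ 2))) := by
  obtain ⟨C, h⟩ := gs_all (ι := ι) hc
  exact summable_of_sum_le (fun m => (Real.exp_pos _).le) (h a)

/-- See `summable_gauss`. -/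
theorem tsum_gauss_le {ι : Type} [Fintype ι] {c : ℝ} (hc : 0 < c) :
    ∃ C : ℝ, ∀ a : ι → ℝ,
      ∑' m : ι → ℤ, Real.exp (-(c * ∑ i, ((m i : ℝ) + a i) ^ 2)) ≤ C := by
  obtain ⟨C, h⟩ := gs_all (ι := ι) hc
  exact ⟨C, fun a => (summable_gauss hc a).tsum_le_of_sum_le (h a)⟩

private theorem gs_abs_le (m : ℤ) : |(m : ℝ)| ≤ (m : ℝ) ^ 2 := by
  have h1 : |m| ≤ m ^ 2 := by
    rw [← sq_abs]
    have h2 : 0 ≤ |m| := abs_nonneg m
    have h3 : |m| = 0 ∨ 1 ≤ |m| := by omega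
    rcases h3 with h3 | h3
    · rw [h3]; norm_num
    · nlinarith
  exact_mod_cast h1

/-- Polynomial factors are absorbed. Proof: `1 + ∑ |m_i| ≤ 1 + ∑ m_i²` for integers and
`(1 + s)^p exp(-c s / 2)` is bounded for `s ≥ 0`. -/
theorem poly_gauss_le {ι : Type} [Fintype ι] {c : ℝ} (hc : 0 < c) (p : ℕ) :
    ∃ C : ℝ, 0 ≤ C ∧ ∀ m : ι → ℤ,
      (1 + ∑ i, |(m i : ℝ)|) ^ p * Real.exp (-(c * ∑ i, (m i : ℝ) ^ 2)) ≤
        C * Real.exp (-(c / 2 * ∑ i, (m i : ℝ) ^ 2)) := by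
  refine ⟨(p.factorial : ℝ) * (2 / c) ^ p * Real.exp (c / 2), by positivity, fun m => ?_⟩
  set S : ℝ := ∑ i, (m i : ℝ) ^ 2 with hS
  have hS0 : 0 ≤ S := Finset.sum_nonneg fun i _ => sq_nonneg _
  have h1 : ∑ i, |(m i : ℝ)| ≤ S := Finset.sum_le_sum fun i _ => gs_abs_le (m i)
  have h0 : 0 ≤ ∑ i, |(m i : ℝ)| := Finset.sum_nonneg fun i _ => abs_nonneg _
  have h2 : (1 + ∑ i, |(m i : ℝ)|) ^ p ≤ (1 + S) ^ p :=
    pow_le_pow_left₀ (by linarith) (by linarith) p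
  have h3 : (c / 2 * (1 + S)) ^ p / (p.factorial : ℝ) ≤ Real.exp (c / 2 * (1 + S)) :=
    Real.pow_div_factorial_le_exp _ (by positivity) p
  have hp : (0 : ℝ) < p.factorial := by exact_mod_cast p.factorial_pos
  rw [div_le_iff₀ hp, mul_pow] at h3
  have h4 : (1 + S) ^ p ≤ (p.factorial : ℝ) * (2 / c) ^ p * Real.exp (c / 2 * (1 + S)) := by
    have h5 : (2 / c) ^ p * ((c / 2) ^ p * (1 + S) ^ p) = (1 + S) ^ p := by
      rw [← mul_assoc, ← mul_pow]
      have h6 : 2 / c * (c / 2) = 1 := by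
        field_simp
      rw [h6, one_pow, one_mul]
    rw [← h5]
    have h7 := mul_le_mul_of_nonneg_left h3 (show 0 ≤ (2 / c) ^ p by positivity)
    linarith
  calc (1 + ∑ i, |(m i : ℝ)|) ^ p * Real.exp (-(c * S))
      ≤ ((p.factorial : ℝ) * (2 / c) ^ p * Real.exp (c / 2 * (1 + S))) * Real.exp (-(c * S)) :=
        mul_le_mul_of_nonneg_right (h2.trans h4) (Real.exp_pos _).le
    _ = (p.factorial : ℝ) * (2 / c) ^ p * Real.exp (c / 2) * Real.exp (-(c / 2 * S)) := by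
        rw [mul_assoc, ← Real.exp_add, mul_assoc _ (Real.exp (c / 2)), ← Real.exp_add]
        congr 2
        ring

/-- Linear exponential factors are absorbed: `R ∑ |m_i| ≤ (c/2) ∑ m_i² + |ι| R²/(2c)`. -/
theorem lin_gauss_le {ι : Type} [Fintype ι] {c : ℝ} (hc : 0 < c) {R : ℝ} (hR : 0 ≤ R)
    (m : ι → ℤ) :
    Real.exp (R * ∑ i, |(m i : ℝ)|) * Real.exp (-(c * ∑ i, (m i : ℝ) ^ 2)) ≤
      Real.exp (Fintype.card ι * R ^ 2 / (2 * c)) *
        Real.exp (-(c / 2 * ∑ i, (m i : ℝ) ^ 2)) := by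
  rw [← Real.exp_add, ← Real.exp_add]
  refine Real.exp_le_exp.mpr ?_
  have h1 : ∀ i, R * |(m i : ℝ)| ≤ R ^ 2 / (2 * c) + c / 2 * (m i : ℝ) ^ 2 := by
    intro i
    have h2 : 0 ≤ (c / 2) * (|(m i : ℝ)| - R / c) ^ 2 := by positivity
    have h3 : (c / 2) * (|(m i : ℝ)| - R / c) ^ 2 =
        c / 2 * (m i : ℝ) ^ 2 - R * |(m i : ℝ)| + R ^ 2 / (2 * c) := by
      rw [sub_sq, sq_abs]
      field_simp
    rw [h3] at h2
    linarith
  have h4 : R * ∑ i, |(m i : ℝ)| ≤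
      Fintype.card ι * R ^ 2 / (2 * c) + c / 2 * ∑ i, (m i : ℝ) ^ 2 := by
    rw [Finset.mul_sum, Finset.mul_sum]
    refine (Finset.sum_le_sum fun i _ => h1 i).trans (le_of_eq ?_)
    rw [Finset.sum_add_distrib, Finset.sum_const, Finset.card_univ, nsmul_eq_mul]
    ring
  linarith

end MP6feb
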