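import Pool.Agent.Lib.MP_6febbd_ag.Defs
import Pool.Agent.Lib.MP_6febbd_ag.GS

set_option autoImplicit false

open scoped Matrix.Norms.Elementwise Real
open Complex Matrix

noncomputable section

namespace MP6feb

private theorem esa_lin {ι : Type} [Fintype ι] (m : ι → ℤ) (v : ι → ℂ) :
    ‖∑ i, (m i : ℂ) * v i‖ ≤ ‖v‖ * ∑ i, |(m i : ℝ)| := by
  refine (norm_sum_le _ _).trans ?_
  rw [Finset.mul_sum]
  refine Finset.sum_le_sum fun i _ => ?_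
  rw [norm_mul, Complex.norm_intCast, mul_comm]
  exact mul_le_mul_of_nonneg_right (norm_le_pi_norm v i) (abs_nonneg _)

private theorem esa_exp {ι : Type} [Fintype ι] (m : ι → ℤ) (z : ι → ℂ) :
    ‖cexp (2 * π * I * ∑ i, (m i : ℂ) * z i)‖ ≤
      Real.exp (2 * π * ‖z‖ * ∑ i, |(m i : ℝ)|) := by
  rw [Complex.norm_exp]
  refine Real.exp_le_exp.mpr ((Complex.re_le_norm _).trans ?_)
  have h1 : ‖(2 * π * I : ℂ)‖ = 2 * π := by
    rw [norm_mul, norm_mul, Complex.norm_I, mul_one, Complex.norm_real, Real.norm_eq_abs,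
      abs_of_pos Real.pi_pos]
    norm_num
  rw [norm_mul, h1]
  have h2 := mul_le_mul_of_nonneg_left (esa_lin m z) (show (0 : ℝ) ≤ 2 * π by positivity)
  rw [← mul_assoc] at h2
  exact h2

private theorem esa_c {ι : Type} [Fintype ι] {a : (ι → ℤ) → ℂ} (ha : GDec a) :
    ∃ C c : ℝ, 0 ≤ C ∧ 0 < c ∧ ∀ m, ‖a m‖ ≤ C * Real.exp (-(c * ∑ i, (m i : ℝ) ^ 2)) := by
  obtain ⟨C, c, hc, h⟩ := ha
  refine ⟨|C|, c, abs_nonneg C, hc, fun m => (h m).trans ?_⟩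
  exact mul_le_mul_of_nonneg_right (le_abs_self C) (Real.exp_pos _).le

/-- Differentiation preserves Gaussian decay (`poly_gauss_le` with `p = 1`). -/
theorem gdec_dS {ι : Type} [Fintype ι] {a : (ι → ℤ) → ℂ} (ha : GDec a) (v : ι → ℂ) :
    GDec (dS v a) := by
  obtain ⟨C, c, hC, hc, h⟩ := esa_c ha
  obtain ⟨K, hK, hp⟩ := poly_gauss_le (ι := ι) hc 1
  refine ⟨2 * π * ‖v‖ * (C * K), c / 2, by linarith, fun m => ?_⟩
  have h1 : ‖(2 * π * I : ℂ)‖ = 2 * π := by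
    rw [norm_mul, norm_mul, Complex.norm_I, mul_one, Complex.norm_real, Real.norm_eq_abs,
      abs_of_pos Real.pi_pos]
    norm_num
  have h2 := hp m
  rw [pow_one] at h2
  have h3 := esa_lin m v
  have h4 : 0 ≤ ∑ i, |(m i : ℝ)| := Finset.sum_nonneg fun i _ => abs_nonneg _
  calc ‖dS v a m‖ = 2 * π * ‖∑ i, (m i : ℂ) * v i‖ * ‖a m‖ := by
        rw [dS, norm_mul, norm_mul, h1]
    _ ≤ 2 * π * (‖v‖ * (1 + ∑ i, |(m i : ℝ)|)) *
        (C * Real.exp (-(c * ∑ i, (m i : ℝ) ^ 2))) := by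
        refine mul_le_mul ?_ (h m) (norm_nonneg _) (by positivity)
        refine mul_le_mul_of_nonneg_left (h3.trans ?_) (by positivity)
        refine mul_le_mul_of_nonneg_left ?_ (norm_nonneg _)
        linarith
    _ = 2 * π * ‖v‖ * C * ((1 + ∑ i, |(m i : ℝ)|) *
        Real.exp (-(c * ∑ i, (m i : ℝ) ^ 2))) := by ring
    _ ≤ 2 * π * ‖v‖ * C * (K * Real.exp (-(c / 2 * ∑ i, (m i : ℝ) ^ 2))) :=
        mul_le_mul_of_nonneg_left h2 (by positivity)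
    _ = 2 * π * ‖v‖ * (C * K) * Real.exp (-(c / 2 * ∑ i, (m i : ℝ) ^ 2)) := by ring

theorem gdec_iter {ι : Type} [Fintype ι] {a : (ι → ℤ) → ℂ} (ha : GDec a) (v : ι → ℂ)
    (i : ℕ) : GDec ((dS v)^[i] a) := by
  induction i with
  | zero => exact ha
  | succ n ih =>
    rw [Function.iterate_succ_apply']
    exact gdec_dS ih v

private theorem esa_term {ι : Type} [Fintype ι] {a : (ι → ℤ) → ℂ} {C c : ℝ} (hC : 0 ≤ C)
    (hc : 0 < c) (h : ∀ m, ‖a m‖ ≤ C * Real.exp (-(c * ∑ i, (m i : ℝ) ^ 2))) (z : ι → ℂ)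
    (m : ι → ℤ) : ‖a m * cexp (2 * π * I * ∑ i, (m i : ℂ) * z i)‖ ≤
      C * Real.exp (Fintype.card ι * (2 * π * ‖z‖) ^ 2 / (2 * c)) *
        Real.exp (-(c / 2 * ∑ i, (m i : ℝ) ^ 2)) := by
  have h1 := lin_gauss_le hc (R := 2 * π * ‖z‖) (by positivity) m
  rw [norm_mul]
  calc ‖a m‖ * ‖cexp (2 * π * I * ∑ i, (m i : ℂ) * z i)‖
      ≤ (C * Real.exp (-(c * ∑ i, (m i : ℝ) ^ 2))) *
        Real.exp (2 * π * ‖z‖ * ∑ i, |(m i : ℝ)|) :=
        mul_le_mul (h m) (esa_exp m z) (norm_nonneg _) (by positivity)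
    _ = C * (Real.exp (2 * π * ‖z‖ * ∑ i, |(m i : ℝ)|) *
        Real.exp (-(c * ∑ i, (m i : ℝ) ^ 2))) := by ring
    _ ≤ C * (Real.exp (Fintype.card ι * (2 * π * ‖z‖) ^ 2 / (2 * c)) *
        Real.exp (-(c / 2 * ∑ i, (m i : ℝ) ^ 2))) := mul_le_mul_of_nonneg_left h1 hC
    _ = _ := by ring

private theorem esa_summable_gauss {ι : Type} [Fintype ι] {c : ℝ} (hc : 0 < c) :
    Summable (fun m : ι → ℤ => Real.exp (-(c * ∑ i, (m i : ℝ) ^ 2))) := by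
  have h1 := summable_gauss hc (0 : ι → ℝ)
  simpa using h1

/-- Absolute convergence: `|a_m exp(2 π i m·z)| ≤ C exp(-c |m|²) exp(2 π ‖z‖ ∑|m_i|)`
and `lin_gauss_le`. -/
theorem ES_summable {ι : Type} [Fintype ι] {a : (ι → ℤ) → ℂ} (ha : GDec a) (z : ι → ℂ) :
    Summable (fun m : ι → ℤ => a m * cexp (2 * π * I * ∑ i, (m i : ℂ) * z i)) := by
  obtain ⟨C, c, hC, hc, h⟩ := esa_c ha
  exact Summable.of_norm_bounded ((esa_summable_gauss (by linarith : 0 < c / 2)).mul_left _)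
    (esa_term hC hc h z)

/-- Growth of order two: `|F z| ≤ C ∑ exp(-c|m|²+2π‖z‖ ∑|m_i|) ≤ exp(C'(1+‖z‖²))`. -/
theorem ES_growth {ι : Type} [Fintype ι] {a : (ι → ℤ) → ℂ} (ha : GDec a) :
    ∃ C : ℝ, ∀ z, ‖ES a z‖ ≤ Real.exp (C * (1 + ‖z‖ ^ 2)) := by
  obtain ⟨C, c, hC, hc, h⟩ := esa_c ha
  have hs := esa_summable_gauss (ι := ι) (by linarith : 0 < c / 2)
  set K : ℝ := ∑' m : ι → ℤ, Real.exp (-(c / 2 * ∑ i, (m i : ℝ) ^ 2)) with hK
  have hK0 : 0 ≤ K := tsum_nonneg fun m => (Real.exp_pos _).le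
  set A : ℝ := Fintype.card ι * (2 * π) ^ 2 / (2 * c) with hA
  have hA0 : 0 ≤ A := by positivity
  refine ⟨C * K + A, fun z => ?_⟩
  have h1 : ‖ES a z‖ ≤ C * Real.exp (Fintype.card ι * (2 * π * ‖z‖) ^ 2 / (2 * c)) * K := by
    refine tsum_of_norm_bounded ?_ (esa_term hC hc h z)
    exact hs.hasSum.mul_left _
  have h2 : (Fintype.card ι * (2 * π * ‖z‖) ^ 2 / (2 * c) : ℝ) = A * ‖z‖ ^ 2 := by
    rw [hA]
    ring
  rw [h2] at h1
  have h3 : C * K ≤ Real.exp (C * K) := by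
    have := Real.add_one_le_exp (C * K)
    linarith
  calc ‖ES a z‖ ≤ C * Real.exp (A * ‖z‖ ^ 2) * K := h1
    _ = C * K * Real.exp (A * ‖z‖ ^ 2) := by ring
    _ ≤ Real.exp (C * K) * Real.exp (A * ‖z‖ ^ 2) :=
        mul_le_mul_of_nonneg_right h3 (Real.exp_pos _).le
    _ ≤ Real.exp ((C * K + A) * (1 + ‖z‖ ^ 2)) := by
        rw [← Real.exp_add]
        refine Real.exp_le_exp.mpr ?_
        have h4 : 0 ≤ C * K * ‖z‖ ^ 2 := by positivity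
        nlinarith

end MP6feb
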