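import Pool.Agent.Lib.MP_6febbd_ag.Defs
import Pool.Agent.Lib.MP_6febbd_ag.ESa

set_option autoImplicit false

open scoped Matrix.Norms.Elementwise Real
open Complex Matrix

noncomputable section

namespace MP6feb

/-- The linear form `v ↦ 2 π i m · v`. -/
private def esl {ι : Type} [Fintype ι] (m : ι → ℤ) : (ι → ℂ) →L[ℂ] ℂ :=
  (2 * π * I : ℂ) • ∑ i, (m i : ℂ) • (ContinuousLinearMap.proj i : (ι → ℂ) →L[ℂ] ℂ)

private theorem esl_apply {ι : Type} [Fintype ι] (m : ι → ℤ) (v : ι → ℂ) :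
    esl m v = 2 * π * I * ∑ i, (m i : ℂ) * v i := by
  rw [esl, ContinuousLinearMap.smul_apply, ContinuousLinearMap.sum_apply]
  rfl

private theorem esd_2pi : ‖(2 * π * I : ℂ)‖ = 2 * π := by
  rw [norm_mul, norm_mul, Complex.norm_I, mul_one, Complex.norm_real, Real.norm_eq_abs,
    abs_of_pos Real.pi_pos]
  norm_num

private theorem esl_norm {ι : Type} [Fintype ι] (m : ι → ℤ) :
    ‖esl m‖ ≤ 2 * π * ∑ i, |(m i : ℝ)| := by
  have h0 : 0 ≤ ∑ i, |(m i : ℝ)| := Finset.sum_nonneg fun i _ => abs_nonneg _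
  refine ContinuousLinearMap.opNorm_le_bound _ (by positivity) fun v => ?_
  rw [esl_apply, norm_mul, esd_2pi, mul_assoc (2 * π)]
  refine mul_le_mul_of_nonneg_left ?_ (by positivity)
  refine (norm_sum_le _ _).trans ?_
  rw [Finset.sum_mul]
  refine Finset.sum_le_sum fun i _ => ?_
  rw [norm_mul, Complex.norm_intCast]
  exact mul_le_mul_of_nonneg_left (norm_le_pi_norm v i) (abs_nonneg _)

private theorem esd_exp {ι : Type} [Fintype ι] (m : ι → ℤ) (z : ι → ℂ) {R : ℝ}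
    (hR : ‖z‖ ≤ R) : ‖cexp (2 * π * I * ∑ i, (m i : ℂ) * z i)‖ ≤
      Real.exp (2 * π * R * ∑ i, |(m i : ℝ)|) := by
  have h0 : 0 ≤ ∑ i, |(m i : ℝ)| := Finset.sum_nonneg fun i _ => abs_nonneg _
  rw [Complex.norm_exp, ← esl_apply]
  refine Real.exp_le_exp.mpr ((Complex.re_le_norm _).trans ?_)
  refine ((esl m).le_opNorm z).trans ?_
  calc ‖esl m‖ * ‖z‖ ≤ (2 * π * ∑ i, |(m i : ℝ)|) * R :=
        mul_le_mul (esl_norm m) hR (norm_nonneg _) (by positivity)
    _ = 2 * π * R * ∑ i, |(m i : ℝ)| := by ring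

private theorem esd_summable_gauss {ι : Type} [Fintype ι] {c : ℝ} (hc : 0 < c) :
    Summable (fun m : ι → ℤ => Real.exp (-(c * ∑ i, (m i : ℝ) ^ 2))) := by
  have h1 := summable_gauss hc (0 : ι → ℝ)
  simpa using h1

/-- Summable bound for the derivatives on a ball. -/
private theorem esd_bound {ι : Type} [Fintype ι] {a : (ι → ℤ) → ℂ} (ha : GDec a) {R : ℝ}
    (hR : 0 ≤ R) : ∃ u : (ι → ℤ) → ℝ, Summable u ∧ ∀ (m : ι → ℤ) (z : ι → ℂ), ‖z‖ ≤ R →
      ‖(a m * cexp (2 * π * I * ∑ i, (m i : ℂ) * z i)) • esl m‖ ≤ u m := by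
  obtain ⟨C, c, hc, h⟩ := ha
  obtain ⟨K, hK, hp⟩ := poly_gauss_le (ι := ι) (show 0 < c / 2 by linarith) 1
  refine ⟨fun m => 2 * π * |C| * Real.exp (Fintype.card ι * (2 * π * R) ^ 2 / (2 * c)) * K *
      Real.exp (-(c / 2 / 2 * ∑ i, (m i : ℝ) ^ 2)),
    (esd_summable_gauss (show 0 < c / 2 / 2 by linarith)).mul_left _, fun m z hz => ?_⟩
  have h0 : 0 ≤ ∑ i, |(m i : ℝ)| := Finset.sum_nonneg fun i _ => abs_nonneg _
  have h1 := lin_gauss_le hc (R := 2 * π * R) (by positivity) m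
  have h2 := hp m
  rw [pow_one] at h2
  have h3 : ‖a m‖ ≤ |C| * Real.exp (-(c * ∑ i, (m i : ℝ) ^ 2)) :=
    (h m).trans (mul_le_mul_of_nonneg_right (le_abs_self C) (Real.exp_pos _).le)
  set E : ℝ := Real.exp (Fintype.card ι * (2 * π * R) ^ 2 / (2 * c)) with hE
  have hE0 : 0 ≤ E := (Real.exp_pos _).le
  rw [norm_smul, norm_mul]
  calc ‖a m‖ * ‖cexp (2 * π * I * ∑ i, (m i : ℂ) * z i)‖ * ‖esl m‖
      ≤ (|C| * Real.exp (-(c * ∑ i, (m i : ℝ) ^ 2))) *
        Real.exp (2 * π * R * ∑ i, |(m i : ℝ)|) * (2 * π * (1 + ∑ i, |(m i : ℝ)|)) := by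
        refine mul_le_mul (mul_le_mul h3 (esd_exp m z hz) (norm_nonneg _) (by positivity))
          ((esl_norm m).trans ?_) (norm_nonneg _) (by positivity)
        refine mul_le_mul_of_nonneg_left ?_ (by positivity)
        linarith
    _ = 2 * π * |C| * (Real.exp (2 * π * R * ∑ i, |(m i : ℝ)|) *
        Real.exp (-(c * ∑ i, (m i : ℝ) ^ 2))) * (1 + ∑ i, |(m i : ℝ)|) := by ring
    _ ≤ 2 * π * |C| * (E * Real.exp (-(c / 2 * ∑ i, (m i : ℝ) ^ 2))) *
        (1 + ∑ i, |(m i : ℝ)|) := by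
        refine mul_le_mul_of_nonneg_right ?_ (by linarith)
        exact mul_le_mul_of_nonneg_left h1 (by positivity)
    _ = 2 * π * |C| * E * ((1 + ∑ i, |(m i : ℝ)|) *
        Real.exp (-(c / 2 * ∑ i, (m i : ℝ) ^ 2))) := by ring
    _ ≤ 2 * π * |C| * E * (K * Real.exp (-(c / 2 / 2 * ∑ i, (m i : ℝ) ^ 2))) :=
        mul_le_mul_of_nonneg_left h2 (by positivity)
    _ = _ := by ring

/-- Derivative of an exponential sum: `hasFDerivAt_tsum_of_isPreconnected` on a ball. -/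
theorem ES_hasFDerivAt {ι : Type} [Fintype ι] {a : (ι → ℤ) → ℂ} (ha : GDec a)
    (z : ι → ℂ) : ∃ f' : (ι → ℂ) →L[ℂ] ℂ, HasFDerivAt (ES a) f' z ∧
      ∀ v, f' v = ES (dS v a) z := by
  obtain ⟨u, hu, hb⟩ := esd_bound ha (show (0 : ℝ) ≤ ‖z‖ + 1 by positivity)
  let f' : (ι → ℤ) → (ι → ℂ) → (ι → ℂ) →L[ℂ] ℂ := fun m w =>
    (a m * cexp (2 * π * I * ∑ i, (m i : ℂ) * w i)) • esl m
  have hd : ∀ (m : ι → ℤ) (w : ι → ℂ), HasFDerivAt
      (fun y : ι → ℂ => a m * cexp (2 * π * I * ∑ i, (m i : ℂ) * y i)) (f' m w) w := by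
    intro m w
    have h1 : HasFDerivAt (fun y : ι → ℂ => cexp (esl m y)) (cexp (esl m w) • esl m) w :=
      (esl m).hasFDerivAt.cexp
    have h2 := h1.const_mul (a m)
    have h3 : (fun y : ι → ℂ => a m * cexp (2 * π * I * ∑ i, (m i : ℂ) * y i)) =
        fun y => a m * cexp (esl m y) := by
      refine funext fun y => ?_
      rw [esl_apply]
    have h4 : f' m w = a m • cexp (esl m w) • esl m := by
      change (a m * cexp (2 * π * I * ∑ i, (m i : ℂ) * w i)) • esl m = _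
      rw [← esl_apply, mul_smul]
    rw [h3, h4]
    exact h2
  have hz : z ∈ Metric.ball (0 : ι → ℂ) (‖z‖ + 1) := by
    rw [mem_ball_zero_iff]
    linarith
  have hle : ∀ (m : ι → ℤ) (w : ι → ℂ), w ∈ Metric.ball (0 : ι → ℂ) (‖z‖ + 1) →
      ‖f' m w‖ ≤ u m := by
    intro m w hw
    rw [mem_ball_zero_iff] at hw
    exact hb m w hw.le
  refine ⟨∑' m, f' m z, ?_, fun v => ?_⟩
  · exact hasFDerivAt_tsum_of_isPreconnected hu Metric.isOpen_ball
      (convex_ball (0 : ι → ℂ) (‖z‖ + 1)).isPreconnected (fun m w _ => hd m w) hle hz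
      (ES_summable ha z) hz
  · have hs : Summable fun m => f' m z := Summable.of_norm_bounded hu fun m => hle m z hz
    have h5 : (∑' m, f' m z) v = ∑' m, f' m z v :=
      (ContinuousLinearMap.apply ℂ ℂ v).map_tsum hs
    rw [h5, ES]
    refine tsum_congr fun m => ?_
    change (a m * cexp (2 * π * I * ∑ i, (m i : ℂ) * z i)) • esl m v = _
    rw [esl_apply, dS, smul_eq_mul]
    ring

theorem ES_differentiable {ι : Type} [Fintype ι] {a : (ι → ℤ) → ℂ} (ha : GDec a) :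
    Differentiable ℂ (ES a) := by
  intro z
  obtain ⟨f', h, -⟩ := ES_hasFDerivAt ha z
  exact h.differentiableAt

theorem ES_fderiv {ι : Type} [Fintype ι] {a : (ι → ℤ) → ℂ} (ha : GDec a)
    (z v : ι → ℂ) : fderiv ℂ (ES a) z v = ES (dS v a) z := by
  obtain ⟨f', h, h'⟩ := ES_hasFDerivAt ha z
  rw [h.fderiv]
  exact h' v

/-- `C¹`: the derivative is `∑_i ES (dS e_i a) z · proj_i`, hence continuous. -/
theorem ES_contDiff {ι : Type} [Fintype ι] {a : (ι → ℤ) → ℂ} (ha : GDec a) :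
    ContDiff ℂ 1 (ES a) := by
  classical
  rw [contDiff_one_iff_fderiv]
  refine ⟨ES_differentiable ha, ?_⟩
  have h1 : fderiv ℂ (ES a) = fun z => ∑ i, ES (dS (Pi.single i 1) a) z •
      (ContinuousLinearMap.proj i : (ι → ℂ) →L[ℂ] ℂ) := by
    refine funext fun z => ContinuousLinearMap.ext fun v => ?_
    have h2 : v = ∑ i, v i • (Pi.single i (1 : ℂ) : ι → ℂ) := by
      refine funext fun j => ?_
      rw [Finset.sum_apply]
      simp [Pi.single_apply]
    have h3 : fderiv ℂ (ES a) z v = ∑ i, v i • fderiv ℂ (ES a) z (Pi.single i 1) := by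
      conv_lhs => rw [h2]
      rw [map_sum]
      simp only [map_smul]
    rw [h3, ContinuousLinearMap.sum_apply]
    refine Finset.sum_congr rfl fun i _ => ?_
    rw [ES_fderiv ha, ContinuousLinearMap.smul_apply, smul_eq_mul, smul_eq_mul, mul_comm]
    rfl
  rw [h1]
  refine continuous_finsetSum _ fun i _ => ?_
  exact (ES_differentiable (gdec_dS ha _)).continuous.smul continuous_const

/-- Along complex lines. -/
theorem ES_line {ι : Type} [Fintype ι] {a : (ι → ℤ) → ℂ} (ha : GDec a)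
    (p v : ι → ℂ) (t : ℂ) :
    HasDerivAt (fun s : ℂ => ES a (p + s • v)) (ES (dS v a) (p + t • v)) t := by
  obtain ⟨f', h, h'⟩ := ES_hasFDerivAt ha (p + t • v)
  have h1 : HasDerivAt (fun s : ℂ => p + s • v) v t := by
    have h2 := ((hasDerivAt_id t).smul_const v).const_add p
    rw [one_smul] at h2
    exact h2
  have h3 := h.comp_hasDerivAt t h1
  rw [h'] at h3
  exact h3

theorem ES_adm {ι : Type} [Fintype ι] {a : (ι → ℤ) → ℂ} (ha : GDec a)
    (h : ∃ z, ES a z ≠ 0) : Adm (ES a) :=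
  ⟨ES_differentiable ha, ES_growth ha, h⟩

end MP6feb
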