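import Pool.Agent.Lib.MP_6febbd_ag.Defs

set_option autoImplicit false

open scoped Matrix.Norms.Elementwise Real
open Complex Matrix

noncomputable section

namespace MP6feb

/-- A function whose derivatives of order `< q` vanish at `0` and whose derivative of order
`q` is close to `a₀ ≠ 0` has no other zero nearby. Proof.
`g_i(z) = f_i(z) - a₀ z^(q-i)/(q-i)!` satisfies `g_i' = g_{i+1}`, `g_i 0 = 0` for `i < q`
and `‖g_q‖ ≤ ‖a₀‖/(2 q!)` on the disc; by the mean value inequality on the convex disc and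
descending induction `‖g_i z‖ ≤ ‖a₀‖/(2 q!) ‖z‖^(q-i)`; for `i = 0` this gives
`‖f_0 z‖ ≥ ‖a₀‖ ‖z‖^q/(2 q!) > 0`. -/
theorem taylor_ne_zero (f : ℕ → ℂ → ℂ) (hf : ∀ i z, HasDerivAt (f i) (f (i + 1) z) z)
    {q : ℕ} {a₀ : ℂ} (ha : a₀ ≠ 0) {δ : ℝ} (h0 : ∀ i < q, f i 0 = 0)
    (hclose : ∀ z : ℂ, ‖z‖ ≤ δ → ‖f q z - a₀‖ ≤ ‖a₀‖ / (2 * (q.factorial : ℝ))) :
    ∀ z : ℂ, z ≠ 0 → ‖z‖ ≤ δ → f 0 z ≠ 0 := by
  have key : ∀ j : ℕ, j ≤ q → ∀ z : ℂ, ‖z‖ ≤ δ →
      ‖f (q - j) z - a₀ * z ^ j / (j.factorial : ℂ)‖ ≤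
        ‖a₀‖ / (2 * (q.factorial : ℝ)) * ‖z‖ ^ j := by
    intro j
    induction j with
    | zero =>
      intro _ z hz
      simpa using hclose z hz
    | succ j ih =>
      intro hj z hz
      have hj' : j ≤ q := by omega
      have hqj : q - (j + 1) + 1 = q - j := by omega
      have hfac : ((j + 1 : ℕ).factorial : ℂ) ≠ 0 := by
        exact_mod_cast (j + 1).factorial_ne_zero
      have hfac' : ((j : ℕ).factorial : ℂ) ≠ 0 := by
        exact_mod_cast j.factorial_ne_zero
      have hder : ∀ w : ℂ, HasDerivAt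
          (fun z => f (q - (j + 1)) z - a₀ * z ^ (j + 1) / ((j + 1 : ℕ).factorial : ℂ))
          (f (q - j) w - a₀ * w ^ j / (j.factorial : ℂ)) w := by
        intro w
        have h1 := hf (q - (j + 1)) w
        rw [hqj] at h1
        have h2 : HasDerivAt (fun z : ℂ => a₀ * z ^ (j + 1) / ((j + 1 : ℕ).factorial : ℂ))
            (a₀ * w ^ j / (j.factorial : ℂ)) w := by
          have h3 := ((hasDerivAt_pow (j + 1) w).const_mul a₀).div_const
            ((j + 1 : ℕ).factorial : ℂ)
          refine h3.congr_deriv ?_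
          rw [Nat.factorial_succ] at hfac ⊢
          push_cast at hfac ⊢
          have h4 : (j : ℂ) + 1 ≠ 0 := by exact_mod_cast Nat.succ_ne_zero j
          field_simp
        exact h1.sub h2
      have hmv := (convex_closedBall (0 : ℂ) ‖z‖).norm_image_sub_le_of_norm_hasDerivWithin_le
        (f := fun z => f (q - (j + 1)) z - a₀ * z ^ (j + 1) / ((j + 1 : ℕ).factorial : ℂ))
        (f' := fun w => f (q - j) w - a₀ * w ^ j / (j.factorial : ℂ))
        (C := ‖a₀‖ / (2 * (q.factorial : ℝ)) * ‖z‖ ^ j) (x := 0) (y := z)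
        (fun w _ => (hder w).hasDerivWithinAt)
        (fun w hw => by
          rw [mem_closedBall_zero_iff] at hw
          refine (ih hj' w (hw.trans hz)).trans ?_
          exact mul_le_mul_of_nonneg_left (pow_le_pow_left₀ (norm_nonneg _) hw _)
            (by positivity))
        (by simp) (by simp)
      have hz0 : f (q - (j + 1)) 0 = 0 := h0 _ (by omega)
      simp only [hz0, sub_zero, ne_eq, Nat.add_eq_zero_iff, one_ne_zero, and_false,
        not_false_eq_true, zero_pow, mul_zero, zero_div] at hmv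
      refine hmv.trans (le_of_eq ?_)
      rw [pow_succ]
      ring
  intro z hz hzδ h
  have h1 := key q le_rfl z hzδ
  rw [Nat.sub_self, h, zero_sub, norm_neg, norm_div, norm_mul, norm_pow] at h1
  have h2 : ‖((q.factorial : ℕ) : ℂ)‖ = (q.factorial : ℝ) := Complex.norm_natCast _
  rw [h2] at h1
  have h3 : 0 < ‖a₀‖ := norm_pos_iff.mpr ha
  have h4 : 0 < ‖z‖ := norm_pos_iff.mpr hz
  have h5 : (0 : ℝ) < (q.factorial : ℝ) := by exact_mod_cast q.factorial_pos
  have h6 : 0 < ‖a₀‖ * ‖z‖ ^ q / (q.factorial : ℝ) := by positivity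
  have h7 : ‖a₀‖ / (2 * (q.factorial : ℝ)) * ‖z‖ ^ q =
      (‖a₀‖ * ‖z‖ ^ q / (q.factorial : ℝ)) / 2 := by
    field_simp
  rw [h7] at h1
  linarith

/-- An entire function all of whose derivatives vanish at a point is zero. -/
theorem all_deriv_zero (f : ℕ → ℂ → ℂ) (hf : ∀ i z, HasDerivAt (f i) (f (i + 1) z) z)
    (h0 : ∀ i, f i 0 = 0) : ∀ z, f 0 z = 0 := by
  intro z
  have hdiff : Differentiable ℂ (f 0) := fun z => (hf 0 z).differentiableAt
  have hit : ∀ n, iteratedDeriv n (f 0) = f n := by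
    intro n
    induction n with
    | zero => exact iteratedDeriv_zero
    | succ n ih =>
      rw [iteratedDeriv_succ, ih]
      funext w
      exact (hf n w).deriv
  have h1 := Complex.hasSum_taylorSeries_of_entire hdiff 0 z
  simp only [hit, h0, smul_zero] at h1
  exact h1.unique hasSum_zero

end MP6feb
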