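import Pool.Agent.Lib.MP_6febbd_ag.Defs
import Pool.Agent.Lib.MP_6febbd_ag.ESa
import Pool.Agent.Lib.MP_6febbd_ag.ESd
import Pool.Agent.Lib.MP_6febbd_ag.Tay

set_option autoImplicit false

open scoped Matrix.Norms.Elementwise Real
open Complex Matrix

noncomputable section

namespace MP6feb

private lemma ker_eq_of_le {k : ℕ} (f : (Fin (k + 1) → ℂ) →ₗ[ℂ] ℂ) (hf : f ≠ 0)
    (T : Submodule ℂ (Fin (k + 1) → ℂ)) (hT : k ≤ Module.finrank ℂ T)
    (hle : T ≤ LinearMap.ker f) : LinearMap.ker f = T := by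
  symm
  apply Submodule.eq_of_le_of_finrank_le hle
  have h1 := LinearMap.finrank_range_add_finrank_ker f
  have h2 : Module.finrank ℂ (LinearMap.range f) = 1 := by
    rw [LinearMap.range_eq_top.mpr (LinearMap.surjective hf), finrank_top, Module.finrank_self]
  rw [h2, Module.finrank_fintype_fun_eq_card, Fintype.card_fin] at h1
  omega

/-- Constant tangent space gives a hyperplane. Let `G = ES ((dS e)^[q-1] a)`. Proof. On a
small ball around `pr p` also `G'(y w) e = ES ((dS e)^[q] a) (y w) ≠ 0`. So `G'(y w)` is a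
nonzero functional killing `T`, `finrank T ≥ k`, hence its kernel is `T` for every `w`. Put
`ℓ = G'(p)`. Differentiating `G (y w) = 0` gives `y'(w) v ∈ T = ker ℓ`, so `ℓ (y w) = ℓ p` on
the ball. For `v ∈ ker ℓ` small, `z = p + v`, `w = pr z`: `z - y w = c e` and
`ℓ (z - y w) = 0`, `ℓ e ≠ 0`, so `z = y w` and `ES a z = 0` (`van` for `i = 0`). For all
`v ∈ ker ℓ`: `t ↦ ES a (p + t v)` is entire and vanishes near `0`. -/
theorem flat_of_reg {k : ℕ} {a : (Fin (k + 1) → ℤ) → ℂ} (ha : GDec a)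
    {q : ℕ} {e p : Fin (k + 1) → ℂ} {pr : (Fin (k + 1) → ℂ) →L[ℂ] (Fin k → ℂ)}
    {y : (Fin k → ℂ) → (Fin (k + 1) → ℂ)} {ρ r Lp : ℝ} (hreg : Reg a q e p pr y ρ r Lp)
    (T : Submodule ℂ (Fin (k + 1) → ℂ)) (hT : k ≤ Module.finrank ℂ T)
    (hkill : ∀ h ∈ T, ∀ w ∈ Metric.ball (pr p) ρ,
      ES (dS h ((dS e)^[q - 1] a)) (y w) = 0) :
    ∃ l : (Fin (k + 1) → ℂ) →ₗ[ℂ] ℂ, l ≠ 0 ∧ ∀ z, l z = l p → ES a z = 0 := by
  set b : (Fin (k + 1) → ℤ) → ℂ := (dS e)^[q - 1] a with hb
  have hbG : GDec b := gdec_iter ha e (q - 1)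
  have hq1 := hreg.q1
  have hbq : dS e b = (dS e)^[q] a := by
    rw [hb, ← Function.iterate_succ_apply' (dS e) (q - 1) a]
    congr 2
    omega
  set G : (Fin (k + 1) → ℂ) → ℂ := ES b with hG
  have hGd : Differentiable ℂ G := ES_differentiable hbG
  have hGf : ∀ z v, fderiv ℂ G z v = ES (dS v b) z := fun z v => ES_fderiv hbG z v
  have hcq : Continuous (ES ((dS e)^[q] a)) := (ES_differentiable (gdec_iter ha e q)).continuous
  have hp0 : pr p ∈ Metric.ball (pr p) ρ := Metric.mem_ball_self hreg.ρ0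
  -- kernels
  have hkerT : ∀ w ∈ Metric.ball (pr p) ρ, ES ((dS e)^[q] a) (y w) ≠ 0 →
      LinearMap.ker (fderiv ℂ G (y w)).toLinearMap = T := by
    intro w hw hne
    apply ker_eq_of_le _ _ T hT
    · intro h hh
      rw [LinearMap.mem_ker]
      change fderiv ℂ G (y w) h = 0
      rw [hGf]
      exact hkill h hh w hw
    · intro h0
      apply hne
      rw [← hbq, ← hGf]
      exact congrArg (fun f : (Fin (k + 1) → ℂ) →ₗ[ℂ] ℂ => f e) h0
  set l : (Fin (k + 1) → ℂ) →L[ℂ] ℂ := fderiv ℂ G p with hl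
  have hle : l e ≠ 0 := by
    rw [hl, hGf, hbq]
    exact hreg.nz
  have hlker : ∀ v, v ∈ T ↔ l v = 0 := by
    intro v
    have h1 := hkerT (pr p) hp0 (by rw [hreg.yp]; exact hreg.nz)
    rw [hreg.yp] at h1
    rw [← h1, LinearMap.mem_ker]
    rfl
  -- small ball where the derivative does not vanish
  have hyc : ContinuousOn y (Metric.ball (pr p) ρ) := hreg.ydiff.continuousOn
  have hyat : ContinuousAt y (pr p) := hyc.continuousAt (Metric.ball_mem_nhds _ hreg.ρ0)
  have hev : ∀ᶠ w in nhds (pr p), ES ((dS e)^[q] a) (y w) ≠ 0 := by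
    have h1 : ContinuousAt (fun w => ES ((dS e)^[q] a) (y w)) (pr p) :=
      ContinuousAt.comp (g := ES ((dS e)^[q] a)) hcq.continuousAt hyat
    apply h1.eventually_ne
    rw [hreg.yp]
    exact hreg.nz
  obtain ⟨ρ1, hρ1, hρ1'⟩ := Metric.eventually_nhds_iff_ball.mp hev
  set ρ2 : ℝ := min ρ1 ρ with hρ2
  have hρ2pos : 0 < ρ2 := lt_min hρ1 hreg.ρ0
  have hsub : Metric.ball (pr p) ρ2 ⊆ Metric.ball (pr p) ρ :=
    Metric.ball_subset_ball (min_le_right _ _)
  have hsub1 : Metric.ball (pr p) ρ2 ⊆ Metric.ball (pr p) ρ1 :=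
    Metric.ball_subset_ball (min_le_left _ _)
  -- `l (y w)` is constant
  have hconst : ∀ w ∈ Metric.ball (pr p) ρ2, l (y w) = l p := by
    have hd : ∀ w ∈ Metric.ball (pr p) ρ2, HasFDerivAt (fun w => l (y w))
        (0 : (Fin k → ℂ) →L[ℂ] ℂ) w := by
      intro w hw
      have hwρ := hsub hw
      have hyd : HasFDerivAt y (fderiv ℂ y w) w :=
        (hreg.ydiff.differentiableAt (Metric.isOpen_ball.mem_nhds hwρ)).hasFDerivAt
      have h1 : HasFDerivAt (fun w => l (y w)) (l.comp (fderiv ℂ y w)) w :=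
        l.hasFDerivAt.comp w hyd
      have h2 : l.comp (fderiv ℂ y w) = 0 := by
        ext v
        change l (fderiv ℂ y w v) = 0
        rw [← hlker, ← hkerT w hwρ (hρ1' w (hsub1 hw)), LinearMap.mem_ker]
        change fderiv ℂ G (y w) (fderiv ℂ y w v) = 0
        have h3 : HasFDerivAt (fun w => G (y w)) ((fderiv ℂ G (y w)).comp (fderiv ℂ y w)) w :=
          (hGd (y w)).hasFDerivAt.comp w hyd
        have h4 : (fun w => G (y w)) =ᶠ[nhds w] fun _ => (0 : ℂ) := by
          filter_upwards [Metric.isOpen_ball.mem_nhds hwρ] with w' hw'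
          exact hreg.van (q - 1) (by omega) w' hw'
        have h5 : HasFDerivAt (fun w => G (y w)) (0 : (Fin k → ℂ) →L[ℂ] ℂ) w :=
          (hasFDerivAt_const (0 : ℂ) w).congr_of_eventuallyEq h4
        have h6 := h3.unique h5
        have h7 := congrArg (fun f : (Fin k → ℂ) →L[ℂ] ℂ => f v) h6
        exact h7
      rw [h2] at h1
      exact h1
    intro w hw
    have h1 := (convex_ball (pr p) ρ2).is_const_of_fderivWithin_eq_zero (𝕜 := ℂ)
      (f := fun w => l (y w))
      (fun w hw => (hd w hw).differentiableAt.differentiableWithinAt)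
      (fun w hw => by
        rw [fderivWithin_of_isOpen Metric.isOpen_ball hw, (hd w hw).fderiv])
      hw (Metric.mem_ball_self hρ2pos)
    have h2 : l (y w) = l (y (pr p)) := h1
    rw [h2, hreg.yp]
  refine ⟨l.toLinearMap, ?_, ?_⟩
  · intro h0
    apply hle
    exact congrArg (fun f : (Fin (k + 1) → ℂ) →ₗ[ℂ] ℂ => f e) h0
  · intro z hz
    have hz' : l z = l p := hz
    have hv : l (z - p) = 0 := by rw [map_sub, hz', sub_self]
    -- near `0`
    have hpath : ContinuousAt (fun t : ℂ => pr (p + t • (z - p))) 0 := by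
      apply Continuous.continuousAt
      exact pr.continuous.comp (continuous_const.add (continuous_id.smul continuous_const))
    have hev2 : ∀ᶠ t : ℂ in nhds 0, ES a (p + t • (z - p)) = 0 := by
      have h1 : ∀ᶠ t : ℂ in nhds 0, pr (p + t • (z - p)) ∈ Metric.ball (pr p) ρ2 := by
        apply hpath
        simp only [zero_smul, add_zero]
        exact Metric.ball_mem_nhds _ hρ2pos
      filter_upwards [h1] with t ht
      set x := p + t • (z - p) with hx
      obtain ⟨c, hc⟩ := hreg.ker (x - y (pr x)) (by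
        rw [map_sub, hreg.ypr _ (hsub ht), sub_self])
      have h2 : l (x - y (pr x)) = 0 := by
        rw [map_sub, hconst _ ht, hx, map_add, map_smul, hv, smul_zero, add_zero, sub_self]
      rw [hc, map_smul, smul_eq_mul] at h2
      have hc0 : c = 0 := by
        rcases mul_eq_zero.mp h2 with h3 | h3
        · exact h3
        · exact absurd h3 hle
      rw [hc0, zero_smul] at hc
      have h3 : x = y (pr x) := sub_eq_zero.mp hc
      rw [h3]
      exact hreg.van 0 (by omega) _ (hsub ht)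
    have hdiff : Differentiable ℂ (fun t : ℂ => ES a (p + t • (z - p))) := by
      intro t
      exact (ES_line ha p (z - p) t).differentiableAt
    have hA : AnalyticOnNhd ℂ (fun t : ℂ => ES a (p + t • (z - p))) Set.univ :=
      fun t _ => hdiff.analyticAt t
    have h1 := hA.eqOn_zero_of_preconnected_of_eventuallyEq_zero isPreconnected_univ
      (Set.mem_univ 0) hev2 (Set.mem_univ 1)
    simp only [one_smul, Pi.zero_apply] at h1
    rw [add_sub_cancel] at h1
    exact h1

end MP6feb
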