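import Pool.Agent.Lib.MP_6febbd_ag.Defs

set_option autoImplicit false

open scoped Matrix.Norms.Elementwise Real
open Complex Matrix

noncomputable section

namespace MP6feb

open MeasureTheory Metric in
/-- Packing: separated points in a ball. Balls of radius `r/2` around the points are
disjoint and contained in the ball of radius `R + r/2`; compare Haar volumes
(`MeasureTheory.Measure.addHaar_ball`). -/
theorem pack {E : Type} [NormedAddCommGroup E] [NormedSpace ℝ E] [FiniteDimensional ℝ E]
    (S : Finset E) (p : E) {R r : ℝ} (hr : 0 < r) (hR0 : 0 ≤ R) (hR : ∀ s ∈ S, ‖s - p‖ ≤ R)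
    (hsep : ∀ s ∈ S, ∀ s' ∈ S, s ≠ s' → r ≤ ‖s - s'‖) :
    (S.card : ℝ) * r ^ (Module.finrank ℝ E) ≤ (2 * R + r) ^ (Module.finrank ℝ E) := by
  borelize E
  let μ : Measure E := Measure.addHaar
  set d := Module.finrank ℝ E with hd
  have hδ : 0 < r / 2 := by positivity
  have hρ : 0 < R + r / 2 := by positivity
  have D : Set.Pairwise (S : Set E) (Function.onFun Disjoint fun c => ball (c : E) (r / 2)) := by
    rintro c hc e he hce
    apply ball_disjoint_ball
    rw [dist_eq_norm]
    have := hsep c hc e he hce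
    linarith
  have A_subset : (⋃ c ∈ S, ball (c : E) (r / 2)) ⊆ ball p (R + r / 2) := by
    refine Set.iUnion₂_subset fun x hx => ?_
    apply ball_subset_ball'
    have := hR x hx
    rw [dist_eq_norm]
    linarith
  have I1 : (S.card : ENNReal) * ENNReal.ofReal ((r / 2) ^ d) * μ (ball 0 1) ≤
      ENNReal.ofReal ((R + r / 2) ^ d) * μ (ball 0 1) := by
    calc
      (S.card : ENNReal) * ENNReal.ofReal ((r / 2) ^ d) * μ (ball 0 1)
          = μ (⋃ c ∈ S, ball (c : E) (r / 2)) := by
        rw [measure_biUnion_finset D fun c _ => measurableSet_ball]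
        simp only [μ.addHaar_ball_of_pos _ hδ, Finset.sum_const, nsmul_eq_mul, mul_assoc, hd]
      _ ≤ μ (ball p (R + r / 2)) := measure_mono A_subset
      _ = ENNReal.ofReal ((R + r / 2) ^ d) * μ (ball 0 1) := by
        simp only [μ.addHaar_ball_of_pos _ hρ, hd]
  have h0 : μ (ball (0 : E) 1) ≠ 0 := (measure_ball_pos _ _ zero_lt_one).ne'
  have h1 : μ (ball (0 : E) 1) ≠ ⊤ := measure_ball_lt_top.ne
  have J : (S.card : ENNReal) * ENNReal.ofReal ((r / 2) ^ d) ≤
      ENNReal.ofReal ((R + r / 2) ^ d) := by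
    have := (ENNReal.mul_le_mul_iff_left h0 h1).1 I1
    exact this
  have K : (S.card : ℝ) * (r / 2) ^ d ≤ (R + r / 2) ^ d := by
    have h2 : (S.card : ENNReal) * ENNReal.ofReal ((r / 2) ^ d) =
        ENNReal.ofReal ((S.card : ℝ) * (r / 2) ^ d) := by
      rw [ENNReal.ofReal_mul (by positivity)]
      simp
    rw [h2] at J
    exact (ENNReal.ofReal_le_ofReal_iff (by positivity)).1 J
  have e1 : r ^ d = (r / 2) ^ d * 2 ^ d := by rw [← mul_pow]; congr 1; ring
  have e2 : (2 * R + r) ^ d = (R + r / 2) ^ d * 2 ^ d := by rw [← mul_pow]; congr 1; ring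
  rw [e1, e2, ← mul_assoc]
  exact mul_le_mul_of_nonneg_right K (by positivity)

/-- Maximal separated subsets exist. -/
theorem exists_max_sep {E : Type} [NormedAddCommGroup E] (A : Finset E) (r : ℝ)
    (hr : 0 < r) :
    ∃ S : Finset E, S ⊆ A ∧ (∀ s ∈ S, ∀ s' ∈ S, s ≠ s' → r ≤ ‖s - s'‖) ∧
      ∀ a ∈ A, ∃ s ∈ S, ‖a - s‖ < r := by
  classical
  let P : Finset (Finset E) :=
    A.powerset.filter (fun S => ∀ s ∈ S, ∀ s' ∈ S, s ≠ s' → r ≤ ‖s - s'‖)
  have hP : P.Nonempty := ⟨∅, by simp [P]⟩
  obtain ⟨S, hS, hmax⟩ := P.exists_max_image Finset.card hP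
  have hS' := hS
  simp only [P, Finset.mem_filter, Finset.mem_powerset] at hS'
  refine ⟨S, hS'.1, hS'.2, ?_⟩
  intro a ha
  by_contra hcon
  push Not at hcon
  have haS : a ∉ S := by
    intro h
    have := hcon a h
    rw [sub_self, norm_zero] at this
    linarith
  have hins : insert a S ∈ P := by
    simp only [P, Finset.mem_filter, Finset.mem_powerset]
    refine ⟨Finset.insert_subset ha hS'.1, ?_⟩
    intro s hs s' hs' hne
    rw [Finset.mem_insert] at hs hs'
    rcases hs with rfl | hs
    · rcases hs' with rfl | hs'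
      · exact absurd rfl hne
      · exact hcon s' hs'
    · rcases hs' with rfl | hs'
      · rw [norm_sub_rev]; exact hcon s hs
      · exact hS'.2 s hs s' hs' hne
  have := hmax _ hins
  rw [Finset.card_insert_of_notMem haS] at this
  omega

/-- The same for compact sets. -/
theorem exists_net {E : Type} [NormedAddCommGroup E] {K : Set E} (hK : IsCompact K) {r : ℝ}
    (hr : 0 < r) :
    ∃ S : Finset E, (S : Set E) ⊆ K ∧ (∀ s ∈ S, ∀ s' ∈ S, s ≠ s' → r ≤ ‖s - s'‖) ∧
      ∀ a ∈ K, ∃ s ∈ S, ‖a - s‖ < r := by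
  classical
  -- a finite cover by balls of radius `r/2` bounds the cardinality of separated sets
  obtain ⟨T, hTK, hT⟩ := hK.elim_nhds_subcover (fun x => Metric.ball x (r / 2))
    (fun x _ => Metric.ball_mem_nhds x (by positivity))
  have hbound : ∀ S : Finset E, (S : Set E) ⊆ K →
      (∀ s ∈ S, ∀ s' ∈ S, s ≠ s' → r ≤ ‖s - s'‖) → S.card ≤ T.card := by
    intro S hSK hsep
    have hch : ∀ s ∈ S, ∃ x ∈ T, s ∈ Metric.ball x (r / 2) := by
      intro s hs
      have := hT (hSK hs)
      simpa using this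
    choose! f hfT hf using hch
    refine Finset.card_le_card_of_injOn f (fun s hs => hfT s hs) ?_
    intro s hs s' hs' hss
    by_contra hne
    have h1 := hf s hs
    have h2 := hf s' hs'
    rw [← hss] at h2
    have h3 := hsep s hs s' hs' hne
    rw [Metric.mem_ball] at h1 h2
    have h4 : dist s s' ≤ dist s (f s) + dist s' (f s) := dist_triangle_right _ _ _
    rw [dist_eq_norm] at h4
    linarith
  -- take a separated set of maximal cardinality
  have hex : ∃ n, ∃ S : Finset E, ((S : Set E) ⊆ K ∧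
      (∀ s ∈ S, ∀ s' ∈ S, s ≠ s' → r ≤ ‖s - s'‖)) ∧ T.card - S.card = n :=
    ⟨_, ∅, ⟨by simp, by simp⟩, rfl⟩
  obtain ⟨S, ⟨hSK, hsep⟩, hn⟩ := Nat.find_spec hex
  refine ⟨S, hSK, hsep, ?_⟩
  intro a ha
  by_contra hcon
  push Not at hcon
  have haS : a ∉ S := by
    intro h
    have := hcon a h
    rw [sub_self, norm_zero] at this
    linarith
  have hins1 : ((insert a S : Finset E) : Set E) ⊆ K := by
    rw [Finset.coe_insert]
    exact Set.insert_subset ha hSK
  have hins2 : ∀ s ∈ insert a S, ∀ s' ∈ insert a S, s ≠ s' → r ≤ ‖s - s'‖ := by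
    intro s hs s' hs' hne
    rw [Finset.mem_insert] at hs hs'
    rcases hs with rfl | hs
    · rcases hs' with rfl | hs'
      · exact absurd rfl hne
      · exact hcon s' hs'
    · rcases hs' with rfl | hs'
      · rw [norm_sub_rev]; exact hcon s hs
      · exact hsep s hs s' hs' hne
  have hb := hbound _ hins1 hins2
  have hmin := Nat.find_min' hex ⟨insert a S, ⟨hins1, hins2⟩, rfl⟩
  rw [Finset.card_insert_of_notMem haS] at hb hmin
  omega

end MP6feb
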