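import Pool.Agent.Lib.MP_6febbd_ag.Defs
import Pool.Agent.Lib.MP_6febbd_ag.Pack

set_option autoImplicit false

open scoped Matrix.Norms.Elementwise Real
open Complex Matrix

noncomputable section

namespace MP6feb

private theorem crd_bound {k : ℕ} (L : Crd k) :
    ∃ C : ℝ, 1 ≤ C ∧ (∀ x, ‖L x‖ ≤ C * ‖x‖) ∧ ∀ x, ‖x‖ ≤ C * ‖L x‖ := by
  let Lc := L.toContinuousLinearEquiv
  refine ⟨max 1 (max ‖(Lc : (Fin (k + 1) ⊕ Fin (k + 1) → ℝ) →L[ℝ] (Fin (k + 1) → ℂ))‖
    ‖(Lc.symm : (Fin (k + 1) → ℂ) →L[ℝ] (Fin (k + 1) ⊕ Fin (k + 1) → ℝ))‖),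
    le_max_left _ _, ?_, ?_⟩
  · intro x
    have h := (Lc : (Fin (k + 1) ⊕ Fin (k + 1) → ℝ) →L[ℝ] (Fin (k + 1) → ℂ)).le_opNorm x
    have e : (Lc : (Fin (k + 1) ⊕ Fin (k + 1) → ℝ) →L[ℝ] (Fin (k + 1) → ℂ)) x = L x := rfl
    rw [e] at h
    refine h.trans (mul_le_mul_of_nonneg_right ?_ (norm_nonneg _))
    exact (le_max_left _ _).trans (le_max_right _ _)
  · intro x
    have h := (Lc.symm : (Fin (k + 1) → ℂ) →L[ℝ] (Fin (k + 1) ⊕ Fin (k + 1) → ℝ)).le_opNorm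
      (L x)
    have e : (Lc.symm : (Fin (k + 1) → ℂ) →L[ℝ] (Fin (k + 1) ⊕ Fin (k + 1) → ℝ)) (L x) = x :=
      L.symm_apply_apply x
    rw [e] at h
    refine h.trans (mul_le_mul_of_nonneg_right ?_ (norm_nonneg _))
    exact (le_max_right _ _).trans (le_max_right _ _)

private theorem gridPt_sub {k : ℕ} (L : Crd k) (n : ℕ)
    (m m' : Fin (k + 1) ⊕ Fin (k + 1) → ℤ) :
    gridPt L n m' - gridPt L n m = L (fun i => ((m' i - m i : ℤ) : ℝ) / n) := by
  unfold gridPt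
  rw [← map_sub]
  congr 1
  funext i
  simp only [Pi.sub_apply]
  push_cast
  ring

private theorem csmul_L {k : ℕ} (L : Crd k) (n : ℕ) (x : Fin (k + 1) ⊕ Fin (k + 1) → ℝ) :
    (1 / (n : ℂ)) • L x = L (fun i => x i / n) := by
  have h1 : (fun i => x i / (n : ℝ)) = (1 / (n : ℝ)) • x := by
    funext i
    simp only [Pi.smul_apply, smul_eq_mul]
    ring
  rw [h1, map_smul]
  funext i
  simp only [Pi.smul_apply, smul_eq_mul, Complex.real_smul]
  push_cast
  ring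

private theorem one_le_norm_int {ι : Type} [Fintype ι] (b : ι → ℤ) (hb : b ≠ 0) :
    (1 : ℝ) ≤ ‖(fun i => (b i : ℝ))‖ := by
  obtain ⟨i, hi⟩ := Function.ne_iff.1 hb
  have h1 : ‖((b i : ℤ) : ℝ)‖ ≤ ‖(fun i => (b i : ℝ))‖ :=
    norm_le_pi_norm (fun i => (b i : ℝ)) i
  have h2 : (1 : ℝ) ≤ ‖((b i : ℤ) : ℝ)‖ := by
    rw [Real.norm_eq_abs]
    have h3 : (1 : ℤ) ≤ |b i| := Int.one_le_abs hi
    calc (1 : ℝ) ≤ ((|b i| : ℤ) : ℝ) := by exact_mod_cast h3
      _ = |((b i : ℤ) : ℝ)| := by push_cast; rfl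
  linarith

/-- Elementary facts on grid points. -/
theorem grid_sep {k : ℕ} (L : Crd k) :
    ∃ c : ℝ, 0 < c ∧ ∀ m m' : Fin (k + 1) ⊕ Fin (k + 1) → ℤ, m ≠ m' → ∀ n : ℕ, 1 ≤ n →
      c / n ≤ ‖gridPt L n m - gridPt L n m'‖ := by
  obtain ⟨C, hC1, -, hC⟩ := crd_bound L
  have hC0 : 0 < C := by linarith
  refine ⟨1 / C, by positivity, ?_⟩
  intro m m' hne n hn
  have hn0 : (0 : ℝ) < n := by exact_mod_cast hn
  rw [gridPt_sub]
  have h1 := hC (fun i => ((m i - m' i : ℤ) : ℝ) / n)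
  have h2 : (1 : ℝ) ≤ ‖(fun i => ((m i - m' i : ℤ) : ℝ))‖ :=
    one_le_norm_int (fun i => m i - m' i) (by
      intro h
      apply hne
      funext i
      have := congrFun h i
      simp only [Pi.zero_apply] at this
      omega)
  have h3 : (fun i => ((m i - m' i : ℤ) : ℝ) / n) =
      (1 / (n : ℝ)) • (fun i => ((m i - m' i : ℤ) : ℝ)) := by
    funext i
    simp only [Pi.smul_apply, smul_eq_mul]
    ring
  have h4 : 1 / (n : ℝ) ≤ ‖(fun i => ((m i - m' i : ℤ) : ℝ) / n)‖ := by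
    rw [h3, norm_smul, Real.norm_eq_abs, abs_of_pos (by positivity)]
    have : 0 < 1 / (n : ℝ) := by positivity
    nlinarith
  have h5 : 1 / (n : ℝ) ≤ C * ‖L (fun i => ((m i - m' i : ℤ) : ℝ) / n)‖ := h4.trans h1
  calc 1 / C / n = (1 / C) * (1 / n) := by ring
    _ ≤ (1 / C) * (C * ‖L (fun i => ((m i - m' i : ℤ) : ℝ) / n)‖) :=
      mul_le_mul_of_nonneg_left h5 (by positivity)
    _ = ‖L (fun i => ((m i - m' i : ℤ) : ℝ) / n)‖ := by field_simp

/-- Grid points of the fundamental box are bounded. -/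
theorem grid_bdd {k : ℕ} (L : Crd k) :
    ∃ R : ℝ, 0 < R ∧ ∀ n : ℕ, ∀ m : Fin (k + 1) ⊕ Fin (k + 1) → Fin n,
      ‖gridPt L n (fun i => ((m i : ℕ) : ℤ))‖ ≤ R := by
  obtain ⟨C, hC1, hC, -⟩ := crd_bound L
  have hC0 : 0 < C := by linarith
  refine ⟨C, hC0, ?_⟩
  intro n m
  unfold gridPt
  refine (hC _).trans ?_
  have h1 : ‖(fun i => ((((m i : ℕ) : ℤ) : ℝ)) / (n : ℝ))‖ ≤ 1 := by
    rw [pi_norm_le_iff_of_nonneg zero_le_one]
    intro i
    have hn : 0 < n := Fin.pos (m i)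
    have hn0 : (0 : ℝ) < n := by exact_mod_cast hn
    rw [Real.norm_eq_abs, abs_of_nonneg (by positivity), div_le_one hn0]
    have : ((m i : ℕ) : ℝ) < n := by exact_mod_cast (m i).isLt
    push_cast
    exact this.le
  nlinarith

theorem Vn_sep {k : ℕ} (F : (Fin (k + 1) → ℂ) → ℂ) (L : Crd k) :
    ∃ c : ℝ, 0 < c ∧ ∀ n : ℕ, ∀ s ∈ Vn F L n, ∀ s' ∈ Vn F L n, s ≠ s' →
      c / n ≤ ‖s - s'‖ := by
  obtain ⟨c, hc, h⟩ := grid_sep L
  refine ⟨c, hc, ?_⟩
  intro n s hs s' hs' hne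
  simp only [Vn, Finset.mem_filter, Finset.mem_image, Finset.mem_univ, true_and] at hs hs'
  obtain ⟨⟨m, rfl⟩, -⟩ := hs
  obtain ⟨⟨m', rfl⟩, -⟩ := hs'
  have hn : 1 ≤ n := Fin.pos (m (Sum.inl 0))
  refine h _ _ ?_ n hn
  intro he
  exact hne (by rw [he])

theorem Vn_mem {k : ℕ} (F : (Fin (k + 1) → ℂ) → ℂ) (L : Crd k) :
    ∃ R : ℝ, 0 < R ∧ ∀ n : ℕ, ∀ s ∈ Vn F L n, F s = 0 ∧ ‖s‖ ≤ R ∧
      ∃ m : Fin (k + 1) ⊕ Fin (k + 1) → ℤ, s = gridPt L n m := by
  obtain ⟨R, hR, h⟩ := grid_bdd L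
  refine ⟨R, hR, ?_⟩
  intro n s hs
  simp only [Vn, Finset.mem_filter, Finset.mem_image, Finset.mem_univ, true_and] at hs
  obtain ⟨⟨m, rfl⟩, h0⟩ := hs
  exact ⟨h0, h n m, _, rfl⟩

/-- Differences of grid points are grid vectors, with bounded coordinates. -/
theorem grid_diff {k : ℕ} (L : Crd k) :
    ∃ C : ℝ, 0 < C ∧ ∀ n : ℕ, 1 ≤ n → ∀ m m' : Fin (k + 1) ⊕ Fin (k + 1) → ℤ,
      (gridPt L n m' = gridPt L n m + (1 / (n : ℂ)) • L (fun i => ((m' i - m i : ℤ) : ℝ))) ∧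
      ∀ i, |((m' i - m i : ℤ) : ℝ)| ≤ C * n * ‖gridPt L n m' - gridPt L n m‖ := by
  obtain ⟨C, hC1, -, hC⟩ := crd_bound L
  have hC0 : 0 < C := by linarith
  refine ⟨C, hC0, ?_⟩
  intro n hn m m'
  have hn0 : (0 : ℝ) < n := by exact_mod_cast hn
  constructor
  · rw [csmul_L, ← gridPt_sub]
    abel
  · intro i
    rw [gridPt_sub]
    have h1 := hC (fun i => ((m' i - m i : ℤ) : ℝ) / n)
    have h2 : ‖((m' i - m i : ℤ) : ℝ) / (n : ℝ)‖ ≤
        ‖(fun i => ((m' i - m i : ℤ) : ℝ) / (n : ℝ))‖ :=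
      norm_le_pi_norm (fun i => ((m' i - m i : ℤ) : ℝ) / (n : ℝ)) i
    rw [Real.norm_eq_abs, abs_div, abs_of_pos hn0] at h2
    have h3 := h2.trans h1
    rw [div_le_iff₀ hn0] at h3
    linarith [h3]

/-- Few lattice vectors of bounded size in a complex subspace of codimension at least two:
`pack` in the subspace, whose real dimension is at most `2k - 2` (the constant does not
depend on the subspace: the separation of the vectors `L b` and the bound
`‖L b‖ ≤ C H` do not). -/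
theorem lattice_in_subspace_unif {k : ℕ} (L : Crd k) :
    ∃ C : ℝ, 0 < C ∧ ∀ V : Submodule ℂ (Fin (k + 1) → ℂ), Module.finrank ℂ V < k →
      ∀ H : ℝ, 1 ≤ H → ∀ B : Finset (Fin (k + 1) ⊕ Fin (k + 1) → ℤ),
      (∀ b ∈ B, (∀ i, |(b i : ℝ)| ≤ H) ∧ L (fun i => (b i : ℝ)) ∈ V) →
        (B.card : ℝ) * H ^ 2 ≤ C * H ^ (2 * k) := by
  classical
  obtain ⟨C, hC1, hCa, hCb⟩ := crd_bound L
  have hC0 : 0 < C := by linarith
  set Q : ℝ := (2 * C + 1 / C) * C with hQ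
  have hQ1 : 1 ≤ Q := by
    have : 1 / C * C = 1 := by field_simp
    have h2 : 0 ≤ 2 * C * C := by positivity
    rw [hQ, add_mul, this]
    linarith
  refine ⟨Q ^ (2 * k), by positivity, ?_⟩
  intro V hV H hH B hB
  have hH0 : 0 < H := by linarith
  let f : {b // b ∈ B} → V := fun b => ⟨L (fun i => (b.1 i : ℝ)), (hB b.1 b.2).2⟩
  have hfsep : ∀ b b' : {b // b ∈ B}, b ≠ b' → 1 / C ≤ ‖f b - f b'‖ := by
    intro b b' hne
    have h1 : ‖f b - f b'‖ = ‖L (fun i => ((b.1 i - b'.1 i : ℤ) : ℝ))‖ := by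
      change ‖((f b - f b' : V) : Fin (k + 1) → ℂ)‖ = _
      congr 1
      simp only [f, Submodule.coe_sub]
      rw [← map_sub]
      congr 1
      funext i
      simp only [Pi.sub_apply]
      push_cast
      ring
    have h2 : (1 : ℝ) ≤ ‖(fun i => ((b.1 i - b'.1 i : ℤ) : ℝ))‖ :=
      one_le_norm_int (fun i => b.1 i - b'.1 i) (by
        intro h
        apply hne
        apply Subtype.ext
        funext i
        have := congrFun h i
        simp only [Pi.zero_apply] at this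
        omega)
    have h3 := hCb (fun i => ((b.1 i - b'.1 i : ℤ) : ℝ))
    rw [h1, div_le_iff₀ hC0]
    linarith [h2.trans h3, mul_comm C ‖L (fun i => ((b.1 i - b'.1 i : ℤ) : ℝ))‖]
  have hfinj : Function.Injective f := by
    intro b b' hbb
    by_contra hne
    have := hfsep b b' hne
    rw [hbb, sub_self, norm_zero] at this
    have : 0 < 1 / C := by positivity
    linarith
  let S : Finset V := Finset.univ.image f
  have hcard : S.card = B.card := by
    rw [Finset.card_image_of_injective _ hfinj, Finset.card_univ, Fintype.card_coe]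
  have hpack := pack (E := V) S 0 (R := C * H) (r := 1 / C) (by positivity) (by positivity)
    (by
      intro s hs
      simp only [S, Finset.mem_image, Finset.mem_univ, true_and] at hs
      obtain ⟨b, rfl⟩ := hs
      rw [sub_zero]
      change ‖((f b : V) : Fin (k + 1) → ℂ)‖ ≤ _
      refine (hCa _).trans (mul_le_mul_of_nonneg_left ?_ hC0.le)
      rw [pi_norm_le_iff_of_nonneg hH0.le]
      intro i
      rw [Real.norm_eq_abs]
      exact (hB b.1 b.2).1 i)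
    (by
      intro s hs s' hs' hne
      simp only [S, Finset.mem_image, Finset.mem_univ, true_and] at hs hs'
      obtain ⟨b, rfl⟩ := hs
      obtain ⟨b', rfl⟩ := hs'
      exact hfsep b b' (fun h => hne (by rw [h])))
  rw [hcard] at hpack
  have hdim : Module.finrank ℝ V = 2 * Module.finrank ℂ V := finrank_real_of_complex V
  rw [hdim] at hpack
  set d := 2 * Module.finrank ℂ V with hd
  have hdk : d + 2 ≤ 2 * k := by omega
  -- now the arithmetic
  have h1 : 2 * (C * H) + 1 / C ≤ (2 * C + 1 / C) * H := by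
    have : 1 / C ≤ 1 / C * H := by
      have : 0 < 1 / C := by positivity
      nlinarith
    linarith
  have h2 : (B.card : ℝ) * (1 / C) ^ d ≤ ((2 * C + 1 / C) * H) ^ d :=
    hpack.trans (pow_le_pow_left₀ (by positivity) h1 d)
  have h3 : (B.card : ℝ) ≤ (Q * H) ^ d := by
    have h4 : (B.card : ℝ) = (B.card : ℝ) * (1 / C) ^ d * C ^ d := by
      rw [mul_assoc, ← mul_pow]
      have : 1 / C * C = 1 := by field_simp
      rw [this, one_pow, mul_one]
    rw [h4]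
    calc (B.card : ℝ) * (1 / C) ^ d * C ^ d ≤ ((2 * C + 1 / C) * H) ^ d * C ^ d :=
          mul_le_mul_of_nonneg_right h2 (by positivity)
      _ = (Q * H) ^ d := by rw [← mul_pow, hQ]; congr 1; ring
  calc (B.card : ℝ) * H ^ 2 ≤ (Q * H) ^ d * H ^ 2 :=
        mul_le_mul_of_nonneg_right h3 (by positivity)
    _ = Q ^ d * H ^ (d + 2) := by rw [mul_pow, pow_add]; ring
    _ ≤ Q ^ (2 * k) * H ^ (2 * k) := by
      apply mul_le_mul
      · exact pow_le_pow_right₀ hQ1 (by omega)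
      · exact pow_le_pow_right₀ hH hdk
      · positivity
      · positivity

end MP6feb
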