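import Pool.Agent.Lib.MP_6febbd_ag.Defs

set_option autoImplicit false

open scoped Matrix.Norms.Elementwise Real
open Complex Matrix

noncomputable section

namespace MP6feb

private theorem kap_exp_prod {ι : Type} [Fintype ι] (c : ℝ) (z : ι → ℂ) :
    Real.exp (-(c * ∑ i, ‖z i‖ ^ 2)) = ∏ i, Real.exp (-c * ‖z i‖ ^ 2) := by
  rw [← Real.exp_sum, Finset.mul_sum, ← Finset.sum_neg_distrib]
  congr 1
  exact Finset.sum_congr rfl (fun i _ => by ring)

/-- Total mass one: product of the integrals `∫_ℂ exp(-π|z|²) = 1`. -/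
theorem kap_integral {ι : Type} [Fintype ι] : ∫ z : ι → ℂ, kap z = 1 := by
  unfold kap
  simp only [kap_exp_prod]
  rw [MeasureTheory.integral_fintype_prod_volume_eq_prod
    (fun _ : ι => fun z : ℂ => Real.exp (-π * ‖z‖ ^ 2))]
  refine Finset.prod_eq_one (fun i _ => ?_)
  rw [GaussianFourier.integral_rexp_neg_mul_sq_norm Real.pi_pos, div_self Real.pi_ne_zero,
    Real.one_rpow]

private theorem kap_int1 {c : ℝ} (hc : 0 < c) :
    MeasureTheory.Integrable (fun z : ℂ => Real.exp (-c * ‖z‖ ^ 2)) := by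
  have h := GaussianFourier.integrable_cexp_neg_mul_sq_norm_add (V := ℂ) (b := (c : ℂ))
    (by simpa using hc) 0 0
  have h2 := h.norm
  refine h2.congr (Filter.Eventually.of_forall (fun z => ?_))
  simp only
  rw [Complex.norm_exp]
  congr 1
  have : -(c : ℂ) * (‖z‖ : ℂ) ^ 2 + 0 * ((inner ℝ 0 z : ℝ) : ℂ) =
      ((-c * ‖z‖ ^ 2 : ℝ) : ℂ) := by
    push_cast
    ring
  rw [this, Complex.ofReal_re]

private theorem kap_gint {ι : Type} [Fintype ι] {c : ℝ} (hc : 0 < c) :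
    MeasureTheory.Integrable (fun z : ι → ℂ => Real.exp (-(c * ∑ i, ‖z i‖ ^ 2))) := by
  simp only [kap_exp_prod]
  exact MeasureTheory.Integrable.fintype_prod (f := fun _ : ι => fun z : ℂ =>
    Real.exp (-c * ‖z‖ ^ 2)) (fun _ => kap_int1 hc)

private theorem kap_norm_sq {ι : Type} [Fintype ι] (z : ι → ℂ) :
    ‖z‖ ^ 2 ≤ ∑ i, ‖z i‖ ^ 2 := by
  have h0 : 0 ≤ ∑ i, ‖z i‖ ^ 2 := Finset.sum_nonneg (fun i _ => by positivity)
  have h1 : ‖z‖ ≤ Real.sqrt (∑ i, ‖z i‖ ^ 2) := by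
    rw [pi_norm_le_iff_of_nonneg (Real.sqrt_nonneg _)]
    intro i
    apply Real.le_sqrt_of_sq_le
    exact Finset.single_le_sum (f := fun i => ‖z i‖ ^ 2) (fun i _ => by positivity)
      (Finset.mem_univ i)
  calc ‖z‖ ^ 2 ≤ (Real.sqrt (∑ i, ‖z i‖ ^ 2)) ^ 2 := by gcongr
    _ = _ := Real.sq_sqrt h0

theorem gauss_integrable {ι : Type} [Fintype ι] {c : ℝ} (hc : 0 < c) (p : ℕ) :
    MeasureTheory.Integrable (fun z : ι → ℂ =>
      (1 + ‖z‖) ^ p * Real.exp (-(c * ∑ i, ‖z i‖ ^ 2))) := by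
  have hdom := (kap_gint (ι := ι) (half_pos hc)).const_mul (Real.exp (p ^ 2 / (2 * c)))
  refine hdom.mono' ?_ (Filter.Eventually.of_forall (fun z => ?_))
  · refine Continuous.aestronglyMeasurable ?_
    fun_prop
  · have hz := kap_norm_sq z
    set S : ℝ := ∑ i, ‖z i‖ ^ 2 with hS
    have h1 : 0 ≤ ‖z‖ := norm_nonneg z
    have h2 : (1 + ‖z‖) ^ p ≤ Real.exp (p * ‖z‖) := by
      have h3 : 1 + ‖z‖ ≤ Real.exp ‖z‖ := by
        have := Real.add_one_le_exp ‖z‖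
        linarith
      calc (1 + ‖z‖) ^ p ≤ (Real.exp ‖z‖) ^ p := by gcongr
        _ = Real.exp (p * ‖z‖) := by rw [← Real.exp_nat_mul]
    have h4 : 0 ≤ (1 + ‖z‖) ^ p * Real.exp (-(c * S)) := by positivity
    rw [Real.norm_eq_abs, abs_of_nonneg h4]
    calc (1 + ‖z‖) ^ p * Real.exp (-(c * S))
        ≤ Real.exp (p * ‖z‖) * Real.exp (-(c * S)) := by gcongr
      _ = Real.exp (p * ‖z‖ - c * S) := by rw [← Real.exp_add]; rfl
      _ ≤ Real.exp (p ^ 2 / (2 * c) + -(c / 2 * S)) := by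
          apply Real.exp_le_exp.mpr
          have h5 : p * ‖z‖ ≤ p ^ 2 / (2 * c) + c / 2 * ‖z‖ ^ 2 := by
            have h6 : 0 ≤ (p - c * ‖z‖) ^ 2 / (2 * c) := by positivity
            have h7 : (p - c * ‖z‖) ^ 2 / (2 * c) =
                p ^ 2 / (2 * c) + c / 2 * ‖z‖ ^ 2 - p * ‖z‖ := by
              field_simp
              ring
            linarith
          nlinarith
      _ = _ := by rw [Real.exp_add]

private theorem kap_fun_eq {ι : Type} [Fintype ι] (h : (ι → ℂ) → ℝ) (w : ι → ℂ) {t : ℝ}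
    (ht : 0 < t) (ξ : ι → ℂ) :
    h (w + (t : ℂ) • ξ) * kap ξ =
      (fun x : ι → ℂ => h (w + x) * Real.exp (-(π * (∑ i, ‖x i‖ ^ 2) / t ^ 2))) (t • ξ) := by
  have h1 : (t : ℂ) • ξ = t • ξ := by
    ext i
    simp
  simp only [h1]
  congr 1
  unfold kap
  congr 2
  have h2 : ∀ i, ‖(t • ξ) i‖ ^ 2 = t ^ 2 * ‖ξ i‖ ^ 2 := by
    intro i
    rw [Pi.smul_apply, norm_smul, mul_pow, Real.norm_eq_abs, sq_abs]
  simp only [h2]
  rw [← Finset.mul_sum]
  field_simp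

private theorem kap_fin {ι : Type} [Fintype ι] :
    Module.finrank ℝ (ι → ℂ) = 2 * Fintype.card ι := by
  rw [Module.finrank_pi_fintype]
  simp [Complex.finrank_real_complex, mul_comm]

/-- Scaling and translation: `∫ h(w + t ξ) exp(-π|ξ|²) dξ`
`= t^(-2|ι|) ∫ h(z) exp(-π|z-w|²/t²) dz` (no integrability needed). -/
theorem gauss_scale {ι : Type} [Fintype ι] (h : (ι → ℂ) → ℝ) (w : ι → ℂ) {t : ℝ}
    (ht : 0 < t) :
    ∫ ξ : ι → ℂ, h (w + (t : ℂ) • ξ) * kap ξ =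
      (t ^ (2 * Fintype.card ι))⁻¹ *
        ∫ z : ι → ℂ, h z * Real.exp (-(π * (∑ i, ‖z i - w i‖ ^ 2) / t ^ 2)) := by
  have h0 : ∫ ξ : ι → ℂ, h (w + (t : ℂ) • ξ) * kap ξ = ∫ ξ : ι → ℂ,
      (fun x : ι → ℂ => h (w + x) * Real.exp (-(π * (∑ i, ‖x i‖ ^ 2) / t ^ 2))) (t • ξ) :=
    MeasureTheory.integral_congr_ae (Filter.Eventually.of_forall (fun ξ => kap_fun_eq h w ht ξ))
  rw [h0, MeasureTheory.Measure.integral_comp_smul_of_nonneg MeasureTheory.volume
    (fun x : ι → ℂ => h (w + x) * Real.exp (-(π * (∑ i, ‖x i‖ ^ 2) / t ^ 2))) t (hR := ht.le),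
    kap_fin, smul_eq_mul]
  congr 1
  rw [← MeasureTheory.integral_add_left_eq_self (μ := MeasureTheory.volume) (fun z : ι → ℂ =>
    h z * Real.exp (-(π * (∑ i, ‖z i - w i‖ ^ 2) / t ^ 2))) w]
  refine MeasureTheory.integral_congr_ae (Filter.Eventually.of_forall (fun x => ?_))
  simp only [Pi.add_apply, add_sub_cancel_left]

/-- Integrability is preserved by the same change of variables. -/
theorem gauss_scale_integrable {ι : Type} [Fintype ι] (h : (ι → ℂ) → ℝ) (w : ι → ℂ)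
    {t : ℝ} (ht : 0 < t) :
    MeasureTheory.Integrable (fun ξ : ι → ℂ => h (w + (t : ℂ) • ξ) * kap ξ) ↔
      MeasureTheory.Integrable (fun z : ι → ℂ =>
        h z * Real.exp (-(π * (∑ i, ‖z i - w i‖ ^ 2) / t ^ 2))) := by
  have h1 : (fun ξ : ι → ℂ => h (w + (t : ℂ) • ξ) * kap ξ) = fun ξ =>
      (fun x : ι → ℂ => h (w + x) * Real.exp (-(π * (∑ i, ‖x i‖ ^ 2) / t ^ 2))) (t • ξ) := by
    funext ξ
    exact kap_fun_eq h w ht ξ
  rw [h1, MeasureTheory.integrable_comp_smul_iff MeasureTheory.volume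
    (fun x : ι → ℂ => h (w + x) * Real.exp (-(π * (∑ i, ‖x i‖ ^ 2) / t ^ 2))) ht.ne',
    ← (MeasureTheory.measurePreserving_add_left (MeasureTheory.volume : MeasureTheory.Measure
      (ι → ℂ)) w).integrable_comp_emb (MeasurableEquiv.addLeft w).measurableEmbedding
      (g := fun z : ι → ℂ => h z * Real.exp (-(π * (∑ i, ‖z i - w i‖ ^ 2) / t ^ 2)))]
  refine MeasureTheory.integrable_congr (Filter.Eventually.of_forall (fun x => ?_))
  simp only [Function.comp_apply, Pi.add_apply, add_sub_cancel_left]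

end MP6feb
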