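import Pool.Agent.Lib.MP_6febbd_ag.Defs
import Pool.Agent.Lib.MP_6febbd_ag.Kap
import Pool.Agent.Lib.MP_6febbd_ag.Pack

set_option autoImplicit false

open scoped Matrix.Norms.Elementwise Real
open Complex Matrix

noncomputable section

namespace MP6feb

private def e2 {k : ℕ} (z w : Fin (k + 1) → ℂ) : ℝ := ∑ i, ‖z i - w i‖ ^ 2

private theorem e2_nonneg {k : ℕ} (z w : Fin (k + 1) → ℂ) : 0 ≤ e2 z w :=
  Finset.sum_nonneg fun _ _ => by positivity

private theorem e2_le {k : ℕ} {z w : Fin (k + 1) → ℂ} {d : ℝ} (h : ‖z - w‖ ≤ d) :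
    e2 z w ≤ (k + 1) * d ^ 2 := by
  have h1 : ∀ i : Fin (k + 1), ‖z i - w i‖ ^ 2 ≤ d ^ 2 := fun i => by
    have h2 : ‖z i - w i‖ ≤ d := (norm_le_pi_norm (z - w) i).trans h
    exact pow_le_pow_left₀ (norm_nonneg _) h2 2
  calc e2 z w ≤ ∑ _i : Fin (k + 1), d ^ 2 := Finset.sum_le_sum fun i _ => h1 i
    _ = (k + 1) * d ^ 2 := by simp

private theorem e2_tri {k : ℕ} (x y z : Fin (k + 1) → ℂ) :
    e2 x z ≤ 2 * e2 x y + 2 * e2 y z := by
  unfold e2
  rw [Finset.mul_sum, Finset.mul_sum, ← Finset.sum_add_distrib]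
  refine Finset.sum_le_sum fun i _ => ?_
  have h : ‖x i - z i‖ ≤ ‖x i - y i‖ + ‖y i - z i‖ := by
    have := norm_add_le (x i - y i) (y i - z i)
    simpa using this
  have h0 := norm_nonneg (x i - z i)
  nlinarith [sq_nonneg (‖x i - y i‖ - ‖y i - z i‖), norm_nonneg (x i - y i),
    norm_nonneg (y i - z i)]

private theorem e2_comm {k : ℕ} (z w : Fin (k + 1) → ℂ) : e2 z w = e2 w z := by
  unfold e2
  exact Finset.sum_congr rfl fun i _ => by rw [norm_sub_rev]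

private theorem vol_ball {k : ℕ} (s : Fin (k + 1) → ℂ) {r : ℝ} (hr : 0 < r) :
    MeasureTheory.volume.real (Metric.ball s r) = (π * r ^ 2) ^ (k + 1) := by
  rw [MeasureTheory.measureReal_def, MeasureTheory.volume_pi_ball _ hr]
  simp only [Complex.volume_ball, ENNReal.toReal_mul, ENNReal.toReal_pow,
    ENNReal.toReal_ofReal hr.le, ENNReal.coe_toReal, NNReal.coe_real_pi, Finset.prod_const,
    Finset.card_univ, Fintype.card_fin]
  ring

private theorem first_sum {k : ℕ} {r : ℝ} (hr : 0 < r) (S : Finset (Fin (k + 1) → ℂ))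
    (hsep : ∀ s ∈ S, ∀ s' ∈ S, s ≠ s' → r ≤ ‖s - s'‖) (w : Fin (k + 1) → ℂ) :
    ∑ s ∈ S, Real.exp (-(π * e2 w s / (2 * r ^ 2))) ≤
      Real.exp (π * (k + 1) / 8) * (16 / π) ^ (k + 1) := by
  set f : (Fin (k + 1) → ℂ) → ℝ := fun x => Real.exp (-(π * e2 x w / (2 * r) ^ 2)) with hf
  have hf0 : ∀ x, 0 ≤ f x := fun x => (Real.exp_pos _).le
  have h2r : 0 < 2 * r := by linarith
  have hint : MeasureTheory.Integrable f := by
    have := (gauss_scale_integrable (ι := Fin (k + 1)) (fun _ => (1 : ℝ)) w h2r).mp (by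
      have := gauss_integrable (ι := Fin (k + 1)) Real.pi_pos 0
      simpa [kap] using this)
    simpa [hf, e2] using this
  have hval : ∫ x, f x = (2 * r) ^ (2 * (k + 1)) := by
    have := gauss_scale (ι := Fin (k + 1)) (fun _ => (1 : ℝ)) w h2r
    simp only [one_mul, kap_integral, Fintype.card_fin] at this
    have hne : ((2 * r) ^ (2 * (k + 1)) : ℝ) ≠ 0 := by positivity
    have h3 : ∫ x, f x = ∫ z : Fin (k + 1) → ℂ,
        Real.exp (-(π * (∑ i, ‖z i - w i‖ ^ 2) / (2 * r) ^ 2)) := rfl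
    rw [h3, eq_comm]
    exact (inv_mul_eq_one₀ hne).mp this.symm
  have hr2 : 0 < r / 2 := by linarith
  -- pointwise comparison on the small ball
  have hpt : ∀ s ∈ S, ∀ x ∈ Metric.ball s (r / 2),
      Real.exp (-(π * e2 w s / (2 * r ^ 2))) ≤ Real.exp (π * (k + 1) / 8) * f x := by
    intro s _ x hx
    rw [hf, ← Real.exp_add]
    apply Real.exp_le_exp.mpr
    have h1 : e2 x w ≤ 2 * e2 x s + 2 * e2 s w := e2_tri x s w
    have h2 : e2 x s ≤ (k + 1) * (r / 2) ^ 2 := e2_le (by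
      rw [← dist_eq_norm]
      exact (Metric.mem_ball.mp hx).le)
    rw [e2_comm w s]
    have h3 : e2 x w / (2 * r) ^ 2 ≤ (k + 1) / 8 + e2 s w / (2 * r ^ 2) := by
      rw [div_le_iff₀ (by positivity)]
      have h4 : ((k + 1 : ℝ) / 8 + e2 s w / (2 * r ^ 2)) * (2 * r) ^ 2 =
          (k + 1) * r ^ 2 / 2 + 2 * e2 s w := by
        field_simp
        ring
      rw [h4]
      nlinarith
    have h5 : π * (e2 x w / (2 * r) ^ 2) ≤ π * ((k + 1) / 8 + e2 s w / (2 * r ^ 2)) :=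
      mul_le_mul_of_nonneg_left h3 Real.pi_pos.le
    have h6 : π * e2 x w / (2 * r) ^ 2 = π * (e2 x w / (2 * r) ^ 2) := by ring
    have h7 : π * e2 s w / (2 * r ^ 2) = π * (e2 s w / (2 * r ^ 2)) := by ring
    rw [h6, h7]
    have h8 : π * (((k : ℝ) + 1) / 8 + e2 s w / (2 * r ^ 2)) =
        π * (k + 1) / 8 + π * (e2 s w / (2 * r ^ 2)) := by ring
    rw [h8] at h5
    linarith
  -- integrate
  have hone : ∀ s ∈ S, (π * (r / 2) ^ 2) ^ (k + 1) * Real.exp (-(π * e2 w s / (2 * r ^ 2))) ≤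
      Real.exp (π * (k + 1) / 8) * ∫ x in Metric.ball s (r / 2), f x := by
    intro s hs
    have h1 : ∫ _x in Metric.ball s (r / 2), Real.exp (-(π * e2 w s / (2 * r ^ 2))) ≤
        ∫ x in Metric.ball s (r / 2), Real.exp (π * (k + 1) / 8) * f x := by
      refine MeasureTheory.setIntegral_mono_on ?_ ?_ measurableSet_ball (hpt s hs)
      · exact MeasureTheory.integrableOn_const (MeasureTheory.measure_ball_lt_top).ne
      · exact (hint.const_mul _).integrableOn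
    rw [MeasureTheory.setIntegral_const, smul_eq_mul, vol_ball s hr2,
      MeasureTheory.integral_const_mul] at h1
    exact h1
  have hdisj : Set.PairwiseDisjoint (S : Set (Fin (k + 1) → ℂ))
      (fun s => Metric.ball s (r / 2)) := by
    intro s hs s' hs' hne
    refine Metric.ball_disjoint_ball ?_
    rw [dist_eq_norm]
    have := hsep s hs s' hs' hne
    linarith
  have hsum : ∑ s ∈ S, ∫ x in Metric.ball s (r / 2), f x ≤ ∫ x, f x := by
    rw [← MeasureTheory.integral_biUnion_finset S (fun s _ => measurableSet_ball) hdisj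
      (fun s _ => hint.integrableOn)]
    exact MeasureTheory.setIntegral_le_integral hint (Filter.Eventually.of_forall hf0)
  have hV : 0 < (π * (r / 2) ^ 2) ^ (k + 1) := by positivity
  have htot : (π * (r / 2) ^ 2) ^ (k + 1) * ∑ s ∈ S, Real.exp (-(π * e2 w s / (2 * r ^ 2))) ≤
      Real.exp (π * (k + 1) / 8) * (2 * r) ^ (2 * (k + 1)) := by
    rw [Finset.mul_sum]
    calc ∑ s ∈ S, (π * (r / 2) ^ 2) ^ (k + 1) * Real.exp (-(π * e2 w s / (2 * r ^ 2)))
        ≤ ∑ s ∈ S, Real.exp (π * (k + 1) / 8) * ∫ x in Metric.ball s (r / 2), f x :=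
          Finset.sum_le_sum hone
      _ = Real.exp (π * (k + 1) / 8) * ∑ s ∈ S, ∫ x in Metric.ball s (r / 2), f x := by
          rw [Finset.mul_sum]
      _ ≤ Real.exp (π * (k + 1) / 8) * ∫ x, f x :=
          mul_le_mul_of_nonneg_left hsum (Real.exp_pos _).le
      _ = _ := by rw [hval]
  have hkey : Real.exp (π * (k + 1) / 8) * (2 * r) ^ (2 * (k + 1)) =
      (π * (r / 2) ^ 2) ^ (k + 1) * (Real.exp (π * (k + 1) / 8) * (16 / π) ^ (k + 1)) := by
    have h1 : (2 * r) ^ (2 * (k + 1)) = (π * (r / 2) ^ 2) ^ (k + 1) * (16 / π) ^ (k + 1) := by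
      rw [pow_mul, ← mul_pow]
      congr 1
      field_simp
      ring
    rw [h1]
    ring
  rw [hkey] at htot
  exact le_of_mul_le_mul_left htot hV

theorem gauss_sum_sep (k : ℕ) :
    ∃ C : ℝ, 0 < C ∧ ∀ (p : Fin (k + 1) → ℂ) (r ρ : ℝ), 0 < r → r ≤ ρ →
      ∀ S : Finset (Fin (k + 1) → ℂ), (∀ s ∈ S, ‖s - p‖ ≤ ρ) →
        (∀ s ∈ S, ∀ s' ∈ S, s ≠ s' → r ≤ ‖s - s'‖) →
        ∀ w : Fin (k + 1) → ℂ,
          ∑ s ∈ S, Real.exp (-(π * (∑ i, ‖w i - s i‖ ^ 2) / r ^ 2)) ≤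
            C * Real.exp (-(π * (∑ i, ‖w i - p i‖ ^ 2) / (2 * ρ) ^ 2)) := by
  refine ⟨Real.exp (π * (k + 1) / 8) * (16 / π) ^ (k + 1) * Real.exp (π * (k + 1) / 2),
    by positivity, ?_⟩
  intro p r ρ hr hρ S hS hsep w
  have hρ0 : 0 < ρ := hr.trans_le hρ
  have hterm : ∀ s ∈ S, Real.exp (-(π * (∑ i, ‖w i - s i‖ ^ 2) / r ^ 2)) ≤
      Real.exp (-(π * e2 w s / (2 * r ^ 2))) *
        (Real.exp (π * (k + 1) / 2) *
          Real.exp (-(π * (∑ i, ‖w i - p i‖ ^ 2) / (2 * ρ) ^ 2))) := by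
    intro s hs
    rw [← Real.exp_add, ← Real.exp_add]
    apply Real.exp_le_exp.mpr
    have h1 : e2 w p ≤ 2 * e2 w s + 2 * e2 s p := e2_tri w s p
    have h2 : e2 s p ≤ (k + 1) * ρ ^ 2 := e2_le (hS s hs)
    have h0 : 0 ≤ e2 w s := e2_nonneg w s
    change -(π * e2 w s / r ^ 2) ≤ -(π * e2 w s / (2 * r ^ 2)) +
      (π * (k + 1) / 2 + -(π * e2 w p / (2 * ρ) ^ 2))
    have h3 : e2 w s / (2 * ρ ^ 2) ≤ e2 w s / (2 * r ^ 2) :=
      div_le_div_of_nonneg_left h0 (by positivity) (by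
        have := pow_le_pow_left₀ hr.le hρ 2
        linarith)
    have h4 : e2 w p / (2 * ρ) ^ 2 ≤ e2 w s / (2 * ρ ^ 2) + (k + 1) / 2 := by
      rw [div_le_iff₀ (by positivity)]
      have : (e2 w s / (2 * ρ ^ 2) + ((k : ℝ) + 1) / 2) * (2 * ρ) ^ 2 =
          2 * e2 w s + 2 * ((k + 1) * ρ ^ 2) := by
        field_simp
      rw [this]
      linarith
    have h5 : e2 w s / r ^ 2 = e2 w s / (2 * r ^ 2) + e2 w s / (2 * r ^ 2) := by
      field_simp
      norm_num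
    have h6 : e2 w p / (2 * ρ) ^ 2 ≤ e2 w s / r ^ 2 - e2 w s / (2 * r ^ 2) + (k + 1) / 2 := by
      linarith
    have h7 := mul_le_mul_of_nonneg_left h6 Real.pi_pos.le
    have e1 : π * e2 w s / r ^ 2 = π * (e2 w s / r ^ 2) := by ring
    have e3 : π * e2 w s / (2 * r ^ 2) = π * (e2 w s / (2 * r ^ 2)) := by ring
    have e4 : π * e2 w p / (2 * ρ) ^ 2 = π * (e2 w p / (2 * ρ) ^ 2) := by ring
    rw [e1, e3, e4]
    have e5 : π * (e2 w s / r ^ 2 - e2 w s / (2 * r ^ 2) + ((k : ℝ) + 1) / 2) =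
        π * (e2 w s / r ^ 2) - π * (e2 w s / (2 * r ^ 2)) + π * (k + 1) / 2 := by ring
    rw [e5] at h7
    linarith
  calc ∑ s ∈ S, Real.exp (-(π * (∑ i, ‖w i - s i‖ ^ 2) / r ^ 2))
      ≤ ∑ s ∈ S, Real.exp (-(π * e2 w s / (2 * r ^ 2))) *
        (Real.exp (π * (k + 1) / 2) *
          Real.exp (-(π * (∑ i, ‖w i - p i‖ ^ 2) / (2 * ρ) ^ 2))) := Finset.sum_le_sum hterm
    _ = (∑ s ∈ S, Real.exp (-(π * e2 w s / (2 * r ^ 2)))) *
        (Real.exp (π * (k + 1) / 2) *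
          Real.exp (-(π * (∑ i, ‖w i - p i‖ ^ 2) / (2 * ρ) ^ 2))) := by
        rw [Finset.sum_mul]
    _ ≤ (Real.exp (π * (k + 1) / 8) * (16 / π) ^ (k + 1)) *
        (Real.exp (π * (k + 1) / 2) *
          Real.exp (-(π * (∑ i, ‖w i - p i‖ ^ 2) / (2 * ρ) ^ 2))) :=
        mul_le_mul_of_nonneg_right (first_sum hr S hsep w) (by positivity)
    _ = _ := by ring

end MP6feb
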