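import Pool.Agent.Lib.MP_6febbd_ag.Defs

set_option autoImplicit false

open scoped Matrix.Norms.Elementwise Real
open Complex Matrix

noncomputable section

namespace MP6feb

/-- Zeros of a holomorphic function on a convex open set of the plane, not zero at a point,
are countable. -/
theorem idn_countable {U : Set ℂ} {g : ℂ → ℂ} (hU : IsOpen U) (hc : Convex ℝ U)
    (hg : DifferentiableOn ℂ g U) (h0 : (0 : ℂ) ∈ U) (hg0 : g 0 ≠ 0) :
    ({z : ℂ | z ∈ U ∧ g z = 0}).Countable := by
  have han : AnalyticOnNhd ℂ g U := hg.analyticOnNhd hU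
  have hpre : IsPreconnected U := hc.isPreconnected
  have hdisc : DiscreteTopology {z : ℂ | z ∈ U ∧ g z = 0} := by
    rw [discreteTopology_subtype_iff]
    intro x hx
    rcases han.eqOn_zero_or_eventually_ne_zero_of_preconnected hpre with h | h
    · exact (hg0 (h h0)).elim
    · rw [← disjoint_iff, Filter.disjoint_principal_right]
      have h1 := (han x hx.1).eventually_eq_zero_or_eventually_ne_zero
      rcases h1 with h1 | h1
      · exfalso
        have := han.eqOn_zero_of_preconnected_of_eventuallyEq_zero hpre hx.1 h1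
        exact hg0 (this h0)
      · filter_upwards [h1] with a ha hmem
        exact ha hmem.2
  have : Countable {z : ℂ | z ∈ U ∧ g z = 0} := by
    exact countable_of_Lindelof_of_discrete
  exact Set.countable_coe_iff.mp this

theorem zero_null_of_convex {k : ℕ} {D : (Fin k → ℂ) → ℂ} {V : Set (Fin k → ℂ)}
    (hV : IsOpen V) (hconv : Convex ℝ V) (hD : DifferentiableOn ℂ D V)
    (hne : ∃ w ∈ V, D w ≠ 0) :
    MeasureTheory.volume {w : Fin k → ℂ | w ∈ V ∧ D w = 0} = 0 := by
  obtain ⟨w₁, hw₁, hDw₁⟩ := hne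
  set Z : Set (Fin k → ℂ) := {w : Fin k → ℂ | w ∈ V ∧ D w = 0} with hZdef
  have hZm : MeasurableSet Z := by
    have h1 : IsOpen (V ∩ D ⁻¹' ({0}ᶜ)) :=
      hD.continuousOn.isOpen_inter_preimage hV isOpen_compl_singleton
    have h2 : Z = V \ (V ∩ D ⁻¹' ({0}ᶜ)) := by
      ext w
      simp only [hZdef, Set.mem_ofPred_eq, Set.mem_sdiff, Set.mem_inter_iff, Set.mem_preimage,
        Set.mem_compl_iff, Set.mem_singleton_iff]
      tauto
    rw [h2]
    exact hV.measurableSet.diff h1.measurableSet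
  have hcount : ∀ ξ : Fin k → ℂ, ({l : ℝ | w₁ + (l : ℂ) • ξ ∈ Z}).Countable := by
    intro ξ
    set L : ℂ → (Fin k → ℂ) := fun z => w₁ + z • ξ with hL
    have hLd : Differentiable ℂ L := by
      intro z
      exact (differentiableAt_const _).add (differentiableAt_id.smul_const ξ)
    have hU : IsOpen (L ⁻¹' V) := hV.preimage hLd.continuous
    have hUc : Convex ℝ (L ⁻¹' V) := by
      intro x hx y hy a b ha hb hab
      have h := hconv hx hy ha hb hab
      have heq : L (a • x + b • y) = a • L x + b • L y := by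
        simp only [hL]
        ext i
        simp only [Pi.add_apply, Pi.smul_apply, Complex.real_smul, smul_eq_mul]
        have : (b : ℂ) = 1 - a := by
          have : b = 1 - a := by linarith
          rw [this]; push_cast; ring
        rw [this]; ring
      rw [Set.mem_preimage, heq]
      exact h
    have hg : DifferentiableOn ℂ (fun z => D (L z)) (L ⁻¹' V) := by
      intro z hz
      exact ((hD (L z) hz).comp z (hLd z).differentiableWithinAt (fun u hu => hu))
    have h0 : (0 : ℂ) ∈ L ⁻¹' V := by simpa [hL] using hw₁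
    have hg0 : (fun z => D (L z)) 0 ≠ 0 := by simpa [hL] using hDw₁
    have hc := idn_countable hU hUc hg h0 hg0
    have hp : ((fun l : ℝ => (l : ℂ)) ⁻¹' {z : ℂ | z ∈ L ⁻¹' V ∧ D (L z) = 0}).Countable :=
      hc.preimage_of_injOn (Complex.ofReal_injective.injOn)
    refine hp.mono ?_
    intro l hl
    exact ⟨hl.1, hl.2⟩
  have hmeas : MeasurableSet {p : (Fin k → ℂ) × ℝ | w₁ + (p.2 : ℂ) • p.1 ∉ Z} := by
    have hc : Continuous (fun p : (Fin k → ℂ) × ℝ => w₁ + (p.2 : ℂ) • p.1) := by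
      fun_prop
    exact (hc.measurable hZm).compl
  have hae1 : ∀ᵐ ξ ∂(MeasureTheory.volume : MeasureTheory.Measure (Fin k → ℂ)),
      ∀ᵐ (l : ℝ) ∂(MeasureTheory.volume : MeasureTheory.Measure ℝ), w₁ + (l : ℂ) • ξ ∉ Z := by
    refine Filter.Eventually.of_forall (fun ξ => ?_)
    have := (hcount ξ).measure_zero (MeasureTheory.volume : MeasureTheory.Measure ℝ)
    rw [MeasureTheory.ae_iff]
    have hs : {a : ℝ | ¬ (w₁ + (a : ℂ) • ξ ∉ Z)} = {l : ℝ | w₁ + (l : ℂ) • ξ ∈ Z} := by
      ext a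
      simp only [Set.mem_ofPred_eq, not_not]
    rw [hs]
    exact this
  have hae2 := (MeasureTheory.Measure.ae_ae_comm
    (μ := (MeasureTheory.volume : MeasureTheory.Measure (Fin k → ℂ)))
    (ν := (MeasureTheory.volume : MeasureTheory.Measure ℝ))
    (p := fun (ξ : Fin k → ℂ) (l : ℝ) => w₁ + (l : ℂ) • ξ ∉ Z) hmeas).mp hae1
  have hae3 : ∀ᵐ (l : ℝ) ∂(MeasureTheory.volume : MeasureTheory.Measure ℝ), l ≠ 0 := by
    rw [MeasureTheory.ae_iff]
    simp
  obtain ⟨l, hl1, hl2⟩ := (hae2.and hae3).exists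
  rw [MeasureTheory.ae_iff] at hl1
  have hset : {ξ : Fin k → ℂ | ¬ (w₁ + (l : ℂ) • ξ ∉ Z)} =
      (fun ξ => l • ξ) ⁻¹' ((fun ξ => w₁ + ξ) ⁻¹' Z) := by
    ext ξ
    simp only [Set.mem_ofPred_eq, not_not, Set.mem_preimage]
    have : (l : ℂ) • ξ = l • ξ := by
      ext i
      simp
    rw [this]
  rw [hset, MeasureTheory.Measure.addHaar_preimage_smul _ hl2,
    MeasureTheory.measure_preimage_add] at hl1
  rcases mul_eq_zero.mp hl1 with h | h
  · exfalso
    rw [ENNReal.ofReal_eq_zero] at h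
    have hpos : 0 < |(l ^ Module.finrank ℝ (Fin k → ℂ))⁻¹| :=
      abs_pos.mpr (inv_ne_zero (pow_ne_zero _ hl2))
    linarith
  · exact h

/-- Identity theorem for sets of positive measure. -/
theorem identity_pos {k : ℕ} {D : (Fin k → ℂ) → ℂ} {w₀ : Fin k → ℂ} {ρ : ℝ}
    (hD : DifferentiableOn ℂ D (Metric.ball w₀ ρ))
    (hpos : MeasureTheory.volume {w : Fin k → ℂ | w ∈ Metric.ball w₀ ρ ∧ D w = 0} ≠ 0) :
    ∀ w ∈ Metric.ball w₀ ρ, D w = 0 := by
  intro w hw
  by_contra hne
  exact hpos (zero_null_of_convex Metric.isOpen_ball (convex_ball w₀ ρ) hD ⟨w, hw, hne⟩)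

end MP6feb
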