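import Pool.Agent.Lib.MP_6febbd_ag.Defs

set_option autoImplicit false

open scoped Matrix.Norms.Elementwise Real
open Complex Matrix

noncomputable section

namespace MP6feb

/-- contribution of a zero -/
private def phj (u : ℂ) (s : ℝ) : ℝ := if u = 0 then s else max 0 (s - Real.log ‖u‖)

private lemma phj_mono (u : ℂ) : Monotone (phj u) := by
  intro s t hst
  unfold phj
  split_ifs
  · exact hst
  · exact max_le_max le_rfl (by linarith)

private lemma phj_convex (u : ℂ) {x y a b : ℝ} (ha : 0 ≤ a) (hb : 0 ≤ b) (hab : a + b = 1) :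
    phj u (a * x + b * y) ≤ a * phj u x + b * phj u y := by
  unfold phj
  split_ifs
  · exact le_rfl
  · apply max_le
    · exact add_nonneg (mul_nonneg ha (le_max_left _ _)) (mul_nonneg hb (le_max_left _ _))
    · have h1 : a * (x - Real.log ‖u‖) ≤ a * max 0 (x - Real.log ‖u‖) :=
        mul_le_mul_of_nonneg_left (le_max_right _ _) ha
      have h2 : b * (y - Real.log ‖u‖) ≤ b * max 0 (y - Real.log ‖u‖) :=
        mul_le_mul_of_nonneg_left (le_max_right _ _) hb
      have h3 : a * x + b * y - Real.log ‖u‖ =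
          a * (x - Real.log ‖u‖) + b * (y - Real.log ‖u‖) := by
        have : b = 1 - a := by linarith
        subst this
        ring
      linarith

/-- Jensen's formula with a fixed finite set of zeros -/
private lemma key {f : ℂ → ℂ} (hf : Differentiable ℂ f) (S : ℝ) :
    ∃ F : Finset ℂ, (0 : ℂ) ∈ F ∧ ∀ s ≤ S, Mc f s =
      ∑ u ∈ F, (((analyticOrderAt f u).map ((↑) : ℕ → ℤ)).untop₀ : ℝ) * phj u s +
        Real.log ‖meromorphicTrailingCoeffAt f 0‖ := by
  classical
  have hA : ∀ U : Set ℂ, AnalyticOnNhd ℂ f U := fun U x _ => hf.analyticAt x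
  set ord : ℂ → ℤ := fun u => ((analyticOrderAt f u).map ((↑) : ℕ → ℤ)).untop₀ with hord
  have hdiv : ∀ (s : ℝ) (u : ℂ), MeromorphicOn.divisor f (Metric.closedBall 0 (Real.exp s)) u =
      if ‖u‖ ≤ Real.exp s then ord u else 0 := by
    intro s u
    split_ifs with h
    · exact MeromorphicOn.AnalyticOnNhd.divisor_apply (hA _) (by simpa using h)
    · apply Function.locallyFinsuppWithin.apply_eq_zero_of_notMem
      simpa using h
  have hfin := (MeromorphicOn.divisor f (Metric.closedBall 0 (Real.exp S))).finiteSupport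
    (isCompact_closedBall 0 (Real.exp S))
  refine ⟨insert 0 hfin.toFinset, Finset.mem_insert_self _ _, ?_⟩
  intro s hs
  have hexp : Real.exp s ≤ Real.exp S := Real.exp_le_exp.mpr hs
  have hJ := MeromorphicOn.circleAverage_log_norm (c := 0) (R := Real.exp s) (f := f)
    (Real.exp_ne_zero s) (AnalyticOnNhd.meromorphicOn (hA _))
  rw [abs_of_pos (Real.exp_pos s)] at hJ
  unfold Mc
  rw [hJ, Real.log_exp]
  congr 1
  have hsub : (Function.support fun u =>
      ((MeromorphicOn.divisor f (Metric.closedBall 0 (Real.exp s)) u : ℤ) : ℝ) *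
        Real.log (Real.exp s * ‖0 - u‖⁻¹)) ⊆ (hfin.toFinset.erase 0 : Finset ℂ) := by
    intro u hu
    rw [Function.mem_support] at hu
    have hu0 : u ≠ 0 := by
      rintro rfl
      apply hu
      simp
    have hu1 : MeromorphicOn.divisor f (Metric.closedBall 0 (Real.exp s)) u ≠ 0 := by
      intro h
      apply hu
      rw [h]
      simp
    rw [Finset.coe_erase]
    refine ⟨?_, hu0⟩
    rw [Set.Finite.coe_toFinset, Function.mem_support]
    rw [hdiv] at hu1 ⊢
    split_ifs at hu1 with h1
    · rw [if_pos (h1.trans hexp)]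
      exact hu1
    · exact absurd rfl hu1
  rw [finsum_eq_sum_of_support_subset _ hsub, ← Finset.add_sum_erase (insert 0 hfin.toFinset) _
    (Finset.mem_insert_self 0 _), add_comm]
  congr 1
  · rw [hdiv, if_pos (by rw [norm_zero]; exact (Real.exp_pos s).le)]
    unfold phj
    rw [if_pos rfl]
  · rw [Finset.erase_insert_eq_erase]
    apply Finset.sum_congr rfl
    intro u hu
    have hu0 : u ≠ 0 := (Finset.mem_erase.mp hu).1
    have hnu : 0 < ‖u‖ := norm_pos_iff.mpr hu0
    rw [hdiv, zero_sub, norm_neg]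
    unfold phj
    rw [if_neg hu0]
    split_ifs with h1
    · congr 1
      have h2 : Real.log ‖u‖ ≤ s := by
        rw [← Real.log_exp s]
        exact Real.log_le_log hnu h1
      rw [Real.log_mul (Real.exp_ne_zero s) (inv_ne_zero hnu.ne'), Real.log_exp, Real.log_inv,
        max_eq_right (by linarith)]
      ring
    · have h2 : s < Real.log ‖u‖ := by
        rw [Real.lt_log_iff_exp_lt hnu]
        exact not_le.mp h1
      rw [max_eq_left (by linarith)]
      simp

private lemma ord_nonneg (f : ℂ → ℂ) (u : ℂ) :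
    (0 : ℝ) ≤ (((analyticOrderAt f u).map ((↑) : ℕ → ℤ)).untop₀ : ℝ) := by
  have : (0 : ℤ) ≤ ((analyticOrderAt f u).map ((↑) : ℕ → ℤ)).untop₀ := by
    induction analyticOrderAt f u using ENat.recTopCoe with
    | top => exact le_rfl
    | coe n => exact Int.natCast_nonneg n
  exact_mod_cast this

/-- Circle means of `log |f|`, as a function of the logarithm `s` of the radius, are
convex. Proof: for `s ≤ s₁` Jensen's formula (`MeromorphicOn.circleAverage_log_norm` on the
ball of radius `exp s`, whose divisor is the restriction of the divisor on the ball of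
radius `exp s₁`) gives
`Mc f s = ∑_u D(u) max(0, s - log‖u‖) + D(0) s + const`, with `D ≥ 0` finitely supported and
independent of `s`; a sum of convex functions. If `f = 0` everything is `0`. -/
theorem Mc_convex {f : ℂ → ℂ} (hf : Differentiable ℂ f) :
    ConvexOn ℝ Set.univ (Mc f) := by
  refine ⟨convex_univ, ?_⟩
  intro x _ y _ a b ha hb hab
  obtain ⟨F, _, hF⟩ := key hf (max x y)
  have h1 : a • x + b • y ≤ max x y := by
    simp only [smul_eq_mul]
    calc a * x + b * y ≤ a * max x y + b * max x y :=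
        add_le_add (mul_le_mul_of_nonneg_left (le_max_left _ _) ha)
          (mul_le_mul_of_nonneg_left (le_max_right _ _) hb)
      _ = max x y := by rw [← add_mul, hab, one_mul]
  rw [hF _ h1, hF x (le_max_left _ _), hF y (le_max_right _ _)]
  simp only [smul_eq_mul]
  set K := Real.log ‖meromorphicTrailingCoeffAt f 0‖
  have h2 : ∑ u ∈ F, (((analyticOrderAt f u).map ((↑) : ℕ → ℤ)).untop₀ : ℝ) *
      phj u (a * x + b * y) ≤
      a * (∑ u ∈ F, (((analyticOrderAt f u).map ((↑) : ℕ → ℤ)).untop₀ : ℝ) * phj u x) +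
      b * (∑ u ∈ F, (((analyticOrderAt f u).map ((↑) : ℕ → ℤ)).untop₀ : ℝ) * phj u y) := by
    rw [Finset.mul_sum, Finset.mul_sum, ← Finset.sum_add_distrib]
    apply Finset.sum_le_sum
    intro u _
    calc _ ≤ (((analyticOrderAt f u).map ((↑) : ℕ → ℤ)).untop₀ : ℝ) *
          (a * phj u x + b * phj u y) :=
          mul_le_mul_of_nonneg_left (phj_convex u ha hb hab) (ord_nonneg f u)
      _ = _ := by ring
  have h3 : K = a * K + b * K := by rw [← add_mul, hab, one_mul]
  calc _ ≤ a * (∑ u ∈ F, (((analyticOrderAt f u).map ((↑) : ℕ → ℤ)).untop₀ : ℝ) * phj u x) +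
      b * (∑ u ∈ F, (((analyticOrderAt f u).map ((↑) : ℕ → ℤ)).untop₀ : ℝ) * phj u y) + K :=
        add_le_add_left h2 K
    _ = _ := by linear_combination h3

theorem Mc_mono {f : ℂ → ℂ} (hf : Differentiable ℂ f) : Monotone (Mc f) := by
  intro x y hxy
  obtain ⟨F, _, hF⟩ := key hf y
  rw [hF x hxy, hF y le_rfl]
  apply add_le_add_left
  apply Finset.sum_le_sum
  intro u _
  exact mul_le_mul_of_nonneg_left (phj_mono u hxy) (ord_nonneg f u)

/-- If `f 0 = 0` and `f` is not identically zero the slope is at least one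
(`D(0) ≥ 1`). -/
theorem Mc_zero {f : ℂ → ℂ} (hf : Differentiable ℂ f) (h0 : f 0 = 0)
    (hne : ∃ z, f z ≠ 0) {s t : ℝ} (hst : s ≤ t) : t - s ≤ Mc f t - Mc f s := by
  obtain ⟨F, hF0, hF⟩ := key hf t
  have hord : (1 : ℝ) ≤ (((analyticOrderAt f 0).map ((↑) : ℕ → ℤ)).untop₀ : ℝ) := by
    have h1 : analyticOrderAt f 0 ≠ 0 := by
      intro h
      exact (hf.analyticAt 0).analyticOrderAt_eq_zero.mp h h0
    have h2 : analyticOrderAt f 0 ≠ ⊤ := by
      intro h
      rw [analyticOrderAt_eq_top] at h
      obtain ⟨z, hz⟩ := hne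
      have hA : AnalyticOnNhd ℂ f Set.univ := fun x _ => hf.analyticAt x
      exact hz (hA.eqOn_zero_of_preconnected_of_eventuallyEq_zero isPreconnected_univ
        (Set.mem_univ 0) h (Set.mem_univ z))
    have h3 : (1 : ℤ) ≤ ((analyticOrderAt f 0).map ((↑) : ℕ → ℤ)).untop₀ := by
      revert h1 h2
      induction analyticOrderAt f 0 using ENat.recTopCoe with
      | top => intro _ h; exact absurd rfl h
      | coe n =>
        intro h _
        have hn : n ≠ 0 := by
          rintro rfl
          exact h rfl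
        change (1 : ℤ) ≤ (n : ℤ)
        omega
    exact_mod_cast h3
  rw [hF t le_rfl, hF s hst, add_sub_add_right_eq_sub, ← Finset.sum_sub_distrib]
  calc t - s = 1 * (phj 0 t - phj 0 s) := by
        unfold phj
        rw [if_pos rfl, if_pos rfl, one_mul]
    _ ≤ (((analyticOrderAt f 0).map ((↑) : ℕ → ℤ)).untop₀ : ℝ) * (phj 0 t - phj 0 s) :=
        mul_le_mul_of_nonneg_right hord (sub_nonneg.mpr (phj_mono 0 hst))
    _ = (((analyticOrderAt f 0).map ((↑) : ℕ → ℤ)).untop₀ : ℝ) * phj 0 t -
        (((analyticOrderAt f 0).map ((↑) : ℕ → ℤ)).untop₀ : ℝ) * phj 0 s := by ring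
    _ ≤ _ := by
        apply Finset.single_le_sum (f := fun u =>
          (((analyticOrderAt f u).map ((↑) : ℕ → ℤ)).untop₀ : ℝ) * phj u t -
          (((analyticOrderAt f u).map ((↑) : ℕ → ℤ)).untop₀ : ℝ) * phj u s) _ hF0
        intro u _
        rw [← mul_sub]
        exact mul_nonneg (ord_nonneg f u) (sub_nonneg.mpr (phj_mono u hst))

/-- Jensen's inequality. -/
theorem Mc_ge {f : ℂ → ℂ} (hf : Differentiable ℂ f) (h0 : f 0 ≠ 0) (s : ℝ) :
    Real.log ‖f 0‖ ≤ Mc f s := by
  obtain ⟨F, _, hF⟩ := key hf s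
  rw [hF s le_rfl, (hf.analyticAt 0).meromorphicTrailingCoeffAt_of_ne_zero h0]
  apply le_add_of_nonneg_left
  apply Finset.sum_nonneg
  intro u _
  by_cases hu : u = 0
  · subst hu
    rw [(hf.analyticAt 0).analyticOrderAt_eq_zero.mpr h0]
    simp
  · unfold phj
    rw [if_neg hu]
    exact mul_nonneg (ord_nonneg f u) (le_max_left _ _)

end MP6feb
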