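import Pool.Agent.Lib.MP_6febbd_ag.Defs
import Pool.Agent.Lib.MP_6febbd_ag.J1D
import Pool.Agent.Lib.MP_6febbd_ag.Kap

set_option autoImplicit false

open scoped Matrix.Norms.Elementwise Real
open Complex Matrix

noncomputable section

namespace MP6feb

private theorem li_rot {ι : Type} [Fintype ι] (u : ℂ) (hu : ‖u‖ = 1) :
    MeasureTheory.MeasurePreserving (fun ξ : ι → ℂ => u • ξ) MeasureTheory.volume
      MeasureTheory.volume := by
  have h1 : MeasureTheory.MeasurePreserving (fun z : ℂ => u * z) MeasureTheory.volume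
      MeasureTheory.volume :=
    (rotation ⟨u, mem_sphere_zero_iff_norm.2 hu⟩).measurePreserving
  exact MeasureTheory.volume_preserving_pi (fun _ : ι => h1)

private theorem li_circ {f : ℂ → ℂ} (hf : Differentiable ℂ f) (h0 : f 0 ≠ 0) (b : ℝ)
    (hb0 : 0 ≤ b) (hb : ∀ z : ℂ, ‖z‖ = 1 → Real.log ‖f z‖ ≤ b) :
    ∫⁻ θ in Set.Ioc (0 : ℝ) (2 * π), ENNReal.ofReal |Real.log ‖f (circleMap 0 1 θ)‖| ≤
      ENNReal.ofReal (2 * π * (2 * b - Real.log ‖f 0‖)) := by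
  have hmer : MeromorphicOn f (Metric.sphere 0 |(1 : ℝ)|) := fun z _ =>
    (hf.analyticAt z).meromorphicAt
  have hci : CircleIntegrable (fun z => Real.log ‖f z‖) 0 1 := hmer.circleIntegrable_log_norm
  have hii : IntervalIntegrable (fun θ => Real.log ‖f (circleMap 0 1 θ)‖) MeasureTheory.volume 0
      (2 * π) := hci
  have hpi : (0 : ℝ) ≤ 2 * π := by positivity
  have hio : MeasureTheory.IntegrableOn (fun θ => Real.log ‖f (circleMap 0 1 θ)‖)
      (Set.Ioc 0 (2 * π)) := (intervalIntegrable_iff_integrableOn_Ioc_of_le hpi).mp hii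
  rw [← MeasureTheory.ofReal_integral_eq_lintegral_ofReal hio.abs
    (Filter.Eventually.of_forall (fun θ => abs_nonneg _))]
  apply ENNReal.ofReal_le_ofReal
  have hnorm : ∀ θ : ℝ, ‖circleMap 0 1 θ‖ = 1 := by
    intro θ
    simp
  have h1 : ∫ θ in Set.Ioc (0 : ℝ) (2 * π), |Real.log ‖f (circleMap 0 1 θ)‖| ≤
      ∫ θ in Set.Ioc (0 : ℝ) (2 * π), (2 * b - Real.log ‖f (circleMap 0 1 θ)‖) := by
    refine MeasureTheory.integral_mono hio.abs ?_ (fun θ => ?_)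
    · exact (MeasureTheory.integrable_const _).sub hio
    · have h2 := hb (circleMap 0 1 θ) (hnorm θ)
      rcases abs_cases (Real.log ‖f (circleMap 0 1 θ)‖) with ⟨h3, _⟩ | ⟨h3, _⟩ <;>
        simp only [h3] <;> linarith
  refine le_trans h1 ?_
  rw [MeasureTheory.integral_sub (MeasureTheory.integrable_const _) hio,
    MeasureTheory.setIntegral_const, ← intervalIntegral.integral_of_le hpi]
  have h4 := Mc_ge hf h0 0
  unfold Mc at h4
  rw [Real.exp_zero, Real.circleAverage_def, smul_eq_mul] at h4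
  have h5 : Real.log ‖f 0‖ * (2 * π) ≤
      ∫ θ in (0 : ℝ)..2 * π, Real.log ‖f (circleMap 0 1 θ)‖ := by
    have h6 := mul_le_mul_of_nonneg_right h4 hpi
    have h7 : (2 * π)⁻¹ * (∫ θ in (0 : ℝ)..2 * π, Real.log ‖f (circleMap 0 1 θ)‖) * (2 * π) =
        ∫ θ in (0 : ℝ)..2 * π, Real.log ‖f (circleMap 0 1 θ)‖ := by
      have : (2 * π) ≠ 0 := by positivity
      field_simp
    linarith
  simp only [MeasureTheory.measureReal_def, Real.volume_Ioc, sub_zero, smul_eq_mul]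
  rw [ENNReal.toReal_ofReal hpi]
  linarith

/-- the case of a function which does not vanish at the origin -/
private theorem li_main {ι : Type} [Fintype ι] {G : (ι → ℂ) → ℂ} (hG : Differentiable ℂ G)
    {C : ℝ} (hC : 0 ≤ C) (hgr : ∀ z, ‖G z‖ ≤ Real.exp (C * (1 + ‖z‖) ^ 2)) (h0 : G 0 ≠ 0)
    {c : ℝ} (hc : 0 < c) :
    MeasureTheory.Integrable (fun z : ι → ℂ =>
      Real.log ‖G z‖ * Real.exp (-(c * ∑ i, ‖z i‖ ^ 2))) := by
  have hGc : Continuous G := hG.continuous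
  have hlogle : ∀ z, Real.log ‖G z‖ ≤ C * (1 + ‖z‖) ^ 2 := by
    intro z
    have hnn : 0 ≤ C * (1 + ‖z‖) ^ 2 := by positivity
    rcases eq_or_ne (G z) 0 with h | h
    · rw [h, norm_zero, Real.log_zero]
      exact hnn
    · rw [Real.log_le_iff_le_exp (norm_pos_iff.mpr h)]
      exact hgr z
  have hmeas : Measurable (fun z : ι → ℂ => Real.log ‖G z‖ *
      Real.exp (-(c * ∑ i, ‖z i‖ ^ 2))) := by
    have m1 : Measurable (fun z : ι → ℂ => Real.log ‖G z‖) :=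
      Real.measurable_log.comp hGc.norm.measurable
    have m2 : Measurable (fun z : ι → ℂ => Real.exp (-(c * ∑ i, ‖z i‖ ^ 2))) := by
      refine Continuous.measurable ?_
      fun_prop
    exact m1.mul m2
  refine ⟨hmeas.aestronglyMeasurable, ?_⟩
  rw [MeasureTheory.hasFiniteIntegral_iff_norm]
  set Hf : (ι → ℂ) → ENNReal := fun z =>
    ENNReal.ofReal (|Real.log ‖G z‖| * Real.exp (-(c * ∑ i, ‖z i‖ ^ 2))) with hHf
  have hHm : Measurable Hf := by
    have m1 : Measurable (fun z : ι → ℂ => Real.log ‖G z‖) :=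
      Real.measurable_log.comp hGc.norm.measurable
    have m2 : Measurable (fun z : ι → ℂ => Real.exp (-(c * ∑ i, ‖z i‖ ^ 2))) := by
      refine Continuous.measurable ?_
      fun_prop
    exact (((measurable_norm.comp m1)).mul m2).ennreal_ofReal
  have e0 : ∫⁻ a : ι → ℂ, ENNReal.ofReal ‖Real.log ‖G a‖ * Real.exp (-(c * ∑ i, ‖a i‖ ^ 2))‖ =
      ∫⁻ z, Hf z := by
    refine MeasureTheory.lintegral_congr (fun z => ?_)
    rw [norm_mul, Real.norm_eq_abs, Real.norm_eq_abs, abs_of_pos (Real.exp_pos _)]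
  rw [e0]
  -- the rotated double integral
  have hrot : ∀ θ : ℝ, ∫⁻ ξ : ι → ℂ, Hf ((circleMap 0 1 θ) • ξ) = ∫⁻ z, Hf z := by
    intro θ
    exact (li_rot (circleMap 0 1 θ) (by simp)).lintegral_comp hHm
  have hdouble : ∫⁻ θ in Set.Ioc (0 : ℝ) (2 * π), ∫⁻ ξ : ι → ℂ, Hf ((circleMap 0 1 θ) • ξ) =
      (∫⁻ z, Hf z) * ENNReal.ofReal (2 * π) := by
    simp only [hrot]
    rw [MeasureTheory.setLIntegral_const, Real.volume_Ioc, sub_zero]
  have hswap : ∫⁻ θ in Set.Ioc (0 : ℝ) (2 * π), ∫⁻ ξ : ι → ℂ, Hf ((circleMap 0 1 θ) • ξ) =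
      ∫⁻ ξ : ι → ℂ, ∫⁻ θ in Set.Ioc (0 : ℝ) (2 * π), Hf ((circleMap 0 1 θ) • ξ) := by
    refine MeasureTheory.lintegral_lintegral_swap ?_
    refine Measurable.aemeasurable ?_
    refine hHm.comp ?_
    refine Continuous.measurable ?_
    have hcm : Continuous (circleMap 0 1) := continuous_circleMap 0 1
    fun_prop
  have hinner : ∀ ξ : ι → ℂ, ∫⁻ θ in Set.Ioc (0 : ℝ) (2 * π), Hf ((circleMap 0 1 θ) • ξ) ≤
      ENNReal.ofReal ((4 * π * C + 2 * π * |Real.log ‖G 0‖|) * ((1 + ‖ξ‖) ^ 2 *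
        Real.exp (-(c * ∑ i, ‖ξ i‖ ^ 2)))) := by
    intro ξ
    have hnr : ∀ u : ℂ, ‖u‖ = 1 → ∀ i, ‖(u • ξ) i‖ = ‖ξ i‖ := by
      intro u hu i
      rw [Pi.smul_apply, smul_eq_mul, norm_mul, hu, one_mul]
    have h1 : ∀ θ : ℝ, Hf ((circleMap 0 1 θ) • ξ) =
        ENNReal.ofReal |Real.log ‖G ((circleMap 0 1 θ) • ξ)‖| *
          ENNReal.ofReal (Real.exp (-(c * ∑ i, ‖ξ i‖ ^ 2))) := by
      intro θ
      rw [hHf]
      simp only [hnr (circleMap 0 1 θ) (by simp)]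
      rw [ENNReal.ofReal_mul (abs_nonneg _)]
    simp only [h1]
    rw [MeasureTheory.lintegral_mul_const']
    · set f : ℂ → ℂ := fun l => G (l • ξ) with hfdef
      have hfd : Differentiable ℂ f := by
        intro l
        have : DifferentiableAt ℂ (fun l : ℂ => l • ξ) l := by fun_prop
        exact (hG (l • ξ)).comp l this
      have hf0 : f 0 = G 0 := by
        simp [hfdef]
      have h2 := li_circ (f := f) hfd (by rw [hf0]; exact h0) (C * (1 + ‖ξ‖) ^ 2)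
        (by positivity) (fun z hz => by
          have h3 := hlogle (z • ξ)
          rwa [norm_smul, hz, one_mul] at h3)
      rw [hf0] at h2
      refine le_trans (mul_le_mul_left h2 _) ?_
      rw [← ENNReal.ofReal_mul' (Real.exp_pos _).le]
      apply ENNReal.ofReal_le_ofReal
      have h4 : 2 * π * (2 * (C * (1 + ‖ξ‖) ^ 2) - Real.log ‖G 0‖) ≤
          (4 * π * C + 2 * π * |Real.log ‖G 0‖|) * (1 + ‖ξ‖) ^ 2 := by
        have h5 : -Real.log ‖G 0‖ ≤ |Real.log ‖G 0‖| := neg_le_abs _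
        have h6 : (1 : ℝ) ≤ (1 + ‖ξ‖) ^ 2 := by
          have := norm_nonneg ξ
          nlinarith
        have h7 : |Real.log ‖G 0‖| * 1 ≤ |Real.log ‖G 0‖| * (1 + ‖ξ‖) ^ 2 :=
          mul_le_mul_of_nonneg_left h6 (abs_nonneg _)
        have h8 : 0 ≤ π := Real.pi_pos.le
        nlinarith
      refine le_trans (mul_le_mul_of_nonneg_right h4 (Real.exp_pos _).le) (le_of_eq ?_)
      ring
    · exact ENNReal.ofReal_ne_top
  have hfin : ∫⁻ ξ : ι → ℂ, ENNReal.ofReal ((4 * π * C + 2 * π * |Real.log ‖G 0‖|) *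
      ((1 + ‖ξ‖) ^ 2 * Real.exp (-(c * ∑ i, ‖ξ i‖ ^ 2)))) < ⊤ := by
    have hI := ((gauss_integrable (ι := ι) hc 2).const_mul
      (4 * π * C + 2 * π * |Real.log ‖G 0‖|))
    exact hI.lintegral_lt_top
  have hlt : (∫⁻ z, Hf z) * ENNReal.ofReal (2 * π) < ⊤ := by
    rw [← hdouble, hswap]
    exact lt_of_le_of_lt (MeasureTheory.lintegral_mono hinner) hfin
  by_contra hcon
  rw [not_lt, top_le_iff] at hcon
  rw [hcon, ENNReal.top_mul (by
    rw [Ne, ENNReal.ofReal_eq_zero, not_le]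
    positivity)] at hlt
  exact lt_irrefl _ hlt

/-- Integrability of `log |F|` against Gaussians. Proof. `log⁺|F z| ≤ C(1+‖z‖²)` is
integrable against every Gaussian. Choose `w'` with `F w' ≠ 0`; by `Mc_ge` applied to
`λ ↦ F(w' + λξ)` the circle mean of `log⁻|F(w'+e^{iφ}ξ)|` is at most the circle mean of
`log⁺` minus `log|F w'|`, i.e. at most `C(1+(‖w'‖+‖ξ‖)²) - log|F w'|`. By Tonelli and
invariance of Lebesgue measure and of the Gaussian under `ξ ↦ e^{iφ}ξ` the integral of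
`log⁻|F(w'+ξ)| exp(-c'|ξ|²)` is finite for all `c' > 0`; finally
`exp(-c|z|²) ≤ C exp(-(c/2)|z-w'|²)`. -/
theorem log_integrable {ι : Type} [Fintype ι] {F : (ι → ℂ) → ℂ} (hF : Adm F) {c : ℝ}
    (hc : 0 < c) :
    MeasureTheory.Integrable (fun z : ι → ℂ =>
      Real.log ‖F z‖ * Real.exp (-(c * ∑ i, ‖z i‖ ^ 2))) := by
  obtain ⟨w, hw⟩ := hF.nz
  obtain ⟨C, hC⟩ := hF.growth
  have hG : Differentiable ℂ (fun ξ : ι → ℂ => F (w + ξ)) := by
    intro ξ
    have : DifferentiableAt ℂ (fun ξ : ι → ℂ => w + ξ) ξ := by fun_prop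
    exact (hF.diff (w + ξ)).comp ξ this
  have hw0 : 0 ≤ ‖w‖ := norm_nonneg w
  have hgr : ∀ ξ : ι → ℂ, ‖F (w + ξ)‖ ≤
      Real.exp ((|C| * (1 + ‖w‖) ^ 2) * (1 + ‖ξ‖) ^ 2) := by
    intro ξ
    refine le_trans (hC (w + ξ)) (Real.exp_le_exp.mpr ?_)
    have h1 : ‖w + ξ‖ ≤ ‖w‖ + ‖ξ‖ := norm_add_le w ξ
    have h0 : 0 ≤ ‖ξ‖ := norm_nonneg ξ
    have h2 : 1 + ‖w + ξ‖ ^ 2 ≤ ((1 + ‖w‖) * (1 + ‖ξ‖)) ^ 2 := by
      have h3 : ‖w + ξ‖ ^ 2 ≤ (‖w‖ + ‖ξ‖) ^ 2 := by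
        have := norm_nonneg (w + ξ)
        gcongr
      have h4 : (1 : ℝ) + (‖w‖ + ‖ξ‖) ^ 2 ≤ (1 + ‖w‖ + ‖ξ‖) ^ 2 := by nlinarith
      have h5 : (1 + ‖w‖ + ‖ξ‖) ≤ (1 + ‖w‖) * (1 + ‖ξ‖) := by nlinarith [mul_nonneg hw0 h0]
      have h6 : (1 + ‖w‖ + ‖ξ‖) ^ 2 ≤ ((1 + ‖w‖) * (1 + ‖ξ‖)) ^ 2 := by
        have : 0 ≤ 1 + ‖w‖ + ‖ξ‖ := by linarith
        gcongr
      linarith
    calc C * (1 + ‖w + ξ‖ ^ 2) ≤ |C| * (1 + ‖w + ξ‖ ^ 2) :=
          mul_le_mul_of_nonneg_right (le_abs_self C) (by positivity)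
      _ ≤ |C| * ((1 + ‖w‖) * (1 + ‖ξ‖)) ^ 2 := mul_le_mul_of_nonneg_left h2 (abs_nonneg C)
      _ = _ := by ring
  have hmain := li_main hG (C := |C| * (1 + ‖w‖) ^ 2) (by positivity) hgr
    (by simpa using hw) (half_pos hc)
  -- translate
  have htr : MeasureTheory.Integrable (fun z : ι → ℂ =>
      Real.log ‖F z‖ * Real.exp (-(c / 2 * ∑ i, ‖z i - w i‖ ^ 2))) := by
    rw [← (MeasureTheory.measurePreserving_add_left (MeasureTheory.volume : MeasureTheory.Measure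
      (ι → ℂ)) w).integrable_comp_emb (MeasurableEquiv.addLeft w).measurableEmbedding]
    refine hmain.congr (Filter.Eventually.of_forall (fun x => ?_))
    simp only [Function.comp_apply, Pi.add_apply, add_sub_cancel_left]
  have hdom := (htr.norm.const_mul (Real.exp (c * ∑ i, ‖w i‖ ^ 2)))
  have hFc : Continuous F := hF.diff.continuous
  refine hdom.mono' ?_ (Filter.Eventually.of_forall (fun z => ?_))
  · have m1 : Measurable (fun z : ι → ℂ => Real.log ‖F z‖) :=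
      Real.measurable_log.comp hFc.norm.measurable
    have m2 : Measurable (fun z : ι → ℂ => Real.exp (-(c * ∑ i, ‖z i‖ ^ 2))) := by
      refine Continuous.measurable ?_
      fun_prop
    exact (m1.mul m2).aestronglyMeasurable
  · rw [norm_mul, norm_mul, Real.norm_eq_abs (Real.exp _), Real.norm_eq_abs (Real.exp _),
      abs_of_pos (Real.exp_pos _), abs_of_pos (Real.exp_pos _), mul_left_comm, ← Real.exp_add]
    refine mul_le_mul_of_nonneg_left (Real.exp_le_exp.mpr ?_) (norm_nonneg _)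
    have h1 : ∑ i, ‖z i - w i‖ ^ 2 ≤ ∑ i, (2 * ‖z i‖ ^ 2 + 2 * ‖w i‖ ^ 2) := by
      refine Finset.sum_le_sum (fun i _ => ?_)
      have h2 : ‖z i - w i‖ ≤ ‖z i‖ + ‖w i‖ := norm_sub_le _ _
      have h3 : 0 ≤ ‖z i - w i‖ := norm_nonneg _
      nlinarith [sq_nonneg (‖z i‖ - ‖w i‖)]
    rw [Finset.sum_add_distrib, ← Finset.mul_sum, ← Finset.mul_sum] at h1
    nlinarith

end MP6feb
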