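import Pool.Agent.Lib.MP_6febbd_ag.Defs
import Pool.Agent.Lib.MP_6febbd_ag.LIa
import Pool.Agent.Lib.MP_6febbd_ag.Kap
import Pool.Agent.Lib.MP_6febbd_ag.IDn

set_option autoImplicit false

open scoped Matrix.Norms.Elementwise Real
open Complex Matrix

noncomputable section

namespace MP6feb

private theorem gauss_le {ι : Type} [Fintype ι] (w z : ι → ℂ) {t : ℝ} (ht : 0 < t) :
    Real.exp (-(π * (∑ i, ‖z i - w i‖ ^ 2) / t ^ 2)) ≤
      Real.exp (π * (∑ i, ‖w i‖ ^ 2) / t ^ 2) *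
        Real.exp (-(π / (2 * t ^ 2) * ∑ i, ‖z i‖ ^ 2)) := by
  rw [← Real.exp_add]
  apply Real.exp_le_exp.2
  have h1 : ∑ i, ‖z i‖ ^ 2 ≤ 2 * ∑ i, ‖z i - w i‖ ^ 2 + 2 * ∑ i, ‖w i‖ ^ 2 := by
    rw [Finset.mul_sum, Finset.mul_sum, ← Finset.sum_add_distrib]
    refine Finset.sum_le_sum fun i _ => ?_
    have h2 : ‖z i‖ ≤ ‖z i - w i‖ + ‖w i‖ := by
      simpa using norm_add_le (z i - w i) (w i)
    nlinarith [norm_nonneg (z i), norm_nonneg (z i - w i), norm_nonneg (w i),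
      sq_nonneg (‖z i - w i‖ - ‖w i‖)]
  have ht2 : 0 < t ^ 2 := by positivity
  have h3 : π * (∑ i, ‖z i‖ ^ 2) / (2 * t ^ 2) ≤
      π * (2 * ∑ i, ‖z i - w i‖ ^ 2 + 2 * ∑ i, ‖w i‖ ^ 2) / (2 * t ^ 2) := by
    gcongr
  have h4 : π * (2 * ∑ i, ‖z i - w i‖ ^ 2 + 2 * ∑ i, ‖w i‖ ^ 2) / (2 * t ^ 2) =
      π * (∑ i, ‖z i - w i‖ ^ 2) / t ^ 2 + π * (∑ i, ‖w i‖ ^ 2) / t ^ 2 := by
    field_simp
  have h5 : π / (2 * t ^ 2) * ∑ i, ‖z i‖ ^ 2 = π * (∑ i, ‖z i‖ ^ 2) / (2 * t ^ 2) := by ring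
  rw [h5]
  linarith

private theorem log_meas {ι : Type} [Fintype ι] {F : (ι → ℂ) → ℂ} (hF : Adm F) :
    Measurable (fun z : ι → ℂ => Real.log ‖F z‖) :=
  Real.measurable_log.comp hF.diff.continuous.norm.measurable

private theorem wm_int_aux {ι : Type} [Fintype ι] {F : (ι → ℂ) → ℂ} (hF : Adm F)
    (w : ι → ℂ) {t : ℝ} (ht : 0 < t) :
    MeasureTheory.Integrable (fun z : ι → ℂ =>
      Real.log ‖F z‖ * Real.exp (-(π * (∑ i, ‖z i - w i‖ ^ 2) / t ^ 2))) := by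
  have h1 := (log_integrable hF (c := π / (2 * t ^ 2)) (by positivity)).norm.const_mul
    (Real.exp (π * (∑ i, ‖w i‖ ^ 2) / t ^ 2))
  refine h1.mono' ?_ (Filter.Eventually.of_forall fun z => ?_)
  · refine ((log_meas hF).mul ?_).aestronglyMeasurable
    fun_prop
  · have h2 := gauss_le w z ht
    simp only [norm_mul, Real.norm_eq_abs, Real.abs_exp]
    calc _ ≤ |Real.log ‖F z‖| * (Real.exp (π * (∑ i, ‖w i‖ ^ 2) / t ^ 2) *
        Real.exp (-(π / (2 * t ^ 2) * ∑ i, ‖z i‖ ^ 2))) := by gcongr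
      _ = _ := by ring

/-- The form used for `Wm` (`gauss_scale_integrable` and
`exp(-π|z-w|²/t²) ≤ exp(π|w|²/t²) exp(-π|z|²/(2t²))`). -/
theorem Wm_integrable {ι : Type} [Fintype ι] {F : (ι → ℂ) → ℂ} (hF : Adm F)
    (w : ι → ℂ) {t : ℝ} (ht : 0 < t) :
    MeasureTheory.Integrable (fun ξ : ι → ℂ =>
      Real.log ‖F (w + (t : ℂ) • ξ)‖ * kap ξ) :=
  (gauss_scale_integrable (fun z => Real.log ‖F z‖) w ht).2 (wm_int_aux hF w ht)

/-- Uniform bound for `Wm` (`gauss_scale` and the same comparison of Gaussians with one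
fixed integral). -/
theorem Wm_bdd {ι : Type} [Fintype ι] {F : (ι → ℂ) → ℂ} (hF : Adm F) (R : ℝ) :
    ∃ C : ℝ, ∀ w : ι → ℂ, ‖w‖ ≤ R → ∀ t : ℝ, 1 ≤ t → t ≤ 6 → |Wm F w t| ≤ C := by
  have hI := log_integrable hF (c := π / 72) (by positivity)
  refine ⟨∫ z : ι → ℂ, Real.exp (π * (Fintype.card ι * R ^ 2)) *
    ‖Real.log ‖F z‖ * Real.exp (-(π / 72 * ∑ i, ‖z i‖ ^ 2))‖, ?_⟩
  intro w hw t ht1 ht6
  have ht : 0 < t := by linarith
  have h0 : Wm F w t = (t ^ (2 * Fintype.card ι))⁻¹ *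
        ∫ z : ι → ℂ, Real.log ‖F z‖ * Real.exp (-(π * (∑ i, ‖z i - w i‖ ^ 2) / t ^ 2)) :=
    gauss_scale (fun z => Real.log ‖F z‖) w ht
  have hw2 : ∑ i, ‖w i‖ ^ 2 ≤ Fintype.card ι * R ^ 2 := by
    calc ∑ i, ‖w i‖ ^ 2 ≤ ∑ _i : ι, R ^ 2 := by
          refine Finset.sum_le_sum fun i _ => ?_
          have := (norm_le_pi_norm w i).trans hw
          gcongr
      _ = _ := by simp
  have hR0 : 0 ≤ (Fintype.card ι : ℝ) * R ^ 2 := by positivity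
  have h1 : ‖∫ z : ι → ℂ, Real.log ‖F z‖ * Real.exp (-(π * (∑ i, ‖z i - w i‖ ^ 2) / t ^ 2))‖ ≤
      ∫ z : ι → ℂ, Real.exp (π * (Fintype.card ι * R ^ 2)) *
        ‖Real.log ‖F z‖ * Real.exp (-(π / 72 * ∑ i, ‖z i‖ ^ 2))‖ := by
    refine MeasureTheory.norm_integral_le_of_norm_le (hI.norm.const_mul _)
      (Filter.Eventually.of_forall fun z => ?_)
    have h2 := gauss_le w z ht
    have h3 : Real.exp (π * (∑ i, ‖w i‖ ^ 2) / t ^ 2) ≤
        Real.exp (π * (Fintype.card ι * R ^ 2)) := by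
      apply Real.exp_le_exp.2
      rw [div_le_iff₀ (by positivity)]
      have : (1 : ℝ) ≤ t ^ 2 := by nlinarith
      have h4 : π * (∑ i, ‖w i‖ ^ 2) ≤ π * (Fintype.card ι * R ^ 2) := by gcongr
      nlinarith [mul_nonneg Real.pi_pos.le hR0]
    have h5 : Real.exp (-(π / (2 * t ^ 2) * ∑ i, ‖z i‖ ^ 2)) ≤
        Real.exp (-(π / 72 * ∑ i, ‖z i‖ ^ 2)) := by
      apply Real.exp_le_exp.2
      apply neg_le_neg
      have h6 : 0 ≤ ∑ i, ‖z i‖ ^ 2 := Finset.sum_nonneg fun i _ => by positivity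
      gcongr
      nlinarith
    simp only [norm_mul, Real.norm_eq_abs, Real.abs_exp]
    calc _ ≤ |Real.log ‖F z‖| * (Real.exp (π * (∑ i, ‖w i‖ ^ 2) / t ^ 2) *
        Real.exp (-(π / (2 * t ^ 2) * ∑ i, ‖z i‖ ^ 2))) := by gcongr
      _ ≤ |Real.log ‖F z‖| * (Real.exp (π * (Fintype.card ι * R ^ 2)) *
        Real.exp (-(π / 72 * ∑ i, ‖z i‖ ^ 2))) := by gcongr
      _ = _ := by ring
  rw [h0, abs_mul, abs_of_pos (by positivity : (0 : ℝ) < (t ^ (2 * Fintype.card ι))⁻¹)]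
  have h7 : (t ^ (2 * Fintype.card ι))⁻¹ ≤ 1 := by
    apply inv_le_one_of_one_le₀
    exact one_le_pow₀ ht1
  rw [Real.norm_eq_abs] at h1
  calc _ ≤ 1 * |∫ z : ι → ℂ, Real.log ‖F z‖ *
        Real.exp (-(π * (∑ i, ‖z i - w i‖ ^ 2) / t ^ 2))| := by gcongr
    _ ≤ _ := by rw [one_mul]; exact h1

/-- The zero set is a null set. -/
theorem zero_null {k : ℕ} {F : (Fin k → ℂ) → ℂ} (hF : Adm F) :
    MeasureTheory.volume {z : Fin k → ℂ | F z = 0} = 0 := by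
  obtain ⟨z, hz⟩ := hF.nz
  have := zero_null_of_convex (V := Set.univ) isOpen_univ convex_univ hF.diff.differentiableOn
    ⟨z, Set.mem_univ _, hz⟩
  simpa using this

end MP6feb
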