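import Pool.Agent.Lib.MP_6febbd_ag.Defs
import Pool.Agent.Lib.MP_6febbd_ag.Kap

set_option autoImplicit false

open scoped Matrix.Norms.Elementwise Real
open Complex Matrix

noncomputable section

namespace MP6feb

private theorem mp_smul {ι : Type} [Fintype ι] {u : ℂ} (hu : ‖u‖ = 1) :
    MeasureTheory.MeasurePreserving (fun ξ : ι → ℂ => u • ξ) := by
  have h1 : MeasureTheory.MeasurePreserving (fun z : ℂ => u * z) := by
    have := (rotation ⟨u, mem_sphere_zero_iff_norm.2 hu⟩).measurePreserving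
    exact this
  exact MeasureTheory.volume_preserving_pi (fun _ => h1)

/-- Rotation by a unit complex number preserves the measure `kap`. -/
theorem kap_rotate {ι : Type} [Fintype ι] (h : (ι → ℂ) → ℝ) {u : ℂ} (hu : ‖u‖ = 1) :
    ∫ ξ : ι → ℂ, h (u • ξ) * kap ξ = ∫ ξ : ι → ℂ, h ξ * kap ξ := by
  have hu0 : u ≠ 0 := by
    rintro rfl
    simp at hu
  have hk : ∀ ξ : ι → ℂ, kap (u • ξ) = kap ξ := by
    intro ξ
    simp [kap, hu]
  have hemb : MeasurableEmbedding (fun ξ : ι → ℂ => u • ξ) :=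
    (Homeomorph.smulOfNeZero u hu0).measurableEmbedding
  have := (mp_smul hu).integral_comp hemb (fun ξ => h ξ * kap ξ)
  simpa only [hk] using this

/-- Integrability against `kap` is invariant under rotations. -/
theorem kap_rotate_integrable {ι : Type} [Fintype ι] (h : (ι → ℂ) → ℝ) {u : ℂ} (hu : ‖u‖ = 1)
    (hi : MeasureTheory.Integrable (fun ξ : ι → ℂ => h ξ * kap ξ)) :
    MeasureTheory.Integrable (fun ξ : ι → ℂ => h (u • ξ) * kap ξ) := by
  have hk : ∀ ξ : ι → ℂ, kap (u • ξ) = kap ξ := by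
    intro ξ
    simp [kap, hu]
  have := (mp_smul (ι := ι) hu).integrable_comp_of_integrable hi
  refine this.congr (Filter.Eventually.of_forall fun ξ => ?_)
  simp only [Function.comp_apply, hk]

private theorem shear_right {E : Type} [NormedAddCommGroup E] [NormedSpace ℝ E]
    [MeasurableSpace E] [BorelSpace E] [SecondCountableTopology E]
    (μ : MeasureTheory.Measure E) [MeasureTheory.SFinite μ] [μ.IsAddLeftInvariant] (s : ℝ) :
    MeasureTheory.MeasurePreserving (fun p : E × E => (p.1, s • p.1 + p.2)) (μ.prod μ)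
      (μ.prod μ) := by
  refine (MeasureTheory.MeasurePreserving.id μ).skew_product (g := fun x y => s • x + y) ?_ ?_
  · fun_prop
  · exact Filter.Eventually.of_forall fun x => (MeasureTheory.measurePreserving_add_left μ _).map_eq

private theorem shear_left {E : Type} [NormedAddCommGroup E] [NormedSpace ℝ E]
    [MeasurableSpace E] [BorelSpace E] [SecondCountableTopology E]
    (μ : MeasureTheory.Measure E) [MeasureTheory.SFinite μ] [μ.IsAddLeftInvariant] (s : ℝ) :
    MeasureTheory.MeasurePreserving (fun p : E × E => (s • p.2 + p.1, p.2)) (μ.prod μ)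
      (μ.prod μ) := by
  have h := (MeasureTheory.Measure.measurePreserving_swap (μ := μ) (ν := μ)).comp
    ((shear_right μ s).comp (MeasureTheory.Measure.measurePreserving_swap (μ := μ) (ν := μ)))
  exact h

private theorem rot_mp {E : Type} [NormedAddCommGroup E] [NormedSpace ℝ E]
    [MeasurableSpace E] [BorelSpace E] [SecondCountableTopology E]
    (μ : MeasureTheory.Measure E) [MeasureTheory.SFinite μ] [μ.IsAddLeftInvariant] {x y : ℝ}
    (hy : y ≠ 0) (hxy : x ^ 2 + y ^ 2 = 1) :
    MeasureTheory.MeasurePreserving (fun p : E × E => (x • p.1 + y • p.2, (-y) • p.1 + x • p.2))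
      (μ.prod μ) (μ.prod μ) := by
  have h := (shear_left μ ((1 - x) / y)).comp ((shear_right μ (-y)).comp
    (shear_left μ ((1 - x) / y)))
  convert h using 1
  funext p
  have e1 : (1 - x) / y * y = 1 - x := by field_simp
  have e2 : (1 - x) / y * (1 + x) = y := by
    field_simp
    linarith
  simp only [Function.comp_apply]
  refine Prod.ext ?_ ?_
  · simp only
    have : x • p.1 + y • p.2 = (1 - (1 - x) / y * y) • p.1 +
        ((1 - x) / y * (1 + (1 - (1 - x) / y * y))) • p.2 := by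
      rw [e1, show (1 : ℝ) + (1 - (1 - x)) = 1 + x by ring, e2]
      ring_nf
    rw [this]
    module
  · simp only
    have : (-y) • p.1 + x • p.2 = (-y) • p.1 + (1 - (1 - x) / y * y) • p.2 := by
      rw [e1]
      ring_nf
    rw [this]
    module

/-- The semigroup property. Proof: with `c = √(a²+t²)` the map
`(ξ, η) ↦ ((tξ+aη)/c, (-aξ+tη)/c)` of `ℂ^ι × ℂ^ι` preserves the volume and
`|ξ|² + |η|²` (`MeasureTheory.MeasurePreserving`, e.g. coordinatewise, or by the
determinant, or as a product of three shears). -/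
theorem kap_semigroup {ι : Type} [Fintype ι] (h : (ι → ℂ) → ℝ) {a t : ℝ} (ha : 0 < a)
    (ht : 0 < t)
    (hi : MeasureTheory.Integrable (fun ξ : ι → ℂ =>
      h ((Real.sqrt (t ^ 2 + a ^ 2) : ℂ) • ξ) * kap ξ)) :
    MeasureTheory.Integrable (fun η : ι → ℂ =>
      (∫ ξ : ι → ℂ, h ((a : ℂ) • η + (t : ℂ) • ξ) * kap ξ) * kap η) ∧
    ∫ η : ι → ℂ, (∫ ξ : ι → ℂ, h ((a : ℂ) • η + (t : ℂ) • ξ) * kap ξ) * kap η =
      ∫ ξ : ι → ℂ, h ((Real.sqrt (t ^ 2 + a ^ 2) : ℂ) • ξ) * kap ξ := by
  set c : ℝ := Real.sqrt (t ^ 2 + a ^ 2) with hc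
  have hc2 : c ^ 2 = t ^ 2 + a ^ 2 := Real.sq_sqrt (by positivity)
  have hc0 : 0 < c := Real.sqrt_pos.2 (by positivity)
  have hki : MeasureTheory.Integrable (fun ξ : ι → ℂ => kap ξ) := by
    have := gauss_integrable (ι := ι) Real.pi_pos 0
    simpa [kap] using this
  have hG := hi.mul_prod hki
  have hR := rot_mp (E := ι → ℂ) MeasureTheory.volume (x := t / c) (y := a / c)
    (by positivity) (by field_simp; linarith)
  rw [← MeasureTheory.Measure.volume_eq_prod] at hG hR
  have hGR := hR.integrable_comp_of_integrable hG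
  have hint : ∫ p : (ι → ℂ) × (ι → ℂ), h ((c : ℂ) • p.1) * kap p.1 * kap p.2 =
      ∫ p : (ι → ℂ) × (ι → ℂ), h ((c : ℂ) • ((t / c) • p.1 + (a / c) • p.2)) *
        kap ((t / c) • p.1 + (a / c) • p.2) * kap ((-(a / c)) • p.1 + (t / c) • p.2) := by
    conv_lhs => rw [← hR.map_eq]
    rw [MeasureTheory.integral_map hR.measurable.aemeasurable
      (by rw [hR.map_eq]; exact hG.aestronglyMeasurable)]
  have hkk : ∀ p : (ι → ℂ) × (ι → ℂ), kap ((t / c) • p.1 + (a / c) • p.2) *
      kap ((-(a / c)) • p.1 + (t / c) • p.2) = kap p.1 * kap p.2 := by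
    intro p
    simp only [kap, ← Real.exp_add, ← mul_add, ← neg_add, ← Finset.sum_add_distrib]
    congr 3
    refine Finset.sum_congr rfl fun i _ => ?_
    simp only [← Complex.normSq_eq_norm_sq, Pi.add_apply, Pi.smul_apply, Complex.normSq_apply,
      Complex.add_re, Complex.add_im, Complex.real_smul, Complex.mul_re, Complex.mul_im,
      Complex.ofReal_re, Complex.ofReal_im, Complex.ofReal_neg, Complex.neg_re, Complex.neg_im]
    have e1 : (t / c) ^ 2 + (a / c) ^ 2 = 1 := by field_simp; linarith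
    linear_combination (p.1 i).re ^ 2 * e1 + (p.1 i).im ^ 2 * e1 + (p.2 i).re ^ 2 * e1 +
      (p.2 i).im ^ 2 * e1
  have hcs : ∀ p : (ι → ℂ) × (ι → ℂ), (c : ℂ) • ((t / c) • p.1 + (a / c) • p.2) =
      (a : ℂ) • p.2 + (t : ℂ) • p.1 := by
    intro p
    funext i
    simp only [Pi.add_apply, Pi.smul_apply, smul_eq_mul, Complex.real_smul]
    have : (c : ℂ) ≠ 0 := by exact_mod_cast hc0.ne'
    push_cast
    field_simp
    ring
  have hF : ∀ p : (ι → ℂ) × (ι → ℂ), h ((c : ℂ) • ((t / c) • p.1 + (a / c) • p.2)) *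
        kap ((t / c) • p.1 + (a / c) • p.2) * kap ((-(a / c)) • p.1 + (t / c) • p.2) =
        h ((a : ℂ) • p.2 + (t : ℂ) • p.1) * kap p.1 * kap p.2 := by
    intro p
    rw [mul_assoc, hkk, hcs, mul_assoc]
  simp only [hF] at hint
  have hGR' : MeasureTheory.Integrable (fun p : (ι → ℂ) × (ι → ℂ) =>
      h ((a : ℂ) • p.2 + (t : ℂ) • p.1) * kap p.1 * kap p.2) := by
    refine hGR.congr (Filter.Eventually.of_forall fun p => ?_)
    exact hF p
  have e3 : ∀ η : ι → ℂ, (∫ ξ : ι → ℂ, h ((a : ℂ) • η + (t : ℂ) • ξ) * kap ξ * kap η) =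
      (∫ ξ : ι → ℂ, h ((a : ℂ) • η + (t : ℂ) • ξ) * kap ξ) * kap η := by
    intro η
    rw [MeasureTheory.integral_mul_const]
  rw [MeasureTheory.Measure.volume_eq_prod] at hGR' hint
  refine ⟨?_, ?_⟩
  · have := hGR'.integral_prod_right
    simpa only [e3] using this
  · have h1 := MeasureTheory.integral_prod_symm _ hGR'
    simp only [e3] at h1
    rw [← h1, ← hint, MeasureTheory.integral_prod_mul (fun x : ι → ℂ => h ((c : ℂ) • x) * kap x)
      (fun y : ι → ℂ => kap y), kap_integral, mul_one]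

end MP6feb
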