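import Pool.Agent.Lib.MP_6febbd_ag.Defs
import Pool.Agent.Lib.MP_6febbd_ag.J1D
import Pool.Agent.Lib.MP_6febbd_ag.Kap
import Pool.Agent.Lib.MP_6febbd_ag.KapR
import Pool.Agent.Lib.MP_6febbd_ag.LInt

set_option autoImplicit false

open scoped Matrix.Norms.Elementwise Real
open Complex Matrix

noncomputable section

namespace MP6feb

private theorem rot_avg {ι : Type} [Fintype ι] (h : (ι → ℂ) → ℝ) (hm : Measurable h)
    (hI0 : MeasureTheory.Integrable (fun ξ : ι → ℂ => h ξ * kap ξ)) :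
    MeasureTheory.Integrable (fun ξ : ι → ℂ =>
      (∫ θ in Set.Ioc 0 (2 * π), h (cexp ((θ : ℝ) * I) • ξ)) * kap ξ) ∧
    ∫ ξ : ι → ℂ, (∫ θ in Set.Ioc 0 (2 * π), h (cexp ((θ : ℝ) * I) • ξ)) * kap ξ =
      (2 * π) * ∫ ξ : ι → ℂ, h ξ * kap ξ := by
  have hu : ∀ θ : ℝ, ‖cexp (θ * I)‖ = 1 := fun θ => Complex.norm_exp_ofReal_mul_I θ
  have hmeas : MeasureTheory.AEStronglyMeasurable
      (fun p : ℝ × (ι → ℂ) => h (cexp (p.1 * I) • p.2) * kap p.2)
      ((MeasureTheory.volume.restrict (Set.Ioc 0 (2 * π))).prod MeasureTheory.volume) := by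
    apply Measurable.aestronglyMeasurable
    apply Measurable.mul
    · apply hm.comp
      apply Continuous.measurable
      fun_prop
    · apply Continuous.measurable
      unfold kap
      fun_prop
  have e : ∀ θ : ℝ, ∫ ξ : ι → ℂ, ‖h (cexp (θ * I) • ξ) * kap ξ‖ =
      ∫ ξ : ι → ℂ, |h ξ| * kap ξ := by
    intro θ
    rw [← kap_rotate (fun ξ => |h ξ|) (hu θ)]
    congr 1
    funext ξ
    rw [norm_mul, Real.norm_eq_abs, Real.norm_eq_abs, abs_of_nonneg (a := kap ξ)
      (Real.exp_pos _).le]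
  have hint : MeasureTheory.Integrable
      (fun p : ℝ × (ι → ℂ) => h (cexp (p.1 * I) • p.2) * kap p.2)
      ((MeasureTheory.volume.restrict (Set.Ioc 0 (2 * π))).prod MeasureTheory.volume) := by
    rw [MeasureTheory.integrable_prod_iff hmeas]
    constructor
    · apply Filter.Eventually.of_forall
      intro θ
      exact kap_rotate_integrable h (hu θ) hI0
    · simp only [e]
      exact MeasureTheory.integrable_const _
  have hMc : ∀ ξ : ι → ℂ, (∫ θ in Set.Ioc 0 (2 * π), h (cexp ((θ : ℝ) * I) • ξ)) * kap ξ =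
      ∫ θ in Set.Ioc 0 (2 * π), h (cexp ((θ : ℝ) * I) • ξ) * kap ξ := by
    intro ξ
    rw [MeasureTheory.integral_mul_const]
  simp only [hMc]
  refine ⟨hint.integral_prod_right, ?_⟩
  have hsw := MeasureTheory.integral_integral_swap
    (f := fun (θ : ℝ) (ξ : ι → ℂ) => h (cexp (θ * I) • ξ) * kap ξ) hint
  rw [← hsw]
  simp only [kap_rotate h (hu _)]
  rw [MeasureTheory.integral_const]
  have : (MeasureTheory.volume.restrict (Set.Ioc 0 (2 * π))).real Set.univ = 2 * π := by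
    rw [MeasureTheory.measureReal_restrict_apply MeasurableSet.univ, Set.univ_inter,
      Real.volume_real_Ioc_of_le (by positivity)]
    ring
  rw [this, smul_eq_mul]

/-- `Wm` is an average of circle means: by `kap_rotate` and Fubini
`Wm F w (exp s) = ∫ Mc (λ ↦ F (w + λξ)) s · kap ξ dξ`, with integrable integrand. -/
theorem Wm_eq_Mc {ι : Type} [Fintype ι] {F : (ι → ℂ) → ℂ} (hF : Adm F) (w : ι → ℂ)
    (s : ℝ) :
    MeasureTheory.Integrable (fun ξ : ι → ℂ => Mc (fun l : ℂ => F (w + l • ξ)) s * kap ξ) ∧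
    Wm F w (Real.exp s) = ∫ ξ : ι → ℂ, Mc (fun l : ℂ => F (w + l • ξ)) s * kap ξ := by
  have hes : 0 < Real.exp s := Real.exp_pos s
  obtain ⟨h1, h2⟩ := rot_avg (fun ξ : ι → ℂ => Real.log ‖F (w + ((Real.exp s : ℝ) : ℂ) • ξ)‖)
    (by
      apply Real.measurable_log.comp
      apply Continuous.measurable
      apply Continuous.norm
      apply hF.diff.continuous.comp
      fun_prop) (Wm_integrable hF w hes)
  have hMc : ∀ ξ : ι → ℂ, Mc (fun l : ℂ => F (w + l • ξ)) s * kap ξ =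
      (2 * π)⁻¹ * ((∫ θ in Set.Ioc 0 (2 * π),
        Real.log ‖F (w + ((Real.exp s : ℝ) : ℂ) • cexp ((θ : ℝ) * I) • ξ)‖) * kap ξ) := by
    intro ξ
    simp only [Mc, Real.circleAverage, smul_eq_mul, circleMap, zero_add, mul_smul]
    rw [intervalIntegral.integral_of_le (by positivity)]
    ring
  simp only [hMc]
  refine ⟨h1.const_mul _, ?_⟩
  rw [MeasureTheory.integral_const_mul]
  rw [h2]
  have hWm : Wm F w (Real.exp s) = ∫ ξ : ι → ℂ,
    Real.log ‖F (w + ((Real.exp s : ℝ) : ℂ) • ξ)‖ * kap ξ := rfl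
  rw [← hWm, ← mul_assoc, inv_mul_cancel₀ (by positivity), one_mul]

end MP6feb
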