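import Pool.Agent.Lib.MP_6febbd_ag.Defs
import Pool.Agent.Lib.MP_6febbd_ag.WMa
import Pool.Agent.Lib.MP_6febbd_ag.J1D
import Pool.Agent.Lib.MP_6febbd_ag.Kap
import Pool.Agent.Lib.MP_6febbd_ag.KapR
import Pool.Agent.Lib.MP_6febbd_ag.LInt

set_option autoImplicit false

open scoped Matrix.Norms.Elementwise Real
open Complex Matrix

noncomputable section

namespace MP6feb

private lemma wmon_diff {ι : Type} [Fintype ι] {F : (ι → ℂ) → ℂ} (hF : Adm F) (w ξ : ι → ℂ) :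
    Differentiable ℂ (fun l : ℂ => F (w + l • ξ)) := by
  have h1 := hF.diff
  fun_prop

private lemma wmon_kap_nonneg {ι : Type} [Fintype ι] (ξ : ι → ℂ) : 0 ≤ kap ξ :=
  (Real.exp_pos _).le

private lemma wmon_kap_int {ι : Type} [Fintype ι] :
    MeasureTheory.Integrable (fun z : ι → ℂ => kap z) :=
  MeasureTheory.integrable_of_integral_eq_one kap_integral

theorem Wm_convex {ι : Type} [Fintype ι] {F : (ι → ℂ) → ℂ} (hF : Adm F) (w : ι → ℂ) :
    ConvexOn ℝ Set.univ (fun s : ℝ => Wm F w (Real.exp s)) := by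
  refine ⟨convex_univ, fun s _ t _ a b ha hb hab => ?_⟩
  obtain ⟨i1, e1⟩ := Wm_eq_Mc hF w s
  obtain ⟨i2, e2⟩ := Wm_eq_Mc hF w t
  obtain ⟨i3, e3⟩ := Wm_eq_Mc hF w (a • s + b • t)
  have e4 : a • Wm F w (Real.exp s) + b • Wm F w (Real.exp t) =
      ∫ ξ : ι → ℂ, (a * (Mc (fun l : ℂ => F (w + l • ξ)) s * kap ξ) +
        b * (Mc (fun l : ℂ => F (w + l • ξ)) t * kap ξ)) := by
    rw [MeasureTheory.integral_add (i1.const_mul a) (i2.const_mul b),
      MeasureTheory.integral_const_mul, MeasureTheory.integral_const_mul, e1, e2]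
    rfl
  show Wm F w (Real.exp (a • s + b • t)) ≤
    a • Wm F w (Real.exp s) + b • Wm F w (Real.exp t)
  rw [e4, e3]
  refine MeasureTheory.integral_mono i3 ((i1.const_mul a).add (i2.const_mul b)) fun ξ => ?_
  have h1 := (Mc_convex (wmon_diff hF w ξ)).2 (Set.mem_univ s) (Set.mem_univ t) ha hb hab
  have h2 := mul_le_mul_of_nonneg_right h1 (wmon_kap_nonneg ξ)
  calc Mc (fun l : ℂ => F (w + l • ξ)) (a • s + b • t) * kap ξ
      ≤ (a • Mc (fun l : ℂ => F (w + l • ξ)) s + b • Mc (fun l : ℂ => F (w + l • ξ)) t) *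
        kap ξ := h2
    _ = a * (Mc (fun l : ℂ => F (w + l • ξ)) s * kap ξ) +
        b * (Mc (fun l : ℂ => F (w + l • ξ)) t * kap ξ) := by
      simp only [smul_eq_mul]
      ring

theorem Wm_mono {ι : Type} [Fintype ι] {F : (ι → ℂ) → ℂ} (hF : Adm F) (w : ι → ℂ) :
    Monotone (fun s : ℝ => Wm F w (Real.exp s)) := by
  intro s t hst
  obtain ⟨i1, e1⟩ := Wm_eq_Mc hF w s
  obtain ⟨i2, e2⟩ := Wm_eq_Mc hF w t
  show Wm F w (Real.exp s) ≤ Wm F w (Real.exp t)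
  rw [e1, e2]
  exact MeasureTheory.integral_mono i1 i2 fun ξ =>
    mul_le_mul_of_nonneg_right (Mc_mono (wmon_diff hF w ξ) hst) (wmon_kap_nonneg ξ)

/-- At a zero the slope is at least one: for almost all `ξ` the function `λ ↦ F(w+λξ)` is
not identically zero, because `F(w+ξ) ≠ 0` outside a null set (`zero_null`). -/
theorem Wm_zero {k : ℕ} {F : (Fin k → ℂ) → ℂ} (hF : Adm F) {w : Fin k → ℂ}
    (h0 : F w = 0) {s t : ℝ} (hst : s ≤ t) :
    t - s ≤ Wm F w (Real.exp t) - Wm F w (Real.exp s) := by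
  obtain ⟨i1, e1⟩ := Wm_eq_Mc hF w s
  obtain ⟨i2, e2⟩ := Wm_eq_Mc hF w t
  have hae : ∀ᵐ ξ : Fin k → ℂ, F (w + ξ) ≠ 0 := by
    have h1 : MeasureTheory.volume {z : Fin k → ℂ | F (w + z) = 0} = 0 := by
      have h2 := zero_null hF
      have h3 : {z : Fin k → ℂ | F (w + z) = 0} = (fun z => w + z) ⁻¹' {z | F z = 0} := rfl
      rw [h3, MeasureTheory.measure_preimage_add]
      exact h2
    rw [MeasureTheory.ae_iff]
    simpa only [ne_eq, not_not] using h1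
  have h4 : t - s = ∫ ξ : Fin k → ℂ, (t - s) * kap ξ := by
    rw [MeasureTheory.integral_const_mul, kap_integral, mul_one]
  rw [h4, e1, e2, ← MeasureTheory.integral_sub i2 i1]
  refine MeasureTheory.integral_mono_ae (wmon_kap_int.const_mul _) (i2.sub i1) ?_
  filter_upwards [hae] with ξ hξ
  have h5 := Mc_zero (wmon_diff hF w ξ) (by simpa using h0) ⟨1, by simpa using hξ⟩ hst
  have h6 := mul_le_mul_of_nonneg_right h5 (wmon_kap_nonneg ξ)
  rw [sub_mul (Mc _ t)] at h6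
  exact h6

/-- Semigroup property (`kap_semigroup` for `h ξ = log ‖F (w + ξ)‖`). -/
theorem Wm_semigroup {ι : Type} [Fintype ι] {F : (ι → ℂ) → ℂ} (hF : Adm F) (w : ι → ℂ)
    {a t : ℝ} (ha : 0 < a) (ht : 0 < t) :
    MeasureTheory.Integrable (fun η : ι → ℂ => Wm F (w + (a : ℂ) • η) t * kap η) ∧
    ∫ η : ι → ℂ, Wm F (w + (a : ℂ) • η) t * kap η = Wm F w (Real.sqrt (t ^ 2 + a ^ 2)) := by
  have hs : 0 < Real.sqrt (t ^ 2 + a ^ 2) := Real.sqrt_pos.2 (by positivity)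
  have h1 := kap_semigroup (fun ξ : ι → ℂ => Real.log ‖F (w + ξ)‖) ha ht
    (Wm_integrable hF w hs)
  have h2 : ∀ η : ι → ℂ, Wm F (w + (a : ℂ) • η) t =
      ∫ ξ : ι → ℂ, Real.log ‖F (w + ((a : ℂ) • η + (t : ℂ) • ξ))‖ * kap ξ := by
    intro η
    simp only [Wm, add_assoc]
  simp only [h2]
  exact h1

end MP6feb
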