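import Pool.Agent.Lib.MP_6febbd_ag.Defs
import Pool.Agent.Lib.MP_6febbd_ag.Kap
import Pool.Agent.Lib.MP_6febbd_ag.LInt
import Pool.Agent.Lib.MP_6febbd_ag.WMon
import Pool.Agent.Lib.MP_6febbd_ag.GSum

set_option autoImplicit false

open scoped Matrix.Norms.Elementwise Real
open Complex Matrix

noncomputable section

namespace MP6feb

private theorem wm_mono' {k : ℕ} {F : (Fin (k + 1) → ℂ) → ℂ} (hF : Adm F)
    (w : Fin (k + 1) → ℂ) {a b : ℝ} (ha : 0 < a) (hab : a ≤ b) : Wm F w a ≤ Wm F w b := by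
  have hb : 0 < b := ha.trans_le hab
  have h := Wm_mono hF w (Real.log_le_log ha hab)
  simpa only [Real.exp_log ha, Real.exp_log hb] using h

private theorem inc_bound {k : ℕ} {F : (Fin (k + 1) → ℂ) → ℂ} (hF : Adm F)
    {p : Fin (k + 1) → ℂ} {C r ρ : ℝ} (hC : ∀ t : ℝ, 1 ≤ t → t ≤ 6 → |Wm F p t| ≤ C)
    (hr : 0 < r) (hρ : r ≤ ρ) (hρ1 : ρ ≤ 1) :
    Wm F p (Real.sqrt ((2 * r) ^ 2 + (2 * ρ) ^ 2)) - Wm F p (Real.sqrt (r ^ 2 + (2 * ρ) ^ 2)) ≤
      3 / 8 * (r ^ 2 / ρ ^ 2) * (2 * C / Real.log 2) := by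
  have hρ0 : 0 < ρ := hr.trans_le hρ
  set A := Real.sqrt (r ^ 2 + (2 * ρ) ^ 2) with hA
  set B := Real.sqrt ((2 * r) ^ 2 + (2 * ρ) ^ 2) with hB
  have hA0 : 0 < A := Real.sqrt_pos.mpr (by positivity)
  have hAB : A < B := Real.sqrt_lt_sqrt (by positivity) (by nlinarith)
  have hB0 : 0 < B := hA0.trans hAB
  have hB3 : B < 3 := by
    rw [hB, Real.sqrt_lt' (by norm_num)]
    nlinarith
  set f : ℝ → ℝ := fun s => Wm F p (Real.exp s) with hf
  have hconv := Wm_convex hF p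
  have h12 : Real.log A < Real.log B := Real.log_lt_log hA0 hAB
  have h23 : Real.log B < Real.log 3 := Real.log_lt_log hB0 hB3
  have h34 : Real.log 3 < Real.log 6 := Real.log_lt_log (by norm_num) (by norm_num)
  have s1 := hconv.slope_mono_adjacent (Set.mem_univ (Real.log A)) (Set.mem_univ (Real.log 3))
    h12 h23
  have s2 := hconv.slope_mono_adjacent (Set.mem_univ (Real.log B)) (Set.mem_univ (Real.log 6))
    h23 h34
  simp only [Real.exp_log hA0, Real.exp_log hB0, Real.exp_log (show (0 : ℝ) < 3 by norm_num),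
    Real.exp_log (show (0 : ℝ) < 6 by norm_num)] at s1 s2
  have h62 : Real.log 6 - Real.log 3 = Real.log 2 := by
    rw [← Real.log_div (by norm_num) (by norm_num)]
    norm_num
  rw [h62] at s2
  have hlog2 : 0 < Real.log 2 := Real.log_pos (by norm_num)
  have hC3 := abs_le.mp (hC 3 (by norm_num) (by norm_num))
  have hC6 := abs_le.mp (hC 6 (by norm_num) (by norm_num))
  have h5 : (Wm F p 6 - Wm F p 3) / Real.log 2 ≤ 2 * C / Real.log 2 :=
    div_le_div_of_nonneg_right (by linarith [hC3.1, hC6.2]) hlog2.le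
  have h6 : (Wm F p B - Wm F p A) / (Real.log B - Real.log A) ≤ 2 * C / Real.log 2 :=
    (s1.trans s2).trans h5
  have hd : 0 < Real.log B - Real.log A := by linarith
  rw [div_le_iff₀ hd] at h6
  have hC0 : 0 ≤ 2 * C / Real.log 2 := by
    have : 0 ≤ C := by linarith [hC3.1, hC3.2]
    positivity
  have h7 : Real.log B - Real.log A ≤ 3 / 8 * (r ^ 2 / ρ ^ 2) := by
    have hA2 : A ^ 2 = r ^ 2 + (2 * ρ) ^ 2 := Real.sq_sqrt (by positivity)
    have hB2 : B ^ 2 = (2 * r) ^ 2 + (2 * ρ) ^ 2 := Real.sq_sqrt (by positivity)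
    have h8 : 2 * (Real.log B - Real.log A) = Real.log (B ^ 2 / A ^ 2) := by
      rw [Real.log_div (by positivity) (by positivity), Real.log_pow, Real.log_pow]
      push_cast
      ring
    have h9 : Real.log (B ^ 2 / A ^ 2) ≤ B ^ 2 / A ^ 2 - 1 :=
      Real.log_le_sub_one_of_pos (by positivity)
    have h10 : B ^ 2 / A ^ 2 - 1 ≤ 3 / 4 * (r ^ 2 / ρ ^ 2) := by
      rw [hA2, hB2]
      have hden : 0 < r ^ 2 + (2 * ρ) ^ 2 := by positivity
      have e1 : ((2 * r) ^ 2 + (2 * ρ) ^ 2) / (r ^ 2 + (2 * ρ) ^ 2) - 1 =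
          3 * r ^ 2 / (r ^ 2 + (2 * ρ) ^ 2) := by
        field_simp
        ring
      rw [e1]
      have e2 : 3 / 4 * (r ^ 2 / ρ ^ 2) = 3 * r ^ 2 / (4 * ρ ^ 2) := by
        field_simp
      rw [e2]
      exact div_le_div_of_nonneg_left (by positivity) (by positivity) (by nlinarith)
    linarith
  calc Wm F p B - Wm F p A ≤ 2 * C / Real.log 2 * (Real.log B - Real.log A) := h6
    _ ≤ 2 * C / Real.log 2 * (3 / 8 * (r ^ 2 / ρ ^ 2)) := mul_le_mul_of_nonneg_left h7 hC0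
    _ = _ := by ring

theorem lze {k : ℕ} {F : (Fin (k + 1) → ℂ) → ℂ} (hF : Adm F) (R : ℝ) :
    ∃ C : ℝ, 0 < C ∧ ∀ p : Fin (k + 1) → ℂ, ‖p‖ ≤ R → ∀ r ρ : ℝ, 0 < r → r ≤ ρ → ρ ≤ 1 →
      ∀ S : Finset (Fin (k + 1) → ℂ), (∀ s ∈ S, F s = 0 ∧ ‖s - p‖ ≤ ρ) →
        (∀ s ∈ S, ∀ s' ∈ S, s ≠ s' → r ≤ ‖s - s'‖) →
        (S.card : ℝ) * r ^ (2 * k) ≤ C * ρ ^ (2 * k) := by
  obtain ⟨C₁, hC₁, hsum⟩ := gauss_sum_sep k
  obtain ⟨CB, hCB⟩ := Wm_bdd hF R
  have hlog2 : 0 < Real.log 2 := Real.log_pos (by norm_num)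
  refine ⟨3 * C₁ * 4 ^ (k + 1) * (3 / 8) * (2 * |CB| / Real.log 2) + 1, by positivity, ?_⟩
  intro p hp r ρ hr hρ hρ1 S hS hsep
  have hρ0 : 0 < ρ := hr.trans_le hρ
  have h2r : 0 < 2 * r := by linarith
  have h2ρ : 0 < 2 * ρ := by linarith
  set D : (Fin (k + 1) → ℂ) → ℝ := fun w => Wm F w (2 * r) - Wm F w r with hD
  have hD0 : ∀ w, 0 ≤ D w := fun w => sub_nonneg.mpr (wm_mono' hF w hr (by linarith))
  -- averages of D
  have havg : ∀ (w : Fin (k + 1) → ℂ) (a : ℝ), 0 < a →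
      MeasureTheory.Integrable (fun η : Fin (k + 1) → ℂ => D (w + (a : ℂ) • η) * kap η) ∧
      ∫ η : Fin (k + 1) → ℂ, D (w + (a : ℂ) • η) * kap η =
        Wm F w (Real.sqrt ((2 * r) ^ 2 + a ^ 2)) - Wm F w (Real.sqrt (r ^ 2 + a ^ 2)) := by
    intro w a ha
    obtain ⟨i1, v1⟩ := Wm_semigroup hF w ha h2r
    obtain ⟨i2, v2⟩ := Wm_semigroup hF w ha hr
    have hfun : (fun η : Fin (k + 1) → ℂ => D (w + (a : ℂ) • η) * kap η) =
        fun η => Wm F (w + (a : ℂ) • η) (2 * r) * kap η - Wm F (w + (a : ℂ) • η) r * kap η := by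
      funext η
      rw [hD]
      ring
    rw [hfun]
    refine ⟨i1.sub i2, ?_⟩
    rw [MeasureTheory.integral_sub i1 i2, v1, v2]
  -- lower bound at zeros
  have hlow : ∀ s ∈ S, (1 : ℝ) / 3 ≤ (r ^ (2 * (k + 1)))⁻¹ *
      ∫ z : Fin (k + 1) → ℂ, D z * Real.exp (-(π * (∑ i, ‖z i - s i‖ ^ 2) / r ^ 2)) := by
    intro s hs
    obtain ⟨_, v⟩ := havg s r hr
    have hg := gauss_scale (ι := Fin (k + 1)) D s hr
    rw [Fintype.card_fin] at hg
    rw [← hg, v]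
    have ha : 0 < Real.sqrt (r ^ 2 + r ^ 2) := Real.sqrt_pos.mpr (by positivity)
    have hb : Real.sqrt (r ^ 2 + r ^ 2) ≤ Real.sqrt ((2 * r) ^ 2 + r ^ 2) :=
      Real.sqrt_le_sqrt (by nlinarith)
    have hb0 : 0 < Real.sqrt ((2 * r) ^ 2 + r ^ 2) := ha.trans_le hb
    have hz := Wm_zero hF (hS s hs).1 (Real.log_le_log ha hb)
    rw [Real.exp_log ha, Real.exp_log hb0] at hz
    refine le_trans ?_ hz
    rw [← Real.log_div hb0.ne' ha.ne', ← Real.sqrt_div (by positivity)]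
    have e1 : ((2 * r) ^ 2 + r ^ 2) / (r ^ 2 + r ^ 2) = 5 / 2 := by
      field_simp
      ring
    rw [e1, Real.log_sqrt (by norm_num)]
    have : (2 : ℝ) / 3 ≤ Real.log (5 / 2) := by
      have h1 : Real.log 2 ≤ Real.log (5 / 2) := Real.log_le_log (by norm_num) (by norm_num)
      have h2 := Real.log_two_gt_d9
      linarith
    linarith
  have hint : ∀ s : Fin (k + 1) → ℂ, ∀ a : ℝ, 0 < a → MeasureTheory.Integrable
      (fun z : Fin (k + 1) → ℂ =>
        D z * Real.exp (-(π * (∑ i, ‖z i - s i‖ ^ 2) / a ^ 2))) := fun s a ha =>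
    (gauss_scale_integrable (ι := Fin (k + 1)) D s ha).mp (havg s a ha).1
  have hrN : (0 : ℝ) < r ^ (2 * (k + 1)) := by positivity
  have hmain : (S.card : ℝ) * (1 / 3) ≤ (r ^ (2 * (k + 1)))⁻¹ *
      (C₁ * ((2 * ρ) ^ (2 * (k + 1)) * (3 / 8 * (r ^ 2 / ρ ^ 2) * (2 * |CB| / Real.log 2)))) := by
    calc (S.card : ℝ) * (1 / 3) = ∑ _s ∈ S, (1 : ℝ) / 3 := by simp
      _ ≤ ∑ s ∈ S, (r ^ (2 * (k + 1)))⁻¹ *
          ∫ z : Fin (k + 1) → ℂ, D z * Real.exp (-(π * (∑ i, ‖z i - s i‖ ^ 2) / r ^ 2)) :=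
          Finset.sum_le_sum hlow
      _ = (r ^ (2 * (k + 1)))⁻¹ * ∫ z : Fin (k + 1) → ℂ,
          D z * ∑ s ∈ S, Real.exp (-(π * (∑ i, ‖z i - s i‖ ^ 2) / r ^ 2)) := by
          rw [← Finset.mul_sum, ← MeasureTheory.integral_finsetSum S
            (fun s _ => hint s r hr)]
          simp only [Finset.mul_sum]
      _ ≤ (r ^ (2 * (k + 1)))⁻¹ * ∫ z : Fin (k + 1) → ℂ,
          C₁ * (D z * Real.exp (-(π * (∑ i, ‖z i - p i‖ ^ 2) / (2 * ρ) ^ 2))) := by
          refine mul_le_mul_of_nonneg_left ?_ (by positivity)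
          refine MeasureTheory.integral_mono ?_ ((hint p (2 * ρ) h2ρ).const_mul _) ?_
          · have hfe : (fun z : Fin (k + 1) → ℂ =>
                D z * ∑ s ∈ S, Real.exp (-(π * (∑ i, ‖z i - s i‖ ^ 2) / r ^ 2))) =
                fun z => ∑ s ∈ S,
                  D z * Real.exp (-(π * (∑ i, ‖z i - s i‖ ^ 2) / r ^ 2)) := by
              funext z
              rw [Finset.mul_sum]
            rw [hfe]
            exact MeasureTheory.integrable_finsetSum S (fun s _ => hint s r hr)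
          · intro z
            have h1 := hsum p r ρ hr hρ S (fun s hs => (hS s hs).2) hsep z
            have h2 := mul_le_mul_of_nonneg_left h1 (hD0 z)
            calc D z * ∑ s ∈ S, Real.exp (-(π * (∑ i, ‖z i - s i‖ ^ 2) / r ^ 2))
                ≤ D z * (C₁ * Real.exp (-(π * (∑ i, ‖z i - p i‖ ^ 2) / (2 * ρ) ^ 2))) := h2
              _ = _ := by ring
      _ = (r ^ (2 * (k + 1)))⁻¹ * (C₁ * ((2 * ρ) ^ (2 * (k + 1)) *
          (Wm F p (Real.sqrt ((2 * r) ^ 2 + (2 * ρ) ^ 2)) -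
            Wm F p (Real.sqrt (r ^ 2 + (2 * ρ) ^ 2))))) := by
          rw [MeasureTheory.integral_const_mul]
          have hg := gauss_scale (ι := Fin (k + 1)) D p h2ρ
          rw [Fintype.card_fin, (havg p (2 * ρ) h2ρ).2] at hg
          rw [hg, mul_inv_cancel_left₀ (by positivity)]
      _ ≤ _ := by
          refine mul_le_mul_of_nonneg_left ?_ (by positivity)
          refine mul_le_mul_of_nonneg_left ?_ hC₁.le
          refine mul_le_mul_of_nonneg_left ?_ (by positivity)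
          exact inc_bound hF (fun t h1 h6 => (hCB p hp t h1 h6).trans (le_abs_self CB))
            hr hρ hρ1
  have hfin : (S.card : ℝ) * r ^ (2 * k) ≤
      (3 * C₁ * 4 ^ (k + 1) * (3 / 8) * (2 * |CB| / Real.log 2)) * ρ ^ (2 * k) := by
    have h1 : (r ^ (2 * (k + 1)))⁻¹ *
        (C₁ * ((2 * ρ) ^ (2 * (k + 1)) * (3 / 8 * (r ^ 2 / ρ ^ 2) * (2 * |CB| / Real.log 2)))) *
        (3 * r ^ (2 * k)) =
        (3 * C₁ * 4 ^ (k + 1) * (3 / 8) * (2 * |CB| / Real.log 2)) * ρ ^ (2 * k) := by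
      have e1 : (2 * ρ) ^ (2 * (k + 1)) = 4 ^ (k + 1) * (ρ ^ (2 * k) * ρ ^ 2) := by
        rw [mul_pow, pow_mul]
        norm_num
        ring
      have e2 : r ^ (2 * (k + 1)) = r ^ (2 * k) * r ^ 2 := by
        rw [show 2 * (k + 1) = 2 * k + 2 by ring, pow_add]
      rw [e1, e2]
      field_simp
    rw [← h1]
    have h2 := mul_le_mul_of_nonneg_right hmain (show (0 : ℝ) ≤ 3 * r ^ (2 * k) by positivity)
    linarith
  have hρk : (0 : ℝ) ≤ ρ ^ (2 * k) := by positivity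
  linarith

end MP6feb
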