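import Pool.Agent.Lib.MP_6febbd_ag.Defs
import Pool.Agent.Lib.MP_6febbd_ag.LZE
import Pool.Agent.Lib.MP_6febbd_ag.Pack

set_option autoImplicit false

open scoped Matrix.Norms.Elementwise Real
open Complex Matrix

noncomputable section

namespace MP6feb

/-- Covering number of a null compact set. -/
private theorem null_cover {k : ℕ} {W : Set (Fin k → ℂ)} (hW : IsCompact W)
    (hW0 : MeasureTheory.volume W = 0) {η ρ₀ : ℝ} (hη : 0 < η) (hρ₀ : 0 < ρ₀) :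
    ∃ (ρ : ℝ) (T : Finset (Fin k → ℂ)), 0 < ρ ∧ ρ ≤ ρ₀ ∧ (T : Set (Fin k → ℂ)) ⊆ W ∧
      (T.card : ℝ) * ρ ^ (2 * k) ≤ η ∧ ∀ a ∈ W, ∃ t ∈ T, ‖a - t‖ < ρ := by
  set v₁ : ENNReal := MeasureTheory.volume (Metric.ball (0 : Fin k → ℂ) 1) with hv₁
  have hv_pos : 0 < v₁ := Metric.measure_ball_pos _ _ one_pos
  have hv_top : v₁ ≠ ⊤ := MeasureTheory.measure_ball_lt_top.ne
  have hv : 0 < v₁.toReal := ENNReal.toReal_pos hv_pos.ne' hv_top
  set ε' : ℝ := η * v₁.toReal / 2 ^ (2 * k) with hε'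
  have hε'0 : 0 < ε' := by positivity
  have htend := tendsto_measure_cthickening_of_isCompact
    (μ := (MeasureTheory.volume : MeasureTheory.Measure (Fin k → ℂ))) hW
  rw [hW0] at htend
  have h1 : ∀ᶠ r : ℝ in nhds 0, MeasureTheory.volume (Metric.cthickening r W) <
      ENNReal.ofReal ε' := htend.eventually (gt_mem_nhds (ENNReal.ofReal_pos.mpr hε'0))
  have h2 : ∀ᶠ r : ℝ in nhdsWithin 0 (Set.Ioi 0),
      MeasureTheory.volume (Metric.cthickening r W) < ENNReal.ofReal ε' :=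
    h1.filter_mono nhdsWithin_le_nhds
  have h3 : ∀ᶠ r : ℝ in nhdsWithin 0 (Set.Ioi 0), r ∈ Set.Ioo 0 ρ₀ :=
    Ioo_mem_nhdsGT hρ₀
  obtain ⟨ρ, hρvol, hρ⟩ := (h2.and h3).exists
  obtain ⟨T, hTW, hTsep, hTcov⟩ := exists_net hW (r := ρ) hρ.1
  refine ⟨ρ, T, hρ.1, hρ.2.le, hTW, ?_, hTcov⟩
  have hdisj : Set.PairwiseDisjoint (↑T) (fun t : Fin k → ℂ => Metric.ball t (ρ / 2)) := by
    intro s hs t ht hst
    apply Metric.ball_disjoint_ball
    rw [dist_eq_norm]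
    have := hTsep s hs t ht hst
    linarith
  have hmeas := MeasureTheory.measure_biUnion_finset
    (μ := (MeasureTheory.volume : MeasureTheory.Measure (Fin k → ℂ))) hdisj
    (fun t _ => Metric.isOpen_ball.measurableSet)
  have hsub : (⋃ t ∈ T, Metric.ball t (ρ / 2)) ⊆ Metric.cthickening ρ W := by
    intro x hx
    simp only [Set.mem_iUnion] at hx
    obtain ⟨t, ht, hxt⟩ := hx
    apply Metric.thickening_subset_cthickening
    apply Metric.ball_subset_thickening (hTW ht)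
    exact Metric.ball_subset_ball (by linarith [hρ.1]) hxt
  have hle : ∑ t ∈ T, MeasureTheory.volume (Metric.ball t (ρ / 2)) ≤ ENNReal.ofReal ε' := by
    rw [← hmeas]
    exact (MeasureTheory.measure_mono hsub).trans hρvol.le
  have hball : ∀ t : Fin k → ℂ, MeasureTheory.volume (Metric.ball t (ρ / 2)) =
      ENNReal.ofReal ((ρ / 2) ^ (2 * k)) * v₁ := by
    intro t
    have h4 := MeasureTheory.Measure.addHaar_ball_of_pos
      (MeasureTheory.volume : MeasureTheory.Measure (Fin k → ℂ)) t (r := ρ / 2)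
      (by linarith [hρ.1])
    have h5 : Module.finrank ℝ (Fin k → ℂ) = 2 * k := by
      rw [Module.finrank_pi_fintype]
      simp [Complex.finrank_real_complex]
      ring
    rw [h5] at h4
    exact h4
  simp only [hball, Finset.sum_const, nsmul_eq_mul] at hle
  have h6 := ENNReal.toReal_mono ENNReal.ofReal_ne_top hle
  rw [ENNReal.toReal_mul, ENNReal.toReal_mul, ENNReal.toReal_natCast,
    ENNReal.toReal_ofReal (by have := hρ.1; positivity), ENNReal.toReal_ofReal hε'0.le, hε',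
    div_pow] at h6
  have h7 : (T.card : ℝ) * (ρ ^ (2 * k)) * (v₁.toReal / 2 ^ (2 * k)) ≤
      η * (v₁.toReal / 2 ^ (2 * k)) := by
    calc (T.card : ℝ) * (ρ ^ (2 * k)) * (v₁.toReal / 2 ^ (2 * k))
        = (T.card : ℝ) * (ρ ^ (2 * k) / 2 ^ (2 * k) * v₁.toReal) := by ring
      _ ≤ η * v₁.toReal / 2 ^ (2 * k) := h6
      _ = η * (v₁.toReal / 2 ^ (2 * k)) := by ring
  exact le_of_mul_le_mul_right h7 (by positivity)

/-- Sets over a null set are not fat. Proof. Let `ε > 0`; `δ₀` small. Since `W` is compact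
and null, the closed `ρ`-thickening of `W` has volume `< ε'` for small `ρ`
(`tendsto_measure_cthickening_of_isCompact`). Let `w_1..w_N` be a maximal `ρ`-separated
subset of `W` (`exists_net`): the balls of radius `ρ/2` around them are disjoint and lie in
the thickening, so `N (ρ/2)^(2k) vol(unit ball) ≤ ε'`. Put `ρ' = (|Lp|+1) ρ ≤ 1`; the open
balls of radius `ρ'` around `y w_i` cover `y '' W ⊇ Z`. By `lze` (radius `ρ'`, separation
`r = c/n ≤ ρ'` for large `n`) each contains at most `C (ρ' n/c)^(2k)` points of `A n`, so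
together at most `N C (ρ' n/c)^(2k) ≤ C' ε' n^(2k)`. For `k = 0`: a null set of the
point `Fin 0 → ℂ` is empty. -/
theorem null_not_fat {k : ℕ} {F : (Fin (k + 1) → ℂ) → ℂ} (hF : Adm F)
    (A : ℕ → Finset (Fin (k + 1) → ℂ)) (R : ℝ) (hA : ∀ n, ∀ s ∈ A n, F s = 0 ∧ ‖s‖ ≤ R)
    {c : ℝ} (hc : 0 < c)
    (hsep : ∀ n : ℕ, ∀ s ∈ A n, ∀ s' ∈ A n, s ≠ s' → c / n ≤ ‖s - s'‖)
    (Z : Set (Fin (k + 1) → ℂ)) (W : Set (Fin k → ℂ)) (hW : IsCompact W)
    (hW0 : MeasureTheory.volume W = 0) (y : (Fin k → ℂ) → (Fin (k + 1) → ℂ)) (Lp : ℝ)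
    (hy : ∀ w ∈ W, ∀ w' ∈ W, ‖y w - y w'‖ ≤ Lp * ‖w - w'‖) (hZ : Z ⊆ y '' W) :
    ¬ Fat k A Z := by
  classical
  rintro ⟨ε, hε, hfat⟩
  -- a bound for the norms of the centres
  obtain ⟨R', hR'⟩ : ∃ R' : ℝ, ∀ w ∈ W, ‖y w‖ ≤ R' := by
    rcases W.eq_empty_or_nonempty with h | ⟨w₀, hw₀⟩
    · exact ⟨0, fun w hw => by rw [h] at hw; exact hw.elim⟩
    · obtain ⟨M, hM⟩ := hW.isBounded.exists_norm_le
      refine ⟨‖y w₀‖ + |Lp| * (M + ‖w₀‖), fun w hw => ?_⟩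
      have h1 := hy w hw w₀ hw₀
      have h2 : ‖w - w₀‖ ≤ M + ‖w₀‖ := (norm_sub_le _ _).trans (by linarith [hM w hw])
      have h3 : Lp * ‖w - w₀‖ ≤ |Lp| * (M + ‖w₀‖) :=
        (mul_le_mul_of_nonneg_right (le_abs_self Lp) (norm_nonneg _)).trans
          (mul_le_mul_of_nonneg_left h2 (abs_nonneg _))
      have h4 : ‖y w‖ ≤ ‖y w₀‖ + ‖y w - y w₀‖ := by
        have := norm_add_le (y w₀) (y w - y w₀)
        rwa [add_sub_cancel] at this
      linarith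
  obtain ⟨C, hC, hl⟩ := lze hF R'
  have hLp : 0 < |Lp| + 1 := by positivity
  obtain ⟨ρ, T, hρ, hρ1, hTW, hTcard, hTcov⟩ := null_cover hW hW0
    (η := ε / 2 * c ^ (2 * k) / (C * (|Lp| + 1) ^ (2 * k))) (ρ₀ := 1 / (|Lp| + 1))
    (by positivity) (by positivity)
  have hρ'1 : (|Lp| + 1) * ρ ≤ 1 := by
    rw [le_div_iff₀ hLp] at hρ1
    linarith
  have hρ'0 : 0 < (|Lp| + 1) * ρ := by positivity
  have hU := hfat (⋃ t ∈ T, Metric.ball (y t) ((|Lp| + 1) * ρ))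
    (isOpen_biUnion fun t _ => Metric.isOpen_ball) (by
      intro z hz
      obtain ⟨w, hw, rfl⟩ := hZ hz
      obtain ⟨t, ht, hwt⟩ := hTcov w hw
      simp only [Set.mem_iUnion]
      refine ⟨t, ht, ?_⟩
      rw [mem_ball_iff_norm]
      have h1 := hy w hw t (hTW ht)
      have h2 : Lp * ‖w - t‖ ≤ (|Lp| + 1) * ‖w - t‖ :=
        mul_le_mul_of_nonneg_right (by linarith [le_abs_self Lp]) (norm_nonneg _)
      have h3 : (|Lp| + 1) * ‖w - t‖ < (|Lp| + 1) * ρ := mul_lt_mul_of_pos_left hwt hLp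
      linarith)
  obtain ⟨n₀, hn₀⟩ := exists_nat_ge (c / ((|Lp| + 1) * ρ) + 1)
  obtain ⟨n, hn, hcount⟩ := (Filter.frequently_atTop.mp hU) n₀
  have hn1 : c / ((|Lp| + 1) * ρ) + 1 ≤ n := hn₀.trans (by exact_mod_cast hn)
  have hq : 0 < c / ((|Lp| + 1) * ρ) := by positivity
  have hnpos : (0 : ℝ) < n := by linarith
  have hcn : c / n ≤ (|Lp| + 1) * ρ := by
    rw [div_le_iff₀ hnpos]
    have : c / ((|Lp| + 1) * ρ) ≤ n := by linarith
    rw [div_le_iff₀ hρ'0] at this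
    linarith
  have hfib : ∀ t ∈ T, (((A n).filter (fun s => ‖s - y t‖ < (|Lp| + 1) * ρ)).card : ℝ) *
      (c / n) ^ (2 * k) ≤ C * ((|Lp| + 1) * ρ) ^ (2 * k) := by
    intro t ht
    exact hl (y t) (hR' t (hTW ht)) (c / n) ((|Lp| + 1) * ρ) (by positivity) hcn hρ'1
      ((A n).filter (fun s => ‖s - y t‖ < (|Lp| + 1) * ρ))
      (fun s hs => by
        rw [Finset.mem_filter] at hs
        exact ⟨(hA n s hs.1).1, hs.2.le⟩)
      (fun s hs s' hs' hss => hsep n s (Finset.mem_filter.mp hs).1 s'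
        (Finset.mem_filter.mp hs').1 hss)
  have hcard : ((((A n : Finset (Fin (k + 1) → ℂ)) : Set (Fin (k + 1) → ℂ)) ∩
      (⋃ t ∈ T, Metric.ball (y t) ((|Lp| + 1) * ρ))).ncard : ℝ) ≤
      ∑ t ∈ T, (((A n).filter (fun s => ‖s - y t‖ < (|Lp| + 1) * ρ)).card : ℝ) := by
    have h1 : (((A n : Finset (Fin (k + 1) → ℂ)) : Set (Fin (k + 1) → ℂ)) ∩
        (⋃ t ∈ T, Metric.ball (y t) ((|Lp| + 1) * ρ))) ⊆
        ((T.biUnion (fun t => (A n).filter (fun s => ‖s - y t‖ < (|Lp| + 1) * ρ)) :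
          Finset (Fin (k + 1) → ℂ)) : Set (Fin (k + 1) → ℂ)) := by
      rintro s ⟨hs, hs'⟩
      simp only [Set.mem_iUnion] at hs'
      obtain ⟨t, ht, hst⟩ := hs'
      rw [mem_ball_iff_norm] at hst
      rw [Finset.mem_coe, Finset.mem_biUnion]
      exact ⟨t, ht, Finset.mem_filter.mpr ⟨hs, hst⟩⟩
    have h2 := Set.ncard_le_ncard h1 (Finset.finite_toSet _)
    rw [Set.ncard_coe_finset] at h2
    have h3 := h2.trans Finset.card_biUnion_le
    exact_mod_cast h3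
  have h8 : ε * (n : ℝ) ^ (2 * k) * (c / n) ^ (2 * k) ≤
      T.card * (C * ((|Lp| + 1) * ρ) ^ (2 * k)) := by
    calc ε * (n : ℝ) ^ (2 * k) * (c / n) ^ (2 * k)
        ≤ (∑ t ∈ T, (((A n).filter (fun s => ‖s - y t‖ < (|Lp| + 1) * ρ)).card : ℝ)) *
            (c / n) ^ (2 * k) :=
          mul_le_mul_of_nonneg_right (hcount.trans hcard) (by positivity)
      _ = ∑ t ∈ T, (((A n).filter (fun s => ‖s - y t‖ < (|Lp| + 1) * ρ)).card : ℝ) *
            (c / n) ^ (2 * k) := by rw [Finset.sum_mul]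
      _ ≤ ∑ _t ∈ T, C * ((|Lp| + 1) * ρ) ^ (2 * k) := Finset.sum_le_sum hfib
      _ = T.card * (C * ((|Lp| + 1) * ρ) ^ (2 * k)) := by
          rw [Finset.sum_const, nsmul_eq_mul]
  have h9 : ε * (n : ℝ) ^ (2 * k) * (c / n) ^ (2 * k) = ε * c ^ (2 * k) := by
    rw [div_pow]
    field_simp
  have h10 : (T.card : ℝ) * (C * ((|Lp| + 1) * ρ) ^ (2 * k)) ≤ ε / 2 * c ^ (2 * k) := by
    rw [le_div_iff₀ (by positivity)] at hTcard
    calc (T.card : ℝ) * (C * ((|Lp| + 1) * ρ) ^ (2 * k))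
        = (T.card : ℝ) * ρ ^ (2 * k) * (C * (|Lp| + 1) ^ (2 * k)) := by rw [mul_pow]; ring
      _ ≤ ε / 2 * c ^ (2 * k) := hTcard
  rw [h9] at h8
  have h11 : 0 < c ^ (2 * k) := by positivity
  have h12 := h8.trans h10
  nlinarith

end MP6feb
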