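import Pool.Agent.Lib.MP_6febbd_ag.Defs

set_option autoImplicit false

open scoped Matrix.Norms.Elementwise Real
open Complex Matrix

noncomputable section

namespace MP6feb

variable {E : Type} [NormedAddCommGroup E]

theorem fat_mono {k : ℕ} {A : ℕ → Finset E} {Z Z' : Set E} (h : Z ⊆ Z')
    (hZ : Fat k A Z) : Fat k A Z' := by
  obtain ⟨ε, hε, hU⟩ := hZ
  exact ⟨ε, hε, fun U hUo hZU => hU U hUo (h.trans hZU)⟩

theorem not_fat_empty {k : ℕ} {A : ℕ → Finset E} : ¬ Fat k A (∅ : Set E) := by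
  rintro ⟨ε, hε, hU⟩
  have h1 := hU ∅ isOpen_empty (Set.empty_subset _)
  apply h1
  filter_upwards [Filter.eventually_ge_atTop 1] with n hn
  rw [Set.inter_empty, Set.ncard_empty, Nat.cast_zero, not_le]
  have : (0 : ℝ) < n := by exact_mod_cast hn
  positivity

/-- failure of fatness -/
private theorem not_fat_iff {k : ℕ} {A : ℕ → Finset E} {Z : Set E} (h : ¬ Fat k A Z) {ε : ℝ}
    (hε : 0 < ε) : ∃ U : Set E, IsOpen U ∧ Z ⊆ U ∧ ∀ᶠ n : ℕ in Filter.atTop,
      (((A n : Set E) ∩ U).ncard : ℝ) < ε * (n : ℝ) ^ (2 * k) := by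
  by_contra hcon
  apply h
  refine ⟨ε, hε, fun U hUo hZU => ?_⟩
  intro hev
  apply hcon
  refine ⟨U, hUo, hZU, ?_⟩
  filter_upwards [hev] with n hn
  exact not_le.mp hn

private theorem ncard_le_add (S : Finset E) (U V W : Set E) (h : W ⊆ U ∪ V) :
    (((S : Set E) ∩ W).ncard : ℝ) ≤ (((S : Set E) ∩ U).ncard : ℝ) +
      (((S : Set E) ∩ V).ncard : ℝ) := by
  have h1 : (S : Set E) ∩ W ⊆ ((S : Set E) ∩ U) ∪ ((S : Set E) ∩ V) := by
    rw [← Set.inter_union_distrib_left]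
    exact Set.inter_subset_inter_right _ h
  have hf : (((S : Set E) ∩ U) ∪ ((S : Set E) ∩ V)).Finite :=
    (S.finite_toSet.inter_of_left U).union (S.finite_toSet.inter_of_left V)
  have h2 := Set.ncard_le_ncard h1 hf
  have h3 := Set.ncard_union_le ((S : Set E) ∩ U) ((S : Set E) ∩ V)
  exact_mod_cast h2.trans h3

/-- Subadditivity: if neither is fat take open sets for `ε/2`. -/
theorem fat_union {k : ℕ} {A : ℕ → Finset E} {Z Z' : Set E} (h : Fat k A (Z ∪ Z')) :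
    Fat k A Z ∨ Fat k A Z' := by
  by_contra hcon
  rw [not_or] at hcon
  obtain ⟨ε, hε, hU⟩ := h
  obtain ⟨U, hUo, hZU, hUe⟩ := not_fat_iff hcon.1 (half_pos hε)
  obtain ⟨V, hVo, hZV, hVe⟩ := not_fat_iff hcon.2 (half_pos hε)
  apply hU (U ∪ V) (hUo.union hVo) (Set.union_subset_union hZU hZV)
  filter_upwards [hUe, hVe] with n h1 h2
  rw [not_le]
  have h3 := ncard_le_add (A n) U V (U ∪ V) (subset_refl _)
  linarith

/-- If `Z` is fat (constant `ε`) and `W` is not, take `U ⊇ W` open with fewer than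
`(ε/2) n^(2k)` points for all large `n`. -/
theorem fat_sdiff {k : ℕ} {A : ℕ → Finset E} {Z W : Set E} (hZ : Fat k A Z)
    (hW : ¬ Fat k A W) : ∃ U : Set E, IsOpen U ∧ W ⊆ U ∧ Fat k A (Z \ U) := by
  obtain ⟨ε, hε, hU⟩ := hZ
  obtain ⟨U, hUo, hWU, hUe⟩ := not_fat_iff hW (half_pos hε)
  refine ⟨U, hUo, hWU, ε / 2, half_pos hε, fun V hVo hZV => ?_⟩
  have hcov : Z ⊆ U ∪ V := by
    intro z hz
    by_cases h : z ∈ U
    · exact Or.inl h
    · exact Or.inr (hZV ⟨hz, h⟩)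
  have h1 := hU (U ∪ V) (hUo.union hVo) hcov
  refine (h1.and_eventually hUe).mono (fun n hn => ?_)
  have h3 := ncard_le_add (A n) U V (U ∪ V) (subset_refl _)
  linarith [hn.1, hn.2]

private theorem fat_biUnion {k : ℕ} {A : ℕ → Finset E} (F : E → Set E) (s : Finset E)
    (h : Fat k A (⋃ z ∈ s, F z)) : ∃ z ∈ s, Fat k A (F z) := by
  classical
  induction s using Finset.induction_on with
  | empty =>
      simp only [Finset.notMem_empty, Set.iUnion_of_empty, Set.iUnion_empty] at h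
      exact absurd h not_fat_empty
  | insert a s ha ih =>
      rw [Finset.set_biUnion_insert] at h
      rcases fat_union h with h1 | h1
      · exact ⟨a, Finset.mem_insert_self a s, h1⟩
      · obtain ⟨z, hz, hF⟩ := ih h1
        exact ⟨z, Finset.mem_insert_of_mem hz, hF⟩

/-- Localisation: finite subcover and `fat_union`, `not_fat_empty`. -/
theorem fat_local {k : ℕ} {A : ℕ → Finset E} {Z : Set E} (hc : IsCompact Z)
    (hZ : Fat k A Z) (r : E → ℝ) (hr : ∀ z ∈ Z, 0 < r z) :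
    ∃ z ∈ Z, Fat k A (Z ∩ Metric.closedBall z (r z)) := by
  obtain ⟨t, htZ, htc⟩ := hc.elim_nhds_subcover (fun z => Metric.closedBall z (r z))
    (fun z hz => Metric.closedBall_mem_nhds z (hr z hz))
  have h1 : Fat k A (⋃ z ∈ t, (Z ∩ Metric.closedBall z (r z))) := by
    refine fat_mono (fun x hx => ?_) hZ
    obtain ⟨z, hz, hxz⟩ := Set.mem_iUnion₂.mp (htc hx)
    exact Set.mem_iUnion₂.mpr ⟨z, hz, hx, hxz⟩
  obtain ⟨z, hz, hF⟩ := fat_biUnion (fun z => Z ∩ Metric.closedBall z (r z)) t h1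
  exact ⟨z, htZ z hz, hF⟩

/-- Removing an increasing union of open sets, each of which is eventually free of points
of `A n`. For `U ⊇ Z \ ⋃ O j` open the compact set `Z \ U` is covered by one `O j`. -/
theorem fat_avoid {k : ℕ} {A : ℕ → Finset E} {Z : Set E} (hc : IsCompact Z)
    (hZ : Fat k A Z) (O : ℕ → Set E) (hO : ∀ j, IsOpen (O j)) (hmono : Monotone O)
    (hav : ∀ j, ∀ᶠ n : ℕ in Filter.atTop, ∀ s ∈ A n, s ∉ O j) :
    Fat k A (Z \ ⋃ j, O j) := by
  obtain ⟨ε, hε, hU⟩ := hZ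
  refine ⟨ε, hε, fun U hUo hZU => ?_⟩
  have hcU : IsCompact (Z \ U) := hc.diff hUo
  have hcov : Z \ U ⊆ ⋃ j, O j := by
    intro z hz
    by_contra h
    exact hz.2 (hZU ⟨hz.1, h⟩)
  obtain ⟨j, hj⟩ := hcU.elim_directed_cover O hO hcov
    (hmono.directed_le)
  have hcov2 : Z ⊆ U ∪ O j := by
    intro z hz
    by_cases h : z ∈ U
    · exact Or.inl h
    · exact Or.inr (hj ⟨hz, h⟩)
  have h1 := hU (U ∪ O j) (hUo.union (hO j)) hcov2
  refine (h1.and_eventually (hav j)).mono (fun n hn => ?_)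
  have h2 : (A n : Set E) ∩ (U ∪ O j) = (A n : Set E) ∩ U := by
    ext x
    constructor
    · rintro ⟨h3, h4 | h4⟩
      · exact ⟨h3, h4⟩
      · exact absurd h4 (hn.2 x (Finset.mem_coe.mp h3))
    · rintro ⟨h3, h4⟩
      exact ⟨h3, Or.inl h4⟩
  rw [← h2]
  exact hn.1

theorem fat_init {k : ℕ} {A : ℕ → Finset E} {Z : Set E} (hA : ∀ n, (A n : Set E) ⊆ Z)
    {ε : ℝ} (hε : 0 < ε)
    (hf : ∃ᶠ n : ℕ in Filter.atTop, ε * (n : ℝ) ^ (2 * k) ≤ ((A n).card : ℝ)) :
    Fat k A Z := by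
  refine ⟨ε, hε, fun U _ hZU => hf.mono (fun n hn => ?_)⟩
  rw [Set.inter_eq_left.mpr ((hA n).trans hZU), Set.ncard_coe_finset]
  exact hn

end MP6feb
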