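import Pool.Agent.Lib.MP_6febbd_ag.Defs
import Pool.Agent.Lib.MP_6febbd_ag.ESa
import Pool.Agent.Lib.MP_6febbd_ag.ESd
import Pool.Agent.Lib.MP_6febbd_ag.FatL
import Pool.Agent.Lib.MP_6febbd_ag.F5
import Pool.Agent.Lib.MP_6febbd_ag.IDn

set_option autoImplicit false

open scoped Matrix.Norms.Elementwise Real
open Complex Matrix

noncomputable section

namespace MP6feb

/-- Small differences of zeros are tangent. Let `G = ES ((dS e)^[q-1] a)`,
`g' = ES (dS h ((dS e)^[q-1] a))` its derivative in the direction `h`. Proof. Let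
`O_j = {z ∈ ball p (r/2) : ‖g' z‖ > 1/(j+1)}`: open, increasing. For large `n` no
`s ∈ A n` lies in `O_j`: `s` and `s + h/n` are zeros of `F` in `ball p r`, hence on the graph
(`loc`), so `G` vanishes at both (`van` for `i = q-1`); `g'` is uniformly continuous on a
ball, so the mean value inequality on the segment gives
`‖g' s‖ ≤ sup ‖g'(s+th) - g' s‖ → 0`. By `fat_avoid` the compact set
`Z' = Z \ ⋃ O_j = {z ∈ Z : g' z = 0}` is fat. Its points are `y (pr z)`, so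
`pr '' Z'` is not null by `null_not_fat`, and `identity_pos` for `g' ∘ y`. -/
theorem kill {k : ℕ} {a : (Fin (k + 1) → ℤ) → ℂ} (ha : GDec a) (hne : ∃ z, ES a z ≠ 0)
    {q : ℕ} {e p : Fin (k + 1) → ℂ} {pr : (Fin (k + 1) → ℂ) →L[ℂ] (Fin k → ℂ)}
    {y : (Fin k → ℂ) → (Fin (k + 1) → ℂ)} {ρ r Lp : ℝ} (hreg : Reg a q e p pr y ρ r Lp)
    {A : ℕ → Finset (Fin (k + 1) → ℂ)} {R : ℝ}
    (hA : ∀ n, ∀ s ∈ A n, ES a s = 0 ∧ ‖s‖ ≤ R) {c : ℝ} (hc : 0 < c)
    (hsep : ∀ n : ℕ, ∀ s ∈ A n, ∀ s' ∈ A n, s ≠ s' → c / n ≤ ‖s - s'‖)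
    (h : Fin (k + 1) → ℂ) (hh : ∀ n, ∀ s ∈ A n, ES a (s + (1 / (n : ℂ)) • h) = 0)
    {Z : Set (Fin (k + 1) → ℂ)} (hZc : IsCompact Z) (hZp : Z ⊆ Metric.closedBall p (r / 4))
    (hZ0 : ∀ z ∈ Z, ES a z = 0) (hZ : Fat k A Z) :
    ∀ w ∈ Metric.ball (pr p) ρ, ES (dS h ((dS e)^[q - 1] a)) (y w) = 0 := by
  have ha' : GDec ((dS e)^[q - 1] a) := gdec_iter ha e (q - 1)
  have hg' : GDec (dS h ((dS e)^[q - 1] a)) := gdec_dS ha' h
  have hcont : Continuous (ES (dS h ((dS e)^[q - 1] a))) := (ES_differentiable hg').continuous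
  have hr := hreg.r0
  have hq : q - 1 < q := by
    have := hreg.q1
    omega
  let O : ℕ → Set (Fin (k + 1) → ℂ) := fun j =>
    Metric.ball p (r / 2) ∩ {z | 1 / ((j : ℝ) + 1) < ‖ES (dS h ((dS e)^[q - 1] a)) z‖}
  have hO : ∀ j, IsOpen (O j) := fun j =>
    Metric.isOpen_ball.inter (isOpen_lt continuous_const hcont.norm)
  have hmono : Monotone O := by
    intro i j hij z hz
    refine ⟨hz.1, ?_⟩
    have h1 : 1 / ((j : ℝ) + 1) ≤ 1 / ((i : ℝ) + 1) := by
      apply one_div_le_one_div_of_le (by positivity)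
      have : (i : ℝ) ≤ j := by exact_mod_cast hij
      linarith
    exact lt_of_le_of_lt h1 hz.2
  -- the zeros near `p` lie on the graph
  have hG0 : ∀ z ∈ Metric.ball p r, ES a z = 0 → ES ((dS e)^[q - 1] a) z = 0 := by
    intro z hz hz0
    obtain ⟨h1, h2⟩ := hreg.loc z hz
    rw [h2 hz0]
    exact hreg.van (q - 1) hq _ h1
  have hav : ∀ j, ∀ᶠ n : ℕ in Filter.atTop, ∀ s ∈ A n, s ∉ O j := by
    intro j
    have hη : (0 : ℝ) < 1 / ((j : ℝ) + 1) := by positivity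
    have huc := (isCompact_closedBall p r).uniformContinuousOn_of_continuous
      (hcont.continuousOn (s := Metric.closedBall p r))
    rw [Metric.uniformContinuousOn_iff] at huc
    obtain ⟨δ, hδ, hδ2⟩ := huc _ hη
    have hlim : Filter.Tendsto (fun n : ℕ => ‖h‖ / (n : ℝ)) Filter.atTop (nhds 0) :=
      tendsto_const_div_atTop_nhds_zero_nat _
    have hev := hlim.eventually (gt_mem_nhds (show (0 : ℝ) < min δ (r / 2) by positivity))
    filter_upwards [hev, Filter.eventually_gt_atTop 0] with n hn hn0 s hs hsO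
    have hnR : (0 : ℝ) < n := by exact_mod_cast hn0
    have hsb : s ∈ Metric.ball p (r / 2) := hsO.1
    -- points of the segment
    have hseg : ∀ t : ℝ, t ∈ Set.Icc (0 : ℝ) (1 / n) →
        s + (t : ℂ) • h ∈ Metric.ball p r ∧ dist (s + (t : ℂ) • h) s < δ := by
      intro t ht
      have h1 : ‖(t : ℂ) • h‖ ≤ ‖h‖ / n := by
        rw [norm_smul, Complex.norm_real, Real.norm_of_nonneg ht.1]
        calc t * ‖h‖ ≤ (1 / n) * ‖h‖ := mul_le_mul_of_nonneg_right ht.2 (norm_nonneg _)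
          _ = ‖h‖ / n := by ring
      have h2 : ‖(t : ℂ) • h‖ < min δ (r / 2) := lt_of_le_of_lt h1 hn
      have h3 : dist (s + (t : ℂ) • h) s = ‖(t : ℂ) • h‖ := by
        rw [dist_eq_norm, add_sub_cancel_left]
      refine ⟨?_, ?_⟩
      · rw [Metric.mem_ball] at hsb ⊢
        calc dist (s + (t : ℂ) • h) p ≤ dist (s + (t : ℂ) • h) s + dist s p :=
              dist_triangle _ _ _
          _ < r / 2 + r / 2 := by
              rw [h3]
              exact add_lt_add (lt_of_lt_of_le h2 (min_le_right _ _)) hsb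
          _ = r := by ring
      · rw [h3]
        exact lt_of_lt_of_le h2 (min_le_left _ _)
    have hbs : ∀ t : ℝ, t ∈ Set.Icc (0 : ℝ) (1 / n) →
        ‖ES (dS h ((dS e)^[q - 1] a)) (s + (t : ℂ) • h) - ES (dS h ((dS e)^[q - 1] a)) s‖ ≤
          1 / ((j : ℝ) + 1) := by
      intro t ht
      obtain ⟨h1, h2⟩ := hseg t ht
      have h3 := hδ2 _ (Metric.ball_subset_closedBall h1) s
        (Metric.ball_subset_closedBall (Metric.ball_subset_ball (by linarith) hsb)) h2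
      rw [dist_eq_norm] at h3
      exact h3.le
    let f : ℝ → ℂ := fun t => ES ((dS e)^[q - 1] a) (s + (t : ℂ) • h) -
      (t : ℂ) * ES (dS h ((dS e)^[q - 1] a)) s
    have hf : ∀ t ∈ Set.Icc (0 : ℝ) (1 / n), HasDerivWithinAt f
        (ES (dS h ((dS e)^[q - 1] a)) (s + (t : ℂ) • h) - ES (dS h ((dS e)^[q - 1] a)) s)
        (Set.Icc (0 : ℝ) (1 / n)) t := by
      intro t _
      have h1 := (ES_line ha' s h (t : ℂ)).comp_ofReal
      have h2 : HasDerivAt (fun u : ℂ => u * ES (dS h ((dS e)^[q - 1] a)) s)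
          (ES (dS h ((dS e)^[q - 1] a)) s) (t : ℂ) := by
        have := (hasDerivAt_id (t : ℂ)).mul_const (ES (dS h ((dS e)^[q - 1] a)) s)
        rw [one_mul] at this
        exact this
      exact (h1.sub h2.comp_ofReal).hasDerivWithinAt
    have hmv := norm_image_sub_le_of_norm_deriv_le_segment' hf
      (fun t ht => hbs t ⟨ht.1, ht.2.le⟩) (1 / n) ⟨by positivity, le_rfl⟩
    have hf0 : f 0 = 0 := by
      change ES ((dS e)^[q - 1] a) (s + ((0 : ℝ) : ℂ) • h) -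
        ((0 : ℝ) : ℂ) * ES (dS h ((dS e)^[q - 1] a)) s = 0
      rw [Complex.ofReal_zero, zero_smul, zero_mul, add_zero, sub_zero]
      exact hG0 s (Metric.ball_subset_ball (by linarith) hsb) (hA n s hs).1
    have hcast : ((1 / (n : ℝ) : ℝ) : ℂ) = 1 / (n : ℂ) := by push_cast; rfl
    have hf1 : f (1 / n) = -(1 / (n : ℂ) * ES (dS h ((dS e)^[q - 1] a)) s) := by
      change ES ((dS e)^[q - 1] a) (s + ((1 / (n : ℝ) : ℝ) : ℂ) • h) -
        ((1 / (n : ℝ) : ℝ) : ℂ) * ES (dS h ((dS e)^[q - 1] a)) s = _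
      have h1 := (hseg (1 / n) ⟨by positivity, le_rfl⟩).1
      rw [hcast] at h1 ⊢
      rw [hG0 _ h1 (hh n s hs), zero_sub]
    rw [hf0, hf1, sub_zero, sub_zero, norm_neg, norm_mul] at hmv
    have h4 : ‖1 / (n : ℂ)‖ = 1 / (n : ℝ) := by
      rw [norm_div, norm_one, Complex.norm_natCast]
    rw [h4, mul_comm] at hmv
    have h5 : ‖ES (dS h ((dS e)^[q - 1] a)) s‖ ≤ 1 / ((j : ℝ) + 1) :=
      le_of_mul_le_mul_right hmv (by positivity)
    exact absurd hsO.2 (not_lt.mpr h5)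
  have hfat := fat_avoid hZc hZ O hO hmono hav
  -- the remaining set
  have hZ' : ∀ z ∈ Z \ ⋃ j, O j, pr z ∈ Metric.ball (pr p) ρ ∧ z = y (pr z) ∧
      ES (dS h ((dS e)^[q - 1] a)) z = 0 := by
    rintro z ⟨hz, hzO⟩
    have h1 : z ∈ Metric.closedBall p (r / 4) := hZp hz
    rw [Metric.mem_closedBall] at h1
    have h2 : z ∈ Metric.ball p r := by
      rw [Metric.mem_ball]
      linarith
    have h3 : z ∈ Metric.ball p (r / 2) := by
      rw [Metric.mem_ball]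
      linarith
    obtain ⟨h4, h5⟩ := hreg.loc z h2
    refine ⟨h4, h5 (hZ0 z hz), ?_⟩
    rw [← norm_le_zero_iff]
    have h6 : ∀ j : ℕ, ‖ES (dS h ((dS e)^[q - 1] a)) z‖ ≤ 1 / ((j : ℝ) + 1) := by
      intro j
      by_contra hcon
      rw [not_le] at hcon
      exact hzO (Set.mem_iUnion.mpr ⟨j, h3, hcon⟩)
    exact ge_of_tendsto' tendsto_one_div_add_atTop_nhds_zero_nat h6
  have hZ'c : IsCompact (Z \ ⋃ j, O j) := hZc.diff (isOpen_iUnion hO)
  have hWc : IsCompact (pr '' (Z \ ⋃ j, O j)) := hZ'c.image pr.continuous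
  have hWb : pr '' (Z \ ⋃ j, O j) ⊆ Metric.ball (pr p) ρ := by
    rintro _ ⟨z, hz, rfl⟩
    exact (hZ' z hz).1
  have hvol : MeasureTheory.volume (pr '' (Z \ ⋃ j, O j)) ≠ 0 := by
    intro h0
    refine null_not_fat (ES_adm ha hne) A R hA hc hsep (Z \ ⋃ j, O j)
      (pr '' (Z \ ⋃ j, O j)) hWc h0 y Lp ?_ ?_ hfat
    · intro w hw w' hw'
      exact hreg.lip w (hWb hw) w' (hWb hw')
    · intro z hz
      exact ⟨pr z, ⟨z, hz, rfl⟩, (hZ' z hz).2.1.symm⟩
  refine identity_pos (D := fun w => ES (dS h ((dS e)^[q - 1] a)) (y w)) ?_ ?_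
  · exact (ES_differentiable hg').comp_differentiableOn hreg.ydiff
  · intro h0
    apply hvol
    refine MeasureTheory.measure_mono_null ?_ h0
    rintro _ ⟨z, hz, rfl⟩
    obtain ⟨h1, h2, h3⟩ := hZ' z hz
    refine ⟨h1, ?_⟩
    rw [← h2]
    exact h3

end MP6feb
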