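import Pool.Agent.Lib.MP_6febbd_ag.Defs
import Pool.Agent.Lib.MP_6febbd_ag.LZE
import Pool.Agent.Lib.MP_6febbd_ag.Pack

set_option autoImplicit false

open scoped Matrix.Norms.Elementwise Real
open Complex Matrix

noncomputable section

namespace MP6feb

/-- Global form: cover the ball of radius `R` by finitely many balls of radius one
(`exists_net` for the closed ball) and apply `lze` with `ρ = 1`. -/
theorem lze_global {k : ℕ} {F : (Fin (k + 1) → ℂ) → ℂ} (hF : Adm F) (R : ℝ) :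
    ∃ C : ℝ, 0 < C ∧ ∀ r : ℝ, 0 < r → r ≤ 1 →
      ∀ S : Finset (Fin (k + 1) → ℂ), (∀ s ∈ S, F s = 0 ∧ ‖s‖ ≤ R) →
        (∀ s ∈ S, ∀ s' ∈ S, s ≠ s' → r ≤ ‖s - s'‖) →
        (S.card : ℝ) * r ^ (2 * k) ≤ C := by
  classical
  obtain ⟨C, hC, hl⟩ := lze hF R
  obtain ⟨T, hT, _, hcov⟩ := exists_net (isCompact_closedBall (0 : Fin (k + 1) → ℂ) R)
    (r := 1) one_pos
  refine ⟨T.card * C + 1, by positivity, ?_⟩
  intro r hr hr1 S hS hsep
  have hSc : S ⊆ T.biUnion (fun t => S.filter (fun s => ‖s - t‖ ≤ 1)) := by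
    intro s hs
    obtain ⟨t, ht, hst⟩ := hcov s (mem_closedBall_zero_iff.mpr (hS s hs).2)
    rw [Finset.mem_biUnion]
    exact ⟨t, ht, Finset.mem_filter.mpr ⟨hs, hst.le⟩⟩
  have hcard : (S.card : ℝ) ≤
      ∑ t ∈ T, ((S.filter (fun s => ‖s - t‖ ≤ 1)).card : ℝ) := by
    have h1 := (Finset.card_le_card hSc).trans Finset.card_biUnion_le
    exact_mod_cast h1
  have hfib : ∀ t ∈ T, ((S.filter (fun s => ‖s - t‖ ≤ 1)).card : ℝ) * r ^ (2 * k) ≤ C := by
    intro t ht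
    have h1 := hl t (mem_closedBall_zero_iff.mp (hT ht)) r 1 hr hr1 le_rfl
      (S.filter (fun s => ‖s - t‖ ≤ 1))
      (fun s hs => by
        rw [Finset.mem_filter] at hs
        exact ⟨(hS s hs.1).1, hs.2⟩)
      (fun s hs s' hs' hss => hsep s (Finset.mem_filter.mp hs).1 s'
        (Finset.mem_filter.mp hs').1 hss)
    rwa [one_pow, mul_one] at h1
  calc (S.card : ℝ) * r ^ (2 * k)
      ≤ (∑ t ∈ T, ((S.filter (fun s => ‖s - t‖ ≤ 1)).card : ℝ)) * r ^ (2 * k) :=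
        mul_le_mul_of_nonneg_right hcard (by positivity)
    _ = ∑ t ∈ T, ((S.filter (fun s => ‖s - t‖ ≤ 1)).card : ℝ) * r ^ (2 * k) := by
        rw [Finset.sum_mul]
    _ ≤ ∑ _t ∈ T, C := Finset.sum_le_sum hfib
    _ = T.card * C := by rw [Finset.sum_const, nsmul_eq_mul]
    _ ≤ T.card * C + 1 := by linarith

end MP6feb
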