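import Pool.Agent.Lib.MP_6febbd_ag.Defs
import Pool.Agent.Lib.MP_6febbd_ag.LZEg
import Pool.Agent.Lib.MP_6febbd_ag.Grid
import Pool.Agent.Lib.MP_6febbd_ag.Pack

set_option autoImplicit false

open scoped Matrix.Norms.Elementwise Real
open Complex Matrix

noncomputable section

namespace MP6feb

/-- Few bad zeros. A zero `s` is bad if the vectors `L b`, `b` integral with coordinates
bounded by `H` and `s + (L b)/n` a zero, span a complex subspace of dimension `< k`.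
Proof. `C` from `grid_diff`, `r = H/(C n)` (`≤ 1` for large `n`). Let `T ⊆ S` be maximal
`r`-separated (`exists_max_sep`); `#T r^(2k) ≤ C₁` by `lze_global`. Every `s ∈ S` with
`‖s - ρ₀‖ < r`, `ρ₀ ∈ T`, is `ρ₀ + (L b)/n` with `|b_i| ≤ H`, and `L b` lies in the span
attached to the bad point `ρ₀`, so there are at most `C₂ H^(2k-2)` such `s`
(`lattice_in_subspace_unif`). Hence `#S ≤ C₁ (C n/H)^(2k) C₂ H^(2k-2) = C₃ n^(2k)/H²`;
choose `H` large. -/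
theorem bad_count {k : ℕ} {F : (Fin (k + 1) → ℂ) → ℂ} (hF : Adm F) (L : Crd k) {ε : ℝ}
    (hε : 0 < ε) :
    ∃ H : ℕ, 1 ≤ H ∧ ∀ᶠ n : ℕ in Filter.atTop, ∀ S : Finset (Fin (k + 1) → ℂ),
      S ⊆ Vn F L n →
      (∀ s ∈ S, Module.finrank ℂ (Submodule.span ℂ {v : Fin (k + 1) → ℂ |
        ∃ b : Fin (k + 1) ⊕ Fin (k + 1) → ℤ, (∀ i, |b i| ≤ (H : ℤ)) ∧
          F (s + (1 / (n : ℂ)) • L (fun i => (b i : ℝ))) = 0 ∧
          v = L (fun i => (b i : ℝ))}) < k) →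
      (S.card : ℝ) ≤ ε * (n : ℝ) ^ (2 * k) := by
  classical
  obtain ⟨C, hC, hdiff⟩ := grid_diff L
  obtain ⟨R, hR, hmem⟩ := Vn_mem F L
  obtain ⟨C₁, hC₁, hlze⟩ := lze_global hF R
  obtain ⟨C₂, hC₂, hlat⟩ := lattice_in_subspace_unif L
  obtain ⟨H, hH⟩ := exists_nat_ge (C₁ * C₂ * C ^ (2 * k) / ε + 1)
  have hH1 : (1 : ℝ) ≤ H := by
    have : 0 ≤ C₁ * C₂ * C ^ (2 * k) / ε := by positivity
    linarith
  have hHε : C₁ * C₂ * C ^ (2 * k) ≤ ε * (H : ℝ) ^ 2 := by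
    have h1 : C₁ * C₂ * C ^ (2 * k) / ε ≤ H := by linarith
    have h2 : (H : ℝ) ≤ (H : ℝ) ^ 2 := by nlinarith
    have h3 : C₁ * C₂ * C ^ (2 * k) / ε ≤ (H : ℝ) ^ 2 := h1.trans h2
    rw [div_le_iff₀ hε] at h3
    linarith
  refine ⟨H, by exact_mod_cast hH1, ?_⟩
  obtain ⟨n₀, hn₀⟩ := exists_nat_ge ((H : ℝ) / C + 1)
  filter_upwards [Filter.eventually_ge_atTop n₀] with n hn S hS hbad
  have hn1 : (H : ℝ) / C + 1 ≤ n := hn₀.trans (by exact_mod_cast hn)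
  have hHC : 0 < (H : ℝ) / C := by positivity
  have hnpos : (0 : ℝ) < n := by linarith
  have hnN : 1 ≤ n := by
    have : (1 : ℝ) ≤ n := by linarith
    exact_mod_cast this
  have hr0 : 0 < (H : ℝ) / (C * n) := by positivity
  have hr1 : (H : ℝ) / (C * n) ≤ 1 := by
    rw [div_le_one (by positivity)]
    have : (H : ℝ) / C ≤ n := by linarith
    rw [div_le_iff₀ hC] at this
    linarith
  obtain ⟨T, hTS, hTsep, hTcov⟩ := exists_max_sep S _ hr0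
  have hT : (T.card : ℝ) * ((H : ℝ) / (C * n)) ^ (2 * k) ≤ C₁ := by
    refine hlze _ hr0 hr1 T (fun s hs => ?_) hTsep
    obtain ⟨h1, h2, _⟩ := hmem n s (hS (hTS hs))
    exact ⟨h1, h2⟩
  have hfib : ∀ t ∈ T, ((S.filter (fun s => ‖s - t‖ < (H : ℝ) / (C * n))).card : ℝ) *
      (H : ℝ) ^ 2 ≤ C₂ * (H : ℝ) ^ (2 * k) := by
    intro t ht
    obtain ⟨_, _, mt, hmt⟩ := hmem n t (hS (hTS ht))
    have hb : ∀ s ∈ S.filter (fun s => ‖s - t‖ < (H : ℝ) / (C * n)),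
        ∃ b : Fin (k + 1) ⊕ Fin (k + 1) → ℤ,
        (∀ i, |(b i : ℝ)| ≤ H) ∧ s = t + (1 / (n : ℂ)) • L (fun i => (b i : ℝ)) := by
      intro s hs
      rw [Finset.mem_filter] at hs
      obtain ⟨_, _, ms, hms⟩ := hmem n s (hS hs.1)
      obtain ⟨h1, h2⟩ := hdiff n hnN mt ms
      refine ⟨fun i => ms i - mt i, fun i => ?_, ?_⟩
      · refine (h2 i).trans ?_
        rw [← hms, ← hmt]
        have h3 : C * n * ‖s - t‖ ≤ C * n * ((H : ℝ) / (C * n)) :=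
          mul_le_mul_of_nonneg_left hs.2.le (by positivity)
        refine h3.trans (le_of_eq ?_)
        field_simp
      · rw [← hms, ← hmt] at h1
        exact h1
    choose! b hb1 hb2 using hb
    have hinj : Set.InjOn b (S.filter (fun s => ‖s - t‖ < (H : ℝ) / (C * n)) : Set _) := by
      intro s hs s' hs' hss
      have e1 := hb2 s hs
      have e2 := hb2 s' hs'
      rw [← hss] at e2
      exact e1.trans e2.symm
    rw [← Finset.card_image_of_injOn hinj]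
    refine hlat _ (hbad t (hTS ht)) H hH1 _ ?_
    intro c hc
    rw [Finset.mem_image] at hc
    obtain ⟨s, hs, rfl⟩ := hc
    refine ⟨hb1 s hs, Submodule.subset_span ⟨b s, fun i => ?_, ?_, rfl⟩⟩
    · exact_mod_cast hb1 s hs i
    · rw [← hb2 s hs]
      exact (hmem n s (hS (Finset.mem_filter.mp hs).1)).1
  have hcov : S ⊆ T.biUnion (fun t => S.filter (fun s => ‖s - t‖ < (H : ℝ) / (C * n))) := by
    intro s hs
    obtain ⟨t, ht, hst⟩ := hTcov s hs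
    rw [Finset.mem_biUnion]
    exact ⟨t, ht, Finset.mem_filter.mpr ⟨hs, hst⟩⟩
  have hcard : (S.card : ℝ) ≤
      ∑ t ∈ T, ((S.filter (fun s => ‖s - t‖ < (H : ℝ) / (C * n))).card : ℝ) := by
    have h1 := (Finset.card_le_card hcov).trans Finset.card_biUnion_le
    exact_mod_cast h1
  have h5 : (S.card : ℝ) * (H : ℝ) ^ 2 ≤ T.card * (C₂ * (H : ℝ) ^ (2 * k)) := by
    calc (S.card : ℝ) * (H : ℝ) ^ 2
        ≤ (∑ t ∈ T, ((S.filter (fun s => ‖s - t‖ < (H : ℝ) / (C * n))).card : ℝ)) *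
            (H : ℝ) ^ 2 := mul_le_mul_of_nonneg_right hcard (by positivity)
      _ = ∑ t ∈ T, ((S.filter (fun s => ‖s - t‖ < (H : ℝ) / (C * n))).card : ℝ) *
            (H : ℝ) ^ 2 := by rw [Finset.sum_mul]
      _ ≤ ∑ _t ∈ T, C₂ * (H : ℝ) ^ (2 * k) := Finset.sum_le_sum hfib
      _ = T.card * (C₂ * (H : ℝ) ^ (2 * k)) := by
          rw [Finset.sum_const, nsmul_eq_mul]
  have h6 : (T.card : ℝ) * (H : ℝ) ^ (2 * k) ≤ C₁ * (C * n) ^ (2 * k) := by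
    rw [div_pow, mul_div_assoc', div_le_iff₀ (by positivity)] at hT
    exact hT
  have h7 : (S.card : ℝ) * (H : ℝ) ^ 2 ≤ (ε * (n : ℝ) ^ (2 * k)) * (H : ℝ) ^ 2 := by
    calc (S.card : ℝ) * (H : ℝ) ^ 2 ≤ T.card * (C₂ * (H : ℝ) ^ (2 * k)) := h5
      _ = C₂ * (T.card * (H : ℝ) ^ (2 * k)) := by ring
      _ ≤ C₂ * (C₁ * (C * n) ^ (2 * k)) := mul_le_mul_of_nonneg_left h6 hC₂.le
      _ = (C₁ * C₂ * C ^ (2 * k)) * (n : ℝ) ^ (2 * k) := by rw [mul_pow]; ring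
      _ ≤ (ε * (H : ℝ) ^ 2) * (n : ℝ) ^ (2 * k) :=
          mul_le_mul_of_nonneg_right hHε (by positivity)
      _ = (ε * (n : ℝ) ^ (2 * k)) * (H : ℝ) ^ 2 := by ring
  exact le_of_mul_le_mul_right h7 (by positivity)

end MP6feb
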