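import Pool.Agent.Lib.MP_6febbd_ag.Defs
import Pool.Agent.Lib.MP_6febbd_ag.PigA

set_option autoImplicit false

open scoped Matrix.Norms.Elementwise Real
open Complex Matrix

noncomputable section

namespace MP6feb

open Classical in
/-- Pigeonhole. Take `H` from `bad_count` with `ε/2`. For the good points `s` of `Vn F L n`
(at least `(ε/2) n^(2k)` of them for infinitely many `n`) the set
`B_s = {b : |b_i| ≤ H, F(s + (L b)/n) = 0}` is one of finitely many finite sets `B`, with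
`k ≤ finrank (span (L B))`; some `B` occurs for at least the fraction `1/N` of the good
points, and some `B` does so for infinitely many `n`. -/
theorem pigeon {k : ℕ} {F : (Fin (k + 1) → ℂ) → ℂ} (hF : Adm F) (L : Crd k) {ε : ℝ}
    (hε : 0 < ε)
    (hfreq : ∃ᶠ n : ℕ in Filter.atTop, ε * (n : ℝ) ^ (2 * k) ≤ ((Vn F L n).card : ℝ)) :
    ∃ B : Finset (Fin (k + 1) ⊕ Fin (k + 1) → ℤ),
      k ≤ Module.finrank ℂ (Submodule.span ℂ
        {v : Fin (k + 1) → ℂ | ∃ b ∈ B, v = L (fun i => (b i : ℝ))}) ∧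
      ∃ ε' : ℝ, 0 < ε' ∧ ∃ᶠ n : ℕ in Filter.atTop, ε' * (n : ℝ) ^ (2 * k) ≤
        (((Vn F L n).filter (fun s => ∀ b ∈ B,
          F (s + (1 / (n : ℂ)) • L (fun i => (b i : ℝ))) = 0)).card : ℝ) := by
  obtain ⟨H, -, hbad⟩ := bad_count hF L (half_pos hε)
  let Box : Finset (Fin (k + 1) ⊕ Fin (k + 1) → ℤ) :=
    Fintype.piFinset (fun _ => Finset.Icc (-(H : ℤ)) H)
  have hBox : ∀ b, b ∈ Box ↔ ∀ i, |b i| ≤ (H : ℤ) := by
    intro b
    simp only [Box, Fintype.mem_piFinset, Finset.mem_Icc, abs_le]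
  let P : Finset (Finset (Fin (k + 1) ⊕ Fin (k + 1) → ℤ)) :=
    Box.powerset.filter (fun B => k ≤ Module.finrank ℂ (Submodule.span ℂ
      {v : Fin (k + 1) → ℂ | ∃ b ∈ B, v = L (fun i => (b i : ℝ))}))
  let G : ℕ → Finset (Fin (k + 1) ⊕ Fin (k + 1) → ℤ) → Finset (Fin (k + 1) → ℂ) :=
    fun n B => (Vn F L n).filter (fun s => ∀ b ∈ B,
      F (s + (1 / (n : ℂ)) • L (fun i => (b i : ℝ))) = 0)
  by_contra hcon
  push Not at hcon
  set ε' : ℝ := ε / (4 * ((P.card : ℝ) + 1)) with hε'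
  have hε'0 : 0 < ε' := by positivity
  have hev : ∀ᶠ n : ℕ in Filter.atTop, ∀ B ∈ P,
      ((G n B).card : ℝ) < ε' * (n : ℝ) ^ (2 * k) := by
    rw [Filter.eventually_all_finset]
    intro B hB
    have h1 := hcon B (Finset.mem_filter.1 hB).2 ε' hε'0
    simpa only [Filter.not_frequently, not_le] using h1
  obtain ⟨n, hn1, hn2, hn3, hn4⟩ :=
    (hfreq.and_eventually (hbad.and (hev.and (Filter.eventually_ge_atTop 1)))).exists
  let bad : (Fin (k + 1) → ℂ) → Prop := fun s =>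
    Module.finrank ℂ (Submodule.span ℂ {v : Fin (k + 1) → ℂ |
        ∃ b : Fin (k + 1) ⊕ Fin (k + 1) → ℤ, (∀ i, |b i| ≤ (H : ℤ)) ∧
          F (s + (1 / (n : ℂ)) • L (fun i => (b i : ℝ))) = 0 ∧
          v = L (fun i => (b i : ℝ))}) < k
  have hS := hn2 ((Vn F L n).filter bad) (Finset.filter_subset _ _)
    (fun s hs => (Finset.mem_filter.1 hs).2)
  have hgood : (Vn F L n).filter (fun s => ¬ bad s) ⊆ P.biUnion (G n) := by
    intro s hs
    rw [Finset.mem_filter] at hs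
    obtain ⟨hsV, hsb⟩ := hs
    simp only [bad, not_lt] at hsb
    rw [Finset.mem_biUnion]
    refine ⟨Box.filter (fun b => F (s + (1 / (n : ℂ)) • L (fun i => (b i : ℝ))) = 0), ?_, ?_⟩
    · simp only [P, Finset.mem_filter, Finset.mem_powerset]
      refine ⟨Finset.filter_subset _ _, ?_⟩
      have hset : {v : Fin (k + 1) → ℂ | ∃ b ∈ Box.filter (fun b => F (s + (1 / (n : ℂ)) •
            L (fun i => (b i : ℝ))) = 0), v = L (fun i => (b i : ℝ))} =
          {v : Fin (k + 1) → ℂ | ∃ b : Fin (k + 1) ⊕ Fin (k + 1) → ℤ,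
            (∀ i, |b i| ≤ (H : ℤ)) ∧ F (s + (1 / (n : ℂ)) • L (fun i => (b i : ℝ))) = 0 ∧
              v = L (fun i => (b i : ℝ))} := by
        ext v
        simp only [Set.mem_setOf_eq, Finset.mem_filter]
        constructor
        · rintro ⟨b, hb, rfl⟩
          exact ⟨b, (hBox b).1 hb.1, hb.2, rfl⟩
        · rintro ⟨b, hb1, hb2, rfl⟩
          exact ⟨b, ⟨(hBox b).2 hb1, hb2⟩, rfl⟩
      rw [hset]
      exact hsb
    · simp only [G, Finset.mem_filter]
      exact ⟨hsV, fun b hb => hb.2⟩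
  have hcard : ((Vn F L n).card : ℝ) ≤ (((Vn F L n).filter bad).card : ℝ) +
      ∑ B ∈ P, ((G n B).card : ℝ) := by
    have h1 := Finset.card_filter_add_card_filter_not (s := Vn F L n) bad
    have h2 := (Finset.card_le_card hgood).trans Finset.card_biUnion_le
    have h3 : (Vn F L n).card ≤ ((Vn F L n).filter bad).card + ∑ B ∈ P, (G n B).card := by
      omega
    exact_mod_cast h3
  have hsum : ∑ B ∈ P, ((G n B).card : ℝ) ≤ P.card * (ε' * (n : ℝ) ^ (2 * k)) := by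
    calc ∑ B ∈ P, ((G n B).card : ℝ) ≤ ∑ _B ∈ P, (ε' * (n : ℝ) ^ (2 * k)) :=
          Finset.sum_le_sum (fun B hB => (hn3 B hB).le)
      _ = P.card * (ε' * (n : ℝ) ^ (2 * k)) := by rw [Finset.sum_const, nsmul_eq_mul]
  have hnpos : 0 < (n : ℝ) ^ (2 * k) := by
    have : (0 : ℝ) < n := by exact_mod_cast hn4
    positivity
  have hle : (P.card : ℝ) * ε' ≤ ε / 4 := by
    rw [hε']
    have h0 : (0 : ℝ) ≤ P.card := by positivity
    have h1 : (P.card : ℝ) * (ε / (4 * ((P.card : ℝ) + 1))) =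
        (ε / 4) * ((P.card : ℝ) / ((P.card : ℝ) + 1)) := by
      field_simp
    rw [h1]
    have h2 : (P.card : ℝ) / ((P.card : ℝ) + 1) ≤ 1 := by
      rw [div_le_one (by positivity)]
      linarith
    have h3 : 0 < ε / 4 := by positivity
    nlinarith
  have h5 : (P.card : ℝ) * (ε' * (n : ℝ) ^ (2 * k)) ≤ ε / 4 * (n : ℝ) ^ (2 * k) := by
    rw [← mul_assoc]
    exact mul_le_mul_of_nonneg_right hle hnpos.le
  have h6 : 0 < ε * (n : ℝ) ^ (2 * k) := by positivity
  nlinarith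

end MP6feb
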