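import Pool.Agent.Lib.MP_6febbd_ag.Defs
import Pool.Agent.Lib.MP_6febbd_ag.ESa
import Pool.Agent.Lib.MP_6febbd_ag.ESd
import Pool.Agent.Lib.MP_6febbd_ag.Tay

set_option autoImplicit false

open scoped Matrix.Norms.Elementwise Real
open Complex Matrix

noncomputable section

namespace MP6feb

/-- Zeros of `F` near a regular point of the stratum lie on the hypersurface. Proof. For `z`
near `p` put `y₀ = y (pr z)`; `pr (z - y₀) = 0`, so `z = y₀ + t e` with `t` small (`e ≠ 0`).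
The functions `f_i(s) = ES ((dS e)^[i] a) (y₀ + s e)` satisfy the hypotheses of
`taylor_ne_zero` with `a₀ = ES ((dS e)^[q] a) p` on a small disc, by continuity. So
`F z = f_0 t ≠ 0` unless `t = 0`. -/
theorem loc_zero {k : ℕ} {a : (Fin (k + 1) → ℤ) → ℂ} (ha : GDec a) {q : ℕ} (hq : 1 ≤ q)
    {e p : Fin (k + 1) → ℂ} (h0 : ES ((dS e)^[q] a) p ≠ 0)
    (pr : (Fin (k + 1) → ℂ) →L[ℂ] (Fin k → ℂ)) (hker : ∀ z, pr z = 0 → ∃ c : ℂ, z = c • e)
    {ρ : ℝ} (hρ : 0 < ρ) (y : (Fin k → ℂ) → (Fin (k + 1) → ℂ))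
    (hyc : ContinuousOn y (Metric.ball (pr p) ρ)) (hyp : y (pr p) = p)
    (hypr : ∀ w ∈ Metric.ball (pr p) ρ, pr (y w) = w)
    (hvan : ∀ i < q, ∀ w ∈ Metric.ball (pr p) ρ, ES ((dS e)^[i] a) (y w) = 0) :
    ∃ r : ℝ, 0 < r ∧ ∀ z ∈ Metric.ball p r, pr z ∈ Metric.ball (pr p) ρ ∧
      (ES a z = 0 → z = y (pr z)) := by
  set a₀ : ℂ := ES ((dS e)^[q] a) p with ha₀
  have hε : 0 < ‖a₀‖ / (2 * (q.factorial : ℝ)) := by
    apply div_pos (norm_pos_iff.mpr h0)
    have : (0 : ℝ) < (q.factorial : ℝ) := by exact_mod_cast Nat.factorial_pos q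
    positivity
  have hcont : Continuous (ES ((dS e)^[q] a)) :=
    (ES_differentiable (gdec_iter ha e q)).continuous
  obtain ⟨δ, hδ, hδ'⟩ := Metric.continuousAt_iff.mp hcont.continuousAt _ hε
  -- eventually close
  have hyat : ContinuousAt (fun z => y (pr z)) p := by
    apply ContinuousAt.comp (f := fun z => pr z)
    · exact hyc.continuousAt (Metric.ball_mem_nhds _ hρ)
    · exact pr.continuous.continuousAt
  have hev : ∀ᶠ z in nhds p, pr z ∈ Metric.ball (pr p) ρ ∧ dist (y (pr z)) p < δ / 3 ∧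
      dist z p < δ / 3 := by
    have h1 : ∀ᶠ z in nhds p, pr z ∈ Metric.ball (pr p) ρ :=
      pr.continuous.continuousAt (Metric.ball_mem_nhds _ hρ)
    have h2 : ∀ᶠ z in nhds p, dist (y (pr z)) p < δ / 3 := by
      have := Metric.tendsto_nhds.mp hyat (δ / 3) (by linarith)
      simpa only [hyp] using this
    have h3 : ∀ᶠ z in nhds p, dist z p < δ / 3 := Metric.ball_mem_nhds p (by linarith)
    filter_upwards [h1, h2, h3] with z a b c
    exact ⟨a, b, c⟩
  obtain ⟨r, hr, hr'⟩ := Metric.eventually_nhds_iff_ball.mp hev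
  refine ⟨r, hr, fun z hz => ?_⟩
  obtain ⟨hz1, hz2, hz3⟩ := hr' z hz
  refine ⟨hz1, fun hFz => ?_⟩
  obtain ⟨t, ht⟩ := hker (z - y (pr z)) (by rw [map_sub, hypr _ hz1, sub_self])
  by_contra hne
  have ht0 : t ≠ 0 := by
    rintro rfl
    rw [zero_smul] at ht
    exact hne (sub_eq_zero.mp ht)
  have hte : ‖t‖ * ‖e‖ < δ / 3 + δ / 3 := by
    rw [← norm_smul, ← ht]
    calc ‖z - y (pr z)‖ = dist z (y (pr z)) := (dist_eq_norm _ _).symm
      _ ≤ dist z p + dist p (y (pr z)) := dist_triangle _ _ _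
      _ < δ / 3 + δ / 3 := by rw [dist_comm p]; linarith
  have hz' : z = y (pr z) + t • e := by rw [← ht]; abel
  have hfin := taylor_ne_zero (fun i s => ES ((dS e)^[i] a) (y (pr z) + s • e))
    (fun i s => by
      have h1 := ES_line (gdec_iter ha e i) (y (pr z)) e s
      rw [← Function.iterate_succ_apply' (dS e) i a] at h1
      exact h1) (q := q) (a₀ := a₀) h0 (δ := ‖t‖)
    (fun i hi => by
      simp only [zero_smul, add_zero]
      exact hvan i hi _ hz1)
    (fun s hs => by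
      have h1 : dist (y (pr z) + s • e) p < δ := by
        rw [dist_eq_norm]
        calc ‖y (pr z) + s • e - p‖ = ‖(y (pr z) - p) + s • e‖ := by congr 1; abel
          _ ≤ ‖y (pr z) - p‖ + ‖s • e‖ := norm_add_le _ _
          _ ≤ dist (y (pr z)) p + ‖t‖ * ‖e‖ := by
              rw [norm_smul, dist_eq_norm]
              gcongr
          _ < δ / 3 + (δ / 3 + δ / 3) := by linarith
          _ = δ := by ring
      have h2 := hδ' h1
      rw [dist_eq_norm] at h2
      exact h2.le) t ht0 le_rfl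
  apply hfin
  simp only [Function.iterate_zero, id_eq]
  rw [← hz']
  exact hFz

end MP6feb
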