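import Pool.Agent.Lib.MP_6febbd_ag.Defs
import Pool.Agent.Lib.MP_6febbd_ag.ESa
import Pool.Agent.Lib.MP_6febbd_ag.ESd
import Pool.Agent.Lib.MP_6febbd_ag.FatL
import Pool.Agent.Lib.MP_6febbd_ag.Tay

set_option autoImplicit false

open scoped Matrix.Norms.Elementwise Real
open Complex Matrix

noncomputable section

namespace MP6feb

private def Zq {k : ℕ} (a : (Fin (k + 1) → ℤ) → ℂ) (K : Set (Fin (k + 1) → ℂ)) (q : ℕ) :
    Set (Fin (k + 1) → ℂ) :=
  K ∩ ⋂ i : ℕ, ⋂ _ : i < q, ⋂ e : Fin (k + 1) → ℂ, {z | ES ((dS e)^[i] a) z = 0}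

private theorem mem_Zq {k : ℕ} {a : (Fin (k + 1) → ℤ) → ℂ} {K : Set (Fin (k + 1) → ℂ)}
    {q : ℕ} {z : Fin (k + 1) → ℂ} :
    z ∈ Zq a K q ↔ z ∈ K ∧ ∀ i < q, ∀ e, ES ((dS e)^[i] a) z = 0 := by
  simp [Zq]

private theorem Zq_compact {k : ℕ} {a : (Fin (k + 1) → ℤ) → ℂ} (ha : GDec a)
    {K : Set (Fin (k + 1) → ℂ)} (hK : IsCompact K) (q : ℕ) : IsCompact (Zq a K q) := by
  refine hK.inter_right ?_
  refine isClosed_iInter fun i => isClosed_iInter fun _ => isClosed_iInter fun e => ?_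
  exact isClosed_eq (ES_differentiable (gdec_iter ha e i)).continuous continuous_const

private theorem Zq_empty {k : ℕ} {a : (Fin (k + 1) → ℤ) → ℂ} (ha : GDec a)
    (hne : ∃ z, ES a z ≠ 0) {K : Set (Fin (k + 1) → ℂ)} (hK : IsCompact K) :
    ∃ q, Zq a K q = ∅ := by
  by_contra hcon
  push Not at hcon
  have h1 : (⋂ q, Zq a K q).Nonempty := by
    refine IsCompact.nonempty_iInter_of_sequence_nonempty_isCompact_isClosed _ ?_ ?_ ?_ ?_
    · intro q z hz
      rw [mem_Zq] at hz ⊢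
      exact ⟨hz.1, fun i hi e => hz.2 i (by omega) e⟩
    · exact fun q => hcon q
    · exact Zq_compact ha hK 0
    · exact fun q => (Zq_compact ha hK q).isClosed
  obtain ⟨z, hz⟩ := h1
  rw [Set.mem_iInter] at hz
  have h2 : ∀ i e, ES ((dS e)^[i] a) z = 0 := fun i e =>
    (mem_Zq.mp (hz (i + 1))).2 i (by omega) e
  obtain ⟨z', hz'⟩ := hne
  apply hz'
  have h3 := all_deriv_zero (fun i s => ES ((dS (z' - z))^[i] a) (z + s • (z' - z)))
    (fun i s => by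
      have := ES_line (gdec_iter ha (z' - z) i) z (z' - z) s
      rw [← Function.iterate_succ_apply' (dS (z' - z)) i a] at this
      exact this)
    (fun i => by simpa using h2 i (z' - z)) 1
  simpa using h3

theorem strat {k : ℕ} {a : (Fin (k + 1) → ℤ) → ℂ} (ha : GDec a) (hne : ∃ z, ES a z ≠ 0)
    {A : ℕ → Finset (Fin (k + 1) → ℂ)} {K : Set (Fin (k + 1) → ℂ)} (hK : IsCompact K)
    (hZ : Fat k A (K ∩ {z | ES a z = 0})) :
    ∃ (q : ℕ) (C : Set (Fin (k + 1) → ℂ)), 1 ≤ q ∧ IsCompact C ∧ C ⊆ K ∧ Fat k A C ∧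
      ∀ z ∈ C, (∀ i < q, ∀ e, ES ((dS e)^[i] a) z = 0) ∧
        ∃ e, ES ((dS e)^[q] a) z ≠ 0 := by
  classical
  have h1 : Fat k A (Zq a K 1) := by
    refine fat_mono (fun z hz => ?_) hZ
    rw [mem_Zq]
    refine ⟨hz.1, fun i hi e => ?_⟩
    obtain rfl : i = 0 := by omega
    exact hz.2
  obtain ⟨Q, hQ⟩ := Zq_empty ha hne hK
  have hex : ∃ n, ¬ Fat k A (Zq a K (n + 1)) := by
    refine ⟨Q, fun h => ?_⟩
    have h2 : Zq a K (Q + 1) ⊆ ∅ := by
      intro z hz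
      rw [← hQ, mem_Zq]
      rw [mem_Zq] at hz
      exact ⟨hz.1, fun i hi e => hz.2 i (by omega) e⟩
    exact not_fat_empty (fat_mono h2 h)
  set m := Nat.find hex with hm
  have hm1 : ¬ Fat k A (Zq a K (m + 1)) := Nat.find_spec hex
  have hm0 : m ≠ 0 := by
    intro h
    rw [h] at hm1
    exact hm1 h1
  have hm2 : Fat k A (Zq a K m) := by
    have h3 := Nat.find_min hex (m := m - 1) (by omega)
    rw [not_not, Nat.sub_add_cancel (by omega)] at h3
    exact h3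
  obtain ⟨U, hUo, hU, hfat⟩ := fat_sdiff hm2 hm1
  refine ⟨m, Zq a K m \ U, by omega, (Zq_compact ha hK m).diff hUo, ?_, hfat, ?_⟩
  · intro z hz
    exact (mem_Zq.mp hz.1).1
  · intro z hz
    have h4 := mem_Zq.mp hz.1
    refine ⟨h4.2, ?_⟩
    by_contra hcon
    push Not at hcon
    apply hz.2
    apply hU
    rw [mem_Zq]
    refine ⟨h4.1, fun i hi e => ?_⟩
    rcases Nat.lt_succ_iff_lt_or_eq.mp hi with h | h
    · exact h4.2 i h e
    · rw [h]
      exact hcon e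

end MP6feb
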