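import Pool.Agent.Lib.MP_6febbd_ag.Defs
import Pool.Agent.Lib.MP_6febbd_ag.Strat
import Pool.Agent.Lib.MP_6febbd_ag.Loc
import Pool.Agent.Lib.MP_6febbd_ag.ChP
import Pool.Agent.Lib.MP_6febbd_ag.Cha
import Pool.Agent.Lib.MP_6febbd_ag.F5
import Pool.Agent.Lib.MP_6febbd_ag.IDn
import Pool.Agent.Lib.MP_6febbd_ag.ESa
import Pool.Agent.Lib.MP_6febbd_ag.ESd

set_option autoImplicit false

open scoped Matrix.Norms.Elementwise Real
open Complex Matrix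

noncomputable section

namespace MP6feb

/-- Local chart of the derivative of order `q - 1` at a point of multiplicity `q`. -/
private theorem local_data {k : ℕ} {a : (Fin (k + 1) → ℤ) → ℂ} (ha : GDec a)
    {q : ℕ} (hq : 1 ≤ q) {z₀ : Fin (k + 1) → ℂ}
    (hvan : ∀ i < q, ∀ e, ES ((dS e)^[i] a) z₀ = 0)
    (hnz : ∃ e, ES ((dS e)^[q] a) z₀ ≠ 0) :
    ∃ δ : ℝ, 0 < δ ∧ ∃ (e : Fin (k + 1) → ℂ) (pr : (Fin (k + 1) → ℂ) →L[ℂ] (Fin k → ℂ))
      (y : (Fin k → ℂ) → (Fin (k + 1) → ℂ)) (ρ r Lp : ℝ), 0 < ρ ∧ δ < r ∧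
      (∀ z, pr z = 0 → ∃ c : ℂ, z = c • e) ∧
      DifferentiableOn ℂ y (Metric.ball (pr z₀) ρ) ∧
      (∀ w ∈ Metric.ball (pr z₀) ρ, pr (y w) = w) ∧
      (∀ w ∈ Metric.ball (pr z₀) ρ, ∀ w' ∈ Metric.ball (pr z₀) ρ,
        ‖y w - y w'‖ ≤ Lp * ‖w - w'‖) ∧
      (∀ z ∈ Metric.ball z₀ r, pr z ∈ Metric.ball (pr z₀) ρ ∧
        (ES ((dS e)^[q - 1] a) z = 0 → z = y (pr z))) ∧
      ∀ z ∈ Metric.closedBall z₀ δ, ES ((dS e)^[q] a) z ≠ 0 := by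
  obtain ⟨e, he⟩ := hnz
  have hG : ContDiff ℂ 1 (ES ((dS e)^[q - 1] a)) := ES_contDiff (gdec_iter ha e (q - 1))
  have hfd : fderiv ℂ (ES ((dS e)^[q - 1] a)) z₀ e = ES ((dS e)^[q] a) z₀ := by
    rw [ES_fderiv (gdec_iter ha e (q - 1)), ← Function.iterate_succ_apply' (dS e) (q - 1) a]
    congr 3
    omega
  have he0 : fderiv ℂ (ES ((dS e)^[q - 1] a)) z₀ e ≠ 0 := by rw [hfd]; exact he
  have hene : e ≠ 0 := by
    intro h
    rw [h, map_zero] at he0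
    exact he0 rfl
  obtain ⟨pr, hpr, _, hker⟩ := exists_proj hene
  obtain ⟨y, ρ, r, Lp, hρ, hr, _, _, hyd, hyG, hlip, hloc⟩ :=
    chart hG (hvan (q - 1) (by omega) e) he0 pr hpr hker
  have hcont : Continuous (ES ((dS e)^[q] a)) :=
    (ES_differentiable (gdec_iter ha e q)).continuous
  have hnhds : ∀ᶠ z in nhds z₀, ES ((dS e)^[q] a) z ≠ 0 :=
    hcont.continuousAt.eventually_ne he
  obtain ⟨δ₁, hδ₁, hball⟩ := Metric.eventually_nhds_iff_ball.mp hnhds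
  refine ⟨min (δ₁ / 2) (r / 2), by positivity, e, pr, y, ρ, r, Lp, hρ, ?_, hker, hyd,
    fun w hw => (hyG w hw).2, hlip, hloc, ?_⟩
  · exact (min_le_right _ _).trans_lt (by linarith)
  · intro z hz
    refine hball z ?_
    rw [Metric.mem_closedBall] at hz
    rw [Metric.mem_ball]
    have := min_le_left (δ₁ / 2) (r / 2)
    linarith

/-- A fat regular piece exists. Proof. `fat_init` with
`Z = closedBall 0 R ∩ {F = 0}`, then `strat` gives `q, C`. For `z ∈ C` choose `e_z` with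
`ES ((dS e_z)^[q] a) z ≠ 0`, put `G_z = ES ((dS e_z)^[q-1] a)` (`G_z z = 0`,
`fderiv G_z z e_z ≠ 0`), take a projection (`exists_proj`), `chart`, and a radius
`δ_z ≤ r_z/2` such that `ES ((dS e_z)^[q] a) ≠ 0` on `closedBall z δ_z`. By `fat_local`
there is `p₀ ∈ C` with `Z₀ = C ∩ closedBall p₀ δ` fat. All points `z` of `Z₀` are zeros of
`G`, so `z = y (pr z)`; `W = pr '' Z₀` is compact and not null by `null_not_fat`, so by
`identity_pos` all `ES ((dS e)^[i] a) ∘ y`, `i < q`, vanish on `ball (pr p₀) ρ`. For every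
`p ∈ Z₀` apply `loc_zero` on `ball (pr p) ρ_p`, `ρ_p = ρ - dist (pr p) (pr p₀)`, to get
`r_p`; by `fat_local` for `Z₀` with radii `r_p/4` there is `p ∈ Z₀` such that
`Z = Z₀ ∩ closedBall p (r_p/4)` is fat. -/
theorem reg_exists {k : ℕ} {a : (Fin (k + 1) → ℤ) → ℂ} (ha : GDec a)
    (hne : ∃ z, ES a z ≠ 0) {A : ℕ → Finset (Fin (k + 1) → ℂ)} {R : ℝ}
    (hA : ∀ n, ∀ s ∈ A n, ES a s = 0 ∧ ‖s‖ ≤ R) {c : ℝ} (hc : 0 < c)
    (hsep : ∀ n : ℕ, ∀ s ∈ A n, ∀ s' ∈ A n, s ≠ s' → c / n ≤ ‖s - s'‖) {ε : ℝ}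
    (hε : 0 < ε)
    (hf : ∃ᶠ n : ℕ in Filter.atTop, ε * (n : ℝ) ^ (2 * k) ≤ ((A n).card : ℝ)) :
    ∃ (q : ℕ) (e p : Fin (k + 1) → ℂ) (pr : (Fin (k + 1) → ℂ) →L[ℂ] (Fin k → ℂ))
      (y : (Fin k → ℂ) → (Fin (k + 1) → ℂ)) (ρ r Lp : ℝ) (Z : Set (Fin (k + 1) → ℂ)),
      Reg a q e p pr y ρ r Lp ∧ IsCompact Z ∧ Z ⊆ Metric.closedBall p (r / 4) ∧
        (∀ z ∈ Z, ES a z = 0) ∧ Fat k A Z := by
  have hfat1 : Fat k A (Metric.closedBall 0 R ∩ {z | ES a z = 0}) := by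
    refine fat_init (fun n s hs => ?_) hε hf
    exact ⟨mem_closedBall_zero_iff.mpr (hA n s hs).2, (hA n s hs).1⟩
  obtain ⟨q, C, hq, hC, _, hCfat, hCpt⟩ := strat ha hne (isCompact_closedBall 0 R) hfat1
  have hdata : ∀ z₀ ∈ C, ∃ δ : ℝ, 0 < δ ∧ ∃ (e : Fin (k + 1) → ℂ)
      (pr : (Fin (k + 1) → ℂ) →L[ℂ] (Fin k → ℂ))
      (y : (Fin k → ℂ) → (Fin (k + 1) → ℂ)) (ρ r Lp : ℝ), 0 < ρ ∧ δ < r ∧
      (∀ z, pr z = 0 → ∃ c : ℂ, z = c • e) ∧
      DifferentiableOn ℂ y (Metric.ball (pr z₀) ρ) ∧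
      (∀ w ∈ Metric.ball (pr z₀) ρ, pr (y w) = w) ∧
      (∀ w ∈ Metric.ball (pr z₀) ρ, ∀ w' ∈ Metric.ball (pr z₀) ρ,
        ‖y w - y w'‖ ≤ Lp * ‖w - w'‖) ∧
      (∀ z ∈ Metric.ball z₀ r, pr z ∈ Metric.ball (pr z₀) ρ ∧
        (ES ((dS e)^[q - 1] a) z = 0 → z = y (pr z))) ∧
      ∀ z ∈ Metric.closedBall z₀ δ, ES ((dS e)^[q] a) z ≠ 0 :=
    fun z₀ hz₀ => local_data ha hq (hCpt z₀ hz₀).1 (hCpt z₀ hz₀).2
  choose! δ hδ hrest using hdata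
  obtain ⟨p₀, hp₀, hZ₀fat⟩ := fat_local hC hCfat δ hδ
  obtain ⟨e, pr, y, ρ, r, Lp, hρ, hδr, hker, hyd, hypr, hlip, hloc, hnz⟩ := hrest p₀ hp₀
  have hZ₀c : IsCompact (C ∩ Metric.closedBall p₀ (δ p₀)) :=
    hC.inter_right Metric.isClosed_closedBall
  have hZ₀ball : ∀ z ∈ C ∩ Metric.closedBall p₀ (δ p₀), z ∈ Metric.ball p₀ r := by
    intro z hz
    exact Metric.closedBall_subset_ball hδr hz.2
  have hZ₀y : ∀ z ∈ C ∩ Metric.closedBall p₀ (δ p₀), z = y (pr z) := by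
    intro z hz
    exact (hloc z (hZ₀ball z hz)).2 ((hCpt z hz.1).1 (q - 1) (by omega) e)
  have hZ₀pr : ∀ z ∈ C ∩ Metric.closedBall p₀ (δ p₀), pr z ∈ Metric.ball (pr p₀) ρ :=
    fun z hz => (hloc z (hZ₀ball z hz)).1
  have hWc : IsCompact (pr '' (C ∩ Metric.closedBall p₀ (δ p₀))) :=
    hZ₀c.image pr.continuous
  have hW0 : MeasureTheory.volume (pr '' (C ∩ Metric.closedBall p₀ (δ p₀))) ≠ 0 := by
    intro h0
    refine null_not_fat (ES_adm ha hne) A R hA hc hsep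
      (C ∩ Metric.closedBall p₀ (δ p₀)) _ hWc h0 y Lp ?_ ?_ hZ₀fat
    · rintro w ⟨z, hz, rfl⟩ w' ⟨z', hz', rfl⟩
      exact hlip _ (hZ₀pr z hz) _ (hZ₀pr z' hz')
    · intro z hz
      exact ⟨pr z, ⟨z, hz, rfl⟩, (hZ₀y z hz).symm⟩
  have hvan : ∀ i < q, ∀ w ∈ Metric.ball (pr p₀) ρ, ES ((dS e)^[i] a) (y w) = 0 := by
    intro i hi
    refine identity_pos (D := fun w => ES ((dS e)^[i] a) (y w)) ?_ ?_
    · exact (ES_differentiable (gdec_iter ha e i)).comp_differentiableOn hyd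
    · intro h0
      apply hW0
      refine MeasureTheory.measure_mono_null ?_ h0
      rintro w ⟨z, hz, rfl⟩
      refine ⟨hZ₀pr z hz, ?_⟩
      rw [← hZ₀y z hz]
      exact (hCpt z hz.1).1 i hi e
  -- local zero sets
  have hsub : ∀ p ∈ C ∩ Metric.closedBall p₀ (δ p₀),
      Metric.ball (pr p) (ρ - dist (pr p) (pr p₀)) ⊆ Metric.ball (pr p₀) ρ := by
    intro p _
    apply Metric.ball_subset_ball'
    linarith
  have hρp : ∀ p ∈ C ∩ Metric.closedBall p₀ (δ p₀), 0 < ρ - dist (pr p) (pr p₀) := by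
    intro p hp
    have := hZ₀pr p hp
    rw [Metric.mem_ball] at this
    linarith
  have hlz : ∀ p ∈ C ∩ Metric.closedBall p₀ (δ p₀), ∃ r' : ℝ, 0 < r' ∧
      ∀ z ∈ Metric.ball p r', pr z ∈ Metric.ball (pr p) (ρ - dist (pr p) (pr p₀)) ∧
      (ES a z = 0 → z = y (pr z)) := by
    intro p hp
    exact loc_zero ha hq (hnz p hp.2) pr hker (hρp p hp) y
      (hyd.continuousOn.mono (hsub p hp)) (hZ₀y p hp).symm
      (fun w hw => hypr w (hsub p hp hw)) (fun i hi w hw => hvan i hi w (hsub p hp hw))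
  choose! r' hr' hloc' using hlz
  obtain ⟨p, hp, hZfat⟩ := fat_local hZ₀c hZ₀fat (fun z => r' z / 4)
    (fun z hz => by have := hr' z hz; positivity)
  refine ⟨q, e, p, pr, y, ρ - dist (pr p) (pr p₀), r' p, Lp,
    (C ∩ Metric.closedBall p₀ (δ p₀)) ∩ Metric.closedBall p (r' p / 4), ?_, ?_, ?_, ?_, hZfat⟩
  · exact
      { q1 := hq
        ρ0 := hρp p hp
        r0 := hr' p hp
        nz := hnz p hp.2
        ker := hker
        yp := (hZ₀y p hp).symm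
        ydiff := hyd.mono (hsub p hp)
        ypr := fun w hw => hypr w (hsub p hp hw)
        van := fun i hi w hw => hvan i hi w (hsub p hp hw)
        lip := fun w hw w' hw' => hlip w (hsub p hp hw) w' (hsub p hp hw')
        loc := hloc' p hp }
  · exact hZ₀c.inter_right Metric.isClosed_closedBall
  · exact Set.inter_subset_right
  · intro z hz
    exact (hCpt z hz.1.1).1 0 (by omega) e

end MP6feb
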