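import Pool.Agent.Lib.MP_6febbd_ag.Defs
import Pool.Agent.Lib.MP_6febbd_ag.ESa
import Pool.Agent.Lib.MP_6febbd_ag.ESd
import Pool.Agent.Lib.MP_6febbd_ag.Grid
import Pool.Agent.Lib.MP_6febbd_ag.PigB
import Pool.Agent.Lib.MP_6febbd_ag.RegE
import Pool.Agent.Lib.MP_6febbd_ag.Kill
import Pool.Agent.Lib.MP_6febbd_ag.Flat

set_option autoImplicit false

open scoped Matrix.Norms.Elementwise Real
open Complex Matrix

noncomputable section

namespace MP6feb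

open Classical in
/-- The counting lemma. -/
theorem count_lemma {k : ℕ} {a : (Fin (k + 1) → ℤ) → ℂ} (ha : GDec a)
    (hne : ∃ z, ES a z ≠ 0)
    (hflat : ∀ l : (Fin (k + 1) → ℂ) →ₗ[ℂ] ℂ, l ≠ 0 → ∀ c : ℂ, ∃ z, l z = c ∧ ES a z ≠ 0)
    (L : Crd k) {ε : ℝ} (hε : 0 < ε) :
    ∀ᶠ n : ℕ in Filter.atTop, ((Vn (ES a) L n).card : ℝ) < ε * (n : ℝ) ^ (2 * k) := by
  by_contra hcon
  have hF : Adm (ES a) := ES_adm ha hne
  have hfreq : ∃ᶠ n : ℕ in Filter.atTop, ε * (n : ℝ) ^ (2 * k) ≤ ((Vn (ES a) L n).card : ℝ) := by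
    rw [Filter.not_eventually] at hcon
    exact hcon.mono (fun n hn => not_lt.mp hn)
  obtain ⟨B, hB, ε', hε', hf'⟩ := pigeon hF L hε hfreq
  obtain ⟨c, hc, hsep⟩ := Vn_sep (ES a) L
  obtain ⟨R, hR, hmem⟩ := Vn_mem (ES a) L
  set A : ℕ → Finset (Fin (k + 1) → ℂ) := fun n =>
    (Vn (ES a) L n).filter (fun s => ∀ b ∈ B,
      ES a (s + (1 / (n : ℂ)) • L (fun i => (b i : ℝ))) = 0) with hAdef
  have hAV : ∀ n, ∀ s ∈ A n, s ∈ Vn (ES a) L n := fun n s hs => (Finset.mem_filter.mp hs).1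
  have hA : ∀ n, ∀ s ∈ A n, ES a s = 0 ∧ ‖s‖ ≤ R := fun n s hs =>
    ⟨(hmem n s (hAV n s hs)).1, (hmem n s (hAV n s hs)).2.1⟩
  have hsep' : ∀ n : ℕ, ∀ s ∈ A n, ∀ s' ∈ A n, s ≠ s' → c / n ≤ ‖s - s'‖ :=
    fun n s hs s' hs' hne' => hsep n s (hAV n s hs) s' (hAV n s' hs') hne'
  obtain ⟨q, e, p, pr, y, ρ, r, Lp, Z, hreg, hZc, hZp, hZ0, hZ⟩ :=
    reg_exists ha hne hA hc hsep' hε' hf'
  set T : Submodule ℂ (Fin (k + 1) → ℂ) := Submodule.span ℂ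
    {v : Fin (k + 1) → ℂ | ∃ b ∈ B, v = L (fun i => (b i : ℝ))} with hT
  have hkill : ∀ h ∈ T, ∀ w ∈ Metric.ball (pr p) ρ,
      ES (dS h ((dS e)^[q - 1] a)) (y w) = 0 := by
    intro h hh w hw
    have hg := gdec_iter ha e (q - 1)
    rw [← ES_fderiv hg]
    have hle : T ≤ LinearMap.ker (fderiv ℂ (ES ((dS e)^[q - 1] a)) (y w)).toLinearMap := by
      rw [hT, Submodule.span_le]
      rintro v ⟨b, hb, rfl⟩
      simp only [SetLike.mem_coe, LinearMap.mem_ker]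
      have := kill ha hne hreg hA hc hsep' (L (fun i => (b i : ℝ)))
        (fun n s hs => (Finset.mem_filter.mp hs).2 b hb) hZc hZp hZ0 hZ w hw
      rw [← ES_fderiv hg] at this
      exact this
    have := hle hh
    exact this
  obtain ⟨l, hl, hl0⟩ := flat_of_reg ha hreg T hB hkill
  obtain ⟨z, hz, hz0⟩ := hflat l hl (l p)
  exact hz0 (hl0 z hz)

end MP6feb
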