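import Pool.Agent.Lib.MP_6febbd_ag.Defs

set_option autoImplicit false

open scoped Matrix.Norms.Elementwise Real
open Complex Matrix

noncomputable section

namespace MP6feb

private def latLin {k : ℕ} (τ : Matrix (Fin (k + 1)) (Fin (k + 1)) ℂ) :
    (Fin (k + 1) ⊕ Fin (k + 1) → ℝ) →ₗ[ℝ] (Fin (k + 1) → ℂ) where
  toFun x := Lat τ x
  map_add' x y := by
    funext i
    simp only [Lat, Pi.add_apply, Complex.ofReal_add]
    rw [show ∑ j, τ i j * ((x (Sum.inl j) : ℂ) + (y (Sum.inl j) : ℂ)) =
      ∑ j, τ i j * (x (Sum.inl j) : ℂ) + ∑ j, τ i j * (y (Sum.inl j) : ℂ) by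
        rw [← Finset.sum_add_distrib]; exact Finset.sum_congr rfl fun j _ => by ring]
    ring
  map_smul' r x := by
    funext i
    simp only [Lat, Pi.smul_apply, smul_eq_mul, Complex.ofReal_mul, RingHom.id_apply,
      Complex.real_smul]
    rw [mul_add, Finset.mul_sum]
    congr 1
    exact Finset.sum_congr rfl fun j _ => by ring

/-- `(a, b) ↦ τ a + b` is a real linear isomorphism: it is injective because the imaginary
part is `(Im τ) a`, and the real dimensions agree. -/
theorem exists_crd {k : ℕ} {τ : Matrix (Fin (k + 1)) (Fin (k + 1)) ℂ}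
    (hτ : τ ∈ Siegel (k + 1)) : ∃ L : Crd k, ∀ x, L x = Lat τ x := by
  have hinj : Function.Injective (latLin τ) := by
    rw [← LinearMap.ker_eq_bot, LinearMap.ker_eq_bot']
    intro x hx
    have hx' : ∀ i, ∑ j, τ i j * (x (Sum.inl j) : ℂ) + (x (Sum.inr i) : ℂ) = 0 := by
      intro i
      exact congrFun hx i
    have him : ∀ i, ∑ j, (τ i j).im * x (Sum.inl j) = 0 := by
      intro i
      have := congrArg Complex.im (hx' i)
      simpa using this
    have ha : (fun j => x (Sum.inl j)) = 0 := by
      by_contra hne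
      have hpos := hτ.2.dotProduct_mulVec_pos hne
      have hz : (τ.map Complex.im) *ᵥ (fun j => x (Sum.inl j)) = 0 := by
        funext i
        simpa [Matrix.mulVec, dotProduct] using him i
      rw [hz] at hpos
      simp at hpos
    have ha' : ∀ j, x (Sum.inl j) = 0 := fun j => congrFun ha j
    funext s
    rcases s with j | i
    · exact ha' j
    · have := hx' i
      simp only [ha', Complex.ofReal_zero, mul_zero, Finset.sum_const_zero, zero_add] at this
      exact_mod_cast this
  have hdim : Module.finrank ℝ (Fin (k + 1) ⊕ Fin (k + 1) → ℝ) =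
      Module.finrank ℝ (Fin (k + 1) → ℂ) := by
    rw [Module.finrank_pi, Module.finrank_pi_fintype]
    simp [Complex.finrank_real_complex]
    ring
  refine ⟨LinearEquiv.ofInjectiveOfFinrankEq (latLin τ) hinj hdim, fun x => rfl⟩

end MP6feb
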