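import Pool.Agent.Lib.MP_6febbd_ag.Defs
import Pool.Agent.Lib.MP_6febbd_ag.GS

set_option autoImplicit false

open scoped Matrix.Norms.Elementwise Real
open Complex Matrix

noncomputable section

namespace MP6feb

/-- On the Siegel space the imaginary part is bounded below by a multiple of the identity.
Proof: continuity and compactness of the unit sphere, or the smallest eigenvalue. -/
theorem exists_posIm {g : ℕ} {τ : Matrix (Fin g) (Fin g) ℂ} (hτ : τ ∈ Siegel g) :
    ∃ c : ℝ, 0 < c ∧ PosIm c τ := by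
  have hpos : ∀ v : Fin g → ℝ, v ≠ 0 → 0 < ∑ i, ∑ j, v i * (τ i j).im * v j := by
    intro v hv
    have h1 := hτ.2.dotProduct_mulVec_pos hv
    have h2 : star v ⬝ᵥ (τ.map Complex.im *ᵥ v) = ∑ i, ∑ j, v i * (τ i j).im * v j := by
      simp only [dotProduct, Matrix.mulVec, Pi.star_apply, star_trivial, Matrix.map_apply,
        Finset.mul_sum]
      refine Finset.sum_congr rfl fun i _ => Finset.sum_congr rfl fun j _ => ?_
      ring
    rwa [h2] at h1
  have hq : Continuous fun v : Fin g → ℝ => ∑ i, ∑ j, v i * (τ i j).im * v j := by fun_prop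
  have hS : IsCompact {v : Fin g → ℝ | ∑ i, v i ^ 2 = 1} := by
    refine Metric.isCompact_of_isClosed_isBounded ?_ ?_
    · exact isClosed_eq (by fun_prop) continuous_const
    · refine (Metric.isBounded_closedBall (x := (0 : Fin g → ℝ)) (r := 1)).subset ?_
      intro v hv
      have hv' : ∑ i, v i ^ 2 = 1 := hv
      rw [mem_closedBall_zero_iff, pi_norm_le_iff_of_nonneg zero_le_one]
      intro i
      have h1 : v i ^ 2 ≤ 1 := by
        rw [← hv']
        exact Finset.single_le_sum (f := fun i => v i ^ 2) (fun j _ => sq_nonneg _)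
          (Finset.mem_univ i)
      rw [Real.norm_eq_abs]
      exact abs_le_one_iff_mul_self_le_one.2 (by nlinarith)
  obtain ⟨c, hc, hcS⟩ : ∃ c : ℝ, 0 < c ∧ ∀ v : Fin g → ℝ, ∑ i, v i ^ 2 = 1 →
      c ≤ ∑ i, ∑ j, v i * (τ i j).im * v j := by
    rcases Set.eq_empty_or_nonempty {v : Fin g → ℝ | ∑ i, v i ^ 2 = 1} with he | hne
    · refine ⟨1, one_pos, fun v hv => ?_⟩
      have : v ∈ ({v : Fin g → ℝ | ∑ i, v i ^ 2 = 1} : Set (Fin g → ℝ)) := hv
      rw [he] at this
      exact absurd this (Set.notMem_empty v)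
    · obtain ⟨v₀, hv₀, hmin⟩ := hS.exists_isMinOn hne hq.continuousOn
      have hv₀' : ∑ i, v₀ i ^ 2 = 1 := hv₀
      refine ⟨_, hpos v₀ ?_, fun v hv => hmin (by exact hv)⟩
      rintro rfl
      simp at hv₀'
  refine ⟨c, hc, fun v => ?_⟩
  by_cases hv : v = 0
  · subst hv
    simp
  · have hs : 0 < ∑ i, v i ^ 2 := by
      obtain ⟨i, hi⟩ := Function.ne_iff.1 hv
      refine lt_of_lt_of_le (b := v i ^ 2) ?_ (Finset.single_le_sum (f := fun i => v i ^ 2)
        (fun j _ => sq_nonneg _) (Finset.mem_univ i))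
      have : v i ≠ 0 := hi
      positivity
    set s := ∑ i, v i ^ 2 with hsd
    have hr : 0 < Real.sqrt s := Real.sqrt_pos.2 hs
    have hr2 : Real.sqrt s ^ 2 = s := Real.sq_sqrt hs.le
    have h1 := hcS (fun i => v i / Real.sqrt s) (by
      simp only [div_pow, hr2]
      rw [← Finset.sum_div, ← hsd, div_self hs.ne'])
    have h2 : ∑ i, ∑ j, v i / Real.sqrt s * (τ i j).im * (v j / Real.sqrt s) =
        (∑ i, ∑ j, v i * (τ i j).im * v j) / s := by
      rw [Finset.sum_div]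
      refine Finset.sum_congr rfl fun i _ => ?_
      rw [Finset.sum_div]
      refine Finset.sum_congr rfl fun j _ => ?_
      have h3 : v i / Real.sqrt s * (τ i j).im * (v j / Real.sqrt s) =
          v i * (τ i j).im * v j / Real.sqrt s ^ 2 := by
        field_simp
      rw [h3, hr2]
    rw [h2, le_div_iff₀ hs] at h1
    exact h1

/-- Openness. Proof: `|∑ v_i (τ'-τ)_ij v_j| ≤ δ (∑|v_i|)² ≤ δ |ι| ∑ v_i²` (elementwise sup
norm of matrices). -/
theorem posIm_near {ι : Type} [Fintype ι] {c : ℝ} (hc : 0 < c) {τ : Matrix ι ι ℂ}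
    (h : PosIm c τ) : ∃ δ : ℝ, 0 < δ ∧ ∀ τ' : Matrix ι ι ℂ, ‖τ' - τ‖ < δ → PosIm (c / 2) τ' := by
  have hn : (0 : ℝ) < Fintype.card ι + 1 := by positivity
  refine ⟨c / (2 * (Fintype.card ι + 1)), by positivity, fun τ' hτ' v => ?_⟩
  have h1 : ∀ i j, |(τ' i j).im - (τ i j).im| ≤ c / (2 * (Fintype.card ι + 1)) := by
    intro i j
    have h2 : ‖(τ' - τ) i j‖ ≤ ‖τ' - τ‖ := Matrix.norm_entry_le_entrywise_sup_norm _
    have h3 : |((τ' - τ) i j).im| ≤ ‖(τ' - τ) i j‖ := Complex.abs_im_le_norm _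
    rw [Matrix.sub_apply, Complex.sub_im] at h3
    rw [Matrix.sub_apply] at h2
    linarith
  have h2 : |∑ i, ∑ j, v i * ((τ' i j).im - (τ i j).im) * v j| ≤
      c / (2 * (Fintype.card ι + 1)) * (∑ i, |v i|) ^ 2 := by
    refine (Finset.abs_sum_le_sum_abs _ _).trans ?_
    rw [pow_two, Finset.sum_mul_sum, Finset.mul_sum]
    refine Finset.sum_le_sum fun i _ => ?_
    refine (Finset.abs_sum_le_sum_abs _ _).trans ?_
    rw [Finset.mul_sum]
    refine Finset.sum_le_sum fun j _ => ?_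
    rw [abs_mul, abs_mul]
    calc |v i| * |(τ' i j).im - (τ i j).im| * |v j|
        ≤ |v i| * (c / (2 * (Fintype.card ι + 1))) * |v j| := by
          gcongr
          exact h1 i j
      _ = _ := by ring
  have h3 : (∑ i, |v i|) ^ 2 ≤ Fintype.card ι * ∑ i, v i ^ 2 := by
    have h4 := sq_sum_le_card_mul_sum_sq (s := Finset.univ) (f := fun i => |v i|)
    simpa only [sq_abs, Finset.card_univ] using h4
  have h4 : ∑ i, ∑ j, v i * (τ' i j).im * v j = ∑ i, ∑ j, v i * (τ i j).im * v j +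
      ∑ i, ∑ j, v i * ((τ' i j).im - (τ i j).im) * v j := by
    rw [← Finset.sum_add_distrib]
    refine Finset.sum_congr rfl fun i _ => ?_
    rw [← Finset.sum_add_distrib]
    refine Finset.sum_congr rfl fun j _ => ?_
    ring
  have h5 := h v
  have hs : 0 ≤ ∑ i, v i ^ 2 := Finset.sum_nonneg fun i _ => sq_nonneg _
  have h6 : c / (2 * (Fintype.card ι + 1)) * (∑ i, |v i|) ^ 2 ≤ c / 2 * ∑ i, v i ^ 2 := by
    calc c / (2 * (Fintype.card ι + 1)) * (∑ i, |v i|) ^ 2
        ≤ c / (2 * (Fintype.card ι + 1)) * (Fintype.card ι * ∑ i, v i ^ 2) := by gcongr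
      _ = c / 2 * (Fintype.card ι / (Fintype.card ι + 1)) * ∑ i, v i ^ 2 := by
          field_simp
      _ ≤ c / 2 * 1 * ∑ i, v i ^ 2 := by
          gcongr
          exact div_le_one_of_le₀ (by linarith) hn.le
      _ = _ := by ring
  rw [h4]
  have h7 := neg_abs_le (∑ i, ∑ j, v i * ((τ' i j).im - (τ i j).im) * v j)
  linarith

private theorem ThC_cast (m : ℤ) (a : ℝ) : (m : ℂ) + (a : ℂ) = (((m : ℝ) + a : ℝ) : ℂ) := by
  push_cast
  ring

/-- Norm of a term: real characteristics contribute only through the quadratic form. -/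
theorem norm_thTerm {ι : Type} [Fintype ι] (a b : ι → ℝ) (τ : Matrix ι ι ℂ) (m : ι → ℤ) :
    ‖thTerm a b τ m‖ =
      Real.exp (-(π * ∑ i, ∑ j, ((m i : ℝ) + a i) * (τ i j).im * ((m j : ℝ) + a j))) := by
  unfold thTerm
  rw [Complex.norm_exp]
  congr 1
  have h1 : (qf τ (fun i => (m i : ℂ) + a i)).im =
      ∑ i, ∑ j, ((m i : ℝ) + a i) * (τ i j).im * ((m j : ℝ) + a j) := by
    unfold qf
    rw [Complex.im_sum]
    refine Finset.sum_congr rfl fun i _ => ?_
    rw [Complex.im_sum]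
    refine Finset.sum_congr rfl fun j _ => ?_
    show (((m i : ℂ) + (a i : ℂ)) * τ i j * ((m j : ℂ) + (a j : ℂ))).im = _
    rw [ThC_cast, ThC_cast, Complex.im_mul_ofReal, Complex.im_ofReal_mul]
  have h2 : (∑ i, ((m i : ℂ) + a i) * b i).im = 0 := by
    rw [Complex.im_sum]
    refine Finset.sum_eq_zero fun i _ => ?_
    rw [ThC_cast, ← Complex.ofReal_mul, Complex.ofReal_im]
  generalize qf τ (fun i => (m i : ℂ) + a i) = Q at *
  generalize ∑ i, ((m i : ℂ) + a i) * b i = S at *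
  rw [← h1]
  have h3 : (π : ℂ) * I * Q + 2 * π * I * S = ((π : ℝ) : ℂ) * (I * Q) +
      ((2 * π : ℝ) : ℂ) * (I * S) := by
    push_cast
    ring
  rw [h3, Complex.add_re, Complex.re_ofReal_mul, Complex.re_ofReal_mul, Complex.I_mul_re,
    Complex.I_mul_re, h2]
  ring

theorem norm_thTerm_le {ι : Type} [Fintype ι] {c : ℝ} (a b : ι → ℝ) {τ : Matrix ι ι ℂ}
    (h : PosIm c τ) (m : ι → ℤ) :
    ‖thTerm a b τ m‖ ≤ Real.exp (-(π * c * ∑ i, ((m i : ℝ) + a i) ^ 2)) := by
  rw [norm_thTerm]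
  refine Real.exp_le_exp.2 (neg_le_neg ?_)
  have h1 := h fun i => (m i : ℝ) + a i
  have h2 := mul_le_mul_of_nonneg_left h1 Real.pi_pos.le
  calc π * c * ∑ i, ((m i : ℝ) + a i) ^ 2 = π * (c * ∑ i, ((m i : ℝ) + a i) ^ 2) := by ring
    _ ≤ _ := h2

theorem summable_thTerm {ι : Type} [Fintype ι] {c : ℝ} (hc : 0 < c) (a b : ι → ℝ)
    {τ : Matrix ι ι ℂ} (h : PosIm c τ) : Summable (thTerm a b τ) :=
  Summable.of_norm_bounded (summable_gauss (mul_pos Real.pi_pos hc) a)
    (norm_thTerm_le a b h)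

end MP6feb
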