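import Pool.Agent.Lib.MP_6febbd_ag.Defs
import Pool.Agent.Lib.MP_6febbd_ag.GS
import Pool.Agent.Lib.MP_6febbd_ag.ThC

set_option autoImplicit false

open scoped Matrix.Norms.Elementwise Real
open Complex Matrix

noncomputable section

namespace MP6feb

theorem thC_gdec {g : ℕ} {τ : Matrix (Fin g) (Fin g) ℂ} (hτ : τ ∈ Siegel g) :
    GDec (thC τ) := by
  obtain ⟨c, hc, hP⟩ := exists_posIm hτ
  refine ⟨1, π * c, by positivity, fun m => ?_⟩
  have h1 : thC τ m = thTerm (fun _ => 0) (fun _ => 0) τ m := by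
    unfold thC thTerm
    congr 1
    simp
  have h2 := norm_thTerm_le (fun _ => 0) (fun _ => 0) hP m
  rw [h1, one_mul]
  refine h2.trans (le_of_eq ?_)
  simp

/-- the bilinear expansion of the quadratic form of a symmetric matrix -/
private theorem qf_add_vec {g : ℕ} {τ : Matrix (Fin g) (Fin g) ℂ} (hs : τ.IsSymm)
    (x y : Fin g → ℂ) :
    qf τ (fun i => x i + y i) = qf τ x + 2 * ∑ i, x i * ∑ j, τ i j * y j + qf τ y := by
  have h1 : ∑ i, ∑ j, y i * τ i j * x j = ∑ i, x i * ∑ j, τ i j * y j := by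
    rw [Finset.sum_comm]
    refine Finset.sum_congr rfl fun i _ => ?_
    rw [Finset.mul_sum]
    refine Finset.sum_congr rfl fun j _ => ?_
    rw [hs.apply i j]
    ring
  have h2 : ∑ i, ∑ j, x i * τ i j * y j = ∑ i, x i * ∑ j, τ i j * y j := by
    refine Finset.sum_congr rfl fun i _ => ?_
    rw [Finset.mul_sum]
    refine Finset.sum_congr rfl fun j _ => ?_
    ring
  have h3 : qf τ (fun i => x i + y i) = qf τ x + ∑ i, ∑ j, x i * τ i j * y j +
      ∑ i, ∑ j, y i * τ i j * x j + qf τ y := by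
    unfold qf
    rw [← Finset.sum_add_distrib, ← Finset.sum_add_distrib, ← Finset.sum_add_distrib]
    refine Finset.sum_congr rfl fun i _ => ?_
    rw [← Finset.sum_add_distrib, ← Finset.sum_add_distrib, ← Finset.sum_add_distrib]
    refine Finset.sum_congr rfl fun j _ => ?_
    ring
  rw [h3, h1, h2]
  ring

/-- Theta constants are values of the theta function at the points `τ a + b`:
`(m+a)ᵀτ(m+a) = mᵀτm + 2 m·(τ a) + aᵀτa` because `τ` is symmetric. -/
theorem th_eq_Th {g : ℕ} {τ : Matrix (Fin g) (Fin g) ℂ} (hτ : τ ∈ Siegel g)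
    (a b : Fin g → ℝ) :
    th a b τ = cexp (π * I * qf τ (fun i => (a i : ℂ)) + 2 * π * I * ∑ i, (a i : ℂ) * b i) *
      Th τ (Lat τ (Sum.elim a b)) := by
  unfold th Th ES
  rw [← tsum_mul_left]
  refine tsum_congr fun m => ?_
  unfold thTerm thC
  rw [qf_add_vec hτ.1, ← Complex.exp_add, ← Complex.exp_add]
  congr 1
  have h1 : ∑ i, (m i : ℂ) * Lat τ (Sum.elim a b) i =
      ∑ i, (m i : ℂ) * ∑ j, τ i j * (a j : ℂ) + ∑ i, (m i : ℂ) * (b i : ℂ) := by
    rw [← Finset.sum_add_distrib]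
    refine Finset.sum_congr rfl fun i _ => ?_
    unfold Lat
    simp only [Sum.elim_inl, Sum.elim_inr]
    ring
  have h2 : ∑ i, ((m i : ℂ) + a i) * (b i : ℂ) =
      ∑ i, (m i : ℂ) * (b i : ℂ) + ∑ i, (a i : ℂ) * (b i : ℂ) := by
    rw [← Finset.sum_add_distrib]
    refine Finset.sum_congr rfl fun i _ => ?_
    ring
  rw [h1, h2]
  ring

/-- Quasi-periodicity; only the vanishing is needed: if `θ(z) = 0` then
`θ(z + τ p + q) = 0`. Reindex `m` by `m + p`. -/
theorem Th_quasi {g : ℕ} {τ : Matrix (Fin g) (Fin g) ℂ} (hτ : τ ∈ Siegel g)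
    (z : Fin g → ℂ) (p q : Fin g → ℤ) :
    Th τ (fun i => z i + ∑ j, τ i j * (p j : ℂ) + (q i : ℂ)) =
      cexp (-(π * I * qf τ (fun i => (p i : ℂ)) + 2 * π * I * ∑ i, (p i : ℂ) * z i)) *
        Th τ z := by
  unfold Th ES
  rw [← tsum_mul_left, ← (Equiv.addRight p).tsum_eq
    (fun m => cexp (-(π * I * qf τ (fun i => (p i : ℂ)) + 2 * π * I * ∑ i, (p i : ℂ) * z i)) *
      (thC τ m * cexp (2 * π * I * ∑ i, (m i : ℂ) * z i)))]
  refine tsum_congr fun m => ?_
  unfold thC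
  have hE : ∀ i, (((Equiv.addRight p) m i : ℤ) : ℂ) = (m i : ℂ) + (p i : ℂ) := by
    intro i
    have h1 : (Equiv.addRight p) m i = m i + p i := rfl
    rw [h1]
    push_cast
    rfl
  have hq : qf τ (fun i => (((Equiv.addRight p) m i : ℤ) : ℂ)) =
      qf τ (fun i => (m i : ℂ)) + 2 * ∑ i, (m i : ℂ) * ∑ j, τ i j * (p j : ℂ) +
        qf τ (fun i => (p i : ℂ)) := by
    rw [← qf_add_vec hτ.1]
    congr 1
    funext i
    exact hE i
  have hs : ∑ i, (((Equiv.addRight p) m i : ℤ) : ℂ) * z i =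
      ∑ i, (m i : ℂ) * z i + ∑ i, (p i : ℂ) * z i := by
    rw [← Finset.sum_add_distrib]
    refine Finset.sum_congr rfl fun i _ => ?_
    rw [hE]
    ring
  have hl : ∑ i, (m i : ℂ) * (z i + ∑ j, τ i j * (p j : ℂ) + (q i : ℂ)) =
      ∑ i, (m i : ℂ) * z i + ∑ i, (m i : ℂ) * ∑ j, τ i j * (p j : ℂ) +
        ((∑ i, m i * q i : ℤ) : ℂ) := by
    push_cast
    rw [← Finset.sum_add_distrib, ← Finset.sum_add_distrib]
    refine Finset.sum_congr rfl fun i _ => ?_
    ring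
  rw [hq, hs, hl, ← Complex.exp_add, ← Complex.exp_add, ← Complex.exp_add]
  have hfin : cexp (π * I * (2 * ((∑ i, m i * q i : ℤ) : ℂ))) = 1 := by
    rw [Complex.exp_eq_one_iff]
    exact ⟨∑ i, m i * q i, by ring⟩
  rw [show π * I * qf τ (fun i => (m i : ℂ)) + 2 * π * I * (∑ i, (m i : ℂ) * z i +
      ∑ i, (m i : ℂ) * ∑ j, τ i j * (p j : ℂ) + ((∑ i, m i * q i : ℤ) : ℂ)) =
      π * I * (2 * ((∑ i, m i * q i : ℤ) : ℂ)) +
      (-(π * I * qf τ (fun i => (p i : ℂ)) + 2 * π * I * ∑ i, (p i : ℂ) * z i) +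
        (π * I * (qf τ (fun i => (m i : ℂ)) + 2 * ∑ i, (m i : ℂ) * ∑ j, τ i j * (p j : ℂ) +
          qf τ (fun i => (p i : ℂ))) +
        2 * π * I * (∑ i, (m i : ℂ) * z i + ∑ i, (p i : ℂ) * z i))) by ring,
    Complex.exp_add, hfin, one_mul]

end MP6feb
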