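import Pool.Agent.Lib.MP_6febbd_ag.Defs
import Pool.Agent.Lib.MP_6febbd_ag.LatE
import Pool.Agent.Lib.MP_6febbd_ag.ThF
import Pool.Agent.Lib.MP_6febbd_ag.Chr

set_option autoImplicit false

open scoped Matrix.Norms.Elementwise Real
open Complex Matrix

noncomputable section

namespace MP6feb

private theorem zeros_le {k n : ℕ} [NeZero n] {τ : Matrix (Fin (k + 1)) (Fin (k + 1)) ℂ}
    (hτ : τ ∈ Siegel (k + 1)) (L : Crd k) (hL : ∀ x, L x = Lat τ x) :
    {x : Fin (k + 1) ⊕ Fin (k + 1) → ZMod n | thx n x τ = 0}.ncard ≤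
      (Vn (ES (thC τ)) L n).card := by
  classical
  have hn : (n : ℝ) ≠ 0 := Nat.cast_ne_zero.mpr (NeZero.ne n)
  rw [← Set.ncard_coe_finset]
  refine Set.ncard_le_ncard_of_injOn
    (fun x : Fin (k + 1) ⊕ Fin (k + 1) → ZMod n => L (fun i => ((x i).val : ℝ) / n))
    ?_ ?_ (Finset.finite_toSet _)
  · intro x hx
    have hx0 : thx n x τ = 0 := hx
    rw [Finset.mem_coe, Vn, Finset.mem_filter]
    constructor
    · rw [Finset.mem_image]
      refine ⟨fun i => ⟨(x i).val, ZMod.val_lt (x i)⟩, Finset.mem_univ _, ?_⟩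
      simp [gridPt]
    · rw [thx, th_eq_Th hτ] at hx0
      have h1 := (mul_eq_zero.mp hx0).resolve_left (Complex.exp_ne_zero _)
      have h2 : (Sum.elim (fun i => ((x (Sum.inl i)).val : ℝ) / n)
          (fun i => ((x (Sum.inr i)).val : ℝ) / n) : Fin (k + 1) ⊕ Fin (k + 1) → ℝ) =
          fun i => ((x i).val : ℝ) / n := by
        funext i
        cases i <;> rfl
      rw [h2, ← hL] at h1
      exact h1
  · intro x _ y _ hxy
    have h1 := L.injective hxy
    funext i
    have h2 := congrFun h1 i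
    have h3 : ((x i).val : ℝ) = (y i).val := by
      field_simp at h2
      exact h2
    exact ZMod.val_injective n (by exact_mod_cast h3)

theorem evGood_of_count {k : ℕ} {τ : Matrix (Fin (k + 1)) (Fin (k + 1)) ℂ}
    (hτ : τ ∈ Siegel (k + 1)) (L : Crd k) (hL : ∀ x, L x = Lat τ x)
    (hcount : ∀ᶠ n : ℕ in Filter.atTop,
      ((Vn (ES (thC τ)) L n).card : ℝ) < 1 * (n : ℝ) ^ (2 * k)) : EvGood τ := by
  have ht : Filter.Tendsto (fun j : ℕ => 2 ^ j) Filter.atTop Filter.atTop :=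
    tendsto_pow_atTop_atTop_of_one_lt (by norm_num)
  filter_upwards [ht.eventually hcount, Filter.eventually_ge_atTop 1] with j hj hj1
  have h2 : 2 ≤ 2 ^ j := by
    calc 2 = 2 ^ 1 := by norm_num
      _ ≤ 2 ^ j := Nat.pow_le_pow_right (by norm_num) hj1
  refine good_of_card h2 τ ?_
  refine (zeros_le hτ L hL).trans ?_
  rw [one_mul] at hj
  exact_mod_cast hj.le

end MP6feb
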