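import Pool.Agent.Lib.MP_6febbd_ag.Defs

set_option autoImplicit false

open scoped Matrix.Norms.Elementwise Real
open Complex Matrix

noncomputable section

namespace MP6feb

/-- the quadratic form of an integral symmetric matrix is congruent to its diagonal mod 2 -/
private theorem sym_even {ι : Type} [Fintype ι] (S : Matrix ι ι ℤ) (hS : S.IsSymm) (m : ι → ℤ) :
    ∃ k : ℤ, ∑ i, ∑ j, m i * S i j * m j - ∑ i, S i i * m i = 2 * k := by
  classical
  have hsq : ∀ x : ZMod 2, x * x = x := by decide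
  have htwo : ∀ x : ZMod 2, x + x = 0 := by decide
  have hmain : ((∑ i, ∑ j, m i * S i j * m j - ∑ i, S i i * m i : ℤ) : ZMod 2) = 0 := by
    push_cast
    rw [sub_eq_zero]
    have h0 : ∑ i, ∑ j, ((m i : ZMod 2) * (S i j : ZMod 2) * (m j : ZMod 2)) =
        ∑ x ∈ (Finset.univ : Finset ι) ×ˢ (Finset.univ : Finset ι),
          ((m x.1 : ZMod 2) * (S x.1 x.2 : ZMod 2) * (m x.2 : ZMod 2)) :=
      (Finset.sum_product' Finset.univ Finset.univ
        (fun i j => (m i : ZMod 2) * (S i j : ZMod 2) * (m j : ZMod 2))).symm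
    rw [h0]
    have h1 : ∑ x ∈ (Finset.univ : Finset ι) ×ˢ (Finset.univ : Finset ι),
        ((m x.1 : ZMod 2) * (S x.1 x.2 : ZMod 2) * (m x.2 : ZMod 2)) =
        ∑ x ∈ ((Finset.univ : Finset ι) ×ˢ (Finset.univ : Finset ι)).filter (fun x => x.1 = x.2),
          ((m x.1 : ZMod 2) * (S x.1 x.2 : ZMod 2) * (m x.2 : ZMod 2)) +
        ∑ x ∈ ((Finset.univ : Finset ι) ×ˢ (Finset.univ : Finset ι)).filter (fun x => ¬ x.1 = x.2),
          ((m x.1 : ZMod 2) * (S x.1 x.2 : ZMod 2) * (m x.2 : ZMod 2)) :=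
      (Finset.sum_filter_add_sum_filter_not _ _ _).symm
    have h2 : ∑ x ∈ ((Finset.univ : Finset ι) ×ˢ (Finset.univ : Finset ι)).filter
        (fun x => ¬ x.1 = x.2), ((m x.1 : ZMod 2) * (S x.1 x.2 : ZMod 2) * (m x.2 : ZMod 2)) =
        0 := by
      refine Finset.sum_involution (fun x _ => (x.2, x.1)) ?_ ?_ ?_ ?_
      · intro x _
        have h3 : S x.2 x.1 = S x.1 x.2 := hS.apply x.1 x.2
        simp only [h3]
        have h4 : (m x.2 : ZMod 2) * (S x.1 x.2 : ZMod 2) * (m x.1 : ZMod 2) =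
            (m x.1 : ZMod 2) * (S x.1 x.2 : ZMod 2) * (m x.2 : ZMod 2) := by ring
        rw [h4]
        exact htwo _
      · intro x hx _ h3
        rw [Finset.mem_filter] at hx
        exact hx.2 (congrArg Prod.snd h3)
      · intro x hx
        rw [Finset.mem_filter] at hx ⊢
        exact ⟨Finset.mem_product.2 ⟨Finset.mem_univ _, Finset.mem_univ _⟩, fun h3 => hx.2 h3.symm⟩
      · intro x _
        rfl
    have h5 : ∑ x ∈ ((Finset.univ : Finset ι) ×ˢ (Finset.univ : Finset ι)).filter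
        (fun x => x.1 = x.2), ((m x.1 : ZMod 2) * (S x.1 x.2 : ZMod 2) * (m x.2 : ZMod 2)) =
        ∑ i, (S i i : ZMod 2) * (m i : ZMod 2) := by
      refine (Finset.sum_bij (fun i _ => (i, i)) ?_ ?_ ?_ ?_).symm
      · intro i _
        exact Finset.mem_filter.2 ⟨Finset.mem_product.2 ⟨Finset.mem_univ _, Finset.mem_univ _⟩, rfl⟩
      · intro i _ j _ h3
        exact congrArg Prod.fst h3
      · intro x hx
        rw [Finset.mem_filter] at hx
        exact ⟨x.1, Finset.mem_univ _, Prod.ext rfl hx.2⟩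
      · intro i _
        have h3 : (m i : ZMod 2) * (S i i : ZMod 2) * (m i : ZMod 2) =
            (S i i : ZMod 2) * ((m i : ZMod 2) * (m i : ZMod 2)) := by ring
        rw [h3, hsq]
    rw [h1, h2, h5, add_zero]
  rw [ZMod.intCast_zmod_eq_zero_iff_dvd] at hmain
  exact hmain

private theorem qf_add {ι : Type} [Fintype ι] (τ σ : Matrix ι ι ℂ) (v : ι → ℂ) :
    qf (τ + σ) v = qf τ v + qf σ v := by
  unfold qf
  rw [← Finset.sum_add_distrib]
  refine Finset.sum_congr rfl fun i _ => ?_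
  rw [← Finset.sum_add_distrib]
  refine Finset.sum_congr rfl fun j _ => ?_
  rw [Matrix.add_apply]
  ring

private theorem exp_two_pi_int (k : ℤ) : cexp (π * I * (2 * (k : ℂ))) = 1 := by
  rw [Complex.exp_eq_one_iff]
  exact ⟨k, by ring⟩

/-- Translation formula. Termwise: with `q = m + a`,
`qᵀ S q = mᵀ S m + 2 mᵀ S a + aᵀ S a` and `mᵀ S m ≡ diag(S)·m (mod 2)`, so
`exp(π i qᵀSq) = exp(2 π i q·(S a + diag(S)/2)) exp(-π i (aᵀ S a + diag(S)·a))`.
No convergence is needed (`tsum_mul_left`). -/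
theorem th_translate {ι : Type} [Fintype ι] (a b : ι → ℝ) (τ : Matrix ι ι ℂ)
    (S : Matrix ι ι ℤ) (hS : S.IsSymm) :
    th a b (τ + S.map (Int.cast : ℤ → ℂ)) =
      cexp (-(π * I * (∑ i, ∑ j, (a i : ℂ) * (S i j : ℂ) * (a j : ℂ) +
        ∑ i, (S i i : ℂ) * (a i : ℂ)))) *
      th a (fun i => b i + ∑ j, (S i j : ℝ) * a j + (S i i : ℝ) / 2) τ := by
  unfold th
  rw [← tsum_mul_left]
  refine tsum_congr fun m => ?_
  obtain ⟨k, hk⟩ := sym_even S hS m
  unfold thTerm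
  rw [qf_add, ← Complex.exp_add]
  have hkC : ∑ i, ∑ j, (m i : ℂ) * (S i j : ℂ) * (m j : ℂ) - ∑ i, (S i i : ℂ) * (m i : ℂ) =
      2 * (k : ℂ) := by
    have h := congrArg (Int.cast : ℤ → ℂ) hk
    push_cast at h
    exact h
  have hq : qf (S.map (Int.cast : ℤ → ℂ)) (fun i => (m i : ℂ) + a i) =
      ∑ i, ∑ j, (m i : ℂ) * (S i j : ℂ) * (m j : ℂ) +
        2 * ∑ i, (m i : ℂ) * ∑ j, (S i j : ℂ) * (a j : ℂ) +
        ∑ i, ∑ j, (a i : ℂ) * (S i j : ℂ) * (a j : ℂ) := by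
    have h1 : ∑ i, ∑ j, (a i : ℂ) * (S i j : ℂ) * (m j : ℂ) =
        ∑ i, (m i : ℂ) * ∑ j, (S i j : ℂ) * (a j : ℂ) := by
      rw [Finset.sum_comm]
      refine Finset.sum_congr rfl fun i _ => ?_
      rw [Finset.mul_sum]
      refine Finset.sum_congr rfl fun j _ => ?_
      have h3 : S j i = S i j := hS.apply i j
      rw [h3]
      ring
    have h2 : ∑ i, ∑ j, (m i : ℂ) * (S i j : ℂ) * (a j : ℂ) =
        ∑ i, (m i : ℂ) * ∑ j, (S i j : ℂ) * (a j : ℂ) := by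
      refine Finset.sum_congr rfl fun i _ => ?_
      rw [Finset.mul_sum]
      refine Finset.sum_congr rfl fun j _ => ?_
      ring
    have h4 : qf (S.map (Int.cast : ℤ → ℂ)) (fun i => (m i : ℂ) + a i) =
        ∑ i, ∑ j, (m i : ℂ) * (S i j : ℂ) * (m j : ℂ) +
          ∑ i, ∑ j, (m i : ℂ) * (S i j : ℂ) * (a j : ℂ) +
          ∑ i, ∑ j, (a i : ℂ) * (S i j : ℂ) * (m j : ℂ) +
          ∑ i, ∑ j, (a i : ℂ) * (S i j : ℂ) * (a j : ℂ) := by
      unfold qf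
      rw [← Finset.sum_add_distrib, ← Finset.sum_add_distrib, ← Finset.sum_add_distrib]
      refine Finset.sum_congr rfl fun i _ => ?_
      rw [← Finset.sum_add_distrib, ← Finset.sum_add_distrib, ← Finset.sum_add_distrib]
      refine Finset.sum_congr rfl fun j _ => ?_
      rw [Matrix.map_apply]
      ring
    rw [h4, h1, h2]
    ring
  have hl : ∑ i, ((m i : ℂ) + a i) *
      ((b i + ∑ j, (S i j : ℝ) * a j + (S i i : ℝ) / 2 : ℝ) : ℂ) =
      ∑ i, ((m i : ℂ) + a i) * b i + ∑ i, (m i : ℂ) * ∑ j, (S i j : ℂ) * (a j : ℂ) +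
        ∑ i, ∑ j, (a i : ℂ) * (S i j : ℂ) * (a j : ℂ) +
        (∑ i, (S i i : ℂ) * (m i : ℂ)) / 2 + (∑ i, (S i i : ℂ) * (a i : ℂ)) / 2 := by
    rw [Finset.sum_div, Finset.sum_div, ← Finset.sum_add_distrib, ← Finset.sum_add_distrib,
      ← Finset.sum_add_distrib, ← Finset.sum_add_distrib]
    refine Finset.sum_congr rfl fun i _ => ?_
    have h5 : ∑ j, (a i : ℂ) * (S i j : ℂ) * (a j : ℂ) =
        (a i : ℂ) * ∑ j, (S i j : ℂ) * (a j : ℂ) := by
      rw [Finset.mul_sum]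
      refine Finset.sum_congr rfl fun j _ => ?_
      ring
    rw [h5]
    push_cast
    ring
  rw [hq, hl]
  have hm : ∑ i, ∑ j, (m i : ℂ) * (S i j : ℂ) * (m j : ℂ) =
      2 * (k : ℂ) + ∑ i, (S i i : ℂ) * (m i : ℂ) := by
    rw [← hkC]; ring
  rw [hm]
  have hfin := exp_two_pi_int k
  rw [show π * I * (qf τ (fun i => (m i : ℂ) + a i) + (2 * (k : ℂ) +
      ∑ i, (S i i : ℂ) * (m i : ℂ) + 2 * ∑ i, (m i : ℂ) * ∑ j, (S i j : ℂ) * (a j : ℂ) +
      ∑ i, ∑ j, (a i : ℂ) * (S i j : ℂ) * (a j : ℂ))) +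
      2 * π * I * ∑ i, ((m i : ℂ) + a i) * b i =
    π * I * (2 * (k : ℂ)) + (-(π * I * (∑ i, ∑ j, (a i : ℂ) * (S i j : ℂ) * (a j : ℂ) +
        ∑ i, (S i i : ℂ) * (a i : ℂ))) + (π * I * qf τ (fun i => (m i : ℂ) + a i) +
        2 * π * I * (∑ i, ((m i : ℂ) + a i) * b i +
          ∑ i, (m i : ℂ) * ∑ j, (S i j : ℂ) * (a j : ℂ) +
        ∑ i, ∑ j, (a i : ℂ) * (S i j : ℂ) * (a j : ℂ) +
        (∑ i, (S i i : ℂ) * (m i : ℂ)) / 2 + (∑ i, (S i i : ℂ) * (a i : ℂ)) / 2))) by ring,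
    Complex.exp_add, hfin, one_mul]

/-- Integral translation of the characteristic: reindex `m` for the shift of `a`. -/
theorem th_period {ι : Type} [Fintype ι] (a b : ι → ℝ) (p q : ι → ℤ) (τ : Matrix ι ι ℂ) :
    th (fun i => a i + (p i : ℝ)) (fun i => b i + (q i : ℝ)) τ =
      cexp (2 * π * I * ∑ i, (a i : ℂ) * (q i : ℂ)) * th a b τ := by
  unfold th
  rw [← tsum_mul_left, ← (Equiv.addRight p).tsum_eq
    (fun m => cexp (2 * π * I * ∑ i, (a i : ℂ) * (q i : ℂ)) * thTerm a b τ m)]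
  refine tsum_congr fun m => ?_
  unfold thTerm
  rw [← Complex.exp_add]
  have hv : (fun i => ((m i : ℂ)) + ((a i + (p i : ℝ) : ℝ) : ℂ)) =
      fun i => (((Equiv.addRight p) m i : ℤ) : ℂ) + (a i : ℂ) := by
    funext i
    have h1 : (Equiv.addRight p) m i = m i + p i := rfl
    rw [h1]
    push_cast
    ring
  have hs : ∑ i, ((m i : ℂ) + ((a i + (p i : ℝ) : ℝ) : ℂ)) * ((b i + (q i : ℝ) : ℝ) : ℂ) =
      ∑ i, ((((Equiv.addRight p) m i : ℤ) : ℂ) + (a i : ℂ)) * (b i : ℂ) +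
        ∑ i, (a i : ℂ) * (q i : ℂ) + ((∑ i, (m i + p i) * q i : ℤ) : ℂ) := by
    push_cast
    rw [← Finset.sum_add_distrib, ← Finset.sum_add_distrib]
    refine Finset.sum_congr rfl fun i _ => ?_
    have h1 : (Equiv.addRight p) m i = m i + p i := rfl
    rw [h1]
    push_cast
    ring
  rw [hv, hs]
  have hfin := exp_two_pi_int (∑ i, (m i + p i) * q i)
  rw [show π * I * qf τ (fun i => (((Equiv.addRight p) m i : ℤ) : ℂ) + (a i : ℂ)) +
      2 * π * I * (∑ i, ((((Equiv.addRight p) m i : ℤ) : ℂ) + (a i : ℂ)) * (b i : ℂ) +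
        ∑ i, (a i : ℂ) * (q i : ℂ) + ((∑ i, (m i + p i) * q i : ℤ) : ℂ)) =
      π * I * (2 * ((∑ i, (m i + p i) * q i : ℤ) : ℂ)) +
      (2 * π * I * ∑ i, (a i : ℂ) * (q i : ℂ) +
        (π * I * qf τ (fun i => (((Equiv.addRight p) m i : ℤ) : ℂ) + (a i : ℂ)) +
          2 * π * I * ∑ i, ((((Equiv.addRight p) m i : ℤ) : ℂ) + (a i : ℂ)) * (b i : ℂ))) by ring,
    Complex.exp_add, hfin, one_mul]

private theorem qf_eq {ι : Type} [Fintype ι] (τ : Matrix ι ι ℂ) (v : ι → ℂ) :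
    qf τ v = v ⬝ᵥ (τ *ᵥ v) := by
  unfold qf dotProduct Matrix.mulVec dotProduct
  refine Finset.sum_congr rfl fun i _ => ?_
  rw [Finset.mul_sum]
  refine Finset.sum_congr rfl fun j _ => ?_
  ring

/-- Unimodular change of variables: `m' = Pᵀ m` is a bijection of `ℤ^g`
(inverse `Qᵀ`), `Pᵀ(m+a) = m' + Pᵀ a` and `(m+a)·b = (m' + Pᵀ a)·(Q b)`. -/
theorem th_unimodular {g : ℕ} (a b : Fin g → ℝ) (τ : Matrix (Fin g) (Fin g) ℂ)
    (P Q : Matrix (Fin g) (Fin g) ℤ) (h : P * Q = 1) :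
    th a b (P.map (Int.cast : ℤ → ℂ) * τ * (P.map (Int.cast : ℤ → ℂ))ᵀ) =
      th (fun i => ∑ j, (P j i : ℝ) * a j) (fun i => ∑ j, (Q i j : ℝ) * b j) τ := by
  have h' : Q * P = 1 := mul_eq_one_comm.1 h
  unfold th
  let E : (Fin g → ℤ) ≃ (Fin g → ℤ) :=
    { toFun := fun m => m ᵥ* P
      invFun := fun m => m ᵥ* Q
      left_inv := fun m => by
        change (m ᵥ* P) ᵥ* Q = m
        rw [Matrix.vecMul_vecMul, h, Matrix.vecMul_one]
      right_inv := fun m => by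
        change (m ᵥ* Q) ᵥ* P = m
        rw [Matrix.vecMul_vecMul, h', Matrix.vecMul_one] }
  rw [← E.tsum_eq (thTerm (fun i => ∑ j, (P j i : ℝ) * a j) (fun i => ∑ j, (Q i j : ℝ) * b j) τ)]
  refine tsum_congr fun m => ?_
  unfold thTerm
  set PC : Matrix (Fin g) (Fin g) ℂ := P.map (Int.cast : ℤ → ℂ) with hPC
  set QC : Matrix (Fin g) (Fin g) ℂ := Q.map (Int.cast : ℤ → ℂ) with hQC
  have hPQ : PC * QC = 1 := by
    have h1 := congrArg (fun M : Matrix (Fin g) (Fin g) ℤ => M.map (Int.cast : ℤ → ℂ)) h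
    have h2 : (P * Q).map (Int.cast : ℤ → ℂ) = PC * QC := by
      have h3 := Matrix.map_mul (L := P) (M := Q) (f := Int.castRingHom ℂ)
      exact h3
    change (P * Q).map (Int.cast : ℤ → ℂ) = (1 : Matrix (Fin g) (Fin g) ℤ).map _ at h1
    rw [h2, Matrix.map_one _ Int.cast_zero Int.cast_one] at h1
    exact h1
  have hE : ∀ i, ((E m i : ℤ) : ℂ) = ∑ j, (m j : ℂ) * (P j i : ℂ) := by
    intro i
    have h1 : E m i = ∑ j, m j * P j i := rfl
    rw [h1]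
    push_cast
    rfl
  have hv : (fun i => ((E m i : ℤ) : ℂ) + ((∑ j, (P j i : ℝ) * a j : ℝ) : ℂ)) =
      (fun i => (m i : ℂ) + (a i : ℂ)) ᵥ* PC := by
    funext i
    rw [hE i]
    unfold Matrix.vecMul dotProduct
    push_cast
    rw [← Finset.sum_add_distrib]
    refine Finset.sum_congr rfl fun j _ => ?_
    rw [hPC, Matrix.map_apply]
    ring
  have hq : qf (PC * τ * PCᵀ) (fun i => (m i : ℂ) + (a i : ℂ)) =
      qf τ ((fun i => (m i : ℂ) + (a i : ℂ)) ᵥ* PC) := by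
    rw [qf_eq, qf_eq, ← Matrix.mulVec_mulVec, ← Matrix.mulVec_mulVec, Matrix.dotProduct_mulVec,
      Matrix.mulVec_transpose]
  have hs : ∑ i, ((m i : ℂ) + (a i : ℂ)) * (b i : ℂ) =
      ∑ i, (((E m i : ℤ) : ℂ) + ((∑ j, (P j i : ℝ) * a j : ℝ) : ℂ)) *
        ((∑ j, (Q i j : ℝ) * b j : ℝ) : ℂ) := by
    have h1 : ∑ i, (((E m i : ℤ) : ℂ) + ((∑ j, (P j i : ℝ) * a j : ℝ) : ℂ)) *
        ((∑ j, (Q i j : ℝ) * b j : ℝ) : ℂ) =
        ((fun i => (m i : ℂ) + (a i : ℂ)) ᵥ* PC) ⬝ᵥ (QC *ᵥ fun i => (b i : ℂ)) := by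
      rw [← hv]
      unfold dotProduct
      refine Finset.sum_congr rfl fun i _ => ?_
      congr 1
      unfold Matrix.mulVec dotProduct
      push_cast
      refine Finset.sum_congr rfl fun j _ => ?_
      rw [hQC, Matrix.map_apply]
    rw [h1, Matrix.dotProduct_mulVec, Matrix.vecMul_vecMul, hPQ, Matrix.vecMul_one]
    rfl
  rw [hv, hq, hs]

end MP6feb
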