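import Pool.Agent.Lib.MP_6febbd_ag.Defs
import Pool.Agent.Lib.MP_6febbd_ag.ThT

set_option autoImplicit false

open scoped Matrix.Norms.Elementwise Real
open Complex Matrix

noncomputable section

namespace MP6feb

/-- Powers of theta constants with characteristics in `(1/n) ℤ` depend only on the
characteristic modulo one: `th_period` and `exp(2 π i a·q)^(24 n²) = 1`. -/
theorem TX_intCast {g n : ℕ} [NeZero n] (A B : Fin g → ℤ) (τ : Matrix (Fin g) (Fin g) ℂ) :
    th (fun i => (A i : ℝ) / n) (fun i => (B i : ℝ) / n) τ ^ (24 * n ^ 2) =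
      TX n (Sum.elim (fun i => ((A i : ℤ) : ZMod n)) (fun i => ((B i : ℤ) : ZMod n))) τ := by
  have hn : (n : ℝ) ≠ 0 := by exact_mod_cast NeZero.ne n
  have hnC : (n : ℂ) ≠ 0 := by exact_mod_cast NeZero.ne n
  have key : ∀ X : ℤ, (X : ℝ) / n = ((((X : ℤ) : ZMod n).val : ℕ) : ℝ) / n + ((X / n : ℤ) : ℝ) := by
    intro X
    have h1 : ((((X : ℤ) : ZMod n).val : ℕ) : ℤ) = X % n := ZMod.val_intCast X
    have h2 : ((((X : ℤ) : ZMod n).val : ℕ) : ℝ) = ((X % n : ℤ) : ℝ) := by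
      rw [← h1]; push_cast; rfl
    rw [h2]
    have h3 : (X : ℝ) = ((X % n : ℤ) : ℝ) + (n : ℝ) * ((X / n : ℤ) : ℝ) := by
      have := Int.emod_add_mul_ediv X n
      exact_mod_cast this.symm
    field_simp
    linarith
  have hA : (fun i => (A i : ℝ) / n) =
      fun i => ((((A i : ℤ) : ZMod n).val : ℕ) : ℝ) / n + ((A i / n : ℤ) : ℝ) :=
    funext fun i => key (A i)
  have hB : (fun i => (B i : ℝ) / n) =
      fun i => ((((B i : ℤ) : ZMod n).val : ℕ) : ℝ) / n + ((B i / n : ℤ) : ℝ) :=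
    funext fun i => key (B i)
  rw [hA, hB, th_period, mul_pow]
  unfold TX thx
  simp only [Sum.elim_inl, Sum.elim_inr]
  have h1 : cexp (2 * π * I * ∑ i, ((((((A i : ℤ) : ZMod n).val : ℕ) : ℝ) / n : ℝ) : ℂ) *
      ((B i / n : ℤ) : ℂ)) ^ (24 * n ^ 2) = 1 := by
    rw [← Complex.exp_nat_mul]
    have h2 : ((24 * n ^ 2 : ℕ) : ℂ) * (2 * π * I * ∑ i,
        ((((((A i : ℤ) : ZMod n).val : ℕ) : ℝ) / n : ℝ) : ℂ) * ((B i / n : ℤ) : ℂ)) =
        ((24 * n * ∑ i, ((((A i : ℤ) : ZMod n).val : ℕ) : ℤ) * (B i / n) : ℤ) : ℂ) *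
          (2 * π * I) := by
      push_cast
      rw [Finset.mul_sum, Finset.mul_sum, Finset.mul_sum, Finset.sum_mul]
      refine Finset.sum_congr rfl fun i _ => ?_
      field_simp
    rw [h2, Complex.exp_int_mul_two_pi_mul_I]
  rw [h1, one_mul]

/-- `Bf` is periodic modulo one. -/
theorem Bf_add_int (r : ℝ) (m : ℤ) : Bf (r + m) = Bf r := by
  unfold Bf
  rw [round_add_intCast]
  push_cast
  ring

/-- `Bf` is even (half integers included: the two rounding conventions give the same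
square). -/
theorem Bf_neg (r : ℝ) : Bf (-r) = Bf r := by
  unfold Bf
  congr 1
  rw [← sq_abs, ← sq_abs (r - _), abs_sub_round_eq_min, abs_sub_round_eq_min]
  by_cases h : Int.fract r = 0
  · rw [h, Int.fract_neg_eq_zero.2 h]
  · rw [Int.fract_neg h, sub_sub_cancel, min_comm]

/-- The linear form may be computed with any integral representatives. -/
theorem lc_intCast {g n : ℕ} [NeZero n] (c : Fin g ⊕ Fin g → ℤ) (X : Fin g ⊕ Fin g → ℤ) :
    Bf (lc n c (fun j => ((X j : ℤ) : ZMod n))) =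
      Bf ((∑ j, (c j : ℝ) * (X j : ℝ)) / n +
        (∑ i, (c (Sum.inl i) : ℝ) * (c (Sum.inr i) : ℝ)) / 2) := by
  have hn : (n : ℝ) ≠ 0 := by exact_mod_cast NeZero.ne n
  have key : ∀ X : ℤ, (X : ℝ) = ((((X : ℤ) : ZMod n).val : ℕ) : ℝ) + n * ((X / n : ℤ) : ℝ) := by
    intro X
    have h1 : ((((X : ℤ) : ZMod n).val : ℕ) : ℤ) = X % n := ZMod.val_intCast X
    have h2 : ((((X : ℤ) : ZMod n).val : ℕ) : ℝ) = ((X % n : ℤ) : ℝ) := by
      rw [← h1]; push_cast; rfl
    rw [h2]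
    have := Int.emod_add_mul_ediv X n
    exact_mod_cast this.symm
  have h1 : (∑ j, (c j : ℝ) * (X j : ℝ)) / n +
      (∑ i, (c (Sum.inl i) : ℝ) * (c (Sum.inr i) : ℝ)) / 2 =
      lc n c (fun j => ((X j : ℤ) : ZMod n)) + ((∑ j, c j * (X j / n) : ℤ) : ℝ) := by
    unfold lc
    have h2 : ∑ j, (c j : ℝ) * (X j : ℝ) =
        ∑ j, (c j : ℝ) * ((((X j : ℤ) : ZMod n).val : ℕ) : ℝ) +
          n * ((∑ j, c j * (X j / n) : ℤ) : ℝ) := by
      push_cast
      rw [Finset.mul_sum, ← Finset.sum_add_distrib]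
      refine Finset.sum_congr rfl fun j _ => ?_
      have := key (X j)
      calc (c j : ℝ) * (X j : ℝ) = (c j : ℝ) * (((((X j : ℤ) : ZMod n).val : ℕ) : ℝ) +
            n * ((X j / n : ℤ) : ℝ)) := by rw [← this]
        _ = _ := by ring
    rw [h2]
    field_simp
    ring
  rw [h1, Bf_add_int]

end MP6feb
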