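import Pool.Agent.Lib.MP_6febbd_ag.Defs
import Pool.Agent.Lib.MP_6febbd_ag.ThC

set_option autoImplicit false

open scoped Matrix.Norms.Elementwise Real
open Complex Matrix

noncomputable section

namespace MP6feb

private theorem ray_im {g : ℕ} (τ : Matrix (Fin g) (Fin g) ℂ) (v : Fin g → ℤ) (t : ℝ)
    (i j : Fin g) :
    ((τ + ((t : ℂ) * I) • Matrix.of (fun i j => (v i : ℂ) * (v j : ℂ))) i j).im =
      (τ i j).im + t * ((v i : ℝ) * (v j : ℝ)) := by
  rw [Matrix.add_apply, Matrix.smul_apply, Matrix.of_apply, Complex.add_im, smul_eq_mul]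
  congr 1
  have h : (t : ℂ) * I * ((v i : ℂ) * (v j : ℂ)) = ((t * ((v i : ℝ) * (v j : ℝ)) : ℝ) : ℂ) * I := by
    push_cast
    ring
  rw [h, Complex.im_ofReal_mul, Complex.I_im, mul_one]

/-- Decay of theta constants in the boundary direction `i t v vᵀ`.
Proof. `|term(τ + i t v vᵀ)| = |term(τ)| exp(-π t (v·(m+a))²)` by `norm_thTerm`
(or directly), and `(v·(m+a))² ≥ ‖v·a‖²` because `v·m` is an integer (`round_le`:
`|x - round x| ≤ |x - k|` for every integer `k`). Sum; `C = ∑ |term(τ)|`. The left side is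
bounded by `norm_tsum_le_tsum_norm` (summability from `summable_thTerm` and comparison). -/
theorem th_decay {g : ℕ} (a b : Fin g → ℝ) {τ : Matrix (Fin g) (Fin g) ℂ}
    (hτ : τ ∈ Siegel g) (v : Fin g → ℤ) :
    ∃ C : ℝ, 0 ≤ C ∧ ∀ t : ℝ, 0 ≤ t →
      ‖th a b (τ + ((t : ℂ) * I) • Matrix.of (fun i j => (v i : ℂ) * (v j : ℂ)))‖ ≤
        C * Real.exp (-(π * t * ((∑ i, (v i : ℝ) * a i) -
          round (∑ i, (v i : ℝ) * a i)) ^ 2)) := by
  obtain ⟨c, hc, hP⟩ := exists_posIm hτ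
  have hsum : Summable fun m => ‖thTerm a b τ m‖ := (summable_thTerm hc a b hP).norm
  refine ⟨∑' m, ‖thTerm a b τ m‖, tsum_nonneg fun m => norm_nonneg _, fun t ht => ?_⟩
  set s : ℝ := ∑ i, (v i : ℝ) * a i with hs
  unfold th
  refine tsum_of_norm_bounded (hsum.hasSum.mul_right _) fun m => ?_
  rw [norm_thTerm, norm_thTerm, ← Real.exp_add]
  apply Real.exp_le_exp.2
  have h1 : ∑ i, ∑ j, ((m i : ℝ) + a i) *
      ((τ + ((t : ℂ) * I) • Matrix.of (fun i j => (v i : ℂ) * (v j : ℂ))) i j).im *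
        ((m j : ℝ) + a j) =
      ∑ i, ∑ j, ((m i : ℝ) + a i) * (τ i j).im * ((m j : ℝ) + a j) +
        t * (∑ i, (v i : ℝ) * ((m i : ℝ) + a i)) ^ 2 := by
    rw [sq, Finset.sum_mul_sum, Finset.mul_sum, ← Finset.sum_add_distrib]
    refine Finset.sum_congr rfl fun i _ => ?_
    rw [Finset.mul_sum, ← Finset.sum_add_distrib]
    refine Finset.sum_congr rfl fun j _ => ?_
    rw [ray_im]
    ring
  have h2 : (s - round s) ^ 2 ≤ (∑ i, (v i : ℝ) * ((m i : ℝ) + a i)) ^ 2 := by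
    have h3 : ∑ i, (v i : ℝ) * ((m i : ℝ) + a i) = s - ((-(∑ i, v i * m i) : ℤ) : ℝ) := by
      rw [hs]
      push_cast
      rw [sub_neg_eq_add, ← Finset.sum_add_distrib]
      refine Finset.sum_congr rfl fun i _ => ?_
      ring
    rw [h3, ← sq_abs (s - round s), ← sq_abs (s - _)]
    exact pow_le_pow_left₀ (abs_nonneg _) (round_le _ _) 2
  rw [h1]
  have h4 : π * t * (s - round s) ^ 2 ≤
      π * t * (∑ i, (v i : ℝ) * ((m i : ℝ) + a i)) ^ 2 :=
    mul_le_mul_of_nonneg_left h2 (mul_nonneg Real.pi_pos.le ht)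
  nlinarith

/-- The ray stays in the Siegel space. -/
theorem ray_mem {g : ℕ} {τ : Matrix (Fin g) (Fin g) ℂ} (hτ : τ ∈ Siegel g)
    (v : Fin g → ℤ) {t : ℝ} (ht : 0 ≤ t) :
    τ + ((t : ℂ) * I) • Matrix.of (fun i j => (v i : ℂ) * (v j : ℂ)) ∈ Siegel g := by
  obtain ⟨h1, h2⟩ := hτ
  refine ⟨?_, ?_⟩
  · refine Matrix.IsSymm.ext fun i j => ?_
    rw [Matrix.add_apply, Matrix.add_apply, Matrix.smul_apply, Matrix.smul_apply,
      Matrix.of_apply, Matrix.of_apply, h1.apply i j, mul_comm (v j : ℂ) (v i : ℂ)]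
  · have h3 : (τ + ((t : ℂ) * I) • Matrix.of (fun i j => (v i : ℂ) * (v j : ℂ))).map
        Complex.im = τ.map Complex.im +
          t • Matrix.vecMulVec (fun i => (v i : ℝ)) (star fun i => (v i : ℝ)) := by
      refine Matrix.ext fun i j => ?_
      rw [Matrix.map_apply, ray_im, Matrix.add_apply, Matrix.map_apply, Matrix.smul_apply,
        Matrix.vecMulVec_apply, smul_eq_mul]
      rfl
    rw [h3]
    exact h2.add_posSemidef ((Matrix.posSemidef_vecMulVec_self_star _).smul ht)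

end MP6feb
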