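import Pool.Agent.Lib.MP_6febbd_ag.Defs
import Pool.Agent.Lib.MP_6febbd_ag.ThD
import Pool.Agent.Lib.MP_6febbd_ag.Mv0

set_option autoImplicit false

open scoped Matrix.Norms.Elementwise Real
open Complex Matrix

noncomputable section

namespace MP6feb

private lemma two_part {g : ℕ} : ∀ (N : ℕ) (v : Fin g → ℤ), (∑ i, (v i).natAbs) ≤ N → v ≠ 0 →
    ∃ (e : ℕ) (w : Fin g → ℤ), (∃ i, ¬ ((2 : ℤ) ∣ w i)) ∧ ∀ i, v i = 2 ^ e * w i := by
  intro N
  induction N with
  | zero =>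
    intro v hv hne
    exfalso
    apply hne
    funext i
    have h1 : (v i).natAbs ≤ ∑ i, (v i).natAbs :=
      Finset.single_le_sum (f := fun i => (v i).natAbs) (fun _ _ => Nat.zero_le _)
        (Finset.mem_univ i)
    have : (v i).natAbs = 0 := by omega
    simpa using this
  | succ N ih =>
    intro v hv hne
    by_cases h : ∃ i, ¬ ((2 : ℤ) ∣ v i)
    · exact ⟨0, v, h, fun i => by simp⟩
    · push Not at h
      choose w hw using h
      have hwne : w ≠ 0 := by
        intro h0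
        apply hne
        funext i
        rw [hw i, h0]
        simp
      have hsum : (∑ i, (w i).natAbs) ≤ N := by
        have h2 : ∑ i, (v i).natAbs = 2 * ∑ i, (w i).natAbs := by
          rw [Finset.mul_sum]
          refine Finset.sum_congr rfl fun i _ => ?_
          rw [hw i, Int.natAbs_mul]
          rfl
        have h3 : 0 < ∑ i, (w i).natAbs := by
          rw [Nat.pos_iff_ne_zero]
          intro h0
          apply hwne
          funext i
          have := (Finset.sum_eq_zero_iff.mp h0) i (Finset.mem_univ i)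
          simpa using this
        omega
      obtain ⟨e, w', hw', he⟩ := ih w hsum hwne
      refine ⟨e + 1, w', hw', fun i => ?_⟩
      rw [hw i, he i]
      ring

/-- Vanishing at the boundary. Proof. For `v` primitive or not: put `v = d v₁` with `v₁`
not divisible by two (divide by the largest power of two dividing `v`), so that
`τ + i t v vᵀ = τ + i (t d²) v₁ v₁ᵀ` and `exp(-2πm t d²) ≤ exp(-2πm t)`; for `v₁` and
`c = (v₁, 0)` we have `lc n c x = v₁·a_x` and `Bf (lc n c x) = ‖v₁·a_x‖² - 1/12`, so for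
`X` in the family `∏_{x ∈ X} |TX n x| ≤ C exp(-π t 24 n² ∑ ‖v₁·a_x‖²)
≤ C exp(-π t 24 n² M/12) = C exp(-2 π n² M t)`; take the `j`-th power and sum. -/
theorem Pj_cusp {g n M j : ℕ} [NeZero n] :
    VanishesAtBoundary g (n ^ 2 * M * j) (Pj g n M j) := by
  intro τ hτ v hv
  have hn0 : (n : ℝ) ≠ 0 := by exact_mod_cast NeZero.ne n
  obtain ⟨e, w, hw, hvw⟩ := two_part _ v le_rfl hv
  -- decay constants
  have hdec : ∀ x : Fin g ⊕ Fin g → ZMod n, ∃ C : ℝ, 0 ≤ C ∧ ∀ s : ℝ, 0 ≤ s →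
      ‖thx n x (τ + ((s : ℂ) * I) • Matrix.of (fun i j => (w i : ℂ) * (w j : ℂ)))‖ ≤
        C * Real.exp (-(π * s * ((∑ i, (w i : ℝ) * (((x (Sum.inl i)).val : ℝ) / n)) -
          round (∑ i, (w i : ℝ) * (((x (Sum.inl i)).val : ℝ) / n))) ^ 2)) := fun x =>
    th_decay _ _ hτ w
  choose C hC0 hC using hdec
  set c : Fin g ⊕ Fin g → ℤ := Sum.elim w (fun _ => 0) with hc
  have hc2 : ∃ i, ¬ ((2 : ℤ) ∣ c i) := by
    obtain ⟨i, hi⟩ := hw
    exact ⟨Sum.inl i, by simpa [hc] using hi⟩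
  have hlc : ∀ x : Fin g ⊕ Fin g → ZMod n,
      lc n c x = ∑ i, (w i : ℝ) * (((x (Sum.inl i)).val : ℝ) / n) := by
    intro x
    unfold lc
    rw [Fintype.sum_sum_type]
    simp only [hc, Sum.elim_inl, Sum.elim_inr, Int.cast_zero, zero_mul, mul_zero,
      Finset.sum_const_zero, add_zero, zero_div]
    rw [Finset.sum_div]
    exact Finset.sum_congr rfl fun i _ => by ring
  have hC' : ∀ (x : Fin g ⊕ Fin g → ZMod n) (s : ℝ), 0 ≤ s →
      ‖TX n x (τ + ((s : ℂ) * I) • Matrix.of (fun i j => (w i : ℂ) * (w j : ℂ)))‖ ≤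
        C x ^ (24 * n ^ 2) * Real.exp (-(π * s * (24 * n ^ 2) * (Bf (lc n c x) + 1 / 12))) := by
    intro x s hs
    unfold TX
    rw [norm_pow]
    refine (pow_le_pow_left₀ (norm_nonneg _) (hC x s hs) _).trans ?_
    rw [mul_pow, ← Real.exp_nat_mul, ← hlc x]
    refine le_of_eq ?_
    congr 2
    unfold Bf
    push_cast
    ring
  refine ⟨∑ X ∈ famF g n M, (∏ x ∈ X, C x ^ (24 * n ^ 2)) ^ j, fun t ht => ?_⟩
  -- rewrite the ray
  set s : ℝ := t * (2 ^ e) ^ 2 with hs
  have hs0 : 0 ≤ s := by positivity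
  have hst : t ≤ s := by
    have h1 : (1 : ℝ) ≤ (2 ^ e) ^ 2 := one_le_pow₀ (one_le_pow₀ (by norm_num))
    calc t = t * 1 := by ring
      _ ≤ t * (2 ^ e) ^ 2 := mul_le_mul_of_nonneg_left h1 ht
  have hray : τ + ((t : ℂ) * I) • Matrix.of (fun i j => (v i : ℂ) * (v j : ℂ)) =
      τ + ((s : ℂ) * I) • Matrix.of (fun i j => (w i : ℂ) * (w j : ℂ)) := by
    congr 1
    ext i j
    simp only [Matrix.smul_apply, Matrix.of_apply, smul_eq_mul, hs, hvw i, hvw j]
    push_cast
    ring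
  rw [hray]
  set τ' := τ + ((s : ℂ) * I) • Matrix.of (fun i j => (w i : ℂ) * (w j : ℂ)) with hτ'
  unfold Pj
  refine (norm_sum_le _ _).trans ?_
  rw [Finset.sum_mul]
  refine Finset.sum_le_sum fun X hX => ?_
  have hfam : InFam g n M X := by
    simpa [famF] using hX
  have hprod : ‖∏ x ∈ X, TX n x τ'‖ ≤
      (∏ x ∈ X, C x ^ (24 * n ^ 2)) * Real.exp (-(2 * π * (n ^ 2 * M) * t)) := by
    rw [norm_prod]
    refine (Finset.prod_le_prod (fun x _ => norm_nonneg _) fun x _ => hC' x s hs0).trans ?_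
    rw [Finset.prod_mul_distrib, ← Real.exp_sum]
    refine mul_le_mul_of_nonneg_left ?_
      (Finset.prod_nonneg fun x _ => pow_nonneg (hC0 x) _)
    rw [Real.exp_le_exp]
    rw [Finset.sum_neg_distrib, neg_le_neg_iff, ← Finset.mul_sum, Finset.sum_add_distrib,
      Finset.sum_const, hfam.1]
    have hB := hfam.2 c hc2
    have hπ := Real.pi_pos
    have hK : 0 ≤ π * s * (24 * (n : ℝ) ^ 2) := by positivity
    have h1 : π * s * (24 * (n : ℝ) ^ 2) * (M • (1 / 12 : ℝ)) ≤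
        π * s * (24 * (n : ℝ) ^ 2) * (∑ x ∈ X, Bf (lc n c x) + M • (1 / 12 : ℝ)) :=
      mul_le_mul_of_nonneg_left (by linarith) hK
    refine le_trans ?_ h1
    rw [nsmul_eq_mul]
    have h2 : 0 ≤ 2 * π * ((n : ℝ) ^ 2 * M) := by positivity
    calc 2 * π * ((n : ℝ) ^ 2 * M) * t ≤ 2 * π * ((n : ℝ) ^ 2 * M) * s :=
          mul_le_mul_of_nonneg_left hst h2
      _ = π * s * (24 * (n : ℝ) ^ 2) * (M * (1 / 12 : ℝ)) := by ring
  rw [norm_pow]
  refine (pow_le_pow_left₀ (norm_nonneg _) hprod _).trans ?_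
  rw [mul_pow, ← Real.exp_nat_mul]
  refine le_of_eq ?_
  congr 2
  push_cast
  ring

end MP6feb
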