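import Mathlib

/-!
# Definitions for MP_6febbd_ag (base points of twelve lambda minus delta zero)

The Siegel upper half space, the action of the integral symplectic group, Siegel modular
forms of level one, order of vanishing at the boundary, theta constants with
characteristics, and the auxiliary notions used in the proof.
-/

set_option autoImplicit false

open scoped Matrix.Norms.Elementwise Real
open Complex Matrix

noncomputable section

namespace MP6feb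

/-! ## Notions of the final statement -/

/-- The Siegel upper half space: symmetric complex matrices with positive definite
imaginary part. -/
def Siegel (g : ℕ) : Set (Matrix (Fin g) (Fin g) ℂ) :=
  {τ | τ.IsSymm ∧ (τ.map Complex.im).PosDef}

/-- The denominator `C τ + D` of an integral matrix with blocks `A, B, C, D`. -/
def den {g : ℕ} (γ : Matrix (Fin g ⊕ Fin g) (Fin g ⊕ Fin g) ℤ)
    (τ : Matrix (Fin g) (Fin g) ℂ) : Matrix (Fin g) (Fin g) ℂ :=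
  γ.toBlocks₂₁.map (Int.cast : ℤ → ℂ) * τ + γ.toBlocks₂₂.map (Int.cast : ℤ → ℂ)

/-- The numerator `A τ + B`. -/
def num {g : ℕ} (γ : Matrix (Fin g ⊕ Fin g) (Fin g ⊕ Fin g) ℤ)
    (τ : Matrix (Fin g) (Fin g) ℂ) : Matrix (Fin g) (Fin g) ℂ :=
  γ.toBlocks₁₁.map (Int.cast : ℤ → ℂ) * τ + γ.toBlocks₁₂.map (Int.cast : ℤ → ℂ)

/-- The action `(A τ + B) (C τ + D)⁻¹`. -/
def act {g : ℕ} (γ : Matrix (Fin g ⊕ Fin g) (Fin g ⊕ Fin g) ℤ)
    (τ : Matrix (Fin g) (Fin g) ℂ) : Matrix (Fin g) (Fin g) ℂ :=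
  num γ τ * (den γ τ)⁻¹

/-- `F` is holomorphic on the Siegel upper half space and modular of weight `k` for the
full integral symplectic group. -/
structure IsSiegelForm (g k : ℕ) (F : Matrix (Fin g) (Fin g) ℂ → ℂ) : Prop where
  holo : DifferentiableOn ℂ F (Siegel g)
  modular : ∀ γ ∈ Matrix.symplecticGroup (Fin g) ℤ, ∀ τ ∈ Siegel g,
    F (act γ τ) = (den γ τ).det ^ k * F τ

/-- `F` vanishes to order at least `m` along every rank one boundary component: along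
every ray `τ + i t v vᵀ`, `v` a non-zero integral vector, it is `O(exp(-2 π m t))`. -/
def VanishesAtBoundary (g m : ℕ) (F : Matrix (Fin g) (Fin g) ℂ → ℂ) : Prop :=
  ∀ τ ∈ Siegel g, ∀ v : Fin g → ℤ, v ≠ 0 → ∃ C : ℝ, ∀ t : ℝ, 0 ≤ t →
    ‖F (τ + ((t : ℂ) * I) • Matrix.of (fun i j => (v i : ℂ) * (v j : ℂ)))‖ ≤
      C * Real.exp (-(2 * π * m * t))

/-! ## Theta constants and theta functions -/

/-- The quadratic form `vᵀ τ v`. -/
def qf {ι : Type} [Fintype ι] (τ : Matrix ι ι ℂ) (v : ι → ℂ) : ℂ := ∑ i, ∑ j, v i * τ i j * v j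

/-- One term of the theta constant with characteristic `(a, b)`. -/
def thTerm {ι : Type} [Fintype ι] (a b : ι → ℝ) (τ : Matrix ι ι ℂ) (m : ι → ℤ) : ℂ :=
  cexp (π * I * qf τ (fun i => (m i : ℂ) + a i) + 2 * π * I * ∑ i, ((m i : ℂ) + a i) * b i)

/-- The theta constant with real characteristic `(a, b)`. -/
def th {ι : Type} [Fintype ι] (a b : ι → ℝ) (τ : Matrix ι ι ℂ) : ℂ :=
  ∑' m : ι → ℤ, thTerm a b τ m

/-- Positivity of the imaginary part on real vectors, for not necessarily symmetric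
matrices (an open condition). -/
def PosIm {ι : Type} [Fintype ι] (c : ℝ) (τ : Matrix ι ι ℂ) : Prop :=
  ∀ v : ι → ℝ, c * ∑ i, v i ^ 2 ≤ ∑ i, ∑ j, v i * (τ i j).im * v j

/-- Exponential sum with coefficients `a`. -/
def ES {ι : Type} [Fintype ι] (a : (ι → ℤ) → ℂ) (z : ι → ℂ) : ℂ :=
  ∑' m : ι → ℤ, a m * cexp (2 * π * I * ∑ i, (m i : ℂ) * z i)

/-- Gaussian decay of coefficients. -/
def GDec {ι : Type} [Fintype ι] (a : (ι → ℤ) → ℂ) : Prop :=
  ∃ C c : ℝ, 0 < c ∧ ∀ m, ‖a m‖ ≤ C * Real.exp (-(c * ∑ i, (m i : ℝ) ^ 2))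

/-- Coefficients of the derivative in the direction `v`. -/
def dS {ι : Type} [Fintype ι] (v : ι → ℂ) (a : (ι → ℤ) → ℂ) : (ι → ℤ) → ℂ :=
  fun m => (2 * π * I * ∑ i, (m i : ℂ) * v i) * a m

/-- Coefficients of the Riemann theta function. -/
def thC {ι : Type} [Fintype ι] (τ : Matrix ι ι ℂ) : (ι → ℤ) → ℂ :=
  fun m => cexp (π * I * qf τ (fun i => (m i : ℂ)))

/-- The Riemann theta function `θ(τ, z)`. -/
def Th {ι : Type} [Fintype ι] (τ : Matrix ι ι ℂ) (z : ι → ℂ) : ℂ := ES (thC τ) z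

/-- `L(a, b) = τ a + b`. -/
def Lat {ι : Type} [Fintype ι] (τ : Matrix ι ι ℂ) (x : ι ⊕ ι → ℝ) : ι → ℂ :=
  fun i => ∑ j, τ i j * (x (Sum.inl j) : ℂ) + (x (Sum.inr i) : ℂ)

/-! ## Torsion characteristics -/

/-- The theta constant with characteristic `x / n`. -/
def thx {g : ℕ} (n : ℕ) (x : Fin g ⊕ Fin g → ZMod n) (τ : Matrix (Fin g) (Fin g) ℂ) : ℂ :=
  th (fun i => ((x (Sum.inl i)).val : ℝ) / n) (fun i => ((x (Sum.inr i)).val : ℝ) / n) τ

/-- Its power of exponent `24 n²`. -/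
def TX {g : ℕ} (n : ℕ) (x : Fin g ⊕ Fin g → ZMod n) (τ : Matrix (Fin g) (Fin g) ℂ) : ℂ :=
  thx n x τ ^ (24 * n ^ 2)

/-- Square of the distance to the nearest integer, minus `1/12`. -/
def Bf (r : ℝ) : ℝ := (r - round r) ^ 2 - 1 / 12

/-- The linear form `(c' · A + c'' · B) / n + c' · c'' / 2` on characteristics. -/
def lc {g : ℕ} (n : ℕ) (c : Fin g ⊕ Fin g → ℤ) (x : Fin g ⊕ Fin g → ZMod n) : ℝ :=
  (∑ j, (c j : ℝ) * ((x j).val : ℝ)) / n +
    (∑ i, (c (Sum.inl i) : ℝ) * (c (Sum.inr i) : ℝ)) / 2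

/-- The character `exp(2 π i c · x / n)`. -/
def chr {g : ℕ} (n : ℕ) (c : Fin g ⊕ Fin g → ℤ) (x : Fin g ⊕ Fin g → ZMod n) : ℂ :=
  cexp (2 * π * I * ((∑ j, (c j : ℂ) * ((x j).val : ℂ)) / n))

/-- Smallness of the non-trivial Fourier coefficients of a finite set of
characteristics. -/
def GoodSet {g : ℕ} (n : ℕ) (X : Finset (Fin g ⊕ Fin g → ZMod n)) : Prop :=
  X.Nonempty ∧ ∀ c : Fin g ⊕ Fin g → ℤ, (∃ i, ¬ ((n : ℤ) ∣ c i)) →
    ‖∑ x ∈ X, chr n c x‖ * ((n : ℝ) ^ 2 - 1) ≤ X.card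

/-- The characteristics of level `n` whose theta constant does not vanish at `τ`. -/
def NV {g : ℕ} (n : ℕ) [NeZero n] (τ : Matrix (Fin g) (Fin g) ℂ) :
    Finset (Fin g ⊕ Fin g → ZMod n) :=
  {x : Fin g ⊕ Fin g → ZMod n | thx n x τ ≠ 0}.toFinite.toFinset

/-- For all large levels `2^k` the set of non-vanishing characteristics is good. -/
def EvGood {g : ℕ} (τ : Matrix (Fin g) (Fin g) ℂ) : Prop :=
  ∀ᶠ k : ℕ in Filter.atTop, GoodSet (2 ^ k) (NV (2 ^ k) τ)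

/-! ## Symplectic matrices -/

/-- `τ ↦ τ + S`. -/
def sT {g : ℕ} (S : Matrix (Fin g) (Fin g) ℤ) : Matrix (Fin g ⊕ Fin g) (Fin g ⊕ Fin g) ℤ :=
  Matrix.fromBlocks 1 S 0 1

/-- `τ ↦ P τ Pᵀ`, where `Q` is the inverse of `P`. -/
def sU {g : ℕ} (P Q : Matrix (Fin g) (Fin g) ℤ) : Matrix (Fin g ⊕ Fin g) (Fin g ⊕ Fin g) ℤ :=
  Matrix.fromBlocks P 0 0 Qᵀ

/-- The matrix unit at `(0, 0)`. -/
def e00 (k : ℕ) : Matrix (Fin (k + 1)) (Fin (k + 1)) ℤ := Matrix.single 0 0 1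

/-- Partial inversion in the first coordinate. -/
def sJ (k : ℕ) : Matrix (Fin (k + 1) ⊕ Fin (k + 1)) (Fin (k + 1) ⊕ Fin (k + 1)) ℤ :=
  Matrix.fromBlocks (1 - e00 k) (-e00 k) (e00 k) (1 - e00 k)

/-- Elementary symplectic matrices. -/
inductive IsGen : (g : ℕ) → Matrix (Fin g ⊕ Fin g) (Fin g ⊕ Fin g) ℤ → Prop
  | T {g : ℕ} (S : Matrix (Fin g) (Fin g) ℤ) (hS : S.IsSymm) : IsGen g (sT S)
  | U {g : ℕ} (P Q : Matrix (Fin g) (Fin g) ℤ) (h : P * Q = 1) : IsGen g (sU P Q)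
  | J (k : ℕ) : IsGen (k + 1) (sJ k)

/-- The monoid generated by the elementary symplectic matrices. -/
def Gam (g : ℕ) : Submonoid (Matrix (Fin g ⊕ Fin g) (Fin g ⊕ Fin g) ℤ) :=
  Submonoid.closure {γ | IsGen g γ}

/-- The symplectic form on integral vectors. -/
def Es {g : ℕ} (α β : Fin g ⊕ Fin g → ℤ) : ℤ :=
  ∑ i, (α (Sum.inl i) * β (Sum.inr i) - α (Sum.inr i) * β (Sum.inl i))

/-- Block diagonal matrix with first diagonal entry `s`. -/
def bd {R : Type} [Zero R] {k : ℕ} (s : R) (M : Matrix (Fin k) (Fin k) R) :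
    Matrix (Fin (k + 1)) (Fin (k + 1)) R :=
  Matrix.of (Fin.cons (Fin.cons s (fun _ => 0)) (fun i => Fin.cons 0 (M i)))

/-- The embedding of the smaller symplectic group. -/
def emb {k : ℕ} (γ : Matrix (Fin k ⊕ Fin k) (Fin k ⊕ Fin k) ℤ) :
    Matrix (Fin (k + 1) ⊕ Fin (k + 1)) (Fin (k + 1) ⊕ Fin (k + 1)) ℤ :=
  Matrix.fromBlocks (bd 1 γ.toBlocks₁₁) (bd 0 γ.toBlocks₁₂) (bd 0 γ.toBlocks₂₁)
    (bd 1 γ.toBlocks₂₂)

/-- The one by one matrix. -/
def s1 (σ : ℂ) : Matrix (Fin 1) (Fin 1) ℂ := Matrix.of (fun _ _ => σ)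

/-- A symplectic matrix `s` permutes the powers `TX n x` of the theta constants, up to
the automorphy factor of weight `12 n²`, by a permutation compatible with the linear forms
`lc n c` for `c` not divisible by two. -/
def Move (g n : ℕ) [NeZero n] (s : Matrix (Fin g ⊕ Fin g) (Fin g ⊕ Fin g) ℤ) : Prop :=
  ∃ e : (Fin g ⊕ Fin g → ZMod n) ≃ (Fin g ⊕ Fin g → ZMod n),
    (∀ x, ∀ τ ∈ Siegel g,
      TX n x (act s τ) = (den s τ).det ^ (12 * n ^ 2) * TX n (e x) τ) ∧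
    (∀ c : Fin g ⊕ Fin g → ℤ, (∃ i, ¬ ((2 : ℤ) ∣ c i)) →
      ∃ d : Fin g ⊕ Fin g → ℤ, (∃ i, ¬ ((2 : ℤ) ∣ d i)) ∧
        ∀ x, Bf (lc n c (e x)) = Bf (lc n d x))

/-- The sets of `M` characteristics on which all the averages of `Bf (lc n c x)`,
`c` not divisible by two, are nonnegative. -/
def InFam (g n M : ℕ) (X : Finset (Fin g ⊕ Fin g → ZMod n)) : Prop :=
  X.card = M ∧ ∀ c : Fin g ⊕ Fin g → ℤ, (∃ i, ¬ ((2 : ℤ) ∣ c i)) →
    0 ≤ ∑ x ∈ X, Bf (lc n c x)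

/-- The family of these sets. -/
def famF (g n M : ℕ) [NeZero n] : Finset (Finset (Fin g ⊕ Fin g → ZMod n)) :=
  {X : Finset (Fin g ⊕ Fin g → ZMod n) | InFam g n M X}.toFinite.toFinset

/-- The power sums of the products of theta constants over the family. -/
def Pj (g n M j : ℕ) [NeZero n] (τ : Matrix (Fin g) (Fin g) ℂ) : ℂ :=
  ∑ X ∈ famF g n M, (∏ x ∈ X, TX n x τ) ^ j

/-! ## Gaussian means -/

/-- The Gaussian weight of total mass one on `ℂ^ι`. -/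
def kap {ι : Type} [Fintype ι] (z : ι → ℂ) : ℝ := Real.exp (-(π * ∑ i, ‖z i‖ ^ 2))

/-- Gaussian mean of `log |F|` around `w` at scale `t`. -/
def Wm {ι : Type} [Fintype ι] (F : (ι → ℂ) → ℂ) (w : ι → ℂ) (t : ℝ) : ℝ :=
  ∫ ξ : ι → ℂ, Real.log ‖F (w + (t : ℂ) • ξ)‖ * kap ξ

/-- Circle mean of `log |f|` around `0` as a function of the logarithm of the radius. -/
def Mc (f : ℂ → ℂ) (s : ℝ) : ℝ := Real.circleAverage (fun z => Real.log ‖f z‖) 0 (Real.exp s)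

/-- Entire functions of order at most two, not identically zero: the functions to which
the counting lemmas apply. -/
structure Adm {ι : Type} [Fintype ι] (F : (ι → ℂ) → ℂ) : Prop where
  diff : Differentiable ℂ F
  growth : ∃ C : ℝ, ∀ z, ‖F z‖ ≤ Real.exp (C * (1 + ‖z‖ ^ 2))
  nz : ∃ z, F z ≠ 0

/-- Real linear coordinates on `ℂ^(k+1)`. -/
abbrev Crd (k : ℕ) : Type := (Fin (k + 1) ⊕ Fin (k + 1) → ℝ) ≃ₗ[ℝ] (Fin (k + 1) → ℂ)

/-- The point with integral coordinates `m` divided by `n`. -/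
def gridPt {k : ℕ} (L : Crd k) (n : ℕ) (m : Fin (k + 1) ⊕ Fin (k + 1) → ℤ) :
    Fin (k + 1) → ℂ := L (fun i => (m i : ℝ) / n)

open Classical in
/-- The zeros of `F` among the grid points of level `n` in the fundamental box. -/
def Vn {k : ℕ} (F : (Fin (k + 1) → ℂ) → ℂ) (L : Crd k) (n : ℕ) :
    Finset (Fin (k + 1) → ℂ) :=
  ((Finset.univ : Finset (Fin (k + 1) ⊕ Fin (k + 1) → Fin n)).image
    (fun m => gridPt L n (fun i => ((m i : ℕ) : ℤ)))).filter (fun z => F z = 0)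

/-! ## Fat sets -/

/-- `Z` is fat for the finite sets `A n`: every open neighbourhood contains, for
infinitely many `n`, at least `ε n^(2k)` points of `A n`. -/
def Fat {E : Type} [TopologicalSpace E] (k : ℕ) (A : ℕ → Finset E) (Z : Set E) : Prop :=
  ∃ ε : ℝ, 0 < ε ∧ ∀ U : Set E, IsOpen U → Z ⊆ U →
    ∃ᶠ n : ℕ in Filter.atTop, ε * (n : ℝ) ^ (2 * k) ≤ (((A n : Set E) ∩ U).ncard : ℝ)

/-- Local description of the zero set of `F = ES a` near a regular point `p` of the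
stratum of multiplicity `q`: the zeros of `F` in a ball are the points of the graph of a
holomorphic map `y` over a hyperplane, and all derivatives of order `< q` in the direction
`e` vanish on the graph. -/
structure Reg {k : ℕ} (a : (Fin (k + 1) → ℤ) → ℂ) (q : ℕ) (e p : Fin (k + 1) → ℂ)
    (pr : (Fin (k + 1) → ℂ) →L[ℂ] (Fin k → ℂ)) (y : (Fin k → ℂ) → (Fin (k + 1) → ℂ))
    (ρ r Lp : ℝ) : Prop where
  q1 : 1 ≤ q
  ρ0 : 0 < ρ
  r0 : 0 < r
  nz : ES ((dS e)^[q] a) p ≠ 0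
  ker : ∀ z, pr z = 0 → ∃ c : ℂ, z = c • e
  yp : y (pr p) = p
  ydiff : DifferentiableOn ℂ y (Metric.ball (pr p) ρ)
  ypr : ∀ w ∈ Metric.ball (pr p) ρ, pr (y w) = w
  van : ∀ i < q, ∀ w ∈ Metric.ball (pr p) ρ, ES ((dS e)^[i] a) (y w) = 0
  lip : ∀ w ∈ Metric.ball (pr p) ρ, ∀ w' ∈ Metric.ball (pr p) ρ,
    ‖y w - y w'‖ ≤ Lp * ‖w - w'‖
  loc : ∀ z ∈ Metric.ball p r, pr z ∈ Metric.ball (pr p) ρ ∧ (ES a z = 0 → z = y (pr z))

end MP6feb
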