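import Pool.Agent.Lib.MP_6febbd_ag.Defs

set_option autoImplicit false

open scoped Matrix.Norms.Elementwise Real
open Complex Matrix

noncomputable section

namespace MP6feb

private lemma spa_map_mul {g : ℕ} (X Z : Matrix (Fin g) (Fin g) ℤ) :
    (X * Z).map (Int.cast : ℤ → ℂ) =
      X.map (Int.cast : ℤ → ℂ) * Z.map (Int.cast : ℤ → ℂ) := by
  have := Matrix.map_mul (L := X) (M := Z) (f := Int.castRingHom ℂ)
  simpa using this

private lemma spa_map_add {g : ℕ} (X Z : Matrix (Fin g) (Fin g) ℤ) :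
    (X + Z).map (Int.cast : ℤ → ℂ) =
      X.map (Int.cast : ℤ → ℂ) + Z.map (Int.cast : ℤ → ℂ) := by
  ext i j; simp

private lemma spa_map_one {g : ℕ} :
    (1 : Matrix (Fin g) (Fin g) ℤ).map (Int.cast : ℤ → ℂ) = 1 := by
  ext i j; by_cases h : i = j <;> simp [h, Matrix.one_apply]

private lemma spa_map_zero {g : ℕ} :
    (0 : Matrix (Fin g) (Fin g) ℤ).map (Int.cast : ℤ → ℂ) = 0 := by
  ext i j; simp

private lemma spa_blocks {g : ℕ} (γ₂ γ : Matrix (Fin g ⊕ Fin g) (Fin g ⊕ Fin g) ℤ) :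
    (γ₂ * γ).toBlocks₁₁ = γ₂.toBlocks₁₁ * γ.toBlocks₁₁ + γ₂.toBlocks₁₂ * γ.toBlocks₂₁ ∧
    (γ₂ * γ).toBlocks₁₂ = γ₂.toBlocks₁₁ * γ.toBlocks₁₂ + γ₂.toBlocks₁₂ * γ.toBlocks₂₂ ∧
    (γ₂ * γ).toBlocks₂₁ = γ₂.toBlocks₂₁ * γ.toBlocks₁₁ + γ₂.toBlocks₂₂ * γ.toBlocks₂₁ ∧
    (γ₂ * γ).toBlocks₂₂ = γ₂.toBlocks₂₁ * γ.toBlocks₁₂ + γ₂.toBlocks₂₂ * γ.toBlocks₂₂ := by
  have h : γ₂ * γ = Matrix.fromBlocks
      (γ₂.toBlocks₁₁ * γ.toBlocks₁₁ + γ₂.toBlocks₁₂ * γ.toBlocks₂₁)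
      (γ₂.toBlocks₁₁ * γ.toBlocks₁₂ + γ₂.toBlocks₁₂ * γ.toBlocks₂₂)
      (γ₂.toBlocks₂₁ * γ.toBlocks₁₁ + γ₂.toBlocks₂₂ * γ.toBlocks₂₁)
      (γ₂.toBlocks₂₁ * γ.toBlocks₁₂ + γ₂.toBlocks₂₂ * γ.toBlocks₂₂) := by
    rw [← Matrix.fromBlocks_multiply, Matrix.fromBlocks_toBlocks, Matrix.fromBlocks_toBlocks]
  rw [h]
  exact ⟨Matrix.toBlocks_fromBlocks₁₁ _ _ _ _, Matrix.toBlocks_fromBlocks₁₂ _ _ _ _,
    Matrix.toBlocks_fromBlocks₂₁ _ _ _ _, Matrix.toBlocks_fromBlocks₂₂ _ _ _ _⟩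

private lemma spa_inv {g : ℕ} {M : Matrix (Fin g) (Fin g) ℂ} (h : M.det ≠ 0) : M⁻¹ * M = 1 :=
  Matrix.nonsing_inv_mul M (isUnit_iff_ne_zero.2 h)

private lemma spa_num_mul {g : ℕ} (γ₂ γ : Matrix (Fin g ⊕ Fin g) (Fin g ⊕ Fin g) ℤ)
    (τ : Matrix (Fin g) (Fin g) ℂ) (h : (den γ τ).det ≠ 0) :
    num (γ₂ * γ) τ = num γ₂ (act γ τ) * den γ τ := by
  obtain ⟨b1, b2, _, _⟩ := spa_blocks γ₂ γ
  have h1 : num γ₂ (act γ τ) * den γ τ = γ₂.toBlocks₁₁.map (Int.cast : ℤ → ℂ) * num γ τ +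
      γ₂.toBlocks₁₂.map (Int.cast : ℤ → ℂ) * den γ τ := by
    rw [num, act, Matrix.add_mul, Matrix.mul_assoc, Matrix.mul_assoc, spa_inv h, Matrix.mul_one]
  rw [h1, num, num, den, b1, b2]
  simp only [spa_map_mul, spa_map_add]
  noncomm_ring

theorem den_mul {g : ℕ} (γ₂ γ : Matrix (Fin g ⊕ Fin g) (Fin g ⊕ Fin g) ℤ)
    (τ : Matrix (Fin g) (Fin g) ℂ) (h : (den γ τ).det ≠ 0) :
    den (γ₂ * γ) τ = den γ₂ (act γ τ) * den γ τ := by
  obtain ⟨_, _, b3, b4⟩ := spa_blocks γ₂ γ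
  have h1 : den γ₂ (act γ τ) * den γ τ = γ₂.toBlocks₂₁.map (Int.cast : ℤ → ℂ) * num γ τ +
      γ₂.toBlocks₂₂.map (Int.cast : ℤ → ℂ) * den γ τ := by
    rw [den, act, Matrix.add_mul, Matrix.mul_assoc, Matrix.mul_assoc, spa_inv h, Matrix.mul_one]
  rw [h1, num, den, den, b3, b4]
  simp only [spa_map_mul, spa_map_add]
  noncomm_ring

theorem act_mul {g : ℕ} (γ₂ γ : Matrix (Fin g ⊕ Fin g) (Fin g ⊕ Fin g) ℤ)
    (τ : Matrix (Fin g) (Fin g) ℂ) (h : (den γ τ).det ≠ 0) :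
    act (γ₂ * γ) τ = act γ₂ (act γ τ) := by
  rw [act, den_mul γ₂ γ τ h, spa_num_mul γ₂ γ τ h, Matrix.mul_inv_rev]
  have h1 : den γ τ * (den γ τ)⁻¹ = 1 :=
    Matrix.mul_nonsing_inv _ (isUnit_iff_ne_zero.2 h)
  rw [Matrix.mul_assoc, ← Matrix.mul_assoc (den γ τ), h1, Matrix.one_mul]
  rfl

theorem den_one {g : ℕ} (τ : Matrix (Fin g) (Fin g) ℂ) :
    den (1 : Matrix (Fin g ⊕ Fin g) (Fin g ⊕ Fin g) ℤ) τ = 1 := by
  rw [den, ← Matrix.fromBlocks_one, Matrix.toBlocks_fromBlocks₂₁, Matrix.toBlocks_fromBlocks₂₂,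
    spa_map_zero, spa_map_one, Matrix.zero_mul, zero_add]

theorem act_one {g : ℕ} (τ : Matrix (Fin g) (Fin g) ℂ) :
    act (1 : Matrix (Fin g ⊕ Fin g) (Fin g ⊕ Fin g) ℤ) τ = τ := by
  rw [act, den_one, num, ← Matrix.fromBlocks_one, Matrix.toBlocks_fromBlocks₁₁,
    Matrix.toBlocks_fromBlocks₁₂, spa_map_zero, spa_map_one, Matrix.one_mul, add_zero, inv_one,
    Matrix.mul_one]

/-- criterion for block matrices -/
private lemma spa_crit {g : ℕ} {A B C D : Matrix (Fin g) (Fin g) ℤ}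
    (h1 : A * Bᵀ = B * Aᵀ) (h2 : A * Dᵀ - B * Cᵀ = 1) (h3 : C * Dᵀ = D * Cᵀ)
    (h4 : D * Aᵀ - C * Bᵀ = 1) :
    Matrix.fromBlocks A B C D ∈ Matrix.symplecticGroup (Fin g) ℤ := by
  rw [SymplecticGroup.mem_iff, Matrix.J, Matrix.fromBlocks_transpose,
    Matrix.fromBlocks_multiply, Matrix.fromBlocks_multiply, Matrix.fromBlocks_inj]
  simp only [Matrix.mul_zero, Matrix.mul_one, Matrix.mul_neg, zero_add, add_zero,
    Matrix.neg_mul]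
  refine ⟨?_, ?_, ?_, ?_⟩
  · rw [h1, add_neg_cancel]
  · have : B * Cᵀ + -(A * Dᵀ) = -(A * Dᵀ - B * Cᵀ) := by abel
    rw [this, h2]
  · rw [← h4, sub_eq_add_neg]
  · rw [h3, add_neg_cancel]

/-- The elementary matrices are symplectic. -/
theorem gen_symplectic {g : ℕ} {s : Matrix (Fin g ⊕ Fin g) (Fin g ⊕ Fin g) ℤ}
    (hs : IsGen g s) : s ∈ Matrix.symplecticGroup (Fin g) ℤ := by
  cases hs with
  | T S hS =>
    refine spa_crit ?_ ?_ ?_ ?_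
    · rw [hS, Matrix.transpose_one, Matrix.one_mul, Matrix.mul_one]
    · simp
    · simp
    · simp
  | U P Q h =>
    refine spa_crit ?_ ?_ ?_ ?_
    · simp
    · rw [Matrix.transpose_transpose, h, Matrix.zero_mul, sub_zero]
    · simp
    · rw [← Matrix.transpose_mul, h, Matrix.transpose_one, Matrix.zero_mul, sub_zero]
  | J k =>
    have he : e00 k * e00 k = e00 k := by simp [e00]
    have ht : (e00 k)ᵀ = e00 k := by simp [e00]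
    refine spa_crit ?_ ?_ ?_ ?_
    · simp only [Matrix.transpose_sub, Matrix.transpose_neg, Matrix.transpose_one, ht]
      noncomm_ring
    · simp only [Matrix.transpose_sub, Matrix.transpose_one, ht]
      have : (1 - e00 k) * (1 - e00 k) - -e00 k * e00 k =
        1 - 2 * e00 k + 2 * (e00 k * e00 k) := by noncomm_ring
      rw [this, he]; simp
    · simp only [Matrix.transpose_sub, Matrix.transpose_one, ht]
      noncomm_ring
    · simp only [Matrix.transpose_sub, Matrix.transpose_neg, Matrix.transpose_one, ht]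
      have : (1 - e00 k) * (1 - e00 k) - e00 k * -e00 k =
        1 - 2 * e00 k + 2 * (e00 k * e00 k) := by noncomm_ring
      rw [this, he]; simp

end MP6feb
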