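import Pool.Agent.Lib.MP_6febbd_ag.Defs

set_option autoImplicit false

open scoped Matrix.Norms.Elementwise Real
open Complex Matrix

noncomputable section

namespace MP6feb

/-- the identities between the blocks -/
private lemma sps_blocks {g : ℕ} {γ : Matrix (Fin g ⊕ Fin g) (Fin g ⊕ Fin g) ℤ}
    (hγ : γ ∈ Matrix.symplecticGroup (Fin g) ℤ) :
    γ.toBlocks₂₁ᵀ * γ.toBlocks₁₁ = γ.toBlocks₁₁ᵀ * γ.toBlocks₂₁ ∧
    γ.toBlocks₂₂ᵀ * γ.toBlocks₁₁ - γ.toBlocks₁₂ᵀ * γ.toBlocks₂₁ = 1 ∧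
    γ.toBlocks₁₁ᵀ * γ.toBlocks₂₂ - γ.toBlocks₂₁ᵀ * γ.toBlocks₁₂ = 1 ∧
    γ.toBlocks₂₂ᵀ * γ.toBlocks₁₂ = γ.toBlocks₁₂ᵀ * γ.toBlocks₂₂ := by
  have h := SymplecticGroup.mem_iff'.1 hγ
  set A := γ.toBlocks₁₁ with hA
  set B := γ.toBlocks₁₂ with hB
  set C := γ.toBlocks₂₁ with hC
  set D := γ.toBlocks₂₂ with hD
  have hg : γ = Matrix.fromBlocks A B C D := (Matrix.fromBlocks_toBlocks γ).symm
  rw [hg, Matrix.fromBlocks_transpose, Matrix.J, Matrix.fromBlocks_multiply,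
    Matrix.fromBlocks_multiply, Matrix.fromBlocks_inj] at h
  simp only [Matrix.mul_zero, Matrix.mul_one, Matrix.mul_neg, zero_add, add_zero,
    Matrix.neg_mul] at h
  obtain ⟨h1, h2, h3, h4⟩ := h
  refine ⟨?_, ?_, ?_, ?_⟩
  · have := sub_eq_zero.1 ((sub_eq_add_neg _ _).trans h1)
    exact this
  · rw [← h3, sub_eq_add_neg]
  · have h5 : -(C ᵀ * B + -(Aᵀ * D)) = 1 := by rw [h2, neg_neg]
    rw [← h5]; abel
  · exact sub_eq_zero.1 ((sub_eq_add_neg _ _).trans h4)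

/-- the basic identity -/
private lemma sps_key {g : ℕ} {A B C D S T : Matrix (Fin g) (Fin g) ℂ}
    (h1 : Cᵀ * A = Aᵀ * C) (h2 : Dᵀ * A - Bᵀ * C = 1) (h3 : Aᵀ * D - Cᵀ * B = 1)
    (h4 : Dᵀ * B = Bᵀ * D) :
    (S * Cᵀ + Dᵀ) * (A * T + B) - (S * Aᵀ + Bᵀ) * (C * T + D) = T - S := by
  have h5 : (S * Cᵀ + Dᵀ) * (A * T + B) - (S * Aᵀ + Bᵀ) * (C * T + D) =
      S * (Cᵀ * A - Aᵀ * C) * T - S * (Aᵀ * D - Cᵀ * B) + (Dᵀ * A - Bᵀ * C) * T +
        (Dᵀ * B - Bᵀ * D) := by noncomm_ring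
  rw [h5, h1, h2, h3, h4, sub_self, sub_self]
  simp only [Matrix.mul_zero, Matrix.zero_mul, Matrix.mul_one, Matrix.one_mul]
  abel

/-- real part of the hermitian form -/
private lemma sps_re {g : ℕ} {Y : Matrix (Fin g) (Fin g) ℝ} (hY : Y.PosDef)
    {v : Fin g → ℂ} (hv : v ≠ 0) :
    0 < (star v ⬝ᵥ (Y.map (fun x : ℝ => (x : ℂ)) *ᵥ v)).re := by
  have h1 : (star v ⬝ᵥ (Y.map (fun x : ℝ => (x : ℂ)) *ᵥ v)).re =
      star (fun i => (v i).re) ⬝ᵥ (Y *ᵥ fun i => (v i).re) +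
      star (fun i => (v i).im) ⬝ᵥ (Y *ᵥ fun i => (v i).im) := by
    simp only [dotProduct, Matrix.mulVec, Pi.star_apply, star_trivial, Matrix.map_apply,
      Complex.re_sum, ← Finset.sum_add_distrib, Finset.mul_sum]
    refine Finset.sum_congr rfl fun i _ => Finset.sum_congr rfl fun j _ => ?_
    simp only [Complex.star_def, Complex.mul_re, Complex.mul_im, Complex.conj_re,
      Complex.conj_im, Complex.ofReal_re, Complex.ofReal_im]
    ring
  rw [h1]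
  have h2 : ∀ w : Fin g → ℝ, 0 ≤ star w ⬝ᵥ (Y *ᵥ w) := fun w =>
    hY.posSemidef.dotProduct_mulVec_nonneg w
  have h3 : (fun i => (v i).re) ≠ 0 ∨ (fun i => (v i).im) ≠ 0 := by
    by_contra h
    push Not at h
    apply hv
    ext i
    apply Complex.ext
    · simpa using congrFun h.1 i
    · simpa using congrFun h.2 i
  rcases h3 with h | h
  · exact add_pos_of_pos_of_nonneg (hY.dotProduct_mulVec_pos h) (h2 _)
  · exact add_pos_of_nonneg_of_pos (h2 _) (hY.dotProduct_mulVec_pos h)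

/-- difference of a symmetric matrix and its conjugate transpose -/
private lemma sps_sub {g : ℕ} {T : Matrix (Fin g) (Fin g) ℂ} (hT : T.IsSymm) :
    T - Tᴴ = (2 * I) • ((T.map Complex.im).map (fun x : ℝ => (x : ℂ))) := by
  ext i j
  have h : T j i = T i j := by
    have := congrFun (congrFun hT i) j
    rwa [Matrix.transpose_apply] at this
  simp only [Matrix.sub_apply, Matrix.conjTranspose_apply, Matrix.smul_apply, Matrix.map_apply,
    smul_eq_mul, h, Complex.star_def]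
  rw [Complex.sub_conj]
  push_cast
  ring

/-- Symplectic matrices act on the Siegel space. Proof. Let `A, B, C, D` be the blocks,
`Y = Im τ`. From `γᵀ J γ = J`: `(Cτ̄+D)ᵀ(Aτ+B) - (Aτ̄+B)ᵀ(Cτ+D) = τ - τ̄ = 2iY` and
`(Cτ+D)ᵀ(Aτ+B) = (Aτ+B)ᵀ(Cτ+D)`. If `(Cτ+D)v = 0` then `v̄ᵀ(2iY)v = 0`, so `v = 0`
(split `v` into real and imaginary parts). The second identity gives symmetry of
`act γ τ`, the first one `(Cτ̄+D)ᵀ Im(act γ τ) (Cτ+D) = Y`, hence positivity. -/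
theorem act_mem_siegel {g : ℕ} {γ : Matrix (Fin g ⊕ Fin g) (Fin g ⊕ Fin g) ℤ}
    (hγ : γ ∈ Matrix.symplecticGroup (Fin g) ℤ) {τ : Matrix (Fin g) (Fin g) ℂ}
    (hτ : τ ∈ Siegel g) : act γ τ ∈ Siegel g ∧ (den γ τ).det ≠ 0 := by
  obtain ⟨hs, hpos⟩ := hτ
  obtain ⟨k1, k2, k3, k4⟩ := sps_blocks hγ
  set A := γ.toBlocks₁₁.map (Int.cast : ℤ → ℂ) with hA
  set B := γ.toBlocks₁₂.map (Int.cast : ℤ → ℂ) with hB
  set C := γ.toBlocks₂₁.map (Int.cast : ℤ → ℂ) with hC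
  set D := γ.toBlocks₂₂.map (Int.cast : ℤ → ℂ) with hD
  have hmul : ∀ X Z : Matrix (Fin g) (Fin g) ℤ, (Xᵀ * Z).map (Int.cast : ℤ → ℂ) =
      (X.map (Int.cast : ℤ → ℂ))ᵀ * Z.map (Int.cast : ℤ → ℂ) := by
    intro X Z
    have := Matrix.map_mul (L := Xᵀ) (M := Z) (f := Int.castRingHom ℂ)
    simpa [Matrix.transpose_map] using this
  have hsub : ∀ X Z : Matrix (Fin g) (Fin g) ℤ, (X - Z).map (Int.cast : ℤ → ℂ) =
      X.map (Int.cast : ℤ → ℂ) - Z.map (Int.cast : ℤ → ℂ) := by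
    intro X Z; ext i j; simp
  have hone : (1 : Matrix (Fin g) (Fin g) ℤ).map (Int.cast : ℤ → ℂ) = 1 := by
    ext i j; by_cases h : i = j <;> simp [h, Matrix.one_apply]
  have h1 : Cᵀ * A = Aᵀ * C := by
    have := congrArg (fun M : Matrix (Fin g) (Fin g) ℤ => M.map (Int.cast : ℤ → ℂ)) k1
    simpa only [hmul] using this
  have h2 : Dᵀ * A - Bᵀ * C = 1 := by
    have := congrArg (fun M : Matrix (Fin g) (Fin g) ℤ => M.map (Int.cast : ℤ → ℂ)) k2
    simpa only [hmul, hsub, hone] using this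
  have h3 : Aᵀ * D - Cᵀ * B = 1 := by
    have := congrArg (fun M : Matrix (Fin g) (Fin g) ℤ => M.map (Int.cast : ℤ → ℂ)) k3
    simpa only [hmul, hsub, hone] using this
  have h4 : Dᵀ * B = Bᵀ * D := by
    have := congrArg (fun M : Matrix (Fin g) (Fin g) ℤ => M.map (Int.cast : ℤ → ℂ)) k4
    simpa only [hmul] using this
  have hconj : ∀ X : Matrix (Fin g) (Fin g) ℤ, (X.map (Int.cast : ℤ → ℂ))ᴴ =
      (X.map (Int.cast : ℤ → ℂ))ᵀ := by
    intro X; ext i j; simp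
  have hM : den γ τ = C * τ + D := rfl
  have hN : num γ τ = A * τ + B := rfl
  set M := den γ τ with hMd
  set N := num γ τ with hNd
  have e1 : Mᴴ * N - Nᴴ * M = τ - τᴴ := by
    rw [hM, hN]
    simp only [Matrix.conjTranspose_add, Matrix.conjTranspose_mul]
    rw [hA, hB, hC, hD, hconj, hconj, hconj, hconj]
    exact sps_key h1 h2 h3 h4
  have e2 : Mᵀ * N = Nᵀ * M := by
    have : Mᵀ * N - Nᵀ * M = τ - τᵀ := by
      rw [hM, hN]
      simp only [Matrix.transpose_add, Matrix.transpose_mul]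
      exact sps_key h1 h2 h3 h4
    rw [hs, sub_self] at this
    exact sub_eq_zero.1 this
  have e3 := sps_sub hs
  have hdet : M.det ≠ 0 := by
    intro h0
    obtain ⟨v, hv, hv0⟩ := Matrix.exists_mulVec_eq_zero_iff.2 h0
    have f1 : star v ⬝ᵥ ((Mᴴ * N - Nᴴ * M) *ᵥ v) = 0 := by
      rw [Matrix.sub_mulVec, dotProduct_sub, ← Matrix.mulVec_mulVec, ← Matrix.mulVec_mulVec,
        hv0, Matrix.mulVec_zero, dotProduct_zero, sub_zero, Matrix.dotProduct_mulVec,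
        ← Matrix.star_mulVec, hv0, star_zero, zero_dotProduct]
    rw [e1, e3, Matrix.smul_mulVec, dotProduct_smul, smul_eq_mul] at f1
    have f2 := sps_re hpos hv
    rcases mul_eq_zero.1 f1 with h | h
    · exact absurd h (by simp)
    · rw [h] at f2; simp at f2
  refine ⟨?_, hdet⟩
  have hu : IsUnit M.det := isUnit_iff_ne_zero.2 hdet
  have hMi : M * M⁻¹ = 1 := Matrix.mul_nonsing_inv M hu
  have hiM : M⁻¹ * M = 1 := Matrix.nonsing_inv_mul M hu
  have hW : act γ τ = N * M⁻¹ := rfl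
  have hsymm : (act γ τ).IsSymm := by
    have f1 : (M⁻¹)ᵀ * (Mᵀ * N) * M⁻¹ = (M⁻¹)ᵀ * (Nᵀ * M) * M⁻¹ := by rw [e2]
    have f2 : (M⁻¹)ᵀ * Mᵀ = 1 := by rw [← Matrix.transpose_mul, hMi, Matrix.transpose_one]
    rw [← Matrix.mul_assoc, f2, Matrix.one_mul, Matrix.mul_assoc, Matrix.mul_assoc, hMi,
      Matrix.mul_one] at f1
    rw [Matrix.IsSymm, hW, Matrix.transpose_mul, ← f1]
  refine ⟨hsymm, ?_⟩
  have e4 := sps_sub hsymm
  have e5 : act γ τ - (act γ τ)ᴴ = (M⁻¹)ᴴ * (τ - τᴴ) * M⁻¹ := by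
    have f2 : (M⁻¹)ᴴ * Mᴴ = 1 := by
      rw [← Matrix.conjTranspose_mul, hMi, Matrix.conjTranspose_one]
    rw [← e1, hW, Matrix.conjTranspose_mul, Matrix.mul_sub, Matrix.sub_mul, ← Matrix.mul_assoc,
      f2, Matrix.one_mul, Matrix.mul_assoc (M⁻¹)ᴴ (Nᴴ * M), Matrix.mul_assoc Nᴴ, hMi,
      Matrix.mul_one]
  rw [e4, e3] at e5
  have h2I : (2 * I : ℂ) ≠ 0 := by simp
  have e6 : ((act γ τ).map Complex.im).map (fun x : ℝ => (x : ℂ)) =
      (M⁻¹)ᴴ * ((τ.map Complex.im).map (fun x : ℝ => (x : ℂ))) * M⁻¹ := by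
    rw [Matrix.mul_smul, Matrix.smul_mul] at e5
    exact smul_right_injective _ h2I e5
  refine Matrix.PosDef.of_dotProduct_mulVec_pos ?_ ?_
  · ext i j
    have h : act γ τ j i = act γ τ i j := by
      have := congrFun (congrFun hsymm i) j
      rwa [Matrix.transpose_apply] at this
    simp [Matrix.conjTranspose_apply, h]
  · intro x hx
    set w : Fin g → ℂ := M⁻¹ *ᵥ (fun i => (x i : ℂ)) with hw
    have hw0 : w ≠ 0 := by
      intro h0
      apply hx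
      have : M *ᵥ w = 0 := by rw [h0, Matrix.mulVec_zero]
      rw [hw, Matrix.mulVec_mulVec, hMi, Matrix.one_mulVec] at this
      ext i
      have := congrFun this i
      simpa using this
    have f1 := sps_re hpos hw0
    have f2 : star w ⬝ᵥ ((τ.map Complex.im).map (fun x : ℝ => (x : ℂ)) *ᵥ w) =
        ((star x ⬝ᵥ ((act γ τ).map Complex.im *ᵥ x) : ℝ) : ℂ) := by
      have f3 : star w ⬝ᵥ ((τ.map Complex.im).map (fun x : ℝ => (x : ℂ)) *ᵥ w) =
          star (fun i => (x i : ℂ)) ⬝ᵥ (((act γ τ).map Complex.im).map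
            (fun x : ℝ => (x : ℂ)) *ᵥ (fun i => (x i : ℂ))) := by
        rw [e6, hw, Matrix.star_mulVec, ← Matrix.dotProduct_mulVec, Matrix.mulVec_mulVec,
          Matrix.mulVec_mulVec, Matrix.mul_assoc]
      rw [f3]
      simp only [dotProduct, Matrix.mulVec, Pi.star_apply, star_trivial, Matrix.map_apply,
        Complex.star_def, Complex.conj_ofReal]
      push_cast
      rfl
    rw [f2, Complex.ofReal_re] at f1
    exact f1

end MP6feb
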