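import Pool.Agent.Lib.MP_6febbd_ag.Defs
import Pool.Agent.Lib.MP_6febbd_ag.ThC

set_option autoImplicit false

open scoped Matrix.Norms.Elementwise Real
open Complex Matrix

noncomputable section

namespace MP6feb

/-- One variable inversion with characteristics: for `Im t > 0`, `v : ℂ`, `a : ℝ`
`∑_m exp(π i t (m+a)² + 2 π i (m+a) v) =
  (-i t)^(-1/2) ∑_k exp(-π i (k - v)²/t + 2 π i k a)`.
Proof: Mathlib `jacobiTheta₂_functional_equation` with `z = t a + v`:
the left side is `exp(π i t a² + 2 π i a v) · jacobiTheta₂ (t a + v) t`. -/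
theorem inv_one (t v : ℂ) (a : ℝ) (ht : 0 < t.im) :
    ∑' m : ℤ, cexp (π * I * t * ((m : ℂ) + a) ^ 2 + 2 * π * I * ((m : ℂ) + a) * v) =
      1 / (-I * t) ^ (1 / 2 : ℂ) *
        ∑' k : ℤ, cexp (-(π * I * ((k : ℂ) - v) ^ 2 / t) + 2 * π * I * (k : ℂ) * a) := by
  have ht0 : t ≠ 0 := by
    intro h
    rw [h] at ht
    exact lt_irrefl _ ht
  have h1 : ∑' m : ℤ, cexp (π * I * t * ((m : ℂ) + a) ^ 2 + 2 * π * I * ((m : ℂ) + a) * v) =
      cexp (π * I * t * (a : ℂ) ^ 2 + 2 * π * I * a * v) * jacobiTheta₂ (t * a + v) t := by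
    unfold jacobiTheta₂
    rw [← tsum_mul_left]
    refine tsum_congr fun m => ?_
    unfold jacobiTheta₂_term
    rw [← Complex.exp_add]
    congr 1
    ring
  rw [h1, jacobiTheta₂_functional_equation]
  have h2 : ∑' k : ℤ, cexp (-(π * I * ((k : ℂ) - v) ^ 2 / t) + 2 * π * I * (k : ℂ) * a) =
      cexp (-(π * I * v ^ 2 / t)) * jacobiTheta₂ ((t * a + v) / t) (-1 / t) := by
    unfold jacobiTheta₂
    rw [← tsum_mul_left]
    refine tsum_congr fun k => ?_
    unfold jacobiTheta₂_term
    rw [← Complex.exp_add]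
    congr 1
    field_simp
    ring
  rw [h2]
  have h3 : cexp (π * I * t * (a : ℂ) ^ 2 + 2 * π * I * a * v) *
      cexp (-π * I * (t * a + v) ^ 2 / t) = cexp (-(π * I * v ^ 2 / t)) := by
    rw [← Complex.exp_add]
    congr 1
    field_simp
    ring
  rw [← h3]
  ring

private theorem e00_mul {k : ℕ} (τ : Matrix (Fin (k + 1)) (Fin (k + 1)) ℂ)
    (i j : Fin (k + 1)) :
    ((e00 k).map (Int.cast : ℤ → ℂ) * τ) i j = if i = 0 then τ 0 j else 0 := by
  rw [Matrix.mul_apply]
  by_cases hi : i = 0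
  · subst hi
    rw [if_pos rfl, Finset.sum_eq_single 0]
    · simp [e00]
    · intro l _ hl
      simp [e00, hl.symm]
    · intro h
      exact absurd (Finset.mem_univ _) h
  · rw [if_neg hi]
    refine Finset.sum_eq_zero fun l _ => ?_
    have h : ¬ (0 : Fin (k + 1)) = i := fun h => hi h.symm
    simp [e00, h]

private theorem den_sJ {k : ℕ} (τ : Matrix (Fin (k + 1)) (Fin (k + 1)) ℂ)
    (i j : Fin (k + 1)) :
    den (sJ k) τ i j = if i = 0 then τ 0 j else (if i = j then 1 else 0) := by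
  unfold den sJ
  rw [Matrix.toBlocks_fromBlocks₂₁, Matrix.toBlocks_fromBlocks₂₂, Matrix.add_apply, e00_mul,
    Matrix.map_apply, Matrix.sub_apply, Matrix.one_apply]
  unfold e00
  rw [Matrix.single_apply]
  by_cases hi : i = 0
  · subst hi
    rw [if_pos rfl, if_pos rfl]
    by_cases hj : (0 : Fin (k + 1)) = j
    · simp [hj.symm]
    · simp [hj]
  · have h : ¬ (0 : Fin (k + 1)) = i := fun h => hi h.symm
    rw [if_neg hi, if_neg hi]
    by_cases hj : i = j
    · simp [h, hj.symm]
    · simp [h, hj]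

private theorem num_sJ {k : ℕ} (τ : Matrix (Fin (k + 1)) (Fin (k + 1)) ℂ)
    (i j : Fin (k + 1)) :
    num (sJ k) τ i j = if i = 0 then (if j = 0 then -1 else 0) else τ i j := by
  unfold num sJ
  rw [Matrix.toBlocks_fromBlocks₁₁, Matrix.toBlocks_fromBlocks₁₂, Matrix.add_apply]
  have h1 : (((1 : Matrix (Fin (k + 1)) (Fin (k + 1)) ℤ) - e00 k).map (Int.cast : ℤ → ℂ) * τ) =
      τ - (e00 k).map (Int.cast : ℤ → ℂ) * τ := by
    have h2 : ((1 : Matrix (Fin (k + 1)) (Fin (k + 1)) ℤ) - e00 k).map (Int.cast : ℤ → ℂ) =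
        1 - (e00 k).map (Int.cast : ℤ → ℂ) := by
      rw [Matrix.map_sub]
      · rw [Matrix.map_one _ Int.cast_zero Int.cast_one]
      · intro x y
        exact Int.cast_sub x y
    rw [h2, Matrix.sub_mul, Matrix.one_mul]
  rw [h1, Matrix.sub_apply, e00_mul, Matrix.map_apply, Matrix.neg_apply]
  unfold e00
  rw [Matrix.single_apply]
  by_cases hi : i = 0
  · subst hi
    rw [if_pos rfl, if_pos rfl]
    by_cases hj : j = 0
    · simp [hj]
    · have h : ¬ (0 : Fin (k + 1)) = j := fun h => hj h.symm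
      simp [hj, h]
  · have h : ¬ (0 : Fin (k + 1)) = i := fun h => hi h.symm
    rw [if_neg hi, if_neg hi]
    simp [h]

private theorem det_den_sJ {k : ℕ} (τ : Matrix (Fin (k + 1)) (Fin (k + 1)) ℂ) :
    (den (sJ k) τ).det = τ 0 0 := by
  have hup : (den (sJ k) τ).BlockTriangular id := by
    intro i j hij
    have hij' : j < i := hij
    rw [den_sJ, if_neg, if_neg]
    · intro h
      rw [h] at hij'
      exact lt_irrefl _ hij'
    · intro h
      rw [h] at hij'
      exact absurd hij' (by simp)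
  rw [Matrix.det_of_isUpperTriangular hup, Fin.prod_univ_succ]
  rw [den_sJ, if_pos rfl]
  have h : ∀ i : Fin k, den (sJ k) τ i.succ i.succ = 1 := by
    intro i
    rw [den_sJ, if_neg (Fin.succ_ne_zero i), if_pos rfl]
  rw [Finset.prod_congr rfl fun i _ => h i, Finset.prod_const_one, mul_one]

/-- Value of `act (sJ k) τ`: `τ'_00 = -1/τ_00`, `τ'_0j = τ_0j/τ_00`, `τ'_i0 = τ_i0/τ_00`,
`τ'_ij = τ_ij - τ_i0 τ_0j / τ_00` for `i, j` different from `0`; determinant of the
denominator. -/
theorem act_sJ {k : ℕ} {τ : Matrix (Fin (k + 1)) (Fin (k + 1)) ℂ} (h : τ 0 0 ≠ 0) :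
    (act (sJ k) τ) 0 0 = -1 / τ 0 0 ∧
    (∀ j : Fin k, (act (sJ k) τ) 0 j.succ = τ 0 j.succ / τ 0 0) ∧
    (∀ i : Fin k, (act (sJ k) τ) i.succ 0 = τ i.succ 0 / τ 0 0) ∧
    (∀ i j : Fin k, (act (sJ k) τ) i.succ j.succ =
      τ i.succ j.succ - τ i.succ 0 * τ 0 j.succ / τ 0 0) ∧
    (den (sJ k) τ).det = τ 0 0 := by
  set M : Matrix (Fin (k + 1)) (Fin (k + 1)) ℂ := Matrix.of fun i j =>
    if i = 0 then (if j = 0 then -1 / τ 0 0 else τ 0 j / τ 0 0)
    else (if j = 0 then τ i 0 / τ 0 0 else τ i j - τ i 0 * τ 0 j / τ 0 0) with hM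
  have hdet := det_den_sJ τ
  have hmul : M * den (sJ k) τ = num (sJ k) τ := by
    refine Matrix.ext fun i j => ?_
    rw [Matrix.mul_apply, num_sJ, Fin.sum_univ_succ]
    have hs : ∑ l : Fin k, M i l.succ * den (sJ k) τ l.succ j =
        if j = 0 then 0 else M i j := by
      by_cases hj : j = 0
      · rw [if_pos hj]
        refine Finset.sum_eq_zero fun l _ => ?_
        rw [den_sJ, if_neg (Fin.succ_ne_zero l), if_neg, mul_zero]
        rw [hj]
        exact Fin.succ_ne_zero l
      · rw [if_neg hj]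
        obtain ⟨j', rfl⟩ := Fin.exists_succ_eq.2 hj
        rw [Finset.sum_eq_single j']
        · rw [den_sJ, if_neg (Fin.succ_ne_zero j'), if_pos rfl, mul_one]
        · intro l _ hl
          rw [den_sJ, if_neg (Fin.succ_ne_zero l), if_neg, mul_zero]
          intro h2
          exact hl (Fin.succ_injective k h2)
        · intro h2
          exact absurd (Finset.mem_univ _) h2
    rw [hs, den_sJ, if_pos rfl]
    by_cases hi : i = 0
    · by_cases hj : j = 0
      · simp only [hM, Matrix.of_apply, hi, hj, if_true]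
        field_simp
        simp
      · simp only [hM, Matrix.of_apply, hi, hj, if_true, if_false]
        field_simp
        ring
    · by_cases hj : j = 0
      · simp only [hM, Matrix.of_apply, hi, hj, if_true, if_false]
        field_simp
        simp
      · simp only [hM, Matrix.of_apply, hi, hj, if_true, if_false]
        field_simp
        ring
  have hact : act (sJ k) τ = M := by
    unfold act
    rw [← hmul, Matrix.mul_assoc, Matrix.mul_nonsing_inv _ (by rw [hdet]; exact h.isUnit),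
      Matrix.mul_one]
  rw [hact]
  refine ⟨?_, ?_, ?_, ?_, hdet⟩
  · simp only [hM, Matrix.of_apply, if_true]
  · intro j
    simp only [hM, Matrix.of_apply, if_true, Fin.succ_ne_zero, if_false]
  · intro i
    simp only [hM, Matrix.of_apply, if_true, Fin.succ_ne_zero, if_false]
  · intro i j
    simp only [hM, Matrix.of_apply, Fin.succ_ne_zero, if_false]

end MP6feb
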