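import Pool.Agent.Lib.MP_6febbd_ag.Defs
import Pool.Agent.Lib.MP_6febbd_ag.ThC
import Pool.Agent.Lib.MP_6febbd_ag.ThJa

set_option autoImplicit false

open scoped Matrix.Norms.Elementwise Real
open Complex Matrix

noncomputable section

namespace MP6feb

private def splitE (k : ℕ) : (Fin k → ℤ) × ℤ ≃ (Fin (k + 1) → ℤ) where
  toFun p := Fin.cons p.2 p.1
  invFun m := (fun i => m i.succ, m 0)
  left_inv p := by
    refine Prod.ext ?_ ?_
    · funext i
      exact Fin.cons_succ (α := fun _ => ℤ) p.2 p.1 i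
    · exact Fin.cons_zero (α := fun _ => ℤ) p.2 p.1
  right_inv m := by
    funext i
    refine Fin.cases ?_ (fun j => ?_) i
    · exact Fin.cons_zero _ _
    · exact Fin.cons_succ _ _ j

private theorem th_split {k : ℕ} (a b : Fin (k + 1) → ℝ)
    {τ : Matrix (Fin (k + 1)) (Fin (k + 1)) ℂ} (hτ : τ ∈ Siegel (k + 1)) :
    th a b τ = ∑' m' : Fin k → ℤ, ∑' m0 : ℤ, thTerm a b τ (Fin.cons m0 m') := by
  obtain ⟨c, hc, hP⟩ := exists_posIm hτ
  have hs := summable_thTerm hc a b hP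
  unfold th
  rw [← (splitE k).tsum_eq]
  have hs2 : Summable fun p : (Fin k → ℤ) × ℤ => thTerm a b τ (splitE k p) :=
    (splitE k).summable_iff.2 hs
  exact hs2.tsum_prod

private theorem qf_split {k : ℕ} (σ : Matrix (Fin (k + 1)) (Fin (k + 1)) ℂ)
    (w : Fin (k + 1) → ℂ) :
    qf σ w = σ 0 0 * w 0 ^ 2 + w 0 * (∑ j : Fin k, σ 0 j.succ * w j.succ) +
      w 0 * (∑ i : Fin k, σ i.succ 0 * w i.succ) +
      ∑ i : Fin k, ∑ j : Fin k, w i.succ * σ i.succ j.succ * w j.succ := by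
  unfold qf
  rw [Fin.sum_univ_succ, Fin.sum_univ_succ, Finset.mul_sum, Finset.mul_sum]
  have h1 : ∑ i : Fin k, ∑ j, w i.succ * σ i.succ j * w j =
      ∑ i : Fin k, w 0 * (σ i.succ 0 * w i.succ) +
        ∑ i : Fin k, ∑ j : Fin k, w i.succ * σ i.succ j.succ * w j.succ := by
    rw [← Finset.sum_add_distrib]
    refine Finset.sum_congr rfl fun i _ => ?_
    rw [Fin.sum_univ_succ]
    ring
  have h2 : ∑ j : Fin k, w 0 * σ 0 j.succ * w j.succ =
      ∑ j : Fin k, w 0 * (σ 0 j.succ * w j.succ) :=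
    Finset.sum_congr rfl fun j _ => by ring
  rw [h1, h2]
  ring

/-- Partial inversion formula. Proof. Write `m = (m₀, m')` (`Fin.consEquiv`,
`tsum` over a product, summability from `summable_thTerm` on both sides: `τ` and
`act (sJ k) τ` satisfy `PosIm`; for the latter it is enough to know summability of the double
series, which may be obtained from the statement that it lies in the Siegel space). For fixed
`m'` put `u = ∑_{j>0} τ_0j (m_j + a_j)` and apply `inv_one` to the sum over `m₀` in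
`th a♭ b♭ τ`, where `a♭ = (b₀, a')`, `b♭ = (-a₀, b')`. With `θ[α,β](τ)`, `α = a♭`, `β = b♭`:
sum over `m₀` equals `(-iτ₀₀)^(-1/2) exp(-π i u²/τ₀₀ + ...)` times the sum over `k` of
`exp(π i τ'₀₀ (k - β₀)² + 2 π i (k - β₀)(∑ τ'_0j (m_j+a_j)) + 2 π i k α₀)`, i.e. the
characteristic `(-β₀, α₀) = (a₀, b₀)` of `τ' = act (sJ k) τ`, up to the factor
`exp(2 π i α₀ β₀) = exp(-2 π i a₀ b₀)`. -/
theorem th_inversion {k : ℕ} (a b : Fin (k + 1) → ℝ)
    {τ : Matrix (Fin (k + 1)) (Fin (k + 1)) ℂ} (hτ : τ ∈ Siegel (k + 1))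
    (hτ' : act (sJ k) τ ∈ Siegel (k + 1)) :
    th a b (act (sJ k) τ) =
      (-I * τ 0 0) ^ (1 / 2 : ℂ) * cexp (2 * π * I * (a 0 : ℂ) * (b 0 : ℂ)) *
        th (Function.update a 0 (b 0)) (Function.update b 0 (-(a 0))) τ := by
  have him : 0 < (τ 0 0).im := by
    have h := hτ.2.diag_pos (i := (0 : Fin (k + 1)))
    rw [Matrix.map_apply] at h
    exact h
  have ht0 : τ 0 0 ≠ 0 := by
    intro h
    rw [h] at him
    exact lt_irrefl _ him
  obtain ⟨a00, a0j, ai0, aij, _⟩ := act_sJ ht0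
  have hcp : (-I * τ 0 0) ^ (1 / 2 : ℂ) ≠ 0 := by
    rw [Ne, Complex.cpow_eq_zero_iff]
    rintro ⟨h1, _⟩
    rcases mul_eq_zero.1 h1 with h2 | h2
    · exact Complex.I_ne_zero (neg_eq_zero.1 h2)
    · exact ht0 h2
  rw [th_split a b hτ', th_split _ _ hτ, ← tsum_mul_left]
  refine tsum_congr fun m' => ?_
  set u : ℂ := ∑ j : Fin k, τ 0 j.succ * ((m' j : ℂ) + a j.succ) with hu
  set Q : ℂ := ∑ i : Fin k, ∑ j : Fin k,
    ((m' i : ℂ) + a i.succ) * τ i.succ j.succ * ((m' j : ℂ) + a j.succ) with hQ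
  set B : ℂ := ∑ i : Fin k, ((m' i : ℂ) + a i.succ) * (b i.succ : ℂ) with hB
  have hinv := inv_one (τ 0 0) (u - a 0) (b 0) him
  have hleft : ∀ m0 : ℤ, thTerm (Function.update a 0 (b 0)) (Function.update b 0 (-(a 0))) τ
      (Fin.cons m0 m') = cexp (π * I * Q + 2 * π * I * B) *
        cexp (π * I * τ 0 0 * ((m0 : ℂ) + b 0) ^ 2 +
          2 * π * I * ((m0 : ℂ) + b 0) * (u - a 0)) := by
    intro m0
    unfold thTerm
    rw [← Complex.exp_add, qf_split, Fin.sum_univ_succ]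
    congr 1
    simp only [Fin.cons_zero, Fin.cons_succ, Function.update_self, Fin.succ_ne_zero, ne_eq,
      not_false_eq_true, Function.update_of_ne]
    have h1 : ∑ i : Fin k, τ i.succ 0 * ((m' i : ℂ) + a i.succ) = u :=
      Finset.sum_congr rfl fun i _ => by rw [hτ.1.apply 0 i.succ]
    rw [h1, ← hu, ← hQ, ← hB]
    push_cast
    ring
  have hright : ∀ m0 : ℤ, thTerm a b (act (sJ k) τ) (Fin.cons m0 m') =
      (cexp (π * I * Q + 2 * π * I * B) * cexp (2 * π * I * (a 0 : ℂ) * (b 0 : ℂ))) *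
        cexp (-(π * I * ((m0 : ℂ) - (u - a 0)) ^ 2 / τ 0 0) +
          2 * π * I * (m0 : ℂ) * b 0) := by
    intro m0
    unfold thTerm
    rw [← Complex.exp_add, ← Complex.exp_add, qf_split, Fin.sum_univ_succ]
    congr 1
    simp only [Fin.cons_zero, Fin.cons_succ]
    have h1 : ∑ j : Fin k, act (sJ k) τ 0 j.succ * ((m' j : ℂ) + a j.succ) = u / τ 0 0 := by
      rw [hu, Finset.sum_div]
      refine Finset.sum_congr rfl fun j _ => ?_
      rw [a0j]
      ring
    have h2 : ∑ i : Fin k, act (sJ k) τ i.succ 0 * ((m' i : ℂ) + a i.succ) = u / τ 0 0 := by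
      rw [hu, Finset.sum_div]
      refine Finset.sum_congr rfl fun i _ => ?_
      rw [ai0, hτ.1.apply 0 i.succ]
      ring
    have h3 : ∑ i : Fin k, ∑ j : Fin k, ((m' i : ℂ) + a i.succ) *
        act (sJ k) τ i.succ j.succ * ((m' j : ℂ) + a j.succ) = Q - u ^ 2 / τ 0 0 := by
      rw [hQ, sq, hu, Finset.sum_mul_sum, Finset.sum_div, ← Finset.sum_sub_distrib]
      refine Finset.sum_congr rfl fun i _ => ?_
      rw [Finset.sum_div, ← Finset.sum_sub_distrib]
      refine Finset.sum_congr rfl fun j _ => ?_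
      rw [aij, hτ.1.apply 0 i.succ]
      ring
    rw [h1, h2, h3, a00, ← hB]
    field_simp
    ring
  rw [tsum_congr hright, tsum_mul_left, tsum_congr hleft, tsum_mul_left, hinv]
  generalize (∑' m : ℤ, cexp (-(π * I * ((m : ℂ) - (u - a 0)) ^ 2 / τ 0 0) +
    2 * π * I * (m : ℂ) * b 0)) = S
  generalize cexp (π * I * Q + 2 * π * I * B) = R1
  generalize cexp (2 * π * I * (a 0 : ℂ) * (b 0 : ℂ)) = R2
  field_simp

end MP6feb
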