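import Pool.Agent.Lib.MP_6febbd_ag.Defs
import Pool.Agent.Lib.MP_6febbd_ag.ThJa
import Pool.Agent.Lib.MP_6febbd_ag.ThJ
import Pool.Agent.Lib.MP_6febbd_ag.Mv0
import Pool.Agent.Lib.MP_6febbd_ag.SpS
import Pool.Agent.Lib.MP_6febbd_ag.SpA

set_option autoImplicit false

open scoped Matrix.Norms.Elementwise Real
open Complex Matrix

noncomputable section

namespace MP6feb

/-- Replace the two values in the first coordinate. -/
private def upJ {k : ℕ} {R : Type} (f : Fin (k + 1) ⊕ Fin (k + 1) → R) (a b : R) :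
    Fin (k + 1) ⊕ Fin (k + 1) → R :=
  Sum.elim (fun i => if i = 0 then a else f (Sum.inl i))
    (fun i => if i = 0 then b else f (Sum.inr i))

private lemma upJ_l0 {k : ℕ} {R : Type} (f : Fin (k + 1) ⊕ Fin (k + 1) → R) (a b : R) :
    upJ f a b (Sum.inl 0) = a := by simp [upJ]

private lemma upJ_r0 {k : ℕ} {R : Type} (f : Fin (k + 1) ⊕ Fin (k + 1) → R) (a b : R) :
    upJ f a b (Sum.inr 0) = b := by simp [upJ]

private lemma upJ_l {k : ℕ} {R : Type} (f : Fin (k + 1) ⊕ Fin (k + 1) → R) (a b : R)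
    {i : Fin (k + 1)} (h : i ≠ 0) : upJ f a b (Sum.inl i) = f (Sum.inl i) := by simp [upJ, h]

private lemma upJ_r {k : ℕ} {R : Type} (f : Fin (k + 1) ⊕ Fin (k + 1) → R) (a b : R)
    {i : Fin (k + 1)} (h : i ≠ 0) : upJ f a b (Sum.inr i) = f (Sum.inr i) := by simp [upJ, h]

private lemma upJ_ls {k : ℕ} {R : Type} (f : Fin (k + 1) ⊕ Fin (k + 1) → R) (a b : R)
    (i : Fin k) : upJ f a b (Sum.inl i.succ) = f (Sum.inl i.succ) :=
  upJ_l f a b (Fin.succ_ne_zero i)

private lemma upJ_rs {k : ℕ} {R : Type} (f : Fin (k + 1) ⊕ Fin (k + 1) → R) (a b : R)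
    (i : Fin k) : upJ f a b (Sum.inr i.succ) = f (Sum.inr i.succ) :=
  upJ_r f a b (Fin.succ_ne_zero i)

/-- The permutation of the characteristics of the partial inversion. -/
private def eJ (k n : ℕ) : (Fin (k + 1) ⊕ Fin (k + 1) → ZMod n) ≃
    (Fin (k + 1) ⊕ Fin (k + 1) → ZMod n) where
  toFun x := upJ x (x (Sum.inr 0)) (-x (Sum.inl 0))
  invFun y := upJ y (-y (Sum.inr 0)) (y (Sum.inl 0))
  left_inv x := by
    funext s
    rcases s with i | i
    · by_cases h : i = 0
      · subst h; simp only [upJ_l0, upJ_r0, neg_neg]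
      · simp only [upJ_l _ _ _ h]
    · by_cases h : i = 0
      · subst h; simp only [upJ_l0, upJ_r0]
      · simp only [upJ_r _ _ _ h]
  right_inv y := by
    funext s
    rcases s with i | i
    · by_cases h : i = 0
      · subst h; simp only [upJ_l0, upJ_r0]
      · simp only [upJ_l _ _ _ h]
    · by_cases h : i = 0
      · subst h; simp only [upJ_l0, upJ_r0, neg_neg]
      · simp only [upJ_r _ _ _ h]

/-- Integral representatives of `eJ x`. -/
private def rJ {k n : ℕ} (x : Fin (k + 1) ⊕ Fin (k + 1) → ZMod n) :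
    Fin (k + 1) ⊕ Fin (k + 1) → ℤ :=
  upJ (fun s => ((x s).val : ℤ)) ((x (Sum.inr 0)).val : ℤ) (-((x (Sum.inl 0)).val : ℤ))

private lemma rJ_cast {k n : ℕ} [NeZero n] (x : Fin (k + 1) ⊕ Fin (k + 1) → ZMod n) :
    (fun j => ((rJ x j : ℤ) : ZMod n)) = eJ k n x := by
  funext s
  change ((rJ x s : ℤ) : ZMod n) = upJ x (x (Sum.inr 0)) (-x (Sum.inl 0)) s
  unfold rJ
  rcases s with i | i
  · by_cases h : i = 0
    · subst h; simp [upJ_l0]
    · simp [upJ_l _ _ _ h]
  · by_cases h : i = 0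
    · subst h; simp [upJ_r0]
    · simp [upJ_r _ _ _ h]

/-- Partial inversion moves the family: `e x` replaces `(A₀, B₀)` by `(B₀, -A₀)`
(`th_inversion`), `d` replaces `(c'₀, c''₀)` by `(-c''₀, c'₀)`; the power `24 n²` of
`(-I τ₀₀)^(1/2)` is `τ₀₀^(12 n²)` because `4 ∣ 12 n²`. -/
theorem move_J {k n : ℕ} [NeZero n] : Move (k + 1) n (sJ k) := by
  have hn0 : (n : ℝ) ≠ 0 := by exact_mod_cast NeZero.ne n
  have hnC : (n : ℂ) ≠ 0 := by exact_mod_cast NeZero.ne n
  refine ⟨eJ k n, ?_, ?_⟩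
  · intro x τ hτ
    have hs := act_mem_siegel (gen_symplectic (IsGen.J k)) hτ
    have h00 : τ 0 0 ≠ 0 := by
      intro h0
      have hpos := hτ.2.diag_pos (i := (0 : Fin (k + 1)))
      simp [h0] at hpos
    have hdet := (act_sJ h00).2.2.2.2
    rw [hdet]
    unfold TX thx
    rw [th_inversion _ _ hτ hs.1, mul_pow, mul_pow]
    have h1 : ((-I * τ 0 0) ^ (1 / 2 : ℂ)) ^ (24 * n ^ 2) = τ 0 0 ^ (12 * n ^ 2) := by
      rw [show 24 * n ^ 2 = 2 * (12 * n ^ 2) by ring, pow_mul]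
      have : ((-I * τ 0 0) ^ (1 / 2 : ℂ)) ^ 2 = -I * τ 0 0 := by
        rw [← Complex.cpow_nat_mul]
        norm_num
      rw [this, mul_pow]
      have hI : (-I) ^ (12 * n ^ 2) = (1 : ℂ) := by
        rw [show 12 * n ^ 2 = 4 * (3 * n ^ 2) by ring, pow_mul]
        have : (-I) ^ 4 = (1 : ℂ) := by
          rw [Even.neg_pow (by decide)]
          exact I_pow_four
        rw [this, one_pow]
      rw [hI, one_mul]
    have h2 : cexp (2 * π * I * (((((x (Sum.inl 0)).val : ℝ) / n : ℝ)) : ℂ) *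
        (((((x (Sum.inr 0)).val : ℝ) / n : ℝ)) : ℂ)) ^ (24 * n ^ 2) = 1 := by
      rw [← Complex.exp_nat_mul]
      rw [Complex.exp_eq_one_iff]
      refine ⟨24 * (x (Sum.inl 0)).val * (x (Sum.inr 0)).val, ?_⟩
      push_cast
      field_simp
    rw [h1, h2, mul_one]
    congr 1
    have key := TX_intCast (n := n) (fun i => rJ x (Sum.inl i)) (fun i => rJ x (Sum.inr i)) τ
    have hL : (fun i => ((rJ x (Sum.inl i) : ℤ) : ℝ) / n) =
        Function.update (fun i => ((x (Sum.inl i)).val : ℝ) / n) 0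
          (((x (Sum.inr 0)).val : ℝ) / n) := by
      funext i
      unfold rJ
      by_cases h : i = 0
      · subst h; rw [upJ_l0, Function.update_self]; push_cast; ring
      · rw [upJ_l _ _ _ h, Function.update_of_ne h]; push_cast; ring
    have hR : (fun i => ((rJ x (Sum.inr i) : ℤ) : ℝ) / n) =
        Function.update (fun i => ((x (Sum.inr i)).val : ℝ) / n) 0
          (-(((x (Sum.inl 0)).val : ℝ) / n)) := by
      funext i
      unfold rJ
      by_cases h : i = 0
      · subst h; rw [upJ_r0, Function.update_self]; push_cast; ring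
      · rw [upJ_r _ _ _ h, Function.update_of_ne h]; push_cast; ring
    rw [hL, hR] at key
    rw [key]
    have hE : (Sum.elim (fun i => ((rJ x (Sum.inl i) : ℤ) : ZMod n))
        (fun i => ((rJ x (Sum.inr i) : ℤ) : ZMod n))) = eJ k n x := by
      rw [← rJ_cast]
      funext s
      rcases s with i | i <;> rfl
    rw [hE]
    rfl
  · intro c hc
    refine ⟨upJ c (-c (Sum.inr 0)) (c (Sum.inl 0)), ?_, ?_⟩
    · obtain ⟨s, hs⟩ := hc
      rcases s with i | i
      · by_cases h : i = 0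
        · subst h
          exact ⟨Sum.inr 0, by rw [upJ_r0]; exact hs⟩
        · exact ⟨Sum.inl i, by rw [upJ_l _ _ _ h]; exact hs⟩
      · by_cases h : i = 0
        · subst h
          exact ⟨Sum.inl 0, by rw [upJ_l0, dvd_neg]; exact hs⟩
        · exact ⟨Sum.inr i, by rw [upJ_r _ _ _ h]; exact hs⟩
    · intro x
      rw [← rJ_cast, lc_intCast]
      set d : Fin (k + 1) ⊕ Fin (k + 1) → ℤ := upJ c (-c (Sum.inr 0)) (c (Sum.inl 0)) with hd
      have hsum1 : (∑ j, (c j : ℝ) * (rJ x j : ℝ)) = ∑ j, (d j : ℝ) * ((x j).val : ℝ) := by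
        rw [Fintype.sum_sum_type, Fintype.sum_sum_type, Fin.sum_univ_succ, Fin.sum_univ_succ,
          Fin.sum_univ_succ, Fin.sum_univ_succ]
        unfold rJ
        rw [hd]
        simp only [upJ_l0, upJ_r0, upJ_ls, upJ_rs]
        push_cast
        ring
      have hsum2 : (∑ i, (c (Sum.inl i) : ℝ) * (c (Sum.inr i) : ℝ)) =
          (∑ i, (d (Sum.inl i) : ℝ) * (d (Sum.inr i) : ℝ)) +
            2 * ((c (Sum.inl 0) : ℝ) * (c (Sum.inr 0) : ℝ)) := by
        rw [Fin.sum_univ_succ, Fin.sum_univ_succ, hd]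
        simp only [upJ_l0, upJ_r0, upJ_ls, upJ_rs]
        push_cast
        ring
      rw [hsum1, hsum2]
      have : (∑ j, (d j : ℝ) * ((x j).val : ℝ)) / n +
          ((∑ i, (d (Sum.inl i) : ℝ) * (d (Sum.inr i) : ℝ)) +
            2 * ((c (Sum.inl 0) : ℝ) * (c (Sum.inr 0) : ℝ))) / 2 =
          lc n d x + ((c (Sum.inl 0) * c (Sum.inr 0) : ℤ) : ℝ) := by
        unfold lc
        push_cast
        ring
      rw [this, Bf_add_int]

end MP6feb
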