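import Pool.Agent.Lib.MP_6febbd_ag.Defs
import Pool.Agent.Lib.MP_6febbd_ag.ThT
import Pool.Agent.Lib.MP_6febbd_ag.Mv0

set_option autoImplicit false

open scoped Matrix.Norms.Elementwise Real
open Complex Matrix

noncomputable section

namespace MP6feb

private theorem parity {g : ℕ} (S : Matrix (Fin g) (Fin g) ℤ) (hS : S.IsSymm)
    (v : Fin g → ℤ) : ∃ t : ℤ, ∑ i, ∑ j, v i * S i j * v j = ∑ i, S i i * v i + 2 * t := by
  classical
  have hsym : ∀ i j, S i j = S j i := fun i j => (congrFun (congrFun hS i) j).symm.trans rfl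
  have h2 : (((∑ i, ∑ j, v i * S i j * v j) - ∑ i, S i i * v i : ℤ) : ZMod 2) = 0 := by
    push_cast
    rw [← Finset.sum_product', ← Finset.sum_filter_add_sum_filter_not
      (Finset.univ ×ˢ Finset.univ) (fun p : Fin g × Fin g => p.1 = p.2)]
    have hoff : ∑ p ∈ (Finset.univ ×ˢ Finset.univ : Finset (Fin g × Fin g)).filter
        (fun p => ¬ p.1 = p.2), ((v p.1 : ZMod 2) * (S p.1 p.2 : ZMod 2) * (v p.2 : ZMod 2)) =
        0 := by
      refine Finset.sum_involution (fun p _ => (p.2, p.1)) ?_ ?_ ?_ ?_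
      · intro p _
        rw [hsym p.2 p.1]
        have : ∀ a : ZMod 2, a + a = 0 := by decide
        have h3 : (v p.2 : ZMod 2) * (S p.1 p.2 : ZMod 2) * (v p.1 : ZMod 2) =
            (v p.1 : ZMod 2) * (S p.1 p.2 : ZMod 2) * (v p.2 : ZMod 2) := by ring
        simp only [h3]
        exact this _
      · intro p hp _ h
        simp only [Finset.mem_filter] at hp
        exact hp.2 (congrArg Prod.fst h).symm
      · intro p hp
        simp only [Finset.mem_filter, Finset.mem_product, Finset.mem_univ, true_and] at hp ⊢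
        exact fun h => hp h.symm
      · intro p _
        rfl
    have hdiag : ∑ p ∈ (Finset.univ ×ˢ Finset.univ : Finset (Fin g × Fin g)).filter
        (fun p => p.1 = p.2), ((v p.1 : ZMod 2) * (S p.1 p.2 : ZMod 2) * (v p.2 : ZMod 2)) =
        ∑ i, (S i i : ZMod 2) * (v i : ZMod 2) := by
      symm
      refine Finset.sum_bij (fun i _ => (i, i)) ?_ ?_ ?_ ?_
      · intro i _
        simp
      · intro i _ j _ h
        exact congrArg Prod.fst h
      · intro p hp
        simp only [Finset.mem_filter] at hp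
        exact ⟨p.1, Finset.mem_univ _, Prod.ext rfl hp.2⟩
      · intro i _
        have : ∀ a : ZMod 2, a * a = a := by decide
        have h4 : (v i : ZMod 2) * (S i i : ZMod 2) * (v i : ZMod 2) =
            (S i i : ZMod 2) * ((v i : ZMod 2) * (v i : ZMod 2)) := by ring
        simp only [h4, this]
    rw [hoff, hdiag]
    ring
  obtain ⟨t, ht⟩ := (ZMod.intCast_zmod_eq_zero_iff_dvd _ 2).mp h2
  exact ⟨t, by push_cast at ht; linarith⟩

private theorem act_sT {g : ℕ} (S : Matrix (Fin g) (Fin g) ℤ) (τ : Matrix (Fin g) (Fin g) ℂ) :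
    act (sT S) τ = τ + S.map (Int.cast : ℤ → ℂ) ∧ (den (sT S) τ).det = 1 := by
  have h1 : den (sT S) τ = 1 := by
    simp [den, sT, Matrix.toBlocks_fromBlocks₂₁, Matrix.toBlocks_fromBlocks₂₂,
      Matrix.map_one, Matrix.map_zero]
  have h2 : num (sT S) τ = τ + S.map (Int.cast : ℤ → ℂ) := by
    simp [num, sT, Matrix.toBlocks_fromBlocks₁₁, Matrix.toBlocks_fromBlocks₁₂,
      Matrix.map_one]
  rw [act, h1, h2]
  simp

theorem move_T {g n : ℕ} [NeZero n] (hn : Even n) (S : Matrix (Fin g) (Fin g) ℤ)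
    (hS : S.IsSymm) : Move g n (sT S) := by
  obtain ⟨n', hn'⟩ := hn
  have hn0 : (n : ℝ) ≠ 0 := Nat.cast_ne_zero.mpr (NeZero.ne n)
  have hnc : (n : ℂ) ≠ 0 := Nat.cast_ne_zero.mpr (NeZero.ne n)
  set sh : (Fin g ⊕ Fin g → ZMod n) → Fin g → ZMod n := fun x i =>
    ∑ j, (S i j : ZMod n) * x (Sum.inl j) + ((n' : ℕ) : ZMod n) * (S i i : ZMod n) with hsh
  let e : (Fin g ⊕ Fin g → ZMod n) ≃ (Fin g ⊕ Fin g → ZMod n) :=
    { toFun := fun x => Sum.elim (fun i => x (Sum.inl i)) (fun i => x (Sum.inr i) + sh x i)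
      invFun := fun x => Sum.elim (fun i => x (Sum.inl i)) (fun i => x (Sum.inr i) - sh x i)
      left_inv := fun x => by
        funext j
        cases j with
        | inl i => rfl
        | inr i =>
          simp [hsh]
      right_inv := fun x => by
        funext j
        cases j with
        | inl i => rfl
        | inr i =>
          simp [hsh] }
  -- integral representatives of `e x`
  set XB : (Fin g ⊕ Fin g → ZMod n) → Fin g → ℤ := fun x i =>
    ((x (Sum.inr i)).val : ℤ) + ∑ j, S i j * ((x (Sum.inl j)).val : ℤ) + (n' : ℤ) * S i i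
    with hXB
  have hex : ∀ x, e x = Sum.elim (fun i => ((((x (Sum.inl i)).val : ℤ) : ℤ) : ZMod n))
      (fun i => ((XB x i : ℤ) : ZMod n)) := by
    intro x
    funext j
    cases j with
    | inl i => simp [e]
    | inr i =>
      simp only [e, Equiv.coe_fn_mk, Sum.elim_inr, hsh, hXB]
      push_cast
      simp only [ZMod.natCast_val, ZMod.cast_id', id_eq]
      ring
  refine ⟨e, ?_, ?_⟩
  · intro x τ _
    obtain ⟨hact, hden⟩ := act_sT S τ
    rw [hden, one_pow, one_mul, hact, TX, thx, th_translate _ _ _ S hS, mul_pow]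
    have hb : (fun i => ((x (Sum.inr i)).val : ℝ) / n +
        ∑ j, (S i j : ℝ) * (((x (Sum.inl j)).val : ℝ) / n) + (S i i : ℝ) / 2) =
        fun i => ((XB x i : ℤ) : ℝ) / n := by
      funext i
      simp only [hXB]
      push_cast
      have h1 : ∑ j, (S i j : ℝ) * (((x (Sum.inl j)).val : ℝ) / n) =
          (∑ j, (S i j : ℝ) * ((x (Sum.inl j)).val : ℝ)) / n := by
        rw [Finset.sum_div]
        exact Finset.sum_congr rfl fun j _ => by ring
      have h2 : (S i i : ℝ) / 2 = (n' : ℝ) * (S i i : ℝ) / n := by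
        have h3 : (n : ℝ) = n' + n' := by exact_mod_cast hn'
        rw [h3]
        have h4 : (n' : ℝ) ≠ 0 := by
          intro h4
          apply hn0
          rw [h3, h4]
          ring
        field_simp
        ring
      rw [h1, h2]
      ring
    rw [hb]
    have hphase : cexp (-(π * I * (∑ i, ∑ j, ((((x (Sum.inl i)).val : ℝ) / n : ℝ) : ℂ) *
        (S i j : ℂ) * ((((x (Sum.inl j)).val : ℝ) / n : ℝ) : ℂ) +
        ∑ i, (S i i : ℂ) * ((((x (Sum.inl i)).val : ℝ) / n : ℝ) : ℂ)))) ^ (24 * n ^ 2) = 1 := by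
      rw [← Complex.exp_nat_mul, Complex.exp_eq_one_iff]
      refine ⟨-12 * ((∑ i, ∑ j, ((x (Sum.inl i)).val : ℤ) * S i j * ((x (Sum.inl j)).val : ℤ)) +
        n * ∑ i, S i i * ((x (Sum.inl i)).val : ℤ)), ?_⟩
      have h1 : (∑ i, ∑ j, ((((x (Sum.inl i)).val : ℝ) / n : ℝ) : ℂ) *
          (S i j : ℂ) * ((((x (Sum.inl j)).val : ℝ) / n : ℝ) : ℂ)) =
          (∑ i, ∑ j, ((x (Sum.inl i)).val : ℂ) * (S i j : ℂ) * ((x (Sum.inl j)).val : ℂ)) /
            n ^ 2 := by
        rw [Finset.sum_div]
        refine Finset.sum_congr rfl fun i _ => ?_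
        rw [Finset.sum_div]
        refine Finset.sum_congr rfl fun j _ => ?_
        push_cast
        field_simp
      have h2 : (∑ i, (S i i : ℂ) * ((((x (Sum.inl i)).val : ℝ) / n : ℝ) : ℂ)) =
          (∑ i, (S i i : ℂ) * ((x (Sum.inl i)).val : ℂ)) / n := by
        rw [Finset.sum_div]
        refine Finset.sum_congr rfl fun i _ => ?_
        push_cast
        ring
      rw [h1, h2]
      push_cast
      field_simp
      ring
    rw [hphase, one_mul]
    have ha : (fun i => ((x (Sum.inl i)).val : ℝ) / n) =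
        fun i => ((((x (Sum.inl i)).val : ℤ) : ℤ) : ℝ) / n := by
      funext i
      push_cast
      rfl
    rw [ha, TX_intCast, hex x]
  · intro c hc
    set d : Fin g ⊕ Fin g → ℤ := Sum.elim
      (fun i => c (Sum.inl i) + ∑ j, S i j * c (Sum.inr j)) (fun i => c (Sum.inr i)) with hd
    refine ⟨d, ?_, ?_⟩
    · by_contra hcon
      push Not at hcon
      obtain ⟨i, hi⟩ := hc
      have hr : ∀ j, (2 : ℤ) ∣ c (Sum.inr j) := fun j => hcon (Sum.inr j)
      cases i with
      | inr j => exact hi (hr j)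
      | inl j =>
        have h1 : (2 : ℤ) ∣ c (Sum.inl j) + ∑ l, S j l * c (Sum.inr l) := hcon (Sum.inl j)
        have h2 : (2 : ℤ) ∣ ∑ l, S j l * c (Sum.inr l) :=
          Finset.dvd_sum fun l _ => (hr l).mul_left _
        exact hi ((Int.dvd_add_left h2).mp h1)
    · intro x
      obtain ⟨t, ht⟩ := parity S hS (fun i => c (Sum.inr i))
      have hX : e x = fun j => (((Sum.elim (fun i => ((x (Sum.inl i)).val : ℤ)) (XB x) :
          Fin g ⊕ Fin g → ℤ) j : ℤ) : ZMod n) := by
        rw [hex x]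
        funext j
        cases j <;> rfl
      rw [hX, lc_intCast]
      have hkey : (∑ j, (c j : ℝ) * ((Sum.elim (fun i => ((x (Sum.inl i)).val : ℤ)) (XB x) :
          Fin g ⊕ Fin g → ℤ) j : ℝ)) / n +
          (∑ i, (c (Sum.inl i) : ℝ) * (c (Sum.inr i) : ℝ)) / 2 =
          lc n d x + ((-t : ℤ) : ℝ) := by
        rw [lc]
        simp only [Fintype.sum_sum_type, hd, Sum.elim_inl, Sum.elim_inr, hXB]
        have ht' : (∑ i, ∑ j, (c (Sum.inr i) : ℝ) * (S i j : ℝ) * (c (Sum.inr j) : ℝ)) =
            (∑ i, (S i i : ℝ) * (c (Sum.inr i) : ℝ)) + 2 * (t : ℝ) := by exact_mod_cast ht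
        have h3 : (n : ℝ) = n' + n' := by exact_mod_cast hn'
        push_cast
        have e1 : (∑ i, (c (Sum.inr i) : ℝ) * (((x (Sum.inr i)).val : ℝ) +
            ∑ j, (S i j : ℝ) * ((x (Sum.inl j)).val : ℝ) + (n' : ℝ) * (S i i : ℝ))) =
            (∑ i, (c (Sum.inr i) : ℝ) * ((x (Sum.inr i)).val : ℝ)) +
            (∑ i, ∑ j, (c (Sum.inr i) : ℝ) * (S i j : ℝ) * ((x (Sum.inl j)).val : ℝ)) +
            n' * ∑ i, (S i i : ℝ) * (c (Sum.inr i) : ℝ) := by
          rw [Finset.mul_sum, ← Finset.sum_add_distrib, ← Finset.sum_add_distrib]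
          refine Finset.sum_congr rfl fun i _ => ?_
          rw [mul_add, mul_add, Finset.mul_sum]
          simp only [mul_assoc]
          ring
        have e2 : (∑ i, ((c (Sum.inl i) : ℝ) + ∑ j, (S i j : ℝ) * (c (Sum.inr j) : ℝ)) *
            ((x (Sum.inl i)).val : ℝ)) =
            (∑ i, (c (Sum.inl i) : ℝ) * ((x (Sum.inl i)).val : ℝ)) +
            ∑ i, ∑ j, (c (Sum.inr i) : ℝ) * (S i j : ℝ) * ((x (Sum.inl j)).val : ℝ) := by
          rw [Finset.sum_comm (f := fun i j => (c (Sum.inr i) : ℝ) * (S i j : ℝ) *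
            ((x (Sum.inl j)).val : ℝ)), ← Finset.sum_add_distrib]
          refine Finset.sum_congr rfl fun i _ => ?_
          rw [add_mul, Finset.sum_mul]
          congr 1
          refine Finset.sum_congr rfl fun j _ => ?_
          have hs : S j i = S i j := congrFun (congrFun hS i) j
          rw [hs]
          ring
        have e3 : (∑ i, ((c (Sum.inl i) : ℝ) + ∑ j, (S i j : ℝ) * (c (Sum.inr j) : ℝ)) *
            (c (Sum.inr i) : ℝ)) =
            (∑ i, (c (Sum.inl i) : ℝ) * (c (Sum.inr i) : ℝ)) +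
            ∑ i, ∑ j, (c (Sum.inr i) : ℝ) * (S i j : ℝ) * (c (Sum.inr j) : ℝ) := by
          rw [← Finset.sum_add_distrib]
          refine Finset.sum_congr rfl fun i _ => ?_
          rw [add_mul, Finset.sum_mul]
          congr 1
          refine Finset.sum_congr rfl fun j _ => ?_
          ring
        rw [e1, e2, e3, ht']
        have h4 : (n' : ℝ) ≠ 0 := by
          intro h4
          apply hn0
          rw [h3, h4]
          ring
        rw [h3]
        field_simp
        ring
      rw [hkey, Bf_add_int]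

end MP6feb
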