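import Pool.Agent.Lib.MP_6febbd_ag.Defs
import Pool.Agent.Lib.MP_6febbd_ag.ThT
import Pool.Agent.Lib.MP_6febbd_ag.Mv0

set_option autoImplicit false

open scoped Matrix.Norms.Elementwise Real
open Complex Matrix

noncomputable section

namespace MP6feb

private theorem mvU_mul_sum {R : Type} [CommRing R] {g : ℕ} {P Q : Matrix (Fin g) (Fin g) R}
    (h : P * Q = 1) (v : Fin g → R) (i : Fin g) : ∑ j, P i j * ∑ k, Q j k * v k = v i := by
  have h2 : P *ᵥ (Q *ᵥ v) = v := by rw [Matrix.mulVec_mulVec, h, Matrix.one_mulVec]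
  exact congrFun h2 i

private theorem mvU_mul_sumT {R : Type} [CommRing R] {g : ℕ} {P Q : Matrix (Fin g) (Fin g) R}
    (h : Q * P = 1) (v : Fin g → R) (i : Fin g) : ∑ j, P j i * ∑ k, Q k j * v k = v i := by
  have h1 : Pᵀ * Qᵀ = 1 := by rw [← Matrix.transpose_mul, h, Matrix.transpose_one]
  exact mvU_mul_sum h1 v i

private theorem mvU_act {g : ℕ} (P Q : Matrix (Fin g) (Fin g) ℤ) (h : P * Q = 1)
    (τ : Matrix (Fin g) (Fin g) ℂ) :
    act (sU P Q) τ = P.map (Int.cast : ℤ → ℂ) * τ * (P.map (Int.cast : ℤ → ℂ))ᵀ := by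
  have hc : P.map (Int.cast : ℤ → ℂ) * Q.map (Int.cast : ℤ → ℂ) = 1 := by
    have h1 : (P * Q).map (Int.cast : ℤ → ℂ) = P.map (Int.cast : ℤ → ℂ) *
        Q.map (Int.cast : ℤ → ℂ) := Matrix.map_mul (f := Int.castRingHom ℂ)
    rw [← h1, h]
    exact Matrix.map_one _ Int.cast_zero Int.cast_one
  unfold act num den sU
  rw [Matrix.toBlocks_fromBlocks₁₁, Matrix.toBlocks_fromBlocks₁₂, Matrix.toBlocks_fromBlocks₂₁,
    Matrix.toBlocks_fromBlocks₂₂]
  have h0 : (0 : Matrix (Fin g) (Fin g) ℤ).map (Int.cast : ℤ → ℂ) = 0 :=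
    Matrix.map_zero _ Int.cast_zero
  rw [h0, add_zero, zero_mul, zero_add]
  congr 1
  refine Matrix.inv_eq_left_inv ?_
  have h2 : (Qᵀ).map (Int.cast : ℤ → ℂ) = (Q.map (Int.cast : ℤ → ℂ))ᵀ := rfl
  rw [h2, ← Matrix.transpose_mul]
  have h3 : Q.map (Int.cast : ℤ → ℂ) * P.map (Int.cast : ℤ → ℂ) = 1 :=
    mul_eq_one_comm.1 hc
  rw [h3, Matrix.transpose_one]

private theorem mvU_det {g n : ℕ} (P Q : Matrix (Fin g) (Fin g) ℤ) (h : P * Q = 1)
    (τ : Matrix (Fin g) (Fin g) ℂ) : (den (sU P Q) τ).det ^ (12 * n ^ 2) = 1 := by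
  have h1 : den (sU P Q) τ = (Qᵀ).map (Int.cast : ℤ → ℂ) := by
    unfold den sU
    rw [Matrix.toBlocks_fromBlocks₂₁, Matrix.toBlocks_fromBlocks₂₂]
    have h0 : (0 : Matrix (Fin g) (Fin g) ℤ).map (Int.cast : ℤ → ℂ) = 0 :=
      Matrix.map_zero _ Int.cast_zero
    rw [h0, zero_mul, zero_add]
  have h2 : ((Qᵀ).map (Int.cast : ℤ → ℂ)).det = ((Qᵀ.det : ℤ) : ℂ) :=
    ((Int.castRingHom ℂ).map_det Qᵀ).symm
  have h3 : IsUnit Qᵀ.det := by
    rw [Matrix.det_transpose]
    refine IsUnit.of_mul_eq_one P.det ?_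
    rw [← Matrix.det_mul, mul_eq_one_comm.1 h, Matrix.det_one]
  rw [h1, h2]
  have h4 : 12 * n ^ 2 = 2 * (6 * n ^ 2) := by ring
  rw [h4, pow_mul]
  rcases Int.isUnit_iff.1 h3 with h5 | h5 <;> rw [h5] <;> norm_num

/-- Unimodular changes of coordinates move the family: `e x = (Pᵀ A, Q B)`,
`d = (P c', Qᵀ c'')`; `den = Qᵀ` has determinant `±1`, the exponent `12 n²` is even. -/
theorem move_U {g n : ℕ} [NeZero n] (P Q : Matrix (Fin g) (Fin g) ℤ) (h : P * Q = 1) :
    Move g n (sU P Q) := by
  have h' : Q * P = 1 := mul_eq_one_comm.1 h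
  set f : ℤ → ZMod n := Int.cast with hf
  have hz : P.map f * Q.map f = 1 := by
    have h1 : (P * Q).map f = P.map f * Q.map f := Matrix.map_mul (f := Int.castRingHom (ZMod n))
    rw [← h1, h]
    exact Matrix.map_one _ Int.cast_zero Int.cast_one
  have hz' : Q.map f * P.map f = 1 := mul_eq_one_comm.1 hz
  -- the permutation
  let e : (Fin g ⊕ Fin g → ZMod n) ≃ (Fin g ⊕ Fin g → ZMod n) :=
    { toFun := fun x => Sum.elim (fun i => ∑ j, P.map f j i * x (Sum.inl j))
        (fun i => ∑ j, Q.map f i j * x (Sum.inr j))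
      invFun := fun x => Sum.elim (fun i => ∑ j, Q.map f j i * x (Sum.inl j))
        (fun i => ∑ j, P.map f i j * x (Sum.inr j))
      left_inv := by
        intro x
        funext i
        rcases i with i | i
        · exact mvU_mul_sumT hz (fun k => x (Sum.inl k)) i
        · exact mvU_mul_sum hz (fun k => x (Sum.inr k)) i
      right_inv := by
        intro x
        funext i
        rcases i with i | i
        · exact mvU_mul_sumT hz' (fun k => x (Sum.inl k)) i
        · exact mvU_mul_sum hz' (fun k => x (Sum.inr k)) i }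
  have hval : ∀ y : ZMod n, (((y.val : ℕ) : ℤ) : ZMod n) = y := by
    intro y
    rw [Int.cast_natCast]
    exact ZMod.natCast_zmod_val y
  -- integral representatives of `e x`
  have he : ∀ x, e x = fun j => ((Sum.elim (fun i => ∑ j, P j i * ((x (Sum.inl j)).val : ℤ))
      (fun i => ∑ j, Q i j * ((x (Sum.inr j)).val : ℤ)) j : ℤ) : ZMod n) := by
    intro x
    funext i
    rcases i with i | i
    · change ∑ j, P.map f j i * x (Sum.inl j) =
        ((∑ j, P j i * ((x (Sum.inl j)).val : ℤ) : ℤ) : ZMod n)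
      rw [Int.cast_sum]
      refine Finset.sum_congr rfl fun j _ => ?_
      rw [Int.cast_mul, hval, Matrix.map_apply]
    · change ∑ j, Q.map f i j * x (Sum.inr j) =
        ((∑ j, Q i j * ((x (Sum.inr j)).val : ℤ) : ℤ) : ZMod n)
      rw [Int.cast_sum]
      refine Finset.sum_congr rfl fun j _ => ?_
      rw [Int.cast_mul, hval, Matrix.map_apply]
  refine ⟨e, ?_, ?_⟩
  · intro x τ _
    rw [mvU_det P Q h τ, one_mul, mvU_act P Q h τ]
    have h1 : TX n x (P.map (Int.cast : ℤ → ℂ) * τ * (P.map (Int.cast : ℤ → ℂ))ᵀ) =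
        th (fun i => ((∑ j, P j i * ((x (Sum.inl j)).val : ℤ) : ℤ) : ℝ) / n)
          (fun i => ((∑ j, Q i j * ((x (Sum.inr j)).val : ℤ) : ℤ) : ℝ) / n) τ ^ (24 * n ^ 2) := by
      unfold TX thx
      rw [th_unimodular _ _ τ P Q h]
      congr 2
      · funext i
        push_cast
        rw [Finset.sum_div]
        exact Finset.sum_congr rfl fun j _ => by ring
      · funext i
        push_cast
        rw [Finset.sum_div]
        exact Finset.sum_congr rfl fun j _ => by ring
    rw [h1, TX_intCast, he x]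
    congr 1
    funext j
    rcases j with j | j <;> rfl
  · intro c hc
    refine ⟨Sum.elim (fun i => ∑ j, P i j * c (Sum.inl j)) (fun i => ∑ j, Q j i * c (Sum.inr j)),
      ?_, ?_⟩
    · by_contra hcon
      push Not at hcon
      obtain ⟨i, hi⟩ := hc
      rcases i with i | i
      · refine hi ?_
        rw [← mvU_mul_sum h' (fun k => c (Sum.inl k)) i]
        refine Finset.dvd_sum fun j _ => Dvd.dvd.mul_left (hcon (Sum.inl j)) _
      · refine hi ?_
        rw [← mvU_mul_sumT h' (fun k => c (Sum.inr k)) i]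
        refine Finset.dvd_sum fun j _ => Dvd.dvd.mul_left (hcon (Sum.inr j)) _
    · intro x
      rw [he x, lc_intCast]
      unfold lc
      congr 2
      · congr 1
        rw [Fintype.sum_sum_type, Fintype.sum_sum_type]
        simp only [Sum.elim_inl, Sum.elim_inr]
        congr 1
        · push_cast
          simp only [Finset.mul_sum, Finset.sum_mul]
          rw [Finset.sum_comm]
          refine Finset.sum_congr rfl fun i _ => Finset.sum_congr rfl fun j _ => ?_
          ring
        · push_cast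
          simp only [Finset.mul_sum, Finset.sum_mul]
          rw [Finset.sum_comm]
          refine Finset.sum_congr rfl fun i _ => Finset.sum_congr rfl fun j _ => ?_
          ring
      · congr 1
        simp only [Sum.elim_inl, Sum.elim_inr]
        have h1 : ∑ i, (∑ j, P i j * c (Sum.inl j)) * (∑ j, Q j i * c (Sum.inr j)) =
            ∑ i, c (Sum.inl i) * c (Sum.inr i) := by
          set s : Fin g → ℤ := fun i => ∑ k, Q k i * c (Sum.inr k) with hs
          have h2 : ∀ j, ∑ i, P i j * s i = c (Sum.inr j) := fun j =>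
            mvU_mul_sumT h' (fun k => c (Sum.inr k)) j
          have h3 : ∑ i, (∑ j, P i j * c (Sum.inl j)) * s i =
              ∑ j, c (Sum.inl j) * ∑ i, P i j * s i := by
            simp only [Finset.sum_mul, Finset.mul_sum]
            rw [Finset.sum_comm]
            refine Finset.sum_congr rfl fun i _ => Finset.sum_congr rfl fun j _ => ?_
            ring
          rw [h3]
          exact Finset.sum_congr rfl fun j _ => by rw [h2 j]
        have h4 := congrArg (fun z : ℤ => (z : ℝ)) h1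
        push_cast at h4
        push_cast
        exact h4.symm

end MP6feb
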