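import Pool.Agent.Lib.MP_6febbd_ag.Defs
import Pool.Agent.Lib.MP_6febbd_ag.SpA

set_option autoImplicit false

open scoped Matrix.Norms.Elementwise Real
open Complex Matrix

noncomputable section

namespace MP6feb

section bdlemmas

variable {R : Type} {k : ℕ}

@[simp] private lemma bd_zero_zero [Zero R] (s : R) (M : Matrix (Fin k) (Fin k) R) :
    bd s M 0 0 = s := rfl

@[simp] private lemma bd_zero_succ [Zero R] (s : R) (M : Matrix (Fin k) (Fin k) R) (j : Fin k) :
    bd s M 0 j.succ = 0 := rfl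

@[simp] private lemma bd_succ_zero [Zero R] (s : R) (M : Matrix (Fin k) (Fin k) R) (i : Fin k) :
    bd s M i.succ 0 = 0 := rfl

@[simp] private lemma bd_succ_succ [Zero R] (s : R) (M : Matrix (Fin k) (Fin k) R) (i j : Fin k) :
    bd s M i.succ j.succ = M i j := rfl

private lemma ext_bd {A B : Matrix (Fin (k + 1)) (Fin (k + 1)) R} (h00 : A 0 0 = B 0 0)
    (h01 : ∀ j : Fin k, A 0 j.succ = B 0 j.succ) (h10 : ∀ i : Fin k, A i.succ 0 = B i.succ 0)
    (h11 : ∀ i j : Fin k, A i.succ j.succ = B i.succ j.succ) : A = B := by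
  ext i j
  refine Fin.cases ?_ (fun i => ?_) i
  · refine Fin.cases h00 (fun j => h01 j) j
  · refine Fin.cases (h10 i) (fun j => h11 i j) j

private lemma bd_mul [CommRing R] (a b : R) (A B : Matrix (Fin k) (Fin k) R) :
    bd a A * bd b B = bd (a * b) (A * B) := by
  apply ext_bd
  · simp [Matrix.mul_apply, Fin.sum_univ_succ]
  · intro j
    simp [Matrix.mul_apply, Fin.sum_univ_succ]
  · intro i
    simp [Matrix.mul_apply, Fin.sum_univ_succ]
  · intro i j
    simp [Matrix.mul_apply, Fin.sum_univ_succ]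

private lemma bd_add [CommRing R] (a b : R) (A B : Matrix (Fin k) (Fin k) R) :
    bd a A + bd b B = bd (a + b) (A + B) := by
  apply ext_bd
  · simp
  · intro j
    simp
  · intro i
    simp
  · intro i j
    simp

private lemma bd_one_one [CommRing R] : bd (1 : R) (1 : Matrix (Fin k) (Fin k) R) = 1 := by
  apply ext_bd
  · simp
  · intro j
    rw [bd_zero_succ, Matrix.one_apply_ne (Fin.succ_ne_zero j).symm]
  · intro i
    rw [bd_succ_zero, Matrix.one_apply_ne (Fin.succ_ne_zero i)]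
  · intro i j
    rw [bd_succ_succ, Matrix.one_apply, Matrix.one_apply]
    simp only [Fin.succ_inj]

private lemma bd_zero [CommRing R] : bd (0 : R) (0 : Matrix (Fin k) (Fin k) R) = 0 := by
  apply ext_bd
  · simp
  · intro j
    simp
  · intro i
    simp
  · intro i j
    simp

private lemma bd_transpose [CommRing R] (a : R) (A : Matrix (Fin k) (Fin k) R) :
    (bd a A)ᵀ = bd a Aᵀ := by
  apply ext_bd
  · rfl
  · intro j
    rfl
  · intro i
    rfl
  · intro i j
    rfl

private lemma bd_map (a : ℤ) (A : Matrix (Fin k) (Fin k) ℤ) :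
    (bd a A).map (Int.cast : ℤ → ℂ) = bd (a : ℂ) (A.map (Int.cast : ℤ → ℂ)) := by
  apply ext_bd
  · simp
  · intro j
    simp
  · intro i
    simp
  · intro i j
    simp

end bdlemmas

private lemma emb_fromBlocks {k : ℕ} (A B C D : Matrix (Fin k) (Fin k) ℤ) :
    emb (Matrix.fromBlocks A B C D) =
      Matrix.fromBlocks (bd 1 A) (bd 0 B) (bd 0 C) (bd 1 D) := by
  rw [emb, Matrix.toBlocks_fromBlocks₁₁, Matrix.toBlocks_fromBlocks₁₂,
    Matrix.toBlocks_fromBlocks₂₁, Matrix.toBlocks_fromBlocks₂₂]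

/-- The embedding respects products. -/
theorem emb_mul {k : ℕ} (γ δ : Matrix (Fin k ⊕ Fin k) (Fin k ⊕ Fin k) ℤ) :
    emb (γ * δ) = emb γ * emb δ := by
  obtain ⟨A, B, C, D, rfl⟩ : ∃ A B C D, γ = Matrix.fromBlocks A B C D :=
    ⟨_, _, _, _, (Matrix.fromBlocks_toBlocks γ).symm⟩
  obtain ⟨A', B', C', D', rfl⟩ : ∃ A B C D, δ = Matrix.fromBlocks A B C D :=
    ⟨_, _, _, _, (Matrix.fromBlocks_toBlocks δ).symm⟩
  rw [Matrix.fromBlocks_multiply, emb_fromBlocks, emb_fromBlocks, emb_fromBlocks,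
    Matrix.fromBlocks_multiply]
  simp only [bd_mul, bd_add, mul_one, mul_zero, zero_mul, add_zero, zero_add]

private lemma emb_one {k : ℕ} :
    emb (1 : Matrix (Fin k ⊕ Fin k) (Fin k ⊕ Fin k) ℤ) = 1 := by
  rw [← Matrix.fromBlocks_one, emb_fromBlocks, bd_one_one, bd_zero, Matrix.fromBlocks_one]

private lemma emb_sT {k : ℕ} (S : Matrix (Fin k) (Fin k) ℤ) :
    emb (sT S) = sT (bd 0 S) := by
  rw [sT, sT, emb_fromBlocks, bd_one_one, bd_zero]

private lemma emb_sU {k : ℕ} (P Q : Matrix (Fin k) (Fin k) ℤ) :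
    emb (sU P Q) = sU (bd 1 P) (bd 1 Q) := by
  rw [sU, sU, emb_fromBlocks, bd_zero, bd_transpose]

/-- the permutation matrix of the transposition `(0 1)` -/
private def Wm01 (k : ℕ) : Matrix (Fin (k + 2)) (Fin (k + 2)) ℤ :=
  (1 : Matrix (Fin (k + 2)) (Fin (k + 2)) ℤ).submatrix (Equiv.swap 0 1) id

private lemma W_mul {k : ℕ} (M : Matrix (Fin (k + 2)) (Fin (k + 2)) ℤ) :
    Wm01 k * M = M.submatrix (Equiv.swap 0 1) id := by
  ext i j
  rw [Wm01, Matrix.mul_apply, Matrix.submatrix_apply]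
  simp [Matrix.one_apply]

private lemma mul_W {k : ℕ} (M : Matrix (Fin (k + 2)) (Fin (k + 2)) ℤ) :
    M * Wm01 k = M.submatrix id (Equiv.swap 0 1) := by
  ext i j
  rw [Wm01, Matrix.mul_apply, Matrix.submatrix_apply]
  rw [Finset.sum_eq_single ((Equiv.swap (0 : Fin (k + 2)) 1) j)]
  · rw [Matrix.submatrix_apply, Equiv.swap_apply_self, id, Matrix.one_apply_eq, mul_one]
    rfl
  · intro l _ hl
    rw [Matrix.submatrix_apply, Matrix.one_apply_ne, mul_zero]
    intro h
    apply hl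
    rw [id] at h
    rw [← h, Equiv.swap_apply_self]
  · intro h
    exact absurd (Finset.mem_univ _) h

private lemma W_conj {k : ℕ} (M : Matrix (Fin (k + 2)) (Fin (k + 2)) ℤ) :
    Wm01 k * M * Wm01 k = M.submatrix (Equiv.swap 0 1) (Equiv.swap 0 1) := by
  rw [W_mul, mul_W]
  rfl

private lemma W_W {k : ℕ} : Wm01 k * Wm01 k = 1 := by
  have h := W_conj (k := k) 1
  rw [mul_one] at h
  rw [h]
  exact Matrix.submatrix_one_equiv _

private lemma W_transpose {k : ℕ} : (Wm01 k)ᵀ = Wm01 k := by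
  have h1 : Wm01 k = (1 : Matrix (Fin (k + 2)) (Fin (k + 2)) ℤ).submatrix id (Equiv.swap 0 1) := by
    have h2 := mul_W (k := k) 1
    rwa [one_mul] at h2
  conv_lhs => rw [h1]
  rw [Matrix.transpose_submatrix, Matrix.transpose_one]
  rfl

private lemma conj_e00 {k : ℕ} : (e00 (k + 1)).submatrix (Equiv.swap 0 1) (Equiv.swap 0 1) =
    bd 0 (e00 k) := by
  have h0 : ∀ i j : Fin (k + 2), (e00 (k + 1)).submatrix (Equiv.swap 0 1) (Equiv.swap 0 1) i j =
      if i = 1 ∧ j = 1 then 1 else 0 := by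
    intro i j
    rw [Matrix.submatrix_apply, e00, Matrix.single_apply]
    have h1 : ∀ i : Fin (k + 2), (0 = (Equiv.swap (0 : Fin (k + 2)) 1) i) ↔ i = 1 := by
      intro i
      constructor
      · intro h
        have h2 := congrArg (Equiv.swap (0 : Fin (k + 2)) 1) h
        rw [Equiv.swap_apply_self, Equiv.swap_apply_left] at h2
        exact h2.symm
      · intro h
        rw [h, Equiv.swap_apply_right]
    simp only [h1]
  apply ext_bd
  · rw [h0, bd_zero_zero, if_neg]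
    rintro ⟨h, -⟩
    exact absurd h (by simp)
  · intro j
    rw [h0, bd_zero_succ, if_neg]
    rintro ⟨h, -⟩
    exact absurd h (by simp)
  · intro i
    rw [h0, bd_succ_zero, if_neg]
    rintro ⟨-, h⟩
    exact absurd h (by simp)
  · intro i j
    have h2 : ∀ i : Fin (k + 1), (i.succ = 1) ↔ (0 = i) := by
      intro i
      rw [← Fin.succ_zero_eq_one, Fin.succ_inj, eq_comm]
    rw [h0, bd_succ_succ, e00, Matrix.single_apply]
    simp only [h2]

private lemma emb_sJ {k : ℕ} :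
    emb (sJ k) = sU (Wm01 k) (Wm01 k) * sJ (k + 1) * sU (Wm01 k) (Wm01 k) := by
  have hsub : ∀ A B : Matrix (Fin (k + 2)) (Fin (k + 2)) ℤ,
      (A - B).submatrix (Equiv.swap 0 1) (Equiv.swap 0 1) =
        A.submatrix (Equiv.swap 0 1) (Equiv.swap 0 1) -
          B.submatrix (Equiv.swap 0 1) (Equiv.swap 0 1) := fun A B => rfl
  have h1 : bd 1 (1 - e00 k) = 1 - bd 0 (e00 k) := by
    rw [eq_sub_iff_add_eq, bd_add, sub_add_cancel, add_zero, bd_one_one]
  have h2 : bd 0 (-(e00 k)) = -(bd 0 (e00 k)) := by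
    rw [eq_neg_iff_add_eq_zero, bd_add, neg_add_cancel, add_zero, bd_zero]
  rw [sJ, sJ, emb_fromBlocks, sU, W_transpose, Matrix.fromBlocks_multiply,
    Matrix.fromBlocks_multiply]
  simp only [zero_mul, mul_zero, add_zero, zero_add, W_conj, hsub]
  rw [Matrix.submatrix_one_equiv, conj_e00, h1, h2]
  have h3 : (-(e00 (k + 1))).submatrix (Equiv.swap 0 1) (Equiv.swap 0 1) =
      -((e00 (k + 1)).submatrix (Equiv.swap 0 1) (Equiv.swap 0 1)) := rfl
  rw [h3, conj_e00]

/-- The embedding maps `Gam k` to `Gam (k+1)`. On generators: `emb (sT S) = sT (bd 0 S)`,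
`emb (sU P Q) = sU (bd 1 P) (bd 1 Q)`, and `emb (sJ k')` is the partial inversion in the
coordinate `1`, i.e. `sU W W * sJ * sU W W` with `W` the permutation matrix of `(0 1)`. -/
theorem emb_mem {k : ℕ} {γ : Matrix (Fin k ⊕ Fin k) (Fin k ⊕ Fin k) ℤ} (hγ : γ ∈ Gam k) :
    emb γ ∈ Gam (k + 1) := by
  induction hγ using Submonoid.closure_induction with
  | mem s hs =>
    cases hs with
    | T S hS =>
      rw [emb_sT]
      refine Submonoid.subset_closure (IsGen.T _ ?_)
      rw [Matrix.IsSymm, bd_transpose, hS]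
    | U P Q h =>
      rw [emb_sU]
      refine Submonoid.subset_closure (IsGen.U _ _ ?_)
      rw [bd_mul, h, one_mul, bd_one_one]
    | J k =>
      rw [emb_sJ]
      have hW : sU (Wm01 k) (Wm01 k) ∈ Gam (k + 1 + 1) :=
        Submonoid.subset_closure (IsGen.U _ _ W_W)
      have hJ : sJ (k + 1) ∈ Gam (k + 1 + 1) := Submonoid.subset_closure (IsGen.J _)
      exact mul_mem (mul_mem hW hJ) hW
  | one =>
    rw [emb_one]
    exact one_mem _
  | mul x y _ _ hx hy =>
    rw [emb_mul]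
    exact mul_mem hx hy

/-- Action on block diagonal matrices (`(bd a A) * (bd b B) = bd (a*b) (A*B)`,
`(bd a A)⁻¹ = bd a⁻¹ A⁻¹`). -/
theorem act_emb {k : ℕ} (γ : Matrix (Fin k ⊕ Fin k) (Fin k ⊕ Fin k) ℤ) (σ : ℂ)
    (τ : Matrix (Fin k) (Fin k) ℂ) (h : (den γ τ).det ≠ 0) :
    act (emb γ) (bd σ τ) = bd σ (act γ τ) := by
  have hnum : num (emb γ) (bd σ τ) = bd σ (num γ τ) := by
    rw [num, emb, Matrix.toBlocks_fromBlocks₁₁, Matrix.toBlocks_fromBlocks₁₂, bd_map, bd_map,
      bd_mul, bd_add, Int.cast_one, Int.cast_zero, one_mul, add_zero]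
    rfl
  have hden : den (emb γ) (bd σ τ) = bd 1 (den γ τ) := by
    rw [den, emb, Matrix.toBlocks_fromBlocks₂₁, Matrix.toBlocks_fromBlocks₂₂, bd_map, bd_map,
      bd_mul, bd_add, Int.cast_one, Int.cast_zero, zero_mul, zero_add]
    rfl
  have hinv : (bd (1 : ℂ) (den γ τ))⁻¹ = bd 1 (den γ τ)⁻¹ := by
    apply Matrix.inv_eq_right_inv
    rw [bd_mul, Matrix.mul_nonsing_inv _ (isUnit_iff_ne_zero.2 h), one_mul, bd_one_one]
  rw [act, hnum, hden, hinv, bd_mul, mul_one]
  rfl

end MP6feb
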