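import Pool.Agent.Lib.MP_6febbd_ag.Defs

set_option autoImplicit false

open scoped Matrix.Norms.Elementwise Real
open Complex Matrix

noncomputable section

namespace MP6feb

private def Rch {k : ℕ} (α β : Fin (k + 1) ⊕ Fin (k + 1) → ℤ) : Prop :=
  ∃ γ ∈ Gam (k + 1), γ *ᵥ α = β

private lemma rch_refl {k : ℕ} (α : Fin (k + 1) ⊕ Fin (k + 1) → ℤ) : Rch α α :=
  ⟨1, one_mem _, one_mulVec α⟩

private lemma rch_trans {k : ℕ} {α β δ : Fin (k + 1) ⊕ Fin (k + 1) → ℤ} (h1 : Rch α β)
    (h2 : Rch β δ) : Rch α δ := by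
  obtain ⟨γ, hγ, rfl⟩ := h1
  obtain ⟨γ', hγ', rfl⟩ := h2
  exact ⟨γ' * γ, mul_mem hγ' hγ, (mulVec_mulVec _ _ _).symm⟩

private lemma rch_gen {k : ℕ} {α : Fin (k + 1) ⊕ Fin (k + 1) → ℤ}
    {γ : Matrix (Fin (k + 1) ⊕ Fin (k + 1)) (Fin (k + 1) ⊕ Fin (k + 1)) ℤ}
    (h : IsGen (k + 1) γ) : Rch α (γ *ᵥ α) :=
  ⟨γ, Submonoid.subset_closure h, rfl⟩

private lemma single_mulVec {k : ℕ} (i j : Fin (k + 1)) (c : ℤ) (v : Fin (k + 1) → ℤ) :
    (Matrix.single i j c) *ᵥ v = Pi.single i (c * v j) := by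
  ext l
  rw [mulVec, dotProduct, Finset.sum_eq_single j]
  · by_cases h : l = i
    · subst h
      simp
    · rw [Matrix.single_apply, if_neg (fun hh => h hh.1.symm), zero_mul, Pi.single_eq_of_ne h]
  · intro b _ hb
    rw [Matrix.single_apply, if_neg (fun hh => hb hh.2.symm), zero_mul]
  · intro h; exact absurd (Finset.mem_univ _) h

private lemma rch_T {k : ℕ} (x y : Fin (k + 1) → ℤ) (i : Fin (k + 1)) (c : ℤ) :
    Rch (Sum.elim x y) (Sum.elim (x + Pi.single i (c * y i)) y) := by
  have h := rch_gen (α := Sum.elim x y) (IsGen.T (Matrix.single i i c)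
    (by unfold Matrix.IsSymm; rw [Matrix.transpose_single]))
  rw [sT, fromBlocks_mulVec] at h
  rw [Sum.elim_comp_inl, Sum.elim_comp_inr, one_mulVec, zero_mulVec, zero_add, one_mulVec,
    single_mulVec] at h
  exact h

private lemma rch_P {k : ℕ} (x y : Fin (k + 1) → ℤ) (e : Equiv.Perm (Fin (k + 1))) :
    Rch (Sum.elim x y) (Sum.elim (x ∘ e) (y ∘ e)) := by
  have h := rch_gen (α := Sum.elim x y) (IsGen.U (e.permMatrix ℤ) ((e⁻¹).permMatrix ℤ)
    (by rw [← Matrix.permMatrix_mul, inv_mul_cancel, Matrix.permMatrix_one]))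
  rw [sU, fromBlocks_mulVec] at h
  rw [Sum.elim_comp_inl, Sum.elim_comp_inr, zero_mulVec, zero_mulVec, zero_add, add_zero,
    Matrix.transpose_permMatrix, inv_inv, Matrix.permMatrix_mulVec, Matrix.permMatrix_mulVec] at h
  exact h

private lemma rch_J {k : ℕ} (x y : Fin (k + 1) → ℤ) :
    Rch (Sum.elim x y) (Sum.elim (Function.update x 0 (-y 0)) (Function.update y 0 (x 0))) := by
  have h := rch_gen (α := Sum.elim x y) (IsGen.J k)
  rw [sJ, fromBlocks_mulVec] at h
  rw [Sum.elim_comp_inl, Sum.elim_comp_inr, neg_mulVec, sub_mulVec, sub_mulVec, one_mulVec,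
    one_mulVec, e00, single_mulVec, single_mulVec, one_mul, one_mul] at h
  have e1 : x - Pi.single 0 (x 0) + -Pi.single 0 (y 0) = Function.update x 0 (-y 0) := by
    ext l
    by_cases hl : l = 0
    · subst hl; simp
    · simp [hl]
  have e2 : Pi.single 0 (x 0) + (y - Pi.single 0 (y 0)) = Function.update y 0 (x 0) := by
    ext l
    by_cases hl : l = 0
    · subst hl; simp
    · simp [hl]
  rw [e1, e2] at h
  exact h

private lemma rch_E {k : ℕ} (x : Fin (k + 1) → ℤ) {i j : Fin (k + 1)} (hij : i ≠ j) (c : ℤ) :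
    Rch (Sum.elim x 0) (Sum.elim (x + Pi.single i (c * x j)) 0) := by
  have hmul : (1 + Matrix.single i j c) * (1 - Matrix.single i j c) = 1 := by
    rw [mul_sub, mul_one, add_mul, one_mul, Matrix.single_mul_single_of_ne _ _ _ _ (Ne.symm hij),
      add_zero, add_sub_cancel_right]
  have h := rch_gen (α := Sum.elim x 0) (IsGen.U _ _ hmul)
  rw [sU, fromBlocks_mulVec] at h
  rw [Sum.elim_comp_inl, Sum.elim_comp_inr, mulVec_zero, mulVec_zero, zero_mulVec, add_zero,
    add_zero, add_mulVec, one_mulVec, single_mulVec] at h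
  exact h

private lemma rch_N {k : ℕ} (x : Fin (k + 1) → ℤ) :
    Rch (Sum.elim x 0) (Sum.elim (-x) 0) := by
  have hmul : (-1 : Matrix (Fin (k + 1)) (Fin (k + 1)) ℤ) * (-1) = 1 := by
    rw [neg_mul_neg, one_mul]
  have h := rch_gen (α := Sum.elim x 0) (IsGen.U _ _ hmul)
  rw [sU, fromBlocks_mulVec] at h
  rw [Sum.elim_comp_inl, Sum.elim_comp_inr, mulVec_zero, mulVec_zero, zero_mulVec, add_zero,
    add_zero, neg_mulVec, one_mulVec] at h
  exact h

private lemma step1 {k : ℕ} : ∀ (n : ℕ) (x y : Fin (k + 1) → ℤ), ∑ i, (y i).natAbs = n →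
    ∃ x' : Fin (k + 1) → ℤ, Rch (Sum.elim x y) (Sum.elim x' 0) := by
  intro n
  induction n using Nat.strong_induction_on with
  | _ n ih =>
    intro x y hn
    by_cases hy : ∀ i, y i = 0
    · have : y = 0 := funext hy
      subst this
      exact ⟨x, rch_refl _⟩
    · push Not at hy
      obtain ⟨i, hi⟩ := hy
      set x1 : Fin (k + 1) → ℤ := x + Pi.single i (-(x i / y i) * y i) with hx1
      have hx1i : x1 i = x i % y i := by
        rw [hx1, Pi.add_apply, Pi.single_eq_same]
        have := Int.mul_ediv_add_emod (x i) (y i)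
        linarith [mul_comm (y i) (x i / y i)]
      have hlt : (x1 i).natAbs < (y i).natAbs := by
        rw [hx1i]
        have h1 := Int.emod_nonneg (x i) hi
        have h2 := Int.emod_lt_abs (x i) hi
        rcases lt_or_gt_of_ne hi with h3 | h3
        · rw [abs_of_neg h3] at h2
          generalize x i % y i = r at h1 h2 ⊢
          omega
        · rw [abs_of_pos h3] at h2
          generalize x i % y i = r at h1 h2 ⊢
          omega
      set e : Equiv.Perm (Fin (k + 1)) := Equiv.swap 0 i with he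
      have he0 : e 0 = i := Equiv.swap_apply_left 0 i
      have h1 := rch_T x y i (-(x i / y i))
      rw [← hx1] at h1
      have h2 := rch_P x1 y e
      have h3 := rch_J (x1 ∘ e) (y ∘ e)
      have hsum : ∑ l, (Function.update (y ∘ e) 0 ((x1 ∘ e) 0) l).natAbs < n := by
        rw [← hn, ← Equiv.sum_comp e (fun l => (y l).natAbs)]
        apply Finset.sum_lt_sum
        · intro l _
          by_cases hl : l = 0
          · subst hl
            rw [Function.update_self, Function.comp_apply, he0]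
            exact hlt.le
          · rw [Function.update_of_ne hl, Function.comp_apply]
        · refine ⟨0, Finset.mem_univ _, ?_⟩
          rw [Function.update_self, Function.comp_apply, he0]
          exact hlt
      obtain ⟨x', hx'⟩ := ih _ hsum _ _ rfl
      exact ⟨x', rch_trans h1 (rch_trans h2 (rch_trans h3 hx'))⟩

private lemma natAbs_sub_lt {a b : ℤ} (ha : a ≠ 0) (hb : b ≠ 0) (h : b.natAbs ≤ a.natAbs) :
    ∃ c : ℤ, (a + c * b).natAbs < a.natAbs := by
  rcases lt_or_gt_of_ne ha with h1 | h1 <;> rcases lt_or_gt_of_ne hb with h2 | h2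
  · exact ⟨-1, by omega⟩
  · exact ⟨1, by omega⟩
  · exact ⟨1, by omega⟩
  · exact ⟨-1, by omega⟩

private lemma step2 {k : ℕ} : ∀ (n : ℕ) (x : Fin (k + 1) → ℤ), ∑ i, (x i).natAbs = n →
    ∃ d : ℤ, 0 ≤ d ∧ Rch (Sum.elim x 0) (Pi.single (Sum.inl 0) d) := by
  intro n
  induction n using Nat.strong_induction_on with
  | _ n ih =>
    intro x hn
    by_cases hx : ∃ i j, i ≠ j ∧ x i ≠ 0 ∧ x j ≠ 0
    · -- decrease
      have hx' : ∃ i j, i ≠ j ∧ x i ≠ 0 ∧ x j ≠ 0 ∧ (x j).natAbs ≤ (x i).natAbs := by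
        obtain ⟨i, j, hij, hi, hj⟩ := hx
        rcases le_total (x j).natAbs (x i).natAbs with h | h
        · exact ⟨i, j, hij, hi, hj, h⟩
        · exact ⟨j, i, hij.symm, hj, hi, h⟩
      obtain ⟨i, j, hij, hi, hj, hle⟩ := hx'
      obtain ⟨c, hc⟩ := natAbs_sub_lt hi hj hle
      have h1 := rch_E x hij c
      have hsum : ∑ l, ((x + Pi.single i (c * x j) : Fin (k + 1) → ℤ) l).natAbs < n := by
        rw [← hn]
        apply Finset.sum_lt_sum
        · intro l _
          by_cases hl : l = i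
          · subst hl
            rw [Pi.add_apply, Pi.single_eq_same]
            exact hc.le
          · rw [Pi.add_apply, Pi.single_eq_of_ne hl, add_zero]
        · refine ⟨i, Finset.mem_univ _, ?_⟩
          rw [Pi.add_apply, Pi.single_eq_same]
          exact hc
      obtain ⟨d, hd, hd'⟩ := ih _ hsum _ rfl
      exact ⟨d, hd, rch_trans h1 hd'⟩
    · push Not at hx
      have hx0 : ∃ i, ∀ l, l ≠ i → x l = 0 := by
        by_cases hz : ∀ l, x l = 0
        · exact ⟨0, fun l _ => hz l⟩
        · push Not at hz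
          obtain ⟨i, hi⟩ := hz
          exact ⟨i, fun l hl => hx i l (Ne.symm hl) hi⟩
      obtain ⟨i, hi⟩ := hx0
      set e : Equiv.Perm (Fin (k + 1)) := Equiv.swap 0 i with he
      have he0 : e 0 = i := Equiv.swap_apply_left 0 i
      have h2 := rch_P x 0 e
      have h3 : ∀ z : Fin (k + 1) → ℤ, (∀ l, l ≠ 0 → z l = 0) →
          (Sum.elim z 0 : Fin (k + 1) ⊕ Fin (k + 1) → ℤ) = Pi.single (Sum.inl 0) (z 0) := by
        intro z hz
        ext l
        rcases l with l | l
        · by_cases hl : l = 0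
          · subst hl; simp
          · rw [Sum.elim_inl, hz l hl, Pi.single_eq_of_ne]
            intro h
            exact hl (Sum.inl.inj h)
        · rw [Sum.elim_inr, Pi.single_eq_of_ne]
          · rfl
          · intro h
            exact absurd h (by simp)
      have h4 : ∀ l, l ≠ 0 → (x ∘ e) l = 0 := by
        intro l hl
        apply hi
        intro h
        apply hl
        have : e l = e 0 := by rw [h, he0]
        exact e.injective this
      have h5 : (0 : Fin (k + 1) → ℤ) ∘ e = 0 := by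
        ext l; rfl
      rw [h5] at h2
      rcases le_total 0 (x i) with h | h
      · refine ⟨x i, h, ?_⟩
        have h6 := h3 (x ∘ e) h4
        rw [Function.comp_apply, he0] at h6
        rw [← h6]
        exact h2
      · refine ⟨-x i, by linarith, ?_⟩
        have h6 := h3 (-(x ∘ e)) (fun l hl => by rw [Pi.neg_apply, h4 l hl, neg_zero])
        rw [Pi.neg_apply, Function.comp_apply, he0] at h6
        rw [← h6]
        exact rch_trans h2 (rch_N _)

/-- Every integral vector is moved by `Gam` to a multiple `d e₀`, `d ≥ 0`, of the first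
basis vector. Proof. Write vectors as `(x, y)`. (1) In the orbit choose a vector with
`∑ |y_i|` minimal (natural number). If `y_i ≠ 0` for some `i`: `sT (c E_ii)` replaces `x_i`
by `x_i + c y_i` and changes nothing else, so we may assume `|x_i| < |y_i|`
(`Int.emod`, or `c = -(x_i / y_i)`); then partial inversion in the coordinate `i`
(`sU` of the transposition `(0 i)`, `sJ`, `sU` again) sends `(x_i, y_i)` to `(-y_i, x_i)`
and makes the sum smaller: contradiction. So `y = 0`. (2) In the set of orbit vectors with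
`y = 0` choose `∑ |x_i|` minimal. If `x_i, x_j ≠ 0`, `i ≠ j`, `|x_j| ≤ |x_i|`, then
`sU (1 ∓ E_ij)` makes it smaller (and keeps `y = 0`). So at most one `x_i ≠ 0`; move it to
the index `0` by a transposition and make it nonnegative by a diagonal sign matrix. -/
theorem orbit_single {k : ℕ} (α : Fin (k + 1) ⊕ Fin (k + 1) → ℤ) :
    ∃ γ ∈ Gam (k + 1), ∃ d : ℤ, 0 ≤ d ∧ γ *ᵥ α = Pi.single (Sum.inl 0) d := by
  have h0 : α = Sum.elim (α ∘ Sum.inl) (α ∘ Sum.inr) := (Sum.elim_comp_inl_inr α).symm
  obtain ⟨x', hx'⟩ := step1 _ (α ∘ Sum.inl) (α ∘ Sum.inr) rfl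
  obtain ⟨d, hd, hd'⟩ := step2 _ x' rfl
  rw [← h0] at hx'
  obtain ⟨γ, hγ, h⟩ := rch_trans hx' hd'
  exact ⟨γ, hγ, d, hd, h⟩

end MP6feb
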