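import Pool.Agent.Lib.MP_6febbd_ag.Defs
import Pool.Agent.Lib.MP_6febbd_ag.SpA
import Pool.Agent.Lib.MP_6febbd_ag.SpO

set_option autoImplicit false

open scoped Matrix.Norms.Elementwise Real
open Complex Matrix

noncomputable section

namespace MP6feb

private lemma Es_eq {g : ℕ} (α β : Fin g ⊕ Fin g → ℤ) :
    Es α β = -(α ⬝ᵥ (Matrix.J (Fin g) ℤ *ᵥ β)) := by
  unfold Es
  rw [Matrix.J, Matrix.fromBlocks_mulVec, dotProduct, Fintype.sum_sum_type]
  simp only [Sum.elim_inl, Sum.elim_inr, Matrix.zero_mulVec, Matrix.one_mulVec, zero_add,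
    add_zero, Matrix.neg_mulVec, Pi.neg_apply, Function.comp_apply]
  rw [Finset.sum_sub_distrib, ← sub_eq_zero]
  simp only [mul_neg, Finset.sum_neg_distrib]
  ring

private lemma Es_symp {g : ℕ} {γ : Matrix (Fin g ⊕ Fin g) (Fin g ⊕ Fin g) ℤ}
    (hγ : γ ∈ Matrix.symplecticGroup (Fin g) ℤ) (α β : Fin g ⊕ Fin g → ℤ) :
    Es (γ *ᵥ α) (γ *ᵥ β) = Es α β := by
  have h := SymplecticGroup.mem_iff'.1 hγ
  rw [Es_eq, Es_eq, ← Matrix.vecMul_transpose γ α, ← Matrix.dotProduct_mulVec,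
    Matrix.mulVec_mulVec, Matrix.mulVec_mulVec, h]

/-- Elements of `Gam` preserve the symplectic form. -/
theorem Es_gam {g : ℕ} {γ : Matrix (Fin g ⊕ Fin g) (Fin g ⊕ Fin g) ℤ} (hγ : γ ∈ Gam g)
    (α β : Fin g ⊕ Fin g → ℤ) : Es (γ *ᵥ α) (γ *ᵥ β) = Es α β := by
  have h : Gam g ≤ Matrix.symplecticGroup (Fin g) ℤ :=
    Submonoid.closure_le.2 (fun s hs => gen_symplectic hs)
  exact Es_symp (h hγ) α β

private lemma single_inl {k : ℕ} (d : ℤ) :
    (Pi.single (Sum.inl 0) d : Fin (k + 1) ⊕ Fin (k + 1) → ℤ) =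
      Sum.elim (Pi.single 0 d) (0 : Fin (k + 1) → ℤ) := by
  ext i
  rcases i with i | i
  · by_cases h : i = 0
    · subst h
      simp
    · rw [Pi.single_eq_of_ne (by simpa using h), Sum.elim_inl, Pi.single_eq_of_ne h]
  · rw [Pi.single_eq_of_ne (by simp)]
    rfl

private lemma single_inr {k : ℕ} (d : ℤ) :
    (Pi.single (Sum.inr 0) d : Fin (k + 1) ⊕ Fin (k + 1) → ℤ) =
      Sum.elim (0 : Fin (k + 1) → ℤ) (Pi.single 0 d) := by
  ext i
  rcases i with i | i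
  · rw [Pi.single_eq_of_ne (by simp)]
    rfl
  · by_cases h : i = 0
    · subst h
      simp
    · rw [Pi.single_eq_of_ne (by simpa using h), Sum.elim_inr, Pi.single_eq_of_ne h]

private lemma sT_mulVec {g : ℕ} (S : Matrix (Fin g) (Fin g) ℤ) (x y : Fin g → ℤ) :
    sT S *ᵥ (Sum.elim x y) = Sum.elim (x + S *ᵥ y) y := by
  rw [sT, Matrix.fromBlocks_mulVec]
  simp

private lemma sU_mulVec {g : ℕ} (P Q : Matrix (Fin g) (Fin g) ℤ) (x y : Fin g → ℤ) :
    sU P Q *ᵥ (Sum.elim x y) = Sum.elim (P *ᵥ x) (Qᵀ *ᵥ y) := by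
  rw [sU, Matrix.fromBlocks_mulVec]
  simp

/-- Hyperbolic pairs form one orbit. Proof. By `orbit_single` and `Es_gam` we get
`γα = d e₀`, and `1 = Es (γα) (γβ) = d (γβ)_{inr 0}` so `d = 1`. Let `γβ = (q', q'')`,
`q''_0 = 1`. Apply `sU P Q` with
`P = 1 + e₀ (q'' - e₀)ᵀ`, `Q = 1 - e₀ (q'' - e₀)ᵀ` (inverse matrices because
`(q''-e₀)_0 = 0`): `P e₀ = e₀` and `Qᵀ q'' = q'' - (q'' - e₀) = e₀`. The vector `β` becomes
`(v, e₀)`. Then `sT S` with `S` symmetric, `S e₀ = -v`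
(`S_i0 = S_0i = -v_i`, other entries `0`) fixes `(e₀, 0)` and gives `(0, e₀)`. -/
theorem hyperbolic {k : ℕ} (α β : Fin (k + 1) ⊕ Fin (k + 1) → ℤ) (h : Es α β = 1) :
    ∃ γ ∈ Gam (k + 1), γ *ᵥ α = Pi.single (Sum.inl 0) 1 ∧
      γ *ᵥ β = Pi.single (Sum.inr 0) 1 := by
  obtain ⟨γ₁, h₁, d, hd, e₁⟩ := orbit_single α
  obtain ⟨p, q, hpq⟩ : ∃ p q : Fin (k + 1) → ℤ, γ₁ *ᵥ β = Sum.elim p q :=
    ⟨(γ₁ *ᵥ β) ∘ Sum.inl, (γ₁ *ᵥ β) ∘ Sum.inr, (Sum.elim_comp_inl_inr _).symm⟩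
  have hE : d * q 0 = 1 := by
    have h2 := Es_gam h₁ α β
    rw [h, e₁, hpq, single_inl, Es] at h2
    simp only [Sum.elim_inl, Sum.elim_inr, Pi.zero_apply, zero_mul, sub_zero] at h2
    rw [Fin.sum_univ_succ] at h2
    simpa using h2
  have hd1 : d = 1 := by
    rcases Int.eq_one_or_neg_one_of_mul_eq_one hE with h2 | h2
    · exact h2
    · omega
  have hq : q 0 = 1 := by rw [hd1, one_mul] at hE; exact hE
  subst hd1
  -- the second matrix
  set e₀ : Fin (k + 1) → ℤ := Pi.single 0 1 with he₀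
  set N : Matrix (Fin (k + 1)) (Fin (k + 1)) ℤ := Matrix.vecMulVec e₀ (q - e₀) with hN
  have hort : (q - e₀) ⬝ᵥ e₀ = 0 := by
    rw [he₀, dotProduct_single, Pi.sub_apply, Pi.single_eq_same, hq]
    norm_num
  have hNN : N * N = 0 := by
    rw [hN, Matrix.vecMulVec_mul_vecMulVec, hort]
    simp
  have hPQ : (1 + N) * (1 - N) = 1 := by
    rw [mul_sub, mul_one, add_mul, one_mul, hNN, add_zero, add_sub_cancel_right]
  have hPe : (1 + N) *ᵥ e₀ = e₀ := by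
    rw [Matrix.add_mulVec, Matrix.one_mulVec, hN, Matrix.vecMulVec_mulVec, hort]
    simp
  have hQq : (1 - N)ᵀ *ᵥ q = e₀ := by
    rw [Matrix.transpose_sub, Matrix.transpose_one, Matrix.sub_mulVec, Matrix.one_mulVec, hN,
      Matrix.transpose_vecMulVec, Matrix.vecMulVec_mulVec]
    have h3 : e₀ ⬝ᵥ q = 1 := by
      rw [he₀, single_dotProduct, one_mul, hq]
    rw [h3]
    simp
  have h₂ : sU (1 + N) (1 - N) ∈ Gam (k + 1) := Submonoid.subset_closure (IsGen.U _ _ hPQ)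
  -- the third matrix
  set v : Fin (k + 1) → ℤ := (1 + N) *ᵥ p with hv
  set S : Matrix (Fin (k + 1)) (Fin (k + 1)) ℤ :=
    Matrix.of (fun i j => if i = 0 then -v j else if j = 0 then -v i else 0) with hS
  have hSs : S.IsSymm := by
    apply Matrix.IsSymm.ext
    intro i j
    rw [hS, Matrix.of_apply, Matrix.of_apply]
    by_cases hi : i = 0
    · by_cases hj : j = 0
      · simp [hi, hj]
      · simp [hi, hj]
    · by_cases hj : j = 0
      · simp [hi, hj]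
      · simp [hi, hj]
  have hSe : S *ᵥ e₀ = -v := by
    ext i
    rw [he₀, Matrix.mulVec_single_one, Matrix.col_apply, hS, Matrix.of_apply, Pi.neg_apply]
    by_cases hi : i = 0
    · rw [if_pos hi, hi]
    · rw [if_neg hi, if_pos rfl]
  have h₃ : sT S ∈ Gam (k + 1) := Submonoid.subset_closure (IsGen.T _ hSs)
  refine ⟨sT S * sU (1 + N) (1 - N) * γ₁, mul_mem (mul_mem h₃ h₂) h₁, ?_, ?_⟩
  · rw [← Matrix.mulVec_mulVec, ← Matrix.mulVec_mulVec, e₁, single_inl, sU_mulVec, sT_mulVec,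
      ← he₀, hPe]
    simp
  · rw [← Matrix.mulVec_mulVec, ← Matrix.mulVec_mulVec, hpq, single_inr, sU_mulVec, sT_mulVec,
      ← he₀, hQq, hSe, ← hv]
    simp

end MP6feb
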