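import Pool.Agent.Lib.MP_6febbd_ag.Defs
import Pool.Agent.Lib.MP_6febbd_ag.SpA
import Pool.Agent.Lib.MP_6febbd_ag.SpH
import Pool.Agent.Lib.MP_6febbd_ag.SpE

set_option autoImplicit false

open scoped Matrix.Norms.Elementwise Real
open Complex Matrix

noncomputable section

namespace MP6feb

/-- Elements of `Gam` are symplectic. -/
theorem gam_le {g : ℕ} : Gam g ≤ Matrix.symplecticGroup (Fin g) ℤ :=
  Submonoid.closure_le.2 (fun _ hs => gen_symplectic hs)

private lemma e00_sq (k : ℕ) : e00 k * e00 k = e00 k := by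
  rw [e00, Matrix.single_mul_single_same, one_mul]

private lemma sJ_pow (k : ℕ) : (sJ k * sJ k) * (sJ k * sJ k) = 1 := by
  have h1 : (1 - e00 k) * (1 - e00 k) = 1 - e00 k := by
    rw [mul_sub, mul_one, sub_mul, one_mul, e00_sq, sub_self, sub_zero]
  have h2 : (1 - e00 k) * e00 k = 0 := by
    rw [sub_mul, one_mul, e00_sq, sub_self]
  have h3 : e00 k * (1 - e00 k) = 0 := by
    rw [mul_sub, mul_one, e00_sq, sub_self]
  have h4 : sJ k * sJ k = Matrix.fromBlocks (1 - e00 k - e00 k) 0 0 (1 - e00 k - e00 k) := by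
    rw [sJ, Matrix.fromBlocks_multiply, h1, h2]
    congr 1
    · rw [neg_mul, e00_sq]
      abel
    · rw [mul_neg, h2, neg_mul, h3, neg_zero, add_zero]
    · rw [h3, add_zero]
    · rw [mul_neg, e00_sq]
      abel
  have h5 : (1 - e00 k - e00 k) * (1 - e00 k - e00 k) = 1 := by
    rw [sub_mul (1 - e00 k) (e00 k), mul_sub (1 - e00 k) (1 - e00 k), mul_sub (e00 k), h1, h2, h3,
      e00_sq]
    abel
  rw [h4, Matrix.fromBlocks_multiply, h5]
  simp only [mul_zero, zero_mul, add_zero, zero_add]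
  rw [Matrix.fromBlocks_one]

/-- `Gam` is closed under inverses: `sT (-S)`, `sU Q P`, `sJ³` are inverses of the
generators. -/
theorem gam_inv {g : ℕ} {γ : Matrix (Fin g ⊕ Fin g) (Fin g ⊕ Fin g) ℤ} (hγ : γ ∈ Gam g) :
    ∃ δ ∈ Gam g, δ * γ = 1 ∧ γ * δ = 1 := by
  induction hγ using Submonoid.closure_induction with
  | mem s hs =>
    cases hs with
    | T S hS =>
      refine ⟨sT (-S), Submonoid.subset_closure (IsGen.T _ ?_), ?_, ?_⟩
      · exact hS.neg
      · rw [sT, sT, Matrix.fromBlocks_multiply]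
        simp
      · rw [sT, sT, Matrix.fromBlocks_multiply]
        simp
    | U P Q h =>
      have h' : Q * P = 1 := mul_eq_one_comm.1 h
      refine ⟨sU Q P, Submonoid.subset_closure (IsGen.U _ _ h'), ?_, ?_⟩
      · rw [sU, sU, Matrix.fromBlocks_multiply, h', ← Matrix.transpose_mul, h']
        simp
      · rw [sU, sU, Matrix.fromBlocks_multiply, h, ← Matrix.transpose_mul, h]
        simp
    | J k =>
      have hJ : sJ k ∈ Gam (k + 1) := Submonoid.subset_closure (IsGen.J _)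
      refine ⟨sJ k * sJ k * sJ k, mul_mem (mul_mem hJ hJ) hJ, ?_, ?_⟩
      · rw [mul_assoc (sJ k * sJ k) (sJ k) (sJ k), sJ_pow]
      · rw [mul_assoc (sJ k) (sJ k) (sJ k), ← mul_assoc (sJ k) (sJ k), sJ_pow]
  | one => exact ⟨1, one_mem _, one_mul _, one_mul _⟩
  | mul x y _ _ hx hy =>
    obtain ⟨a, ha, ha1, ha2⟩ := hx
    obtain ⟨b, hb, hb1, hb2⟩ := hy
    refine ⟨b * a, mul_mem hb ha, ?_, ?_⟩
    · rw [mul_assoc, ← mul_assoc a x y, ha1, one_mul, hb1]
    · rw [mul_assoc, ← mul_assoc y b a, hb2, one_mul, ha2]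

private lemma Es_eq' {g : ℕ} (α β : Fin g ⊕ Fin g → ℤ) :
    Es α β = -(α ⬝ᵥ (Matrix.J (Fin g) ℤ *ᵥ β)) := by
  unfold Es
  rw [Matrix.J, Matrix.fromBlocks_mulVec, dotProduct, Fintype.sum_sum_type]
  simp only [Sum.elim_inl, Sum.elim_inr, Matrix.zero_mulVec, Matrix.one_mulVec, zero_add,
    add_zero, Matrix.neg_mulVec, Pi.neg_apply, Function.comp_apply]
  rw [Finset.sum_sub_distrib, ← sub_eq_zero]
  simp only [mul_neg, Finset.sum_neg_distrib]
  ring

private lemma symp_iff {g : ℕ} (γ : Matrix (Fin g ⊕ Fin g) (Fin g ⊕ Fin g) ℤ) :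
    γ ∈ Matrix.symplecticGroup (Fin g) ℤ ↔ ∀ α β, Es (γ *ᵥ α) (γ *ᵥ β) = Es α β := by
  have key : ∀ α β, Es (γ *ᵥ α) (γ *ᵥ β) =
      -(α ⬝ᵥ ((γᵀ * Matrix.J (Fin g) ℤ * γ) *ᵥ β)) := by
    intro α β
    rw [Es_eq', ← Matrix.vecMul_transpose γ α, ← Matrix.dotProduct_mulVec,
      Matrix.mulVec_mulVec, Matrix.mulVec_mulVec]
  rw [SymplecticGroup.mem_iff']
  constructor
  · intro h α β
    rw [key, h, Es_eq']
  · intro h
    ext i j
    have h1 := h (Pi.single i 1) (Pi.single j 1)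
    rw [key, Es_eq', neg_inj, Matrix.mulVec_single_one, Matrix.mulVec_single_one,
      single_dotProduct, single_dotProduct, one_mul, one_mul] at h1
    exact h1

/-- extension of vectors by zero -/
private def xt {k : ℕ} (x : Fin k ⊕ Fin k → ℤ) : Fin (k + 1) ⊕ Fin (k + 1) → ℤ :=
  Sum.elim (Fin.cons 0 (fun i => x (Sum.inl i))) (Fin.cons 0 (fun i => x (Sum.inr i)))

private lemma Es_xt {k : ℕ} (x y : Fin k ⊕ Fin k → ℤ) : Es (xt x) (xt y) = Es x y := by
  rw [Es, Es, Fin.sum_univ_succ]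
  simp [xt]

private lemma emb_xt {k : ℕ} (γ : Matrix (Fin k ⊕ Fin k) (Fin k ⊕ Fin k) ℤ)
    (x : Fin k ⊕ Fin k → ℤ) : emb γ *ᵥ (xt x) = xt (γ *ᵥ x) := by
  have h : ∀ (a : ℤ) (A : Matrix (Fin k) (Fin k) ℤ) (u : Fin k → ℤ),
      bd a A *ᵥ (Fin.cons 0 u : Fin (k + 1) → ℤ) = Fin.cons 0 (A *ᵥ u) := by
    intro a A u
    ext i
    refine Fin.cases ?_ (fun i => ?_) i
    · rw [Matrix.mulVec, dotProduct, Fin.sum_univ_succ]
      simp [bd]
    · rw [Matrix.mulVec, dotProduct, Fin.sum_univ_succ]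
      simp [bd, Matrix.mulVec, dotProduct]
  have h2 : ∀ u v : Fin k → ℤ, (Fin.cons 0 u : Fin (k + 1) → ℤ) + Fin.cons 0 v =
      Fin.cons 0 (u + v) := by
    intro u v
    ext i
    refine Fin.cases ?_ (fun i => ?_) i
    · simp
    · simp
  rw [emb, Matrix.fromBlocks_mulVec]
  have e1 : xt x ∘ Sum.inl = Fin.cons 0 (fun i => x (Sum.inl i)) := rfl
  have e2 : xt x ∘ Sum.inr = Fin.cons 0 (fun i => x (Sum.inr i)) := rfl
  rw [e1, e2, h, h, h, h, h2, h2]
  have e3 : γ *ᵥ x = Sum.elim (γ.toBlocks₁₁ *ᵥ (x ∘ Sum.inl) + γ.toBlocks₁₂ *ᵥ (x ∘ Sum.inr))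
      (γ.toBlocks₂₁ *ᵥ (x ∘ Sum.inl) + γ.toBlocks₂₂ *ᵥ (x ∘ Sum.inr)) := by
    conv_lhs => rw [← Matrix.fromBlocks_toBlocks γ]
    rw [Matrix.fromBlocks_mulVec]
  rw [e3]
  rfl

/-- The elementary matrices generate. Proof by induction on `g`. `g = 0`: every matrix is
`1`. `g = k+1`: `α = γ e_{inl 0}`, `β = γ e_{inr 0}` satisfy `Es α β = 1`; by `hyperbolic`
there is `δ ∈ Gam` with `δ γ` fixing both vectors; a symplectic matrix fixing `e_{inl 0}`
and `e_{inr 0}` is `emb γ''` with `γ''` symplectic (the rows are forced by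
`Es (γ x) (γ y) = Es x y` with `x` one of the two fixed vectors). Use `emb_mem`,
`gam_inv`. -/
theorem symplectic_le {g : ℕ} : Matrix.symplecticGroup (Fin g) ℤ ≤ Gam g := by
  induction g with
  | zero =>
    intro γ _
    have h : γ = 1 := Subsingleton.elim _ _
    rw [h]
    exact one_mem _
  | succ k ih =>
    intro γ hγ
    have hEs := (symp_iff γ).1 hγ
    have hEl : ∀ y : Fin (k + 1) ⊕ Fin (k + 1) → ℤ,
        Es (Pi.single (Sum.inl 0) 1) y = y (Sum.inr 0) := by
      intro y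
      rw [Es, Fin.sum_univ_succ]
      simp
    have hEr : ∀ y : Fin (k + 1) ⊕ Fin (k + 1) → ℤ,
        Es (Pi.single (Sum.inr 0) 1) y = -y (Sum.inl 0) := by
      intro y
      rw [Es, Fin.sum_univ_succ]
      simp
    have h1 : Es (γ *ᵥ Pi.single (Sum.inl 0) 1) (γ *ᵥ Pi.single (Sum.inr 0) 1) = 1 := by
      rw [hEs, hEl, Pi.single_eq_same]
    obtain ⟨δ, hδ, hδ1, hδ2⟩ := hyperbolic _ _ h1
    rw [Matrix.mulVec_mulVec] at hδ1 hδ2
    set M := δ * γ with hM
    have hMs : M ∈ Matrix.symplecticGroup (Fin (k + 1)) ℤ := mul_mem (gam_le hδ) hγ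
    have hME := (symp_iff M).1 hMs
    -- rows
    have rl : ∀ y : Fin (k + 1) ⊕ Fin (k + 1) → ℤ, (M *ᵥ y) (Sum.inl 0) = y (Sum.inl 0) := by
      intro y
      have h2 := hME (Pi.single (Sum.inr 0) 1) y
      rw [hδ2, hEr, hEr, neg_inj] at h2
      exact h2
    have rr : ∀ y : Fin (k + 1) ⊕ Fin (k + 1) → ℤ, (M *ᵥ y) (Sum.inr 0) = y (Sum.inr 0) := by
      intro y
      have h2 := hME (Pi.single (Sum.inl 0) 1) y
      rw [hδ1, hEl, hEl] at h2
      exact h2
    have entry : ∀ i j, M i j = (M *ᵥ Pi.single j 1) i := by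
      intro i j
      rw [Matrix.mulVec_single_one]
      rfl
    -- the block matrix
    let A : Matrix (Fin k ⊕ Fin k) (Fin k ⊕ Fin k) ℤ :=
      M.submatrix (Sum.map Fin.succ Fin.succ) (Sum.map Fin.succ Fin.succ)
    have hMA : M = emb A := by
      rw [emb, ← Matrix.fromBlocks_toBlocks M]
      have hl0 : ∀ j, M (Sum.inl 0) j = (Pi.single j 1 : Fin (k + 1) ⊕ Fin (k + 1) → ℤ)
          (Sum.inl 0) := fun j => by rw [entry, rl]
      have hr0 : ∀ j, M (Sum.inr 0) j = (Pi.single j 1 : Fin (k + 1) ⊕ Fin (k + 1) → ℤ)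
          (Sum.inr 0) := fun j => by rw [entry, rr]
      have h0l : ∀ i, M i (Sum.inl 0) = (Pi.single (Sum.inl 0) 1 :
          Fin (k + 1) ⊕ Fin (k + 1) → ℤ) i := fun i => by rw [entry, hδ1]
      have h0r : ∀ i, M i (Sum.inr 0) = (Pi.single (Sum.inr 0) 1 :
          Fin (k + 1) ⊕ Fin (k + 1) → ℤ) i := fun i => by rw [entry, hδ2]
      congr 1
      · ext i j
        refine Fin.cases ?_ (fun i => ?_) i
        · refine Fin.cases ?_ (fun j => ?_) j
          · rw [Matrix.toBlocks₁₁, Matrix.of_apply, hl0]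
            simp [bd]
          · rw [Matrix.toBlocks₁₁, Matrix.of_apply, hl0]
            simp [bd, Pi.single_apply, Fin.succ_ne_zero, (Fin.succ_ne_zero j).symm]
        · refine Fin.cases ?_ (fun j => ?_) j
          · rw [Matrix.toBlocks₁₁, Matrix.of_apply, h0l]
            simp [bd, Pi.single_apply, Fin.succ_ne_zero]
          · rfl
      · ext i j
        refine Fin.cases ?_ (fun i => ?_) i
        · refine Fin.cases ?_ (fun j => ?_) j
          · rw [Matrix.toBlocks₁₂, Matrix.of_apply, hl0]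
            simp [bd]
          · rw [Matrix.toBlocks₁₂, Matrix.of_apply, hl0]
            simp [bd]
        · refine Fin.cases ?_ (fun j => ?_) j
          · rw [Matrix.toBlocks₁₂, Matrix.of_apply, h0r]
            simp [bd]
          · rfl
      · ext i j
        refine Fin.cases ?_ (fun i => ?_) i
        · refine Fin.cases ?_ (fun j => ?_) j
          · rw [Matrix.toBlocks₂₁, Matrix.of_apply, hr0]
            simp [bd]
          · rw [Matrix.toBlocks₂₁, Matrix.of_apply, hr0]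
            simp [bd]
        · refine Fin.cases ?_ (fun j => ?_) j
          · rw [Matrix.toBlocks₂₁, Matrix.of_apply, h0l]
            simp [bd]
          · rfl
      · ext i j
        refine Fin.cases ?_ (fun i => ?_) i
        · refine Fin.cases ?_ (fun j => ?_) j
          · rw [Matrix.toBlocks₂₂, Matrix.of_apply, hr0]
            simp [bd]
          · rw [Matrix.toBlocks₂₂, Matrix.of_apply, hr0]
            simp [bd, Pi.single_apply, Fin.succ_ne_zero, (Fin.succ_ne_zero j).symm]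
        · refine Fin.cases ?_ (fun j => ?_) j
          · rw [Matrix.toBlocks₂₂, Matrix.of_apply, h0r]
            simp [bd, Pi.single_apply, Fin.succ_ne_zero]
          · rfl
    have hA : A ∈ Matrix.symplecticGroup (Fin k) ℤ := by
      rw [symp_iff]
      intro α β
      rw [← Es_xt (A *ᵥ α) (A *ᵥ β), ← emb_xt, ← emb_xt, ← hMA, hME, Es_xt]
    have hMG : M ∈ Gam (k + 1) := by
      rw [hMA]
      exact emb_mem (ih hA)
    obtain ⟨ε, hε, hε1, hε2⟩ := gam_inv hδ
    have hfin : γ = ε * M := by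
      rw [hM, ← mul_assoc, hε1, one_mul]
    rw [hfin]
    exact mul_mem hε hMG

end MP6feb
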