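import Pool.Agent.Lib.MP_6febbd_ag.Defs
import Pool.Agent.Lib.MP_6febbd_ag.GS
import Pool.Agent.Lib.MP_6febbd_ag.ThC

set_option autoImplicit false

open scoped Matrix.Norms.Elementwise Real
open Complex Matrix

noncomputable section

namespace MP6feb

/-- The quadratic form as a linear functional of the matrix. -/
private def thhLin {g : ℕ} (v : Fin g → ℂ) : (Fin g → Fin g → ℂ) →ₗ[ℂ] ℂ where
  toFun τ := ∑ i, ∑ j, v i * τ i j * v j
  map_add' τ τ' := by
    simp only [Pi.add_apply, mul_add, add_mul, Finset.sum_add_distrib]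
  map_smul' t τ := by
    simp only [Pi.smul_apply, smul_eq_mul, RingHom.id_apply, Finset.mul_sum]
    refine Finset.sum_congr rfl (fun i _ => Finset.sum_congr rfl (fun j _ => ?_))
    ring

private theorem thhLin_bound {g : ℕ} (v : Fin g → ℂ) (τ : Fin g → Fin g → ℂ) :
    ‖thhLin v τ‖ ≤ (∑ i, ‖v i‖) ^ 2 * ‖τ‖ := by
  have h1 : ‖thhLin v τ‖ ≤ ∑ i, ∑ j, ‖v i‖ * ‖v j‖ * ‖τ‖ := by
    have h0 : thhLin v τ = ∑ i, ∑ j, v i * τ i j * v j := rfl
    rw [h0]
    refine (norm_sum_le _ _).trans (Finset.sum_le_sum (fun i _ => ?_))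
    refine (norm_sum_le _ _).trans (Finset.sum_le_sum (fun j _ => ?_))
    rw [norm_mul, norm_mul]
    have h2 : ‖τ i j‖ ≤ ‖τ‖ := (norm_le_pi_norm (τ i) j).trans (norm_le_pi_norm τ i)
    calc ‖v i‖ * ‖τ i j‖ * ‖v j‖ ≤ ‖v i‖ * ‖τ‖ * ‖v j‖ := by gcongr
      _ = ‖v i‖ * ‖v j‖ * ‖τ‖ := by ring
  refine h1.trans (le_of_eq ?_)
  rw [sq, Finset.sum_mul_sum, Finset.sum_mul]
  exact Finset.sum_congr rfl (fun i _ => (Finset.sum_mul _ _ _).symm)

/-- The continuous version. -/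
private def thhCLM {g : ℕ} (v : Fin g → ℂ) : (Fin g → Fin g → ℂ) →L[ℂ] ℂ :=
  (thhLin v).mkContinuous ((∑ i, ‖v i‖) ^ 2) (thhLin_bound v)

private theorem thhCLM_norm {g : ℕ} (v : Fin g → ℂ) : ‖thhCLM v‖ ≤ (∑ i, ‖v i‖) ^ 2 :=
  LinearMap.mkContinuous_norm_le _ (by positivity) _

/-- The derivative of a term. -/
private def thhD {g : ℕ} (a b : Fin g → ℝ) (m : Fin g → ℤ) (τ : Fin g → Fin g → ℂ) :
    (Fin g → Fin g → ℂ) →L[ℂ] ℂ :=
  thTerm a b (Matrix.of τ) m • ((π * I : ℂ) • thhCLM (fun i => (m i : ℂ) + a i))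

private theorem thh_hasFDerivAt {g : ℕ} (a b : Fin g → ℝ) (m : Fin g → ℤ)
    (τ : Fin g → Fin g → ℂ) :
    HasFDerivAt (fun τ : Fin g → Fin g → ℂ => thTerm a b (Matrix.of τ) m) (thhD a b m τ) τ := by
  have h1 : HasFDerivAt (fun τ : Fin g → Fin g → ℂ =>
      (π * I : ℂ) * thhCLM (fun i => (m i : ℂ) + a i) τ +
        2 * π * I * ∑ i, ((m i : ℂ) + a i) * b i)
      ((π * I : ℂ) • thhCLM (fun i => (m i : ℂ) + a i)) τ :=
    ((thhCLM (fun i => (m i : ℂ) + a i)).hasFDerivAt.const_mul (π * I : ℂ)).add_const _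
  exact h1.cexp

private theorem thh_norm_le {g : ℕ} (a b : Fin g → ℝ) (m : Fin g → ℤ) {c : ℝ} (hc : 0 < c)
    {τ : Fin g → Fin g → ℂ} (hτ : PosIm c (Matrix.of τ)) :
    ‖thhD a b m τ‖ ≤ (g * (2 / c)) *
      Real.exp (-(π * c / 2 * ∑ i, ((m i : ℝ) + a i) ^ 2)) := by
  have hpi := Real.pi_pos
  set s : ℝ := ∑ i, ((m i : ℝ) + a i) ^ 2 with hs
  have hs0 : 0 ≤ s := Finset.sum_nonneg (fun i _ => sq_nonneg _)
  have hv : (∑ i, ‖(m i : ℂ) + a i‖) ^ 2 ≤ g * s := by
    have h := sq_sum_le_card_mul_sum_sq (s := (Finset.univ : Finset (Fin g)))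
      (f := fun i => ‖(m i : ℂ) + a i‖)
    rw [Finset.card_univ, Fintype.card_fin] at h
    refine h.trans (le_of_eq ?_)
    rw [hs]
    congr 1
    refine Finset.sum_congr rfl (fun i _ => ?_)
    have e : (m i : ℂ) + a i = (((m i : ℝ) + a i : ℝ) : ℂ) := by push_cast; ring
    rw [e, Complex.norm_real, Real.norm_eq_abs, sq_abs]
  have h1 : ‖thhD a b m τ‖ ≤ Real.exp (-(π * c * s)) * (π * (g * s)) := by
    rw [thhD, norm_smul, norm_smul]
    have h2 : ‖(π * I : ℂ)‖ = π := by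
      rw [norm_mul, Complex.norm_I, mul_one, Complex.norm_real, Real.norm_eq_abs,
        abs_of_pos hpi]
    rw [h2]
    have h3 := norm_thTerm_le a b hτ m
    have h4 := (thhCLM_norm (fun i => (m i : ℂ) + a i)).trans hv
    exact mul_le_mul h3 (mul_le_mul_of_nonneg_left h4 hpi.le) (by positivity) (by positivity)
  refine h1.trans ?_
  have h5 : π * c / 2 * s ≤ Real.exp (π * c / 2 * s) :=
    (le_add_of_nonneg_right zero_le_one).trans (Real.add_one_le_exp _)
  have h6 : Real.exp (-(π * c * s)) * (π * s) ≤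
      2 / c * Real.exp (-(π * c / 2 * s)) := by
    have e1 : Real.exp (-(π * c * s)) =
        Real.exp (-(π * c / 2 * s)) * Real.exp (-(π * c / 2 * s)) := by
      rw [← Real.exp_add]; congr 1; ring
    rw [e1]
    have e2 : Real.exp (-(π * c / 2 * s)) * (π * s) ≤ 2 / c := by
      have e3 : π * s = 2 / c * (π * c / 2 * s) := by field_simp
      rw [e3]
      calc Real.exp (-(π * c / 2 * s)) * (2 / c * (π * c / 2 * s))
          = 2 / c * (Real.exp (-(π * c / 2 * s)) * (π * c / 2 * s)) := by ring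
        _ ≤ 2 / c * (Real.exp (-(π * c / 2 * s)) * Real.exp (π * c / 2 * s)) := by gcongr
        _ = 2 / c := by rw [← Real.exp_add, neg_add_cancel, Real.exp_zero, mul_one]
    calc Real.exp (-(π * c / 2 * s)) * Real.exp (-(π * c / 2 * s)) * (π * s)
        = (Real.exp (-(π * c / 2 * s)) * (π * s)) * Real.exp (-(π * c / 2 * s)) := by ring
      _ ≤ 2 / c * Real.exp (-(π * c / 2 * s)) := by gcongr
  calc Real.exp (-(π * c * s)) * (π * (g * s))
      = g * (Real.exp (-(π * c * s)) * (π * s)) := by ring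
    _ ≤ g * (2 / c * Real.exp (-(π * c / 2 * s))) := by gcongr
    _ = (g * (2 / c)) * Real.exp (-(π * c / 2 * s)) := by ring

/-- Theta constants are holomorphic on the Siegel space.
Proof. Fix `τ₀ ∈ Siegel g`, `c`, `δ` from `exists_posIm`, `posIm_near`. On the ball of
radius `δ` around `τ₀` each term `exp(π i qf τ v + ...)`, `v = m + a`, has Frechet derivative
`π i · (qf · v) · term` with norm at most `π (∑ |v_i|)² exp(-π (c/2) ∑ v_i²)`, which is
summable over `m` (absorb the square as in `poly_gauss_le`, or directly). Use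
`hasFDerivAt_tsum_of_isPreconnected` on the ball (convex). -/
theorem th_differentiableOn {g : ℕ} (a b : Fin g → ℝ) :
    DifferentiableOn ℂ (th a b) (Siegel g) := by
  intro τ₀ hτ₀
  refine DifferentiableAt.differentiableWithinAt ?_
  obtain ⟨c, hc, hP⟩ := exists_posIm hτ₀
  obtain ⟨δ, hδ, hnear⟩ := posIm_near hc hP
  have hpi := Real.pi_pos
  let t₀ : Fin g → Fin g → ℂ := τ₀
  have hsum : Summable (fun m : Fin g → ℤ => (g * (2 / (c / 2))) *
      Real.exp (-(π * (c / 2) / 2 * ∑ i, ((m i : ℝ) + a i) ^ 2))) :=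
    (summable_gauss (by positivity) a).mul_left _
  have hball : ∀ τ ∈ Metric.ball t₀ δ, PosIm (c / 2) (Matrix.of τ) := by
    intro τ hτ
    rw [Metric.mem_ball, dist_eq_norm] at hτ
    exact hnear (Matrix.of τ) hτ
  have h := hasFDerivAt_tsum_of_isPreconnected (𝕜 := ℂ)
    (f := fun m (τ : Fin g → Fin g → ℂ) => thTerm a b (Matrix.of τ) m)
    (f' := fun m τ => thhD a b m τ) (x₀ := t₀) (x := t₀) hsum Metric.isOpen_ball
    (convex_ball t₀ δ).isPreconnected
    (fun m τ _ => thh_hasFDerivAt a b m τ)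
    (fun m τ hτ => thh_norm_le a b m (by positivity) (hball τ hτ))
    (Metric.mem_ball_self hδ) (summable_thTerm hc a b hP) (Metric.mem_ball_self hδ)
  exact h.differentiableAt

end MP6feb
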