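import Pool.Agent.Lib.MP_6febbd_ag.Defs
import Pool.Agent.Lib.MP_6febbd_ag.MvT
import Pool.Agent.Lib.MP_6febbd_ag.MvU
import Pool.Agent.Lib.MP_6febbd_ag.MvJ
import Pool.Agent.Lib.MP_6febbd_ag.SpA
import Pool.Agent.Lib.MP_6febbd_ag.SpS
import Pool.Agent.Lib.MP_6febbd_ag.SpG
import Pool.Agent.Lib.MP_6febbd_ag.ThH

set_option autoImplicit false

open scoped Matrix.Norms.Elementwise Real
open Complex Matrix

noncomputable section

namespace MP6feb

theorem move_gen {g n : ℕ} [NeZero n] (hn : Even n)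
    {s : Matrix (Fin g ⊕ Fin g) (Fin g ⊕ Fin g) ℤ} (hs : IsGen g s) : Move g n s := by
  cases hs with
  | T S hS => exact move_T hn S hS
  | U P Q h => exact move_U P Q h
  | J k => exact move_J

private lemma mem_famF {g n M : ℕ} [NeZero n] {X : Finset (Fin g ⊕ Fin g → ZMod n)} :
    X ∈ famF g n M ↔ InFam g n M X := by
  simp [famF]

/-- Modularity of `Pj` for one generator: the image under `e` is a permutation of the
family. -/
theorem Pj_gen {g n M j : ℕ} [NeZero n] (hn : Even n)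
    {s : Matrix (Fin g ⊕ Fin g) (Fin g ⊕ Fin g) ℤ} (hs : IsGen g s)
    {τ : Matrix (Fin g) (Fin g) ℂ} (hτ : τ ∈ Siegel g) :
    Pj g n M j (act s τ) = (den s τ).det ^ (12 * (n ^ 2 * M * j)) * Pj g n M j τ := by
  obtain ⟨e, he1, he2⟩ := move_gen hn hs
  have hmem : ∀ X ∈ famF g n M, X.map e.toEmbedding ∈ famF g n M := by
    intro X hX
    rw [mem_famF] at hX ⊢
    refine ⟨by rw [Finset.card_map]; exact hX.1, fun c hc => ?_⟩
    obtain ⟨d, hd, hcd⟩ := he2 c hc
    rw [Finset.sum_map]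
    have : ∀ x ∈ X, Bf (lc n c (e.toEmbedding x)) = Bf (lc n d x) := fun x _ => hcd x
    rw [Finset.sum_congr rfl this]
    exact hX.2 d hd
  have hinj : Set.InjOn (fun X : Finset (Fin g ⊕ Fin g → ZMod n) => X.map e.toEmbedding)
      (famF g n M) := fun X _ Y _ h => Finset.map_injective _ h
  have hsurj : Set.SurjOn (fun X : Finset (Fin g ⊕ Fin g → ZMod n) => X.map e.toEmbedding)
      (famF g n M) (famF g n M) :=
    Finset.surjOn_of_injOn_of_card_le _ (fun X hX => hmem X hX) hinj le_rfl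
  unfold Pj
  rw [Finset.mul_sum]
  refine Finset.sum_nbij (fun X => X.map e.toEmbedding) hmem hinj hsurj fun X hX => ?_
  rw [Finset.prod_map]
  have h1 : ∏ x ∈ X, TX n x (act s τ) =
      (den s τ).det ^ (12 * (n ^ 2 * M)) * ∏ x ∈ X, TX n (e.toEmbedding x) τ := by
    rw [Finset.prod_congr rfl fun x _ => he1 x τ hτ, Finset.prod_mul_distrib,
      Finset.prod_const, (mem_famF.mp hX).1, ← pow_mul]
    congr 2
    ring
  rw [h1, mul_pow, ← pow_mul]
  congr 2
  ring

/-- Modularity of `Pj` for all of `Gam` (`Submonoid.closure_induction` with `act_mul`,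
`den_mul`, `act_mem_siegel`). -/
theorem Pj_gam {g n M j : ℕ} [NeZero n] (hn : Even n)
    {γ : Matrix (Fin g ⊕ Fin g) (Fin g ⊕ Fin g) ℤ} (hγ : γ ∈ Gam g)
    {τ : Matrix (Fin g) (Fin g) ℂ} (hτ : τ ∈ Siegel g) :
    Pj g n M j (act γ τ) = (den γ τ).det ^ (12 * (n ^ 2 * M * j)) * Pj g n M j τ := by
  induction hγ using Submonoid.closure_induction generalizing τ with
  | mem s hs => exact Pj_gen hn hs hτ
  | one => rw [act_one, den_one, Matrix.det_one, one_pow, one_mul]
  | mul γ₂ γ h₂ h₁ ih₂ ih₁ =>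
    have hs := act_mem_siegel (gam_le h₁) hτ
    rw [act_mul _ _ _ hs.2, den_mul _ _ _ hs.2, ih₂ hs.1, ih₁ hτ, Matrix.det_mul, mul_pow]
    ring

private lemma diffOn_prod {E α : Type} [NormedAddCommGroup E] [NormedSpace ℂ E]
    {s : Set E} (u : Finset α) (f : α → E → ℂ) (h : ∀ i ∈ u, DifferentiableOn ℂ (f i) s) :
    DifferentiableOn ℂ (fun x => ∏ i ∈ u, f i x) s := by
  classical
  induction u using Finset.induction_on with
  | empty => simp only [Finset.prod_empty]; exact differentiableOn_const 1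
  | insert a u ha ih =>
    simp only [Finset.prod_insert ha]
    exact (h a (Finset.mem_insert_self a u)).mul
      (ih fun i hi => h i (Finset.mem_insert_of_mem hi))

theorem Pj_form {g n M j : ℕ} [NeZero n] (hn : Even n) :
    IsSiegelForm g (12 * (n ^ 2 * M * j)) (Pj g n M j) := by
  refine ⟨?_, fun γ hγ τ hτ => Pj_gam hn (symplectic_le hγ) hτ⟩
  have hP : Pj g n M j = fun τ => ∑ X ∈ famF g n M,
      (∏ x ∈ X, thx n x τ ^ (24 * n ^ 2)) ^ j := rfl
  rw [hP]
  refine DifferentiableOn.fun_sum fun X _ => ?_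
  have h1 : DifferentiableOn ℂ (fun τ => ∏ x ∈ X, thx n x τ ^ (24 * n ^ 2)) (Siegel g) :=
    diffOn_prod X _ fun x _ => DifferentiableOn.fun_pow (th_differentiableOn _ _) _
  exact DifferentiableOn.fun_pow h1 _

end MP6feb
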