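import Pool.Agent.Lib.MP_6febbd_ag.Defs
import Pool.Agent.Lib.MP_6febbd_ag.ThC

set_option autoImplicit false

open scoped Matrix.Norms.Elementwise Real
open Complex Matrix

noncomputable section

namespace MP6feb

private theorem posDef_iff_sum {n : ℕ} (M : Matrix (Fin n) (Fin n) ℝ) :
    M.PosDef ↔ M.IsSymm ∧ ∀ x : Fin n → ℝ, x ≠ 0 → 0 < ∑ i, ∑ j, x i * M i j * x j := by
  have key : ∀ x : Fin n → ℝ, star x ⬝ᵥ (M *ᵥ x) = ∑ i, ∑ j, x i * M i j * x j := by
    intro x
    simp only [dotProduct, mulVec, Finset.mul_sum]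
    refine Finset.sum_congr rfl fun i _ => Finset.sum_congr rfl fun j _ => ?_
    simp only [Pi.star_apply, star_trivial]
    ring
  have hs : M.IsHermitian ↔ M.IsSymm := by
    unfold Matrix.IsHermitian Matrix.IsSymm
    rw [Matrix.conjTranspose_eq_transpose_of_trivial]
  rw [Matrix.posDef_iff_dotProduct_mulVec, hs]
  constructor
  · rintro ⟨h1, h2⟩
    exact ⟨h1, fun x hx => by rw [← key]; exact h2 hx⟩
  · rintro ⟨h1, h2⟩
    exact ⟨h1, fun x hx => by rw [key]; exact h2 x hx⟩

theorem s1_mem {σ : ℂ} (h : 0 < σ.im) : s1 σ ∈ Siegel 1 := by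
  refine ⟨?_, ?_⟩
  · ext i j
    rfl
  · rw [posDef_iff_sum]
    refine ⟨?_, ?_⟩
    · ext i j
      rfl
    · intro x hx
      have h0 : x 0 ≠ 0 := by
        intro h0
        apply hx
        ext i
        rw [Subsingleton.elim i 0, h0]
        rfl
      have h1 : 0 < x 0 ^ 2 := by positivity
      simp only [Fin.sum_univ_one, s1, Matrix.map_apply, Matrix.of_apply]
      nlinarith

private theorem bd00 {R : Type} [Zero R] {k : ℕ} (s : R) (M : Matrix (Fin k) (Fin k) R) :
    bd s M 0 0 = s := rfl

private theorem bd0s {R : Type} [Zero R] {k : ℕ} (s : R) (M : Matrix (Fin k) (Fin k) R)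
    (j : Fin k) : bd s M 0 j.succ = 0 := rfl

private theorem bds0 {R : Type} [Zero R] {k : ℕ} (s : R) (M : Matrix (Fin k) (Fin k) R)
    (i : Fin k) : bd s M i.succ 0 = 0 := rfl

private theorem bdss {R : Type} [Zero R] {k : ℕ} (s : R) (M : Matrix (Fin k) (Fin k) R)
    (i j : Fin k) : bd s M i.succ j.succ = M i j := rfl

private theorem quad_bd {k : ℕ} (σ : ℂ) (τ : Matrix (Fin k) (Fin k) ℂ) (x : Fin (k + 1) → ℝ) :
    ∑ i, ∑ j, x i * ((bd σ τ).map Complex.im) i j * x j =
      σ.im * x 0 ^ 2 + ∑ i : Fin k, ∑ j : Fin k, x i.succ * (τ.map Complex.im) i j * x j.succ := by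
  simp only [Fin.sum_univ_succ, Matrix.map_apply, bd00, bd0s, bds0, bdss, Complex.zero_im,
    mul_zero, zero_mul, Finset.sum_const_zero, add_zero, zero_add]
  ring

theorem bd_mem {k : ℕ} {σ : ℂ} {τ : Matrix (Fin k) (Fin k) ℂ} :
    bd σ τ ∈ Siegel (k + 1) ↔ 0 < σ.im ∧ τ ∈ Siegel k := by
  unfold Siegel
  rw [Set.mem_ofPred_eq, Set.mem_ofPred_eq, posDef_iff_sum, posDef_iff_sum]
  constructor
  · rintro ⟨h1, -, h2⟩
    have hsym : τ.IsSymm := by
      ext i j
      have := congrFun (congrFun h1 i.succ) j.succ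
      exact this
    refine ⟨?_, hsym, ?_, ?_⟩
    · have h3 := h2 (Pi.single 0 1) (by
        intro h
        have := congrFun h 0
        simp at this)
      rw [quad_bd] at h3
      simpa using h3
    · ext i j
      have := congrFun (congrFun hsym i) j
      exact congrArg Complex.im this
    · intro y hy
      have h3 := h2 (Fin.cons 0 y) (by
        intro h
        apply hy
        ext i
        have := congrFun h i.succ
        simpa using this)
      rw [quad_bd] at h3
      simpa using h3
  · rintro ⟨h0, h1, h2, h3⟩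
    refine ⟨?_, ?_, ?_⟩
    · ext i j
      refine Fin.cases ?_ (fun i' => ?_) i <;> refine Fin.cases ?_ (fun j' => ?_) j
      · rfl
      · rfl
      · rfl
      · exact congrFun (congrFun h1 i') j'
    · ext i j
      refine Fin.cases ?_ (fun i' => ?_) i <;> refine Fin.cases ?_ (fun j' => ?_) j
      · rfl
      · rfl
      · rfl
      · exact congrFun (congrFun h2 i') j'
    · intro x hx
      rw [quad_bd]
      by_cases ht : (fun i : Fin k => x i.succ) = 0
      · have hx0 : x 0 ≠ 0 := by
          intro h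
          apply hx
          ext i
          refine Fin.cases h (fun i' => ?_) i
          exact congrFun ht i'
        have e1 : ∑ i : Fin k, ∑ j : Fin k, x i.succ * (τ.map Complex.im) i j * x j.succ = 0 := by
          refine Finset.sum_eq_zero fun i _ => Finset.sum_eq_zero fun j _ => ?_
          have : x i.succ = 0 := congrFun ht i
          rw [this, zero_mul, zero_mul]
        rw [e1]
        positivity
      · have h4 : 0 < ∑ i : Fin k, ∑ j : Fin k,
            x i.succ * (τ.map Complex.im) i j * x j.succ := h3 _ ht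
        have h5 : 0 ≤ σ.im * x 0 ^ 2 := by positivity
        linarith

/-- the reindexing of the summation variable -/
private def eqv (k : ℕ) : (Fin 1 → ℤ) × (Fin k → ℤ) ≃ (Fin (k + 1) → ℤ) where
  toFun z := Fin.cons (z.1 0) z.2
  invFun m := (fun _ => m 0, fun i => m i.succ)
  left_inv := by
    rintro ⟨u, v⟩
    refine Prod.ext ?_ ?_
    · funext i
      show (Fin.cons (u 0) v : Fin (k + 1) → ℤ) 0 = u i
      rw [Fin.cons_zero, Subsingleton.elim i 0]
    · funext i
      rfl
  right_inv := by
    intro m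
    funext i
    refine Fin.cases ?_ (fun i' => ?_) i
    · rfl
    · rfl

/-- Product formula for block diagonal matrices: `Fin.consEquiv`, and the product of two
absolutely convergent sums (`summable_thTerm`). -/
theorem th_bd {k : ℕ} {σ : ℂ} (hσ : 0 < σ.im) {τ : Matrix (Fin k) (Fin k) ℂ}
    (hτ : τ ∈ Siegel k) (a b : Fin (k + 1) → ℝ) :
    th a b (bd σ τ) =
      th (fun _ : Fin 1 => a 0) (fun _ : Fin 1 => b 0) (s1 σ) *
        th (fun i : Fin k => a i.succ) (fun i : Fin k => b i.succ) τ := by
  obtain ⟨c1, hc1, hp1⟩ := exists_posIm (s1_mem hσ)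
  obtain ⟨c2, hc2, hp2⟩ := exists_posIm hτ
  have hs1 := summable_thTerm hc1 (fun _ : Fin 1 => a 0) (fun _ : Fin 1 => b 0) hp1
  have hs2 := summable_thTerm hc2 (fun i : Fin k => a i.succ) (fun i : Fin k => b i.succ) hp2
  unfold th
  rw [tsum_mul_tsum_of_summable_norm hs1.norm hs2.norm, ← (eqv k).tsum_eq]
  refine tsum_congr fun z => ?_
  obtain ⟨u, v⟩ := z
  show thTerm a b (bd σ τ) (Fin.cons (u 0) v) = _
  unfold thTerm
  rw [← Complex.exp_add]
  congr 1
  simp only [qf, Fin.sum_univ_succ, Fin.sum_univ_zero, bd00, bd0s, bds0, bdss, Fin.cons_zero,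
    Fin.cons_succ, s1, Matrix.of_apply, mul_zero, zero_mul, Finset.sum_const_zero, add_zero,
    zero_add]
  ring

end MP6feb
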