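import Pool.Agent.Lib.MP_6febbd_ag.Defs
import Pool.Agent.Lib.MP_6febbd_ag.ThB
import Pool.Agent.Lib.MP_6febbd_ag.Chr

set_option autoImplicit false

open scoped Matrix.Norms.Elementwise Real
open Complex Matrix

noncomputable section

namespace MP6feb

private def gdpJoin {k n : ℕ} (q : (Fin 1 ⊕ Fin 1 → ZMod n) × (Fin k ⊕ Fin k → ZMod n)) :
    Fin (k + 1) ⊕ Fin (k + 1) → ZMod n :=
  Sum.elim (Fin.cons (q.1 (Sum.inl 0)) (fun i => q.2 (Sum.inl i)))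
    (Fin.cons (q.1 (Sum.inr 0)) (fun i => q.2 (Sum.inr i)))

private lemma gdp_inj {k n : ℕ} : Function.Injective (gdpJoin (k := k) (n := n)) := by
  intro q q' h
  refine Prod.ext (funext fun i => ?_) (funext fun i => ?_)
  · rcases i with i | i
    · have h1 := congrFun h (Sum.inl 0)
      rw [Subsingleton.elim i 0]
      simpa [gdpJoin] using h1
    · have h1 := congrFun h (Sum.inr 0)
      rw [Subsingleton.elim i 0]
      simpa [gdpJoin] using h1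
  · rcases i with i | i
    · have h1 := congrFun h (Sum.inl i.succ)
      simpa [gdpJoin] using h1
    · have h1 := congrFun h (Sum.inr i.succ)
      simpa [gdpJoin] using h1

private lemma gdp_surj {k n : ℕ} (x : Fin (k + 1) ⊕ Fin (k + 1) → ZMod n) :
    ∃ q, gdpJoin q = x := by
  refine ⟨(Sum.elim (fun _ => x (Sum.inl 0)) (fun _ => x (Sum.inr 0)),
    Sum.elim (fun i => x (Sum.inl i.succ)) (fun i => x (Sum.inr i.succ))), ?_⟩
  funext i
  rcases i with i | i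
  · refine Fin.cases ?_ (fun i => ?_) i <;> simp [gdpJoin]
  · refine Fin.cases ?_ (fun i => ?_) i <;> simp [gdpJoin]

private lemma gdp_thx {k n : ℕ} {σ : ℂ} (hσ : 0 < σ.im)
    {τ : Matrix (Fin k) (Fin k) ℂ} (hτ : τ ∈ Siegel k)
    (q : (Fin 1 ⊕ Fin 1 → ZMod n) × (Fin k ⊕ Fin k → ZMod n)) :
    thx n (gdpJoin q) (bd σ τ) = thx n q.1 (s1 σ) * thx n q.2 τ := by
  rw [thx, th_bd hσ hτ, thx, thx]
  have e1 : (fun i : Fin 1 => (((q.1 (Sum.inl i)).val : ℝ)) / n) =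
      fun _ : Fin 1 => (((gdpJoin q (Sum.inl 0)).val : ℝ)) / n := by
    funext i
    rw [Subsingleton.elim i 0]
    simp [gdpJoin]
  have e2 : (fun i : Fin 1 => (((q.1 (Sum.inr i)).val : ℝ)) / n) =
      fun _ : Fin 1 => (((gdpJoin q (Sum.inr 0)).val : ℝ)) / n := by
    funext i
    rw [Subsingleton.elim i 0]
    simp [gdpJoin]
  rw [e1, e2]
  rfl

private lemma gdp_NV {k n : ℕ} [NeZero n] {σ : ℂ} (hσ : 0 < σ.im)
    {τ : Matrix (Fin k) (Fin k) ℂ} (hτ : τ ∈ Siegel k) :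
    NV n (bd σ τ) = (NV n (s1 σ) ×ˢ NV n τ).map ⟨gdpJoin, gdp_inj⟩ := by
  ext x
  obtain ⟨q, rfl⟩ := gdp_surj x
  rw [Finset.mem_map]
  simp only [NV, Set.Finite.mem_toFinset, Set.mem_setOf_eq, Finset.mem_product,
    Function.Embedding.coeFn_mk, gdp_thx hσ hτ]
  constructor
  · intro h
    exact ⟨q, ⟨left_ne_zero_of_mul h, right_ne_zero_of_mul h⟩, rfl⟩
  · rintro ⟨q', ⟨h1, h2⟩, h3⟩
    rw [← gdp_inj h3]
    exact mul_ne_zero h1 h2

private lemma gdp_chr {k n : ℕ} (c : Fin (k + 1) ⊕ Fin (k + 1) → ℤ)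
    (q : (Fin 1 ⊕ Fin 1 → ZMod n) × (Fin k ⊕ Fin k → ZMod n)) :
    chr n c (gdpJoin q) =
      chr n (Sum.elim (fun _ : Fin 1 => c (Sum.inl 0)) (fun _ : Fin 1 => c (Sum.inr 0))) q.1 *
      chr n (Sum.elim (fun i : Fin k => c (Sum.inl i.succ))
        (fun i : Fin k => c (Sum.inr i.succ))) q.2 := by
  rw [chr, chr, chr, ← Complex.exp_add]
  congr 1
  simp only [Fintype.sum_sum_type, Fin.sum_univ_succ, gdpJoin, Sum.elim_inl, Sum.elim_inr,
    Fin.cons_zero, Fin.cons_succ, Finset.univ_eq_empty, Finset.sum_empty]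
  ring

private lemma gdp_norm_le {g n : ℕ} (c : Fin g ⊕ Fin g → ℤ)
    (X : Finset (Fin g ⊕ Fin g → ZMod n)) : ‖∑ x ∈ X, chr n c x‖ ≤ X.card := by
  refine (norm_sum_le _ _).trans ?_
  simp only [norm_chr, Finset.sum_const, nsmul_eq_mul, mul_one]
  exact le_rfl

/-- Goodness of a block sum with a one by one block. Proof. By `th_bd` the set
`NV n (bd σ τ)` is the product of `X₁ = NV n (s1 σ)` and `X₂ = NV n τ` (split off the index
`0` in both halves, e.g. `Fin.consEquiv`), and `chr n c (x₁, x₂) = chr n c₁ x₁ · chr n c₂ x₂`.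
If `c₂` is not divisible by `n` use the goodness of `X₂` and `|∑_{X₁}| ≤ #X₁`; otherwise
`c₁` is not divisible by `n`, and `X₁` is good by `good_of_card` with `k = 0`. -/
theorem good_bd {k n : ℕ} [NeZero n] (hn : 2 ≤ n) {σ : ℂ} (hσ : 0 < σ.im)
    {τ : Matrix (Fin k) (Fin k) ℂ} (hτ : τ ∈ Siegel k)
    (h1 : {x : Fin 1 ⊕ Fin 1 → ZMod n | thx n x (s1 σ) = 0}.ncard ≤ 1)
    (h2 : GoodSet n (NV n τ)) : GoodSet n (NV n (bd σ τ)) := by
  have h3 : GoodSet n (NV n (s1 σ)) := good_of_card (k := 0) hn (s1 σ) (by simpa using h1)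
  have hn1 : (0 : ℝ) ≤ (n : ℝ) ^ 2 - 1 := by
    have h4 : (2 : ℝ) ≤ n := by exact_mod_cast hn
    nlinarith
  rw [gdp_NV hσ hτ]
  refine ⟨(Finset.map_nonempty).2 (h3.1.product h2.1), fun c hc => ?_⟩
  rw [Finset.sum_map, Finset.card_map, Finset.card_product]
  simp only [Function.Embedding.coeFn_mk, gdp_chr]
  rw [Finset.sum_product, ← Finset.sum_mul_sum, norm_mul]
  set c1 : Fin 1 ⊕ Fin 1 → ℤ :=
    Sum.elim (fun _ : Fin 1 => c (Sum.inl 0)) (fun _ : Fin 1 => c (Sum.inr 0)) with hc1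
  set c2 : Fin k ⊕ Fin k → ℤ := Sum.elim (fun i : Fin k => c (Sum.inl i.succ))
        (fun i : Fin k => c (Sum.inr i.succ)) with hc2
  have e1 := gdp_norm_le (n := n) c1 (NV n (s1 σ))
  have e2 := gdp_norm_le (n := n) c2 (NV n τ)
  have p1 := norm_nonneg (∑ x ∈ NV n (s1 σ), chr n c1 x)
  have p2 := norm_nonneg (∑ x ∈ NV n τ, chr n c2 x)
  push_cast
  by_cases hd : ∃ i, ¬ ((n : ℤ) ∣ c2 i)
  · have e3 := h2.2 c2 hd
    calc ‖∑ x ∈ NV n (s1 σ), chr n c1 x‖ * ‖∑ x ∈ NV n τ, chr n c2 x‖ * ((n : ℝ) ^ 2 - 1)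
        = ‖∑ x ∈ NV n (s1 σ), chr n c1 x‖ *
          (‖∑ x ∈ NV n τ, chr n c2 x‖ * ((n : ℝ) ^ 2 - 1)) := by ring
      _ ≤ ((NV n (s1 σ)).card : ℝ) * ((NV n τ).card : ℝ) :=
          mul_le_mul e1 e3 (mul_nonneg p2 hn1) (Nat.cast_nonneg _)
  · have hd1 : ∃ i, ¬ ((n : ℤ) ∣ c1 i) := by
      obtain ⟨i, hi⟩ := hc
      rcases i with i | i
      · revert hi
        refine Fin.cases (fun hi => ⟨Sum.inl 0, hi⟩) (fun j hj => ?_) i
        exact absurd ⟨Sum.inl j, hj⟩ hd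
      · revert hi
        refine Fin.cases (fun hi => ⟨Sum.inr 0, hi⟩) (fun j hj => ?_) i
        exact absurd ⟨Sum.inr j, hj⟩ hd
    have e3 := h3.2 c1 hd1
    calc ‖∑ x ∈ NV n (s1 σ), chr n c1 x‖ * ‖∑ x ∈ NV n τ, chr n c2 x‖ * ((n : ℝ) ^ 2 - 1)
        = (‖∑ x ∈ NV n (s1 σ), chr n c1 x‖ * ((n : ℝ) ^ 2 - 1)) *
          ‖∑ x ∈ NV n τ, chr n c2 x‖ := by ring
      _ ≤ ((NV n (s1 σ)).card : ℝ) * ((NV n τ).card : ℝ) :=
          mul_le_mul e3 e2 p2 (Nat.cast_nonneg _)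

end MP6feb
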