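import Pool.Agent.Lib.MP_6febbd_ag.Defs

set_option autoImplicit false

open scoped Matrix.Norms.Elementwise Real
open Complex Matrix

noncomputable section

namespace MP6feb

open MeasureTheory

/-- the linear map `x + i y ↦ x + y σ` -/
private def jlsA (σ : ℂ) : ℂ →ₗ[ℝ] ℂ where
  toFun z := (z.re : ℂ) + (z.im : ℂ) * σ
  map_add' x y := by
    simp only [Complex.add_re, Complex.add_im]
    push_cast
    ring
  map_smul' c x := by
    simp only [Complex.real_smul, Complex.re_ofReal_mul, Complex.im_ofReal_mul, RingHom.id_apply]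
    push_cast
    ring

private lemma jlsA_det (σ : ℂ) : LinearMap.det (jlsA σ) = σ.im := by
  rw [← LinearMap.det_toMatrix Complex.basisOneI, Matrix.det_fin_two]
  simp only [LinearMap.toMatrix_apply, Complex.coe_basisOneI, Complex.coe_basisOneI_repr]
  simp [jlsA]

/-- the unit square -/
private def jlsQ : Set ℂ := {z | z.re ∈ Set.Ico (0 : ℝ) 1 ∧ z.im ∈ Set.Ico (0 : ℝ) 1}

private lemma jlsQ_vol : volume jlsQ = 1 := by
  have h1 : jlsQ = Complex.measurableEquivRealProd ⁻¹' (Set.Ico (0 : ℝ) 1 ×ˢ Set.Ico (0 : ℝ) 1) := by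
    ext z
    simp [jlsQ]
  rw [h1, Complex.volume_preserving_equiv_real_prod.measure_preimage
    (measurableSet_Ico.prod measurableSet_Ico).nullMeasurableSet, Measure.volume_eq_prod,
    Measure.prod_prod, Real.volume_Ico]
  simp

private def jlsP (σ : ℂ) : Set ℂ := jlsA σ '' jlsQ

private lemma jlsP_vol {σ : ℂ} (hσ : 0 < σ.im) : volume (jlsP σ) = ENNReal.ofReal σ.im := by
  unfold jlsP
  rw [Measure.addHaar_image_linearMap, jlsA_det, jlsQ_vol, mul_one, abs_of_pos hσ]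

private lemma jlsP_norm {σ z : ℂ} (hz : z ∈ jlsP σ) : ‖z‖ ≤ 1 + ‖σ‖ := by
  obtain ⟨w, hw, rfl⟩ := hz
  change ‖(w.re : ℂ) + (w.im : ℂ) * σ‖ ≤ _
  refine (norm_add_le _ _).trans ?_
  rw [norm_mul, Complex.norm_real, Complex.norm_real, Real.norm_of_nonneg hw.1.1,
    Real.norm_of_nonneg hw.2.1]
  have h1 := hw.1.2.le
  have h2 : w.im * ‖σ‖ ≤ 1 * ‖σ‖ := mul_le_mul_of_nonneg_right hw.2.2.le (norm_nonneg _)
  linarith

/-- every point is in a translate of `P` by a lattice point -/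
private lemma jls_cover {σ : ℂ} (hσ : 0 < σ.im) (s v : ℂ) :
    ∃ p q : ℤ, v - (s + p * σ + q) ∈ jlsP σ := by
  set x : ℝ := (v - s).im / σ.im with hx
  set y : ℝ := (v - s).re - x * σ.re with hy
  have hv : v - s = (y : ℂ) + (x : ℂ) * σ := by
    apply Complex.ext
    · rw [Complex.add_re, Complex.ofReal_re, Complex.re_ofReal_mul, hy]
      ring
    · rw [Complex.add_im, Complex.ofReal_im, Complex.im_ofReal_mul, hx]
      field_simp
      ring
  refine ⟨⌊x⌋, ⌊y⌋, ?_⟩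
  refine ⟨((Int.fract y : ℝ) : ℂ) + ((Int.fract x : ℝ) : ℂ) * Complex.I, ?_, ?_⟩
  · constructor
    · simp only [Complex.add_re, Complex.ofReal_re, Complex.re_ofReal_mul, Complex.I_re, mul_zero,
        add_zero]
      exact ⟨Int.fract_nonneg _, Int.fract_lt_one _⟩
    · simp only [Complex.add_im, Complex.ofReal_im, Complex.im_ofReal_mul, Complex.I_im, mul_one,
        zero_add]
      exact ⟨Int.fract_nonneg _, Int.fract_lt_one _⟩
  · change (((((Int.fract y : ℝ) : ℂ) + ((Int.fract x : ℝ) : ℂ) * Complex.I).re : ℝ) : ℂ) +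
      (((((Int.fract y : ℝ) : ℂ) + ((Int.fract x : ℝ) : ℂ) * Complex.I).im : ℝ) : ℂ) * σ = _
    simp only [Complex.add_re, Complex.ofReal_re, Complex.re_ofReal_mul, Complex.I_re, mul_zero,
        add_zero, Complex.add_im, Complex.ofReal_im, Complex.im_ofReal_mul, Complex.I_im, mul_one,
        zero_add]
    have h1 : v - (s + (⌊x⌋ : ℂ) * σ + (⌊y⌋ : ℂ)) = (v - s) - (⌊x⌋ : ℂ) * σ - (⌊y⌋ : ℂ) := by ring
    rw [h1, hv]
    unfold Int.fract
    push_cast
    ring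

private lemma jls_finite {σ : ℂ} (hσ : 0 < σ.im) (s : ℂ) (R : ℝ) :
    {u : ℂ | (∃ p q : ℤ, u = s + p * σ + q) ∧ ‖u‖ ≤ R}.Finite := by
  set X : ℝ := (R + ‖s‖) / σ.im with hX
  set Y : ℝ := R + ‖s‖ + X * ‖σ‖ with hY
  have hbox : (Set.Icc (-⌈X⌉) ⌈X⌉ ×ˢ Set.Icc (-⌈Y⌉) ⌈Y⌉ : Set (ℤ × ℤ)).Finite :=
    (Set.finite_Icc _ _).prod (Set.finite_Icc _ _)
  refine (hbox.image (fun pq : ℤ × ℤ => s + (pq.1 : ℂ) * σ + (pq.2 : ℂ))).subset ?_
  rintro u ⟨⟨p, q, rfl⟩, hu⟩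
  refine ⟨(p, q), ?_, rfl⟩
  have h1 : |(p : ℝ)| ≤ X := by
    have h2 : |(s + (p : ℂ) * σ + (q : ℂ)).im| ≤ R := (Complex.abs_im_le_norm _).trans hu
    have h3 : (s + (p : ℂ) * σ + (q : ℂ)).im = s.im + p * σ.im := by
      rw [Complex.add_im, Complex.add_im, Complex.intCast_im, add_zero, Complex.mul_im,
        Complex.intCast_re, Complex.intCast_im, zero_mul, add_zero]
    rw [h3] at h2
    have h4 : |s.im| ≤ ‖s‖ := Complex.abs_im_le_norm _
    rw [hX, le_div_iff₀ hσ]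
    calc |(p : ℝ)| * σ.im = |p * σ.im| := by rw [abs_mul, abs_of_pos hσ]
      _ = |(s.im + p * σ.im) - s.im| := by congr 1; ring
      _ ≤ |s.im + p * σ.im| + |s.im| := abs_sub _ _
      _ ≤ R + ‖s‖ := by linarith
  have h5 : |(q : ℝ)| ≤ Y := by
    have h6 : (q : ℂ) = (s + (p : ℂ) * σ + (q : ℂ)) - s - (p : ℂ) * σ := by ring
    have h7 : ‖(q : ℂ)‖ ≤ ‖s + (p : ℂ) * σ + (q : ℂ)‖ + ‖s‖ + ‖(p : ℂ) * σ‖ := by
      conv_lhs => rw [h6]
      exact (norm_sub_le _ _).trans (add_le_add_left (norm_sub_le _ _) _)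
    rw [Complex.norm_intCast, norm_mul, Complex.norm_intCast] at h7
    have h8 : |(p : ℝ)| * ‖σ‖ ≤ X * ‖σ‖ := mul_le_mul_of_nonneg_right h1 (norm_nonneg _)
    rw [hY]
    linarith
  rw [abs_le] at h1 h5
  refine ⟨⟨?_, ?_⟩, ⟨?_, ?_⟩⟩
  · have h9 : -(⌈X⌉ : ℝ) ≤ p := by linarith [Int.le_ceil X]
    exact_mod_cast h9
  · have h9 : (p : ℝ) ≤ ⌈X⌉ := by linarith [Int.le_ceil X]
    exact_mod_cast h9
  · have h9 : -(⌈Y⌉ : ℝ) ≤ q := by linarith [Int.le_ceil Y]
    exact_mod_cast h9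
  · have h9 : (q : ℝ) ≤ ⌈Y⌉ := by linarith [Int.le_ceil Y]
    exact_mod_cast h9

private lemma jls_count {σ : ℂ} (hσ : 0 < σ.im) (s : ℂ) {ρ : ℝ} (hρ : 1 + ‖σ‖ ≤ ρ) (T : Finset ℂ)
    (hT : ∀ p q : ℤ, ‖s + (p : ℂ) * σ + (q : ℂ)‖ ≤ ρ → s + (p : ℂ) * σ + (q : ℂ) ∈ T) :
    π * (ρ - (1 + ‖σ‖)) ^ 2 ≤ T.card * σ.im := by
  have hsub : Metric.ball (0 : ℂ) (ρ - (1 + ‖σ‖)) ⊆ ⋃ u ∈ T, (fun z => u + z) '' jlsP σ := by
    intro v hv
    rw [mem_ball_zero_iff] at hv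
    obtain ⟨p, q, hpq⟩ := jls_cover hσ s v
    have h1 := jlsP_norm hpq
    have h2 : ‖s + (p : ℂ) * σ + (q : ℂ)‖ ≤ ρ := by
      have h3 : s + (p : ℂ) * σ + (q : ℂ) = v - (v - (s + (p : ℂ) * σ + (q : ℂ))) := by ring
      rw [h3]
      refine (norm_sub_le _ _).trans ?_
      linarith
    rw [Set.mem_iUnion₂]
    exact ⟨_, hT p q h2, _, hpq, by ring⟩
  have h1 : volume (Metric.ball (0 : ℂ) (ρ - (1 + ‖σ‖))) ≤
      ∑ u ∈ T, volume ((fun z => u + z) '' jlsP σ) :=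
    (measure_mono hsub).trans (measure_biUnion_finset_le _ _)
  have h2 : ∀ u : ℂ, volume ((fun z => u + z) '' jlsP σ) = ENNReal.ofReal σ.im := by
    intro u
    rw [Set.image_add_left, measure_preimage_add, jlsP_vol hσ]
  simp only [h2] at h1
  rw [Finset.sum_const, Complex.volume_ball, nsmul_eq_mul] at h1
  have h3 : (ENNReal.ofReal (ρ - (1 + ‖σ‖)) ^ 2 * (NNReal.pi : ENNReal)).toReal =
      π * (ρ - (1 + ‖σ‖)) ^ 2 := by
    rw [ENNReal.toReal_mul, ENNReal.toReal_pow, ENNReal.toReal_ofReal (by linarith)]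
    rw [ENNReal.coe_toReal, NNReal.coe_real_pi]
    ring
  have h4 : ((T.card : ENNReal) * ENNReal.ofReal σ.im).toReal = T.card * σ.im := by
    rw [ENNReal.toReal_mul, ENNReal.toReal_natCast, ENNReal.toReal_ofReal hσ.le]
  rw [← h3, ← h4]
  apply ENNReal.toReal_mono _ h1
  exact ENNReal.mul_ne_top (ENNReal.natCast_ne_top _) ENNReal.ofReal_ne_top

private lemma jls_tele {x : ℝ} (hx : 0 < x) (N : ℕ) (hN : 1 ≤ N) :
    (∑ j ∈ Finset.Ico 1 N, if x ≤ (j : ℝ) then Real.log ((j : ℝ) + 1) - Real.log j else 0) ≤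
      max 0 (Real.log N - Real.log x) := by
  induction N, hN using Nat.le_induction with
  | base => simp
  | succ N hN ih =>
    rw [Finset.sum_Ico_succ_top hN]
    have hN0 : (0 : ℝ) < N := by exact_mod_cast hN
    by_cases h : x ≤ (N : ℝ)
    · rw [if_pos h]
      have h1 : 0 ≤ Real.log N - Real.log x := sub_nonneg.mpr (Real.log_le_log hx h)
      rw [max_eq_right h1] at ih
      refine le_trans ?_ (le_max_right _ _)
      push_cast
      linarith
    · rw [if_neg h, add_zero]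
      refine ih.trans (max_le_max le_rfl ?_)
      have h2 : Real.log N ≤ Real.log ((N + 1 : ℕ) : ℝ) := by
        apply Real.log_le_log hN0
        push_cast
        linarith
      linarith

/-- Sum over a translate of a lattice. Proof. Let `d = 1 + ‖σ‖` and let `P` be the half open
parallelogram spanned by `1, σ` (area `Im σ`, diameter at most `d`). Let `T` be the set of
all `u = s + pσ + q` with `‖u‖ ≤ R` (finite). For `v ∈ u + P` we have `‖u‖ ≤ ‖v‖ + d`, so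
`log(R/‖u‖) ≥ (Im σ)⁻¹ ∫_{u+P} log⁺(R/(‖v‖+d)) dv`; the sets `u + P`, `u ∈ T`, are disjoint and
cover the disc `‖v‖ ≤ R - d`. Hence the sum is at least
`(Im σ)⁻¹ ∫_{‖v‖≤R-d} log(R/(‖v‖+d)) dv = (Im σ)⁻¹ 2π ∫_d^R log(R/y)(y-d) dy
≥ (Im σ)⁻¹ (π R²/2 - C R)`. (Alternative without polar coordinates: the counting
function satisfies `n(ρ) Im σ ≥ π (ρ-d)²` and `∑_{u ∈ T} log(R/‖u‖) = ∫_0^R n(ρ) dρ/ρ`.) -/
theorem lattice_log_sum {σ : ℂ} (hσ : 0 < σ.im) (s : ℂ) (hs : ∀ p q : ℤ, s + p * σ + q ≠ 0) :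
    ∃ C : ℝ, ∀ R : ℝ, 1 ≤ R → ∃ T : Finset ℂ,
      (∀ u ∈ T, (∃ p q : ℤ, u = s + p * σ + q) ∧ ‖u‖ ≤ R) ∧
      π * R ^ 2 / (2 * σ.im) - C * R ≤ ∑ u ∈ T, Real.log (R / ‖u‖) := by
  classical
  set d : ℝ := 1 + ‖σ‖ with hd
  have hd0 : 0 < d := by have := norm_nonneg σ; linarith
  refine ⟨π / σ.im * (5 / 2 + 2 * d), ?_⟩
  intro R hR
  set T : Finset ℂ := (jls_finite hσ s R).toFinset with hT
  have hTmem : ∀ u, u ∈ T ↔ (∃ p q : ℤ, u = s + p * σ + q) ∧ ‖u‖ ≤ R := by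
    intro u
    rw [hT, Set.Finite.mem_toFinset]
    rfl
  refine ⟨T, fun u hu => (hTmem u).mp hu, ?_⟩
  set N : ℕ := ⌊R⌋₊ with hN
  have hN1 : 1 ≤ N := by
    rw [hN]
    exact Nat.le_floor (by exact_mod_cast hR)
  have hNR : (N : ℝ) ≤ R := Nat.floor_le (by linarith)
  have hNR' : R < N + 1 := Nat.lt_floor_add_one R
  have hN0 : (0 : ℝ) < N := by exact_mod_cast hN1
  have hpi := Real.pi_pos
  -- first lower bound
  have h1 : ∀ u ∈ T, (∑ j ∈ Finset.Ico 1 N,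
      if ‖u‖ ≤ (j : ℝ) then Real.log ((j : ℝ) + 1) - Real.log j else 0) ≤
        Real.log (R / ‖u‖) := by
    intro u hu
    obtain ⟨⟨p, q, hpq⟩, huR⟩ := (hTmem u).mp hu
    have hu0 : 0 < ‖u‖ := by
      rw [norm_pos_iff, hpq]
      exact hs p q
    refine (jls_tele hu0 N hN1).trans ?_
    rw [Real.log_div (by linarith) hu0.ne']
    apply max_le
    · exact sub_nonneg.mpr (Real.log_le_log hu0 huR)
    · exact sub_le_sub_right (Real.log_le_log hN0 hNR) _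
  have h2 : ∑ u ∈ T, (∑ j ∈ Finset.Ico 1 N,
      if ‖u‖ ≤ (j : ℝ) then Real.log ((j : ℝ) + 1) - Real.log j else 0) ≤
        ∑ u ∈ T, Real.log (R / ‖u‖) := Finset.sum_le_sum h1
  refine le_trans ?_ h2
  rw [Finset.sum_comm]
  -- bound for each radius
  have h3 : ∀ j ∈ Finset.Ico 1 N, π / σ.im * ((j : ℝ) - 1 - 2 * d) ≤
      ∑ u ∈ T, (if ‖u‖ ≤ (j : ℝ) then Real.log ((j : ℝ) + 1) - Real.log j else 0) := by
    intro j hj
    rw [Finset.mem_Ico] at hj
    have hj0 : (0 : ℝ) < j := by exact_mod_cast hj.1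
    have hjN : (j : ℝ) ≤ N := by exact_mod_cast hj.2.le
    have hlog : 1 / ((j : ℝ) + 1) ≤ Real.log ((j : ℝ) + 1) - Real.log j := by
      rw [← Real.log_div (by positivity) hj0.ne']
      refine le_trans ?_ (Real.one_sub_inv_le_log_of_pos (by positivity))
      rw [inv_div]
      apply le_of_eq
      field_simp
      ring
    have hlog0 : 0 ≤ Real.log ((j : ℝ) + 1) - Real.log j := le_trans (by positivity) hlog
    by_cases hjd : (j : ℝ) ≤ 2 * d
    · have h4 : π / σ.im * ((j : ℝ) - 1 - 2 * d) ≤ 0 :=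
        mul_nonpos_of_nonneg_of_nonpos (by positivity) (by linarith)
      refine h4.trans (Finset.sum_nonneg ?_)
      intro u _
      split_ifs
      · exact hlog0
      · exact le_rfl
    · push Not at hjd
      rw [← Finset.sum_filter, Finset.sum_const, nsmul_eq_mul]
      have hcount := jls_count hσ s (ρ := j) (by linarith)
        (T.filter (fun u => ‖u‖ ≤ (j : ℝ))) (by
          intro p q hpq
          rw [Finset.mem_filter, hTmem]
          exact ⟨⟨⟨p, q, rfl⟩, hpq.trans (hjN.trans hNR)⟩, hpq⟩)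
      set n : ℝ := ((T.filter (fun u => ‖u‖ ≤ (j : ℝ))).card : ℝ) with hn
      have h5 : π / σ.im * ((j : ℝ) ^ 2 - 2 * d * j) ≤ n := by
        rw [div_mul_eq_mul_div, div_le_iff₀ hσ]
        refine le_trans ?_ hcount
        apply mul_le_mul_of_nonneg_left _ hpi.le
        rw [← hd]
        nlinarith [sq_nonneg d]
      have h6 : 0 ≤ (j : ℝ) ^ 2 - 2 * d * j := by nlinarith
      calc π / σ.im * ((j : ℝ) - 1 - 2 * d)
          ≤ π / σ.im * (((j : ℝ) ^ 2 - 2 * d * j) * (1 / ((j : ℝ) + 1))) := by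
            apply mul_le_mul_of_nonneg_left _ (by positivity)
            rw [mul_one_div, le_div_iff₀ (by positivity)]
            nlinarith
        _ = π / σ.im * ((j : ℝ) ^ 2 - 2 * d * j) * (1 / ((j : ℝ) + 1)) := by ring
        _ ≤ n * (1 / ((j : ℝ) + 1)) := mul_le_mul_of_nonneg_right h5 (by positivity)
        _ ≤ n * (Real.log ((j : ℝ) + 1) - Real.log j) :=
            mul_le_mul_of_nonneg_left hlog (by positivity)
  refine le_trans ?_ (Finset.sum_le_sum h3)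
  rw [← Finset.mul_sum]
  have h4 : ∀ M : ℕ, 1 ≤ M → ∑ j ∈ Finset.Ico 1 M, ((j : ℝ) - 1 - 2 * d) =
      ((M : ℝ) - 1) * (M - 2) / 2 - 2 * d * (M - 1) := by
    intro M hM
    induction M, hM using Nat.le_induction with
    | base => simp
    | succ M hM ih =>
      rw [Finset.sum_Ico_succ_top hM, ih]
      push_cast
      ring
  rw [h4 N hN1]
  have h5 : R ^ 2 / 2 - (5 / 2 + 2 * d) * R ≤ ((N : ℝ) - 1) * (N - 2) / 2 - 2 * d * (N - 1) := by
    have h6 : R - 1 ≤ N := by linarith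
    have h7 : 2 * d * ((N : ℝ) - 1) ≤ 2 * d * R := by
      apply mul_le_mul_of_nonneg_left _ (by linarith)
      linarith
    have h8 : (R - 1) ^ 2 ≤ (N : ℝ) ^ 2 := by
      apply pow_le_pow_left₀ (by linarith) h6
    nlinarith
  have h9 : π * R ^ 2 / (2 * σ.im) - π / σ.im * (5 / 2 + 2 * d) * R =
      π / σ.im * (R ^ 2 / 2 - (5 / 2 + 2 * d) * R) := by
    field_simp
  rw [h9]
  exact mul_le_mul_of_nonneg_left h5 (by positivity)

end MP6feb
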