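import Pool.Agent.Lib.MP_6febbd_ag.Defs
import Pool.Agent.Lib.MP_6febbd_ag.JLs

set_option autoImplicit false

open scoped Matrix.Norms.Elementwise Real
open Complex Matrix

noncomputable section

namespace MP6feb

open MeromorphicOn Metric MeasureTheory in
/-- The divisor of an entire function is at least one at a zero. -/
private lemma one_le_divisor {g : ℂ → ℂ} (hg : Differentiable ℂ g) (h0 : g 0 ≠ 0) {R : ℝ}
    (hR : 0 < R) {u : ℂ} (hu0 : g u = 0) (hun : ‖u‖ ≤ R) :
    (1 : ℤ) ≤ divisor g (closedBall 0 |R|) u := by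
  have hA : AnalyticOnNhd ℂ g (closedBall 0 |R|) := fun z _ => hg.analyticAt z
  have habs : |R| = R := abs_of_pos hR
  have hmem : u ∈ closedBall (0 : ℂ) |R| := by
    rw [mem_closedBall, dist_zero_right, habs]; exact hun
  have h1 := AnalyticOnNhd.divisor_apply hA hmem
  have h2 : analyticOrderAt g u ≠ 0 := by
    rw [Ne, (hA u hmem).analyticOrderAt_eq_zero]
    simpa using hu0
  have h3 : analyticOrderAt g u ≠ ⊤ := by
    intro htop
    rw [analyticOrderAt_eq_top] at htop
    have hall : AnalyticOnNhd ℂ g Set.univ := fun z _ => hg.analyticAt z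
    have := hall.eqOn_zero_of_preconnected_of_eventuallyEq_zero isPreconnected_univ
      (Set.mem_univ u) htop
    exact h0 (this (Set.mem_univ 0))
  obtain ⟨n, hn⟩ := ENat.ne_top_iff_exists.mp h3
  rw [← hn] at h1 h2
  rw [h1]
  have h4 : n ≠ 0 := by
    intro h
    apply h2
    simp [h]
  simp
  omega

open MeromorphicOn Metric MeasureTheory in
/-- Lower bound in the formula of Jensen by any finite set of zeros. -/
private lemma jensen_zeros {g : ℂ → ℂ} (hg : Differentiable ℂ g) (h0 : g 0 ≠ 0) {R : ℝ}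
    (hR : 0 < R) (T : Finset ℂ) (hT : ∀ u ∈ T, g u = 0 ∧ ‖u‖ ≤ R) :
    ∑ u ∈ T, Real.log (R / ‖u‖) + Real.log ‖g 0‖ ≤
      Real.circleAverage (fun z => Real.log ‖g z‖) 0 R := by
  have hA : AnalyticOnNhd ℂ g (closedBall 0 |R|) := fun z _ => hg.analyticAt z
  have hJ := AnalyticOnNhd.circleAverage_log_norm (c := 0) hR.ne' hA h0
  rw [hJ]
  have hnn := AnalyticOnNhd.divisor_nonneg hA
  have habs : |R| = R := abs_of_pos hR
  have hfin := (divisor g (closedBall 0 |R|)).finiteSupport (isCompact_closedBall 0 |R|)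
  set D := divisor g (closedBall 0 |R|) with hD
  have hval : ∀ u ∈ T, (1 : ℤ) ≤ D u := fun u hu =>
    one_le_divisor hg h0 hR (hT u hu).1 (hT u hu).2
  have hterm : ∀ u, 0 ≤ (D u : ℝ) * Real.log (R * ‖(0 : ℂ) - u‖⁻¹) := by
    intro u
    by_cases hu : u ∈ closedBall (0 : ℂ) |R|
    · apply mul_nonneg
      · exact_mod_cast hnn u
      · rcases eq_or_ne u 0 with rfl | hne
        · simp
        · apply Real.log_nonneg
          have hpos : 0 < ‖(0 : ℂ) - u‖ := by simpa using hne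
          rw [← div_eq_mul_inv, one_le_div hpos]
          rw [mem_closedBall, dist_zero_right, habs] at hu
          simpa using hu
    · have : D u = 0 := by
        by_contra hne
        exact hu (D.supportWithinDomain hne)
      simp [this]
  have hsub : ∑ u ∈ T, Real.log (R / ‖u‖) ≤
      ∑ᶠ u, (D u : ℝ) * Real.log (R * ‖(0 : ℂ) - u‖⁻¹) := by
    have hfs : (Function.support fun u => (D u : ℝ) * Real.log (R * ‖(0 : ℂ) - u‖⁻¹)) ⊆
        ((hfin.toFinset ∪ T : Finset ℂ) : Set ℂ) := by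
      intro u hu
      simp only [Finset.coe_union, Set.mem_union, Finset.mem_coe, Set.Finite.mem_toFinset]
      left
      intro h
      apply hu
      simp [h]
    rw [finsum_eq_sum_of_support_subset _ hfs]
    calc ∑ u ∈ T, Real.log (R / ‖u‖)
        ≤ ∑ u ∈ T, (D u : ℝ) * Real.log (R * ‖(0 : ℂ) - u‖⁻¹) := by
          apply Finset.sum_le_sum
          intro u hu
          have h1 := hval u hu
          have h2 : (1 : ℝ) ≤ D u := by exact_mod_cast h1
          have h3 : Real.log (R / ‖u‖) = Real.log (R * ‖(0 : ℂ) - u‖⁻¹) := by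
            simp [div_eq_mul_inv]
          rw [h3]
          have hune : u ≠ 0 := by
            rintro rfl
            exact h0 (hT 0 hu).1
          have h4 : 0 ≤ Real.log (R * ‖(0 : ℂ) - u‖⁻¹) := by
            apply Real.log_nonneg
            have hpos : 0 < ‖(0 : ℂ) - u‖ := by simpa using hune
            rw [← div_eq_mul_inv, one_le_div hpos]
            simpa using (hT u hu).2
          nlinarith
      _ ≤ _ := Finset.sum_le_sum_of_subset_of_nonneg Finset.subset_union_right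
          (fun u _ _ => hterm u)
  linarith

open MeromorphicOn Metric MeasureTheory in
/-- Upper bound for the circle mean of `log ‖g‖` by the mean of an exponent. -/
private lemma circle_upper {g : ℂ → ℂ} (hg : Differentiable ℂ g) (h0 : g 0 ≠ 0) {R : ℝ}
    (hR : 0 < R) (x y z A : ℝ)
    (hb : ∀ t : ℂ, ‖t‖ = R → ‖g t‖ ≤
      Real.exp (x * t.re ^ 2 + y * t.re * t.im + z * t.im ^ 2 + A)) :
    Real.circleAverage (fun t => Real.log ‖g t‖) 0 R ≤ (x + z) * R ^ 2 / 2 + A := by
  have hA : AnalyticOnNhd ℂ g (closedBall 0 |R|) := fun z _ => hg.analyticAt z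
  have hint : CircleIntegrable (fun t => Real.log ‖g t‖) 0 R :=
    (hA.mono sphere_subset_closedBall).meromorphicOn.circleIntegrable_log_norm
  have habs : |R| = R := abs_of_pos hR
  have hfin := (divisor g (closedBall 0 |R|)).finiteSupport (isCompact_closedBall 0 |R|)
  have hcount : (circleMap 0 R ⁻¹' {u | g u = 0 ∧ ‖u‖ ≤ R}).Countable := by
    apply Set.Countable.preimage_circleMap _ 0 hR.ne'
    apply hfin.countable.mono
    rintro u ⟨hu0, hun⟩
    have h1 := one_le_divisor hg h0 hR hu0 hun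
    change divisor g (closedBall 0 |R|) u ≠ 0
    omega
  set Q : ℝ → ℝ := fun θ => x * (R * Real.cos θ) ^ 2 +
    y * (R * Real.cos θ) * (R * Real.sin θ) + z * (R * Real.sin θ) ^ 2 + A with hQ
  have hle : ∫ θ in (0:ℝ)..2 * π, Real.log ‖g (circleMap 0 R θ)‖ ≤
      ∫ θ in (0:ℝ)..2 * π, Q θ := by
    apply intervalIntegral.integral_mono_ae Real.two_pi_pos.le hint
    · apply Continuous.intervalIntegrable
      fun_prop
    · have hnull : volume (circleMap 0 R ⁻¹' {u | g u = 0 ∧ ‖u‖ ≤ R}) = 0 :=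
        hcount.measure_zero _
      filter_upwards [measure_eq_zero_iff_ae_notMem.mp hnull] with θ hθ
      have hnorm : ‖circleMap 0 R θ‖ = R := by
        rw [norm_circleMap_zero, habs]
      have hne : g (circleMap 0 R θ) ≠ 0 := fun h => hθ ⟨h, hnorm.le⟩
      have hpos : 0 < ‖g (circleMap 0 R θ)‖ := norm_pos_iff.mpr hne
      have := hb _ hnorm
      rw [← Real.log_le_iff_le_exp hpos] at this
      have hre : (circleMap 0 R θ).re = R * Real.cos θ := by
        simp [circleMap, Complex.exp_re]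
      have him : (circleMap 0 R θ).im = R * Real.sin θ := by
        simp [circleMap, Complex.exp_im]
      rw [hre, him] at this
      exact this
  have hQi : ∫ θ in (0:ℝ)..2 * π, Q θ = 2 * π * ((x + z) * R ^ 2 / 2 + A) := by
    have hQ2 : Q = fun θ => ((x * R ^ 2) * Real.cos θ ^ 2 +
        (y * R ^ 2) * (Real.sin θ * Real.cos θ)) + ((z * R ^ 2) * Real.sin θ ^ 2 + A) := by
      funext θ
      simp only [hQ]
      ring
    rw [hQ2, intervalIntegral.integral_add, intervalIntegral.integral_add,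
      intervalIntegral.integral_add, intervalIntegral.integral_const_mul,
      intervalIntegral.integral_const_mul, intervalIntegral.integral_const_mul,
      integral_cos_sq, integral_sin_sq, integral_sin_mul_cos₁]
    · simp
      ring
    all_goals
      apply Continuous.intervalIntegrable
      fun_prop
  rw [Real.circleAverage_def]
  calc (2 * π)⁻¹ • ∫ θ in (0:ℝ)..2 * π, Real.log ‖g (circleMap 0 R θ)‖
      ≤ (2 * π)⁻¹ • ∫ θ in (0:ℝ)..2 * π, Q θ := by
        simp only [smul_eq_mul]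
        exact mul_le_mul_of_nonneg_left hle (by positivity)
    _ = (x + z) * R ^ 2 / 2 + A := by
        rw [hQi, smul_eq_mul]
        have : (2 * π) ≠ 0 := by positivity
        field_simp

private lemma lim_le {a b A B : ℝ} (h : ∀ R : ℝ, 1 ≤ R → a * R ^ 2 ≤ b * R ^ 2 + A * R + B) :
    a ≤ b := by
  by_contra hcon
  push Not at hcon
  set δ := a - b with hδ
  have hδp : 0 < δ := by linarith
  set R := max 1 ((|A| + |B| + 1) / δ) with hR
  have hR1 : 1 ≤ R := le_max_left _ _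
  have hR2 : (|A| + |B| + 1) / δ ≤ R := le_max_right _ _
  have h1 := h R hR1
  have h2 : |A| + |B| + 1 ≤ R * δ := by
    rwa [div_le_iff₀ hδp] at hR2
  have h3 : (|A| + |B| + 1) * R ≤ R * δ * R := by
    apply mul_le_mul_of_nonneg_right h2 (by linarith)
  have h4 : A * R ≤ |A| * R := mul_le_mul_of_nonneg_right (le_abs_self A) (by linarith)
  have h5 : B ≤ |B| * R := by
    calc B ≤ |B| := le_abs_self B
      _ ≤ |B| * R := by nlinarith [abs_nonneg B]
  nlinarith

/-- Sharp zero count for entire functions of one variable vanishing on translates of a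
lattice. Proof. Replace `f` by `f(t₀ + ·)` with `f(t₀) ≠ 0` (this changes the exponent by
an affine function of the coordinates, and translates `S`), so `f 0 ≠ 0`. Take
`T_s` from `lattice_log_sum` for `s ∈ S`; these sets are disjoint by `hinc` and consist of
zeros of `f`. Jensen's formula (`AnalyticOnNhd.circleAverage_log_norm`; the divisor is
nonnegative and at least `1` at every zero) gives
`∑_s ∑_{u ∈ T_s} log(R/‖u‖) ≤ circleAverage(log‖f‖, R) - log‖f 0‖
≤ (x+z)R²/2 + C(1+R) - log‖f 0‖` (the circle average of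
`x re² + y re im + z im²` is `(x+z)R²/2`). Divide by `R²/2` and let `R → ∞`. -/
theorem jensen_lattice {f : ℂ → ℂ} (hf : Differentiable ℂ f) (hne : ∃ z, f z ≠ 0)
    {σ : ℂ} (hσ : 0 < σ.im) (x y z C : ℝ)
    (hgr : ∀ t : ℂ, ‖f t‖ ≤
      Real.exp (x * t.re ^ 2 + y * t.re * t.im + z * t.im ^ 2 + C * (1 + ‖t‖)))
    (S : Finset ℂ) (hS : ∀ s ∈ S, ∀ p q : ℤ, f (s + p * σ + q) = 0)
    (hinc : ∀ s ∈ S, ∀ s' ∈ S, s ≠ s' → ∀ p q : ℤ, s' ≠ s + p * σ + q) :
    π * S.card ≤ (x + z) * σ.im := by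
  classical
  obtain ⟨t₀, ht₀⟩ := hne
  set g : ℂ → ℂ := fun t => f (t₀ + t) with hg
  have hgd : Differentiable ℂ g := by
    intro t
    exact (hf (t₀ + t)).comp t ((differentiableAt_id).const_add t₀)
  have hg0 : g 0 ≠ 0 := by simpa [hg] using ht₀
  -- growth of the translate
  obtain ⟨C', hC'0, hC'⟩ : ∃ C' : ℝ, 0 ≤ C' ∧ ∀ t : ℂ, ‖g t‖ ≤
      Real.exp (x * t.re ^ 2 + y * t.re * t.im + z * t.im ^ 2 + C' * (1 + ‖t‖)) := by
    refine ⟨|x| * (t₀.re ^ 2 + 2 * |t₀.re|) + |y| * (|t₀.re| * |t₀.im| + |t₀.re| + |t₀.im|) +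
      |z| * (t₀.im ^ 2 + 2 * |t₀.im|) + |C| * (1 + ‖t₀‖), by positivity, fun t => ?_⟩
    refine (hgr (t₀ + t)).trans (Real.exp_le_exp.mpr ?_)
    simp only [Complex.add_re, Complex.add_im]
    have hre : |t.re| ≤ ‖t‖ := Complex.abs_re_le_norm t
    have him : |t.im| ≤ ‖t‖ := Complex.abs_im_le_norm t
    have hn : 0 ≤ ‖t‖ := norm_nonneg t
    have e1 : x * (t₀.re + t.re) ^ 2 ≤ x * t.re ^ 2 +
        |x| * (t₀.re ^ 2 + 2 * |t₀.re|) * (1 + ‖t‖) := by
      have h1 : x * (t₀.re ^ 2 + 2 * t₀.re * t.re) ≤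
          |x| * |t₀.re ^ 2 + 2 * t₀.re * t.re| := by
        rw [← abs_mul]; exact le_abs_self _
      have h2 : |t₀.re ^ 2 + 2 * t₀.re * t.re| ≤ (t₀.re ^ 2 + 2 * |t₀.re|) * (1 + ‖t‖) := by
        calc |t₀.re ^ 2 + 2 * t₀.re * t.re| ≤ |t₀.re ^ 2| + |2 * t₀.re * t.re| := abs_add_le _ _
          _ = t₀.re ^ 2 + 2 * |t₀.re| * |t.re| := by
            rw [abs_of_nonneg (sq_nonneg _), abs_mul, abs_mul]; simp
          _ ≤ t₀.re ^ 2 + 2 * |t₀.re| * ‖t‖ := by gcongr
          _ ≤ _ := by nlinarith [sq_nonneg t₀.re, abs_nonneg t₀.re,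
              mul_nonneg (sq_nonneg t₀.re) hn]
      have h3 := mul_le_mul_of_nonneg_left h2 (abs_nonneg x)
      nlinarith
    have e3 : z * (t₀.im + t.im) ^ 2 ≤ z * t.im ^ 2 +
        |z| * (t₀.im ^ 2 + 2 * |t₀.im|) * (1 + ‖t‖) := by
      have h1 : z * (t₀.im ^ 2 + 2 * t₀.im * t.im) ≤
          |z| * |t₀.im ^ 2 + 2 * t₀.im * t.im| := by
        rw [← abs_mul]; exact le_abs_self _
      have h2 : |t₀.im ^ 2 + 2 * t₀.im * t.im| ≤ (t₀.im ^ 2 + 2 * |t₀.im|) * (1 + ‖t‖) := by
        calc |t₀.im ^ 2 + 2 * t₀.im * t.im| ≤ |t₀.im ^ 2| + |2 * t₀.im * t.im| := abs_add_le _ _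
          _ = t₀.im ^ 2 + 2 * |t₀.im| * |t.im| := by
            rw [abs_of_nonneg (sq_nonneg _), abs_mul, abs_mul]; simp
          _ ≤ t₀.im ^ 2 + 2 * |t₀.im| * ‖t‖ := by gcongr
          _ ≤ _ := by nlinarith [sq_nonneg t₀.im, abs_nonneg t₀.im,
              mul_nonneg (sq_nonneg t₀.im) hn]
      have h3 := mul_le_mul_of_nonneg_left h2 (abs_nonneg z)
      nlinarith
    have e2 : y * (t₀.re + t.re) * (t₀.im + t.im) ≤ y * t.re * t.im +
        |y| * (|t₀.re| * |t₀.im| + |t₀.re| + |t₀.im|) * (1 + ‖t‖) := by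
      have h1 : y * (t₀.re * t₀.im + t₀.re * t.im + t.re * t₀.im) ≤
          |y| * |t₀.re * t₀.im + t₀.re * t.im + t.re * t₀.im| := by
        rw [← abs_mul]; exact le_abs_self _
      have h2 : |t₀.re * t₀.im + t₀.re * t.im + t.re * t₀.im| ≤
          (|t₀.re| * |t₀.im| + |t₀.re| + |t₀.im|) * (1 + ‖t‖) := by
        calc |t₀.re * t₀.im + t₀.re * t.im + t.re * t₀.im|
            ≤ |t₀.re * t₀.im + t₀.re * t.im| + |t.re * t₀.im| := abs_add_le _ _
          _ ≤ |t₀.re * t₀.im| + |t₀.re * t.im| + |t.re * t₀.im| := by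
            gcongr; exact abs_add_le _ _
          _ = |t₀.re| * |t₀.im| + |t₀.re| * |t.im| + |t.re| * |t₀.im| := by
            rw [abs_mul, abs_mul, abs_mul]
          _ ≤ |t₀.re| * |t₀.im| + |t₀.re| * ‖t‖ + ‖t‖ * |t₀.im| := by gcongr
          _ ≤ _ := by nlinarith [abs_nonneg t₀.re, abs_nonneg t₀.im,
              mul_nonneg (mul_nonneg (abs_nonneg t₀.re) (abs_nonneg t₀.im)) hn]
      have h3 := mul_le_mul_of_nonneg_left h2 (abs_nonneg y)
      nlinarith
    have e4 : C * (1 + ‖t₀ + t‖) ≤ |C| * (1 + ‖t₀‖) * (1 + ‖t‖) := by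
      calc C * (1 + ‖t₀ + t‖) ≤ |C| * (1 + ‖t₀ + t‖) :=
            mul_le_mul_of_nonneg_right (le_abs_self C) (by positivity)
        _ ≤ |C| * (1 + (‖t₀‖ + ‖t‖)) := by gcongr; exact norm_add_le _ _
        _ ≤ |C| * ((1 + ‖t₀‖) * (1 + ‖t‖)) := by
            gcongr
            nlinarith [mul_nonneg (norm_nonneg t₀) hn]
        _ = _ := by ring
    nlinarith [e1, e2, e3, e4]
  -- the lattice sums
  have hlat : ∀ s : ℂ, s ∈ S → ∃ Cs : ℝ, ∀ R : ℝ, 1 ≤ R → ∃ T : Finset ℂ,
      (∀ u ∈ T, (∃ p q : ℤ, u = (s - t₀) + p * σ + q) ∧ ‖u‖ ≤ R) ∧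
      π * R ^ 2 / (2 * σ.im) - Cs * R ≤ ∑ u ∈ T, Real.log (R / ‖u‖) := by
    intro s hs
    apply lattice_log_sum hσ (s - t₀)
    intro p q h
    apply ht₀
    have : t₀ = s + p * σ + q := by linear_combination (-1 : ℂ) * h
    rw [this]
    exact hS s hs p q
  choose! Cs hCs using hlat
  set CC := ∑ s ∈ S, Cs s with hCC
  have key : ∀ R : ℝ, 1 ≤ R → (S.card * π / (2 * σ.im)) * R ^ 2 ≤
      ((x + z) / 2) * R ^ 2 + (C' + CC) * R + (C' - Real.log ‖g 0‖) := by
    intro R hR
    have hR0 : 0 < R := by linarith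
    have hT : ∀ s : ℂ, s ∈ S → ∃ T : Finset ℂ,
      (∀ u ∈ T, (∃ p q : ℤ, u = (s - t₀) + p * σ + q) ∧ ‖u‖ ≤ R) ∧
      π * R ^ 2 / (2 * σ.im) - Cs s * R ≤ ∑ u ∈ T, Real.log (R / ‖u‖) :=
      fun s hs => hCs s hs R hR
    choose! T hT1 hT2 using hT
    have hdisj : (S : Set ℂ).PairwiseDisjoint T := by
      intro s hs s' hs' hss
      rw [Function.onFun, Finset.disjoint_left]
      intro u hu hu'
      obtain ⟨⟨p, q, h1⟩, -⟩ := hT1 s hs u hu
      obtain ⟨⟨p', q', h2⟩, -⟩ := hT1 s' hs' u hu'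
      apply hinc s hs s' hs' hss (p - p') (q - q')
      push_cast
      linear_combination h1 - h2
    have hU := jensen_zeros hgd hg0 hR0 (S.biUnion T) (by
      intro u hu
      rw [Finset.mem_biUnion] at hu
      obtain ⟨s, hs, hu⟩ := hu
      obtain ⟨⟨p, q, h1⟩, h2⟩ := hT1 s hs u hu
      refine ⟨?_, h2⟩
      simp only [hg]
      have : t₀ + u = s + p * σ + q := by linear_combination h1
      rw [this]
      exact hS s hs p q)
    rw [Finset.sum_biUnion hdisj] at hU
    have hV := circle_upper hgd hg0 hR0 x y z (C' * (1 + R)) (by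
      intro t ht
      have := hC' t
      rwa [ht] at this)
    have hW : ∑ s ∈ S, (π * R ^ 2 / (2 * σ.im) - Cs s * R) ≤
        ∑ s ∈ S, ∑ u ∈ T s, Real.log (R / ‖u‖) := Finset.sum_le_sum (fun s hs => hT2 s hs)
    rw [Finset.sum_sub_distrib, Finset.sum_const, ← Finset.sum_mul, nsmul_eq_mul] at hW
    have hX : (S.card * π / (2 * σ.im)) * R ^ 2 = S.card * (π * R ^ 2 / (2 * σ.im)) := by ring
    rw [hX]
    nlinarith [hU, hV, hW]
  have hfin := lim_le key
  rw [div_le_div_iff₀ (by positivity) (by norm_num)] at hfin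
  nlinarith

end MP6feb
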