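import Pool.Agent.Lib.MP_6febbd_ag.Defs
import Pool.Agent.Lib.MP_6febbd_ag.GS
import Pool.Agent.Lib.MP_6febbd_ag.ThC

set_option autoImplicit false

open scoped Matrix.Norms.Elementwise Real
open Complex Matrix

noncomputable section

namespace MP6feb

private theorem sum_eq_dot {g : ℕ} (τ : Matrix (Fin g) (Fin g) ℂ) (v : Fin g → ℝ) :
    ∑ i, ∑ j, v i * (τ i j).im * v j = v ⬝ᵥ ((τ.map Complex.im) *ᵥ v) := by
  simp only [dotProduct, mulVec, Matrix.map_apply, Finset.mul_sum, mul_assoc]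

private theorem norm_Th_term {g : ℕ} (τ : Matrix (Fin g) (Fin g) ℂ) (z : Fin g → ℂ)
    (m : Fin g → ℤ) :
    ‖thC τ m * cexp (2 * π * I * ∑ i, (m i : ℂ) * z i)‖ =
      Real.exp (-(π * ∑ i, ∑ j, (m i : ℝ) * (τ i j).im * (m j : ℝ)) -
        2 * π * ∑ i, (m i : ℝ) * (z i).im) := by
  rw [thC, ← Complex.exp_add, Complex.norm_exp]
  congr 1
  have h1 : (π * I * qf τ (fun i => (m i : ℂ))).re =
      -(π * ∑ i, ∑ j, (m i : ℝ) * (τ i j).im * (m j : ℝ)) := by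
    have : (qf τ (fun i => (m i : ℂ))).im = ∑ i, ∑ j, (m i : ℝ) * (τ i j).im * (m j : ℝ) := by
      simp only [qf, Complex.im_sum]
      refine Finset.sum_congr rfl fun i _ => Finset.sum_congr rfl fun j _ => ?_
      simp
    rw [← this]
    simp
  have h2 : (2 * π * I * ∑ i, (m i : ℂ) * z i).re = -(2 * π * ∑ i, (m i : ℝ) * (z i).im) := by
    have : (∑ i, (m i : ℂ) * z i).im = ∑ i, (m i : ℝ) * (z i).im := by
      simp only [Complex.im_sum]
      refine Finset.sum_congr rfl fun i _ => ?_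
      simp
    rw [← this]
    simp
  rw [Complex.add_re, h1, h2]
  ring

theorem Th_growth {g : ℕ} {τ : Matrix (Fin g) (Fin g) ℂ} (hτ : τ ∈ Siegel g) :
    ∃ C : ℝ, 0 < C ∧ ∀ z : Fin g → ℂ, ‖Th τ z‖ ≤
      C * Real.exp (π * ∑ i, ∑ j, (z i).im * (τ.map Complex.im)⁻¹ i j * (z j).im) := by
  obtain ⟨c, hc, hpos⟩ := exists_posIm hτ
  have hπc : 0 < π * c := by positivity
  obtain ⟨C, hC⟩ := tsum_gauss_le (ι := Fin g) hπc
  refine ⟨max C 1, lt_max_of_lt_right one_pos, ?_⟩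
  intro z
  set Y : Matrix (Fin g) (Fin g) ℝ := τ.map Complex.im with hY
  set y : Fin g → ℝ := fun i => (z i).im with hy
  set w : Fin g → ℝ := Y⁻¹ *ᵥ y with hw
  have hdet : IsUnit Y.det := (Matrix.isUnit_iff_isUnit_det Y).mp hτ.2.isUnit
  have hYw : Y *ᵥ w = y := by
    rw [hw, Matrix.mulVec_mulVec, Matrix.mul_nonsing_inv Y hdet, Matrix.one_mulVec]
  have hsym : Yᵀ = Y := by
    ext i j
    have := congrFun (congrFun hτ.1 i) j
    simp only [Matrix.transpose_apply] at this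
    simp [hY, this]
  have hyy : ∑ i, ∑ j, (z i).im * Y⁻¹ i j * (z j).im = y ⬝ᵥ w := by
    simp only [dotProduct, hw, mulVec, Finset.mul_sum, mul_assoc, hy]
  rw [hyy]
  set a : ℝ := y ⬝ᵥ w with ha
  have hterm : ∀ m : Fin g → ℤ,
      ‖thC τ m * cexp (2 * π * I * ∑ i, (m i : ℂ) * z i)‖ ≤
        Real.exp (π * a) * Real.exp (-(π * c * ∑ i, ((m i : ℝ) + w i) ^ 2)) := by
    intro m
    rw [norm_Th_term, ← Real.exp_add]
    apply Real.exp_le_exp.mpr
    have h1 := hpos (fun i => (m i : ℝ) + w i)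
    rw [sum_eq_dot, ← hY] at h1
    set mr : Fin g → ℝ := fun i => (m i : ℝ) with hmr
    have h2 : (fun i => (m i : ℝ) + w i) = mr + w := rfl
    rw [h2] at h1
    have h3 : (mr + w) ⬝ᵥ (Y *ᵥ (mr + w)) = mr ⬝ᵥ (Y *ᵥ mr) + 2 * (mr ⬝ᵥ y) + a := by
      rw [Matrix.mulVec_add, hYw, dotProduct_add, add_dotProduct, add_dotProduct]
      have h4 : w ⬝ᵥ (Y *ᵥ mr) = mr ⬝ᵥ y := by
        rw [Matrix.dotProduct_mulVec, ← Matrix.mulVec_transpose, hsym, hYw, dotProduct_comm]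
      rw [h4, ha, dotProduct_comm w y]
      ring
    rw [h3] at h1
    have h5 : ∑ i, ∑ j, (m i : ℝ) * (τ i j).im * (m j : ℝ) = mr ⬝ᵥ (Y *ᵥ mr) :=
      sum_eq_dot τ mr
    have h6 : ∑ i, (m i : ℝ) * (z i).im = mr ⬝ᵥ y := rfl
    rw [h5, h6]
    have h7 := mul_le_mul_of_nonneg_left h1 Real.pi_pos.le
    simp only [hmr] at h7
    nlinarith [h7]
  have hsum : Summable (fun m : Fin g → ℤ =>
      Real.exp (π * a) * Real.exp (-(π * c * ∑ i, ((m i : ℝ) + w i) ^ 2))) :=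
    (summable_gauss hπc w).mul_left _
  have hnorm : ‖Th τ z‖ ≤ ∑' m : Fin g → ℤ,
      Real.exp (π * a) * Real.exp (-(π * c * ∑ i, ((m i : ℝ) + w i) ^ 2)) := by
    rw [Th, ES]
    exact tsum_of_norm_bounded hsum.hasSum hterm
  refine hnorm.trans ?_
  rw [tsum_mul_left, mul_comm]
  exact mul_le_mul_of_nonneg_right ((hC w).trans (le_max_left _ _)) (Real.exp_pos _).le

end MP6feb
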