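import Pool.Agent.Lib.MP_6febbd_ag.Defs
import Pool.Agent.Lib.MP_6febbd_ag.GS
import Pool.Agent.Lib.MP_6febbd_ag.ThC

set_option autoImplicit false

open scoped Matrix.Norms.Elementwise Real
open Complex Matrix

noncomputable section

namespace MP6feb

/-- complete exponential sum over `0, ..., N - 1` -/
private theorem geo_sum {N : ℕ} (hN : 0 < N) (m : ℤ) :
    ∑ k : Fin N, cexp (2 * π * I * (m : ℂ) * (((k : ℕ) : ℂ) / (N : ℂ))) =
      if (N : ℤ) ∣ m then (N : ℂ) else 0 := by
  have hN' : (N : ℂ) ≠ 0 := by exact_mod_cast hN.ne'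
  obtain ⟨q, hq⟩ : ∃ q : ℂ, q = cexp (2 * π * I * ((m : ℂ) / (N : ℂ))) := ⟨_, rfl⟩
  have h1 : ∀ k : ℕ, cexp (2 * π * I * (m : ℂ) * ((k : ℂ) / (N : ℂ))) = q ^ k := by
    intro k
    rw [hq, ← Complex.exp_nat_mul]
    congr 1
    field_simp
  rw [Fin.sum_univ_eq_sum_range (fun k : ℕ => cexp (2 * π * I * (m : ℂ) * ((k : ℂ) / (N : ℂ)))) N,
    Finset.sum_congr rfl fun k _ => h1 k]
  split_ifs with hd
  · obtain ⟨j, hj⟩ := hd
    have hq1 : q = 1 := by
      rw [hq, Complex.exp_eq_one_iff]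
      refine ⟨j, ?_⟩
      rw [hj]
      push_cast
      field_simp
    rw [hq1]
    simp
  · have hq1 : q ≠ 1 := by
      intro h
      rw [hq, Complex.exp_eq_one_iff] at h
      obtain ⟨j, hj⟩ := h
      apply hd
      refine ⟨j, ?_⟩
      have h2 : (m : ℂ) / (N : ℂ) = (j : ℂ) := by
        have h3 : (2 * π * I : ℂ) ≠ 0 := Complex.two_pi_I_ne_zero
        have h4 : (2 * π * I : ℂ) * ((m : ℂ) / (N : ℂ)) = (2 * π * I : ℂ) * (j : ℂ) := by
          rw [hj]; ring
        exact mul_left_cancel₀ h3 h4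
      rw [div_eq_iff hN'] at h2
      have h5 : m = j * (N : ℤ) := by exact_mod_cast h2
      rw [h5]; ring
    have h2 : q ^ N = 1 := by
      rw [hq, ← Complex.exp_nat_mul, Complex.exp_eq_one_iff]
      refine ⟨m, ?_⟩
      field_simp
    have h3 := geom_sum_mul q N
    rw [h2, sub_self] at h3
    exact (mul_eq_zero.mp h3).resolve_right (sub_ne_zero.mpr hq1)

/-- complete exponential sum over the grid -/
private theorem grid_sum {g N : ℕ} (hN : 0 < N) (m : Fin g → ℤ) :
    ∑ r : Fin g → Fin N, cexp (2 * π * I * ∑ i, (m i : ℂ) * (((r i : ℕ) : ℂ) / (N : ℂ))) =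
      if ∀ i, (N : ℤ) ∣ m i then (N : ℂ) ^ g else 0 := by
  classical
  have h1 : ∀ r : Fin g → Fin N,
      cexp (2 * π * I * ∑ i, (m i : ℂ) * (((r i : ℕ) : ℂ) / (N : ℂ))) =
        ∏ i, cexp (2 * π * I * (m i : ℂ) * (((r i : ℕ) : ℂ) / (N : ℂ))) := by
    intro r
    rw [← Complex.exp_sum, Finset.mul_sum]
    congr 1
    refine Finset.sum_congr rfl fun i _ => ?_
    ring
  rw [Finset.sum_congr rfl fun r _ => h1 r, ← Fintype.piFinset_univ,
    ← Finset.prod_univ_sum (fun _ : Fin g => (Finset.univ : Finset (Fin N)))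
      (fun i k => cexp (2 * π * I * (m i : ℂ) * (((k : ℕ) : ℂ) / (N : ℂ)))),
    Finset.prod_congr rfl fun i _ => geo_sum hN (m i)]
  split_ifs with hd
  · rw [Finset.prod_congr rfl fun i _ => if_pos (hd i)]
    simp
  · obtain ⟨i, hi⟩ := not_forall.mp hd
    exact Finset.prod_eq_zero (Finset.mem_univ i) (if_neg hi)

/-- The theta function is not identically zero. Proof: for `N ≥ 1` the average of
`Th τ (r / N)` over `r ∈ {0..N-1}^g` is `∑_{m ∈ (Nℤ)^g} thC τ m`, which tends to
`thC τ 0 = 1` as `N → ∞` (terms with `m ≠ 0` are at most `exp(-π c |m|²)`, and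
`N | m`). Alternatively integrate over the unit cube. -/
theorem Th_ne_zero {g : ℕ} {τ : Matrix (Fin g) (Fin g) ℂ} (hτ : τ ∈ Siegel g) :
    ∃ z, Th τ z ≠ 0 := by
  classical
  by_contra hcon
  have hz : ∀ z, Th τ z = 0 := fun z => not_not.mp fun h => hcon ⟨z, h⟩
  obtain ⟨c, hc, hp⟩ := exists_posIm hτ
  have hsum : Summable (thC τ) := by
    have h := summable_thTerm hc (fun _ => 0) (fun _ => 0) hp
    refine h.congr fun m => ?_
    unfold thTerm thC
    simp
  have hnorm : Summable (fun m => ‖thC τ m‖) := hsum.norm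
  have h0 : thC τ 0 = 1 := by
    unfold thC qf
    simp
  -- the averages
  have havg : ∀ N : ℕ, 0 < N →
      ∑' m : Fin g → ℤ, (if ∀ i, (N : ℤ) ∣ m i then thC τ m else 0) = 0 := by
    intro N hN
    have hN' : (N : ℂ) ≠ 0 := by exact_mod_cast hN.ne'
    have h1 : ∑ r : Fin g → Fin N, Th τ (fun i => ((r i : ℕ) : ℂ) / (N : ℂ)) = 0 :=
      Finset.sum_eq_zero fun r _ => hz _
    unfold Th ES at h1
    rw [← Summable.tsum_finsetSum] at h1
    · have h2 : ∀ m : Fin g → ℤ, ∑ r : Fin g → Fin N,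
          thC τ m * cexp (2 * π * I * ∑ i, (m i : ℂ) * (((r i : ℕ) : ℂ) / (N : ℂ))) =
            (N : ℂ) ^ g * (if ∀ i, (N : ℤ) ∣ m i then thC τ m else 0) := by
        intro m
        rw [← Finset.mul_sum, grid_sum hN]
        split_ifs
        · ring
        · ring
      rw [tsum_congr h2, tsum_mul_left] at h1
      exact (mul_eq_zero.mp h1).resolve_left (pow_ne_zero g hN')
    · intro r _
      refine Summable.of_norm_bounded hnorm fun m => ?_
      rw [norm_mul]
      have h2 : 2 * π * I * ∑ i, (m i : ℂ) * (((r i : ℕ) : ℂ) / (N : ℂ)) =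
          ((2 * π * ∑ i, (m i : ℝ) * (((r i : ℕ) : ℝ) / (N : ℝ)) : ℝ) : ℂ) * I := by
        push_cast
        ring
      rw [h2, Complex.norm_exp_ofReal_mul_I, mul_one]
  have hlim := tendsto_tsum_of_dominated_convergence
    (f := fun (N : ℕ) (m : Fin g → ℤ) => if ∀ i, (N : ℤ) ∣ m i then thC τ m else 0)
    (g := fun m : Fin g → ℤ => if m = 0 then thC τ m else 0) (𝓕 := Filter.atTop) hnorm ?_ ?_
  · have h3 : Filter.Tendsto (fun N : ℕ => ∑' m : Fin g → ℤ,
        (if ∀ i, (N : ℤ) ∣ m i then thC τ m else 0)) Filter.atTop (nhds 0) := by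
      refine tendsto_const_nhds.congr' ?_
      filter_upwards [Filter.eventually_gt_atTop 0] with N hN
      exact (havg N hN).symm
    have h4 := tendsto_nhds_unique h3 hlim
    rw [tsum_ite_eq, h0] at h4
    exact zero_ne_one h4
  · intro m
    refine tendsto_const_nhds.congr' ?_
    by_cases hm : m = 0
    · rw [hm]
      filter_upwards with N
      rw [if_pos rfl, if_pos]
      intro i
      exact dvd_zero _
    · obtain ⟨i, hi⟩ : ∃ i, m i ≠ 0 := by
        by_contra h
        apply hm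
        funext i
        exact not_not.mp fun hi => h ⟨i, hi⟩
      filter_upwards [Filter.eventually_gt_atTop (m i).natAbs] with N hN
      rw [if_neg hm, if_neg]
      intro h
      have h5 := h i
      have h6 : N ∣ (m i).natAbs := Int.natCast_dvd.mp h5
      have h7 := Nat.le_of_dvd (Int.natAbs_pos.mpr hi) h6
      omega
  · filter_upwards with N m
    split_ifs
    · exact le_rfl
    · rw [norm_zero]; exact norm_nonneg _

end MP6feb
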