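import Pool.Agent.Lib.MP_6febbd_ag.Defs
import Pool.Agent.Lib.MP_6febbd_ag.ThB
import Pool.Agent.Lib.MP_6febbd_ag.ThF
import Pool.Agent.Lib.MP_6febbd_ag.ThG
import Pool.Agent.Lib.MP_6febbd_ag.ThN
import Pool.Agent.Lib.MP_6febbd_ag.ESd
import Pool.Agent.Lib.MP_6febbd_ag.JL

set_option autoImplicit false

open scoped Matrix.Norms.Elementwise Real
open Complex Matrix

noncomputable section

namespace MP6feb

private lemma gdz_th {σ : ℂ} (hσ : 0 < σ.im) (a b : ℝ)
    (h : th (fun _ : Fin 1 => a) (fun _ : Fin 1 => b) (s1 σ) = 0) :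
    Th (s1 σ) (fun _ => (a : ℂ) * σ + b) = 0 := by
  rw [th_eq_Th (s1_mem hσ)] at h
  rcases mul_eq_zero.1 h with h1 | h1
  · exact absurd h1 (Complex.exp_ne_zero _)
  · have h2 : Lat (s1 σ) (Sum.elim (fun _ : Fin 1 => a) (fun _ : Fin 1 => b)) =
        fun _ => (a : ℂ) * σ + b := by
      funext i
      simp [Lat, s1, mul_comm]
    rwa [h2] at h1

private lemma gdz_translate {σ : ℂ} (hσ : 0 < σ.im) {s : ℂ} (h : Th (s1 σ) (fun _ => s) = 0)
    (p q : ℤ) : Th (s1 σ) (fun _ => s + p * σ + q) = 0 := by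
  have h1 := Th_quasi (s1_mem hσ) (fun _ => s) (fun _ : Fin 1 => p) (fun _ : Fin 1 => q)
  rw [h, mul_zero] at h1
  have h2 : (fun i : Fin 1 => (fun _ => s : Fin 1 → ℂ) i + ∑ j, s1 σ i j * (((fun _ => p :
      Fin 1 → ℤ) j : ℤ) : ℂ) + (((fun _ => q : Fin 1 → ℤ) i : ℤ) : ℂ)) =
      fun _ => s + p * σ + q := by
    funext i
    simp [s1, mul_comm]
  rwa [h2] at h1

private lemma gdz_inv {σ : ℂ} : ((s1 σ).map Complex.im)⁻¹ 0 0 = (σ.im)⁻¹ := by
  rw [Matrix.inv_subsingleton]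
  simp [s1]

private lemma gdz_growth {σ : ℂ} (hσ : 0 < σ.im) : ∃ C : ℝ, ∀ t : ℂ,
    ‖Th (s1 σ) (fun _ => t)‖ ≤
      Real.exp (0 * t.re ^ 2 + 0 * t.re * t.im + (π / σ.im) * t.im ^ 2 + C * (1 + ‖t‖)) := by
  obtain ⟨C, hC0, hC⟩ := Th_growth (s1_mem hσ)
  refine ⟨|Real.log C|, fun t => (hC (fun _ => t)).trans ?_⟩
  have h1 : C ≤ Real.exp (|Real.log C| * (1 + ‖t‖)) := by
    have h2 : Real.log C ≤ |Real.log C| * (1 + ‖t‖) := by
      have h3 := le_abs_self (Real.log C)
      have h4 : 0 ≤ |Real.log C| * ‖t‖ := mul_nonneg (abs_nonneg _) (norm_nonneg _)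
      nlinarith
    calc C = Real.exp (Real.log C) := (Real.exp_log hC0).symm
      _ ≤ _ := Real.exp_le_exp.2 h2
  have h5 : π * ∑ i : Fin 1, ∑ j : Fin 1, ((fun _ => t : Fin 1 → ℂ) i).im *
      ((s1 σ).map Complex.im)⁻¹ i j * ((fun _ => t : Fin 1 → ℂ) j).im =
      (π / σ.im) * t.im ^ 2 := by
    simp only [Finset.univ_unique, Fin.default_eq_zero, Fin.isValue, Finset.sum_singleton,
      gdz_inv]
    ring
  rw [h5]
  calc C * Real.exp ((π / σ.im) * t.im ^ 2)
      ≤ Real.exp (|Real.log C| * (1 + ‖t‖)) * Real.exp ((π / σ.im) * t.im ^ 2) :=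
        mul_le_mul_of_nonneg_right h1 (Real.exp_pos _).le
    _ = Real.exp (0 * t.re ^ 2 + 0 * t.re * t.im + (π / σ.im) * t.im ^ 2 +
        |Real.log C| * (1 + ‖t‖)) := by
      rw [← Real.exp_add]
      congr 1
      ring

private lemma gdz_inc {σ : ℂ} (hσ : 0 < σ.im) {a b a' b' : ℝ} (ha : |a' - a| < 1)
    (hb : |b' - b| < 1) {p q : ℤ}
    (h : (a' : ℂ) * σ + b' = (a : ℂ) * σ + b + p * σ + q) : a' = a ∧ b' = b := by
  have h1 := congrArg Complex.im h
  have h2 := congrArg Complex.re h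
  simp only [Complex.add_im, Complex.mul_im, Complex.ofReal_re, Complex.ofReal_im,
    Complex.intCast_re, Complex.intCast_im, zero_mul, add_zero] at h1
  simp only [Complex.add_re, Complex.mul_re, Complex.ofReal_re, Complex.ofReal_im,
    Complex.intCast_re, Complex.intCast_im, zero_mul, sub_zero] at h2
  have h3 : a' - a = p := by
    have h4 : (a' - a - p) * σ.im = 0 := by linarith
    rcases mul_eq_zero.1 h4 with h5 | h5
    · linarith
    · exact absurd h5 hσ.ne'
  rw [h3] at ha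
  have h6 : p = 0 := by
    have h7 : |p| < 1 := by exact_mod_cast ha
    exact Int.abs_lt_one_iff.1 h7
  have h8 : a' = a := by
    rw [h6] at h3
    push_cast at h3
    linarith
  rw [h6, h8] at h2
  have h9 : b' - b = q := by
    push_cast at h2
    linarith
  rw [h9] at hb
  have h10 : q = 0 := by
    have h7 : |q| < 1 := by exact_mod_cast hb
    exact Int.abs_lt_one_iff.1 h7
  refine ⟨h8, ?_⟩
  rw [h10] at h9
  push_cast at h9
  linarith

private lemma gdz_frac {n : ℕ} [NeZero n] (u v : ZMod n) :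
    |((u.val : ℝ) / n) - (v.val : ℝ) / n| < 1 := by
  have hn : (0 : ℝ) < n := by
    exact_mod_cast Nat.pos_of_ne_zero (NeZero.ne n)
  have hu : (u.val : ℝ) < n := by exact_mod_cast ZMod.val_lt u
  have hv : (v.val : ℝ) < n := by exact_mod_cast ZMod.val_lt v
  have hu0 : (0 : ℝ) ≤ u.val := Nat.cast_nonneg _
  have hv0 : (0 : ℝ) ≤ v.val := Nat.cast_nonneg _
  rw [← sub_div, abs_div, abs_of_pos hn, div_lt_one hn, abs_lt]
  constructor <;> linarith

private lemma gdz_frac_inj {n : ℕ} [NeZero n] {u v : ZMod n}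
    (h : ((u.val : ℝ) / n) = (v.val : ℝ) / n) : u = v := by
  have hn : (n : ℝ) ≠ 0 := by
    exact_mod_cast NeZero.ne n
  have h1 : (u.val : ℝ) = v.val := by
    rwa [div_left_inj' hn] at h
  exact ZMod.val_injective n (by exact_mod_cast h1)

/-- One by one blocks: at most one characteristic of level `n` vanishes. Proof. Two
different zeros `x, x'` give by `th_eq_Th` two zeros `σ a + b` of `f(t) = Th (s1 σ) (fun _ => t)`
which are incongruent modulo `ℤσ + ℤ` (different classes), all translates are zeros by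
`Th_quasi`, and `Th_growth` gives the growth `π t.im²/σ.im`; `jensen_lattice` with
`x = y = 0`, `z = π/σ.im` says that the number of classes is at most one. -/
theorem zeros_one {n : ℕ} [NeZero n] {σ : ℂ} (hσ : 0 < σ.im) :
    {x : Fin 1 ⊕ Fin 1 → ZMod n | thx n x (s1 σ) = 0}.ncard ≤ 1 := by
  rw [Set.ncard_le_one (Set.toFinite _)]
  intro x hx y hy
  by_contra hxy
  have hx1 : Th (s1 σ) (fun _ => ((((x (Sum.inl 0)).val : ℝ) / n : ℝ) : ℂ) * σ +
      ((((x (Sum.inr 0)).val : ℝ) / n : ℝ) : ℂ)) = 0 := by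
    refine gdz_th hσ _ _ ?_
    have h1 : thx n x (s1 σ) = 0 := hx
    rw [← h1, thx]
    congr 1 <;> · funext i; rw [Subsingleton.elim i 0]
  have hy1 : Th (s1 σ) (fun _ => ((((y (Sum.inl 0)).val : ℝ) / n : ℝ) : ℂ) * σ +
      ((((y (Sum.inr 0)).val : ℝ) / n : ℝ) : ℂ)) = 0 := by
    refine gdz_th hσ _ _ ?_
    have h1 : thx n y (s1 σ) = 0 := hy
    rw [← h1, thx]
    congr 1 <;> · funext i; rw [Subsingleton.elim i 0]
  have hinj : ∀ p q : ℤ, ∀ u v : Fin 1 ⊕ Fin 1 → ZMod n,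
      ((((u (Sum.inl 0)).val : ℝ) / n : ℝ) : ℂ) * σ + ((((u (Sum.inr 0)).val : ℝ) / n : ℝ) : ℂ) =
      ((((v (Sum.inl 0)).val : ℝ) / n : ℝ) : ℂ) * σ + ((((v (Sum.inr 0)).val : ℝ) / n : ℝ) : ℂ)
        + p * σ + q → u = v := by
    intro p q u v h
    obtain ⟨h1, h2⟩ := gdz_inc hσ (gdz_frac _ _) (gdz_frac _ _) h
    funext i
    rcases i with i | i
    · rw [Subsingleton.elim i 0]; exact gdz_frac_inj h1
    · rw [Subsingleton.elim i 0]; exact gdz_frac_inj h2
  set P : ℂ := ((((x (Sum.inl 0)).val : ℝ) / n : ℝ) : ℂ) * σ +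
      ((((x (Sum.inr 0)).val : ℝ) / n : ℝ) : ℂ) with hP
  set Q : ℂ := ((((y (Sum.inl 0)).val : ℝ) / n : ℝ) : ℂ) * σ +
      ((((y (Sum.inr 0)).val : ℝ) / n : ℝ) : ℂ) with hQ
  have hPQ : P ≠ Q := by
    intro h
    exact hxy (hinj 0 0 x y (by simpa [hP, hQ] using h))
  obtain ⟨C, hC⟩ := gdz_growth hσ
  have hne : ∃ z : ℂ, Th (s1 σ) (fun _ : Fin 1 => z) ≠ 0 := by
    obtain ⟨z, hz⟩ := Th_ne_zero (s1_mem hσ)
    refine ⟨z 0, ?_⟩
    have h1 : (fun _ : Fin 1 => z 0) = z := by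
      funext i
      rw [Subsingleton.elim i 0]
    rwa [h1]
  have hdiff : Differentiable ℂ (fun z : ℂ => Th (s1 σ) (fun _ : Fin 1 => z)) := by
    have h1 : Differentiable ℂ (ES (thC (s1 σ))) := ES_differentiable (thC_gdec (s1_mem hσ))
    have h2 : Differentiable ℂ (fun z : ℂ => (fun _ : Fin 1 => z)) :=
      differentiable_pi.2 fun _ => differentiable_id
    exact h1.comp h2
  have key := jensen_lattice hdiff hne hσ 0 0 (π / σ.im) C hC {P, Q} (by
      intro s hs p q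
      rw [Finset.mem_insert, Finset.mem_singleton] at hs
      rcases hs with rfl | rfl
      · exact gdz_translate hσ hx1 p q
      · exact gdz_translate hσ hy1 p q) (by
      intro s hs s' hs' hss p q h
      rw [Finset.mem_insert, Finset.mem_singleton] at hs hs'
      rcases hs with h1 | h1 <;> rcases hs' with h2 | h2
      · exact hss (h1.trans h2.symm)
      · rw [h1, h2] at h
        exact hxy (hinj p q y x h).symm
      · rw [h1, h2] at h
        exact hxy (hinj p q x y h)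
      · exact hss (h1.trans h2.symm))
  rw [Finset.card_pair hPQ] at key
  have h3 : (0 + π / σ.im) * σ.im = π := by
    field_simp
    ring
  rw [h3] at key
  have := Real.pi_pos
  push_cast at key
  linarith

end MP6feb
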