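import Pool.Agent.Lib.MP_6febbd_ag.Defs

set_option autoImplicit false

open scoped Matrix.Norms.Elementwise Real
open Complex Matrix

noncomputable section

namespace MP6feb

private lemma im_mul_conj (x y : ℂ) : (x * (starRingEnd ℂ) y).im = x.im * y.re - x.re * y.im := by
  rw [Complex.mul_im, Complex.conj_re, Complex.conj_im]
  ring

/-- Discrete subgroups of `ℂ` of rank two. Proof. Let `ω₂` be a nonzero element of minimal
norm (exists: the elements of norm `≤ R` are finitely many because they are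
`ε`-separated), and `ω₁` an element not in `ℝ ω₂` of minimal norm among these, with the
sign such that `Im(ω₁/ω₂) > 0`. For `x ∈ G` subtract integral multiples to reach
`x = s ω₁ + t ω₂`, `|s|, |t| ≤ 1/2`; then `‖x‖ < ‖ω₁‖` if `s ≠ 0` (strict triangle
inequality) so `s = 0`, and then `‖x‖ ≤ ‖ω₂‖/2` so `x = 0`. (Or use the `ZLattice` API.) -/
theorem lattice_basis (G : AddSubgroup ℂ) {ε : ℝ} (hε : 0 < ε)
    (hdisc : ∀ x ∈ G, x ≠ 0 → ε ≤ ‖x‖)
    (hspan : ∃ x ∈ G, ∃ y ∈ G, (x * (starRingEnd ℂ) y).im ≠ 0) :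
    ∃ ω₁ ∈ G, ∃ ω₂ ∈ G, ω₂ ≠ 0 ∧ 0 < (ω₁ / ω₂).im ∧
      ∀ x ∈ G, ∃ p q : ℤ, x = p * ω₁ + q * ω₂ := by
  let L : Submodule ℤ ℂ := AddSubgroup.toIntSubmodule G
  have hL : ∀ x, x ∈ L ↔ x ∈ G := fun _ => Iff.rfl
  have hdt : DiscreteTopology L := by
    apply discreteTopology_of_isOpen_singleton_zero
    have h1 : ({0} : Set L) = (fun x : L => (x : ℂ)) ⁻¹' (Metric.ball 0 ε) := by
      ext x
      simp only [Set.mem_singleton_iff, Set.mem_preimage, Metric.mem_ball, dist_zero_right]
      constructor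
      · rintro rfl
        simpa using hε
      · intro hx
        by_contra hne
        have h2 : (x : ℂ) ≠ 0 := fun h => hne (Subtype.ext h)
        exact absurd (hdisc x x.2 h2) (not_le.mpr hx)
    rw [h1]
    exact Metric.isOpen_ball.preimage continuous_subtype_val
  have hZ : IsZLattice ℝ L := by
    refine ⟨?_⟩
    obtain ⟨x, hx, y, hy, hxy⟩ := hspan
    rw [eq_top_iff]
    intro z _
    have hx' : x ∈ Submodule.span ℝ (L : Set ℂ) := Submodule.subset_span hx
    have hy' : y ∈ Submodule.span ℝ (L : Set ℂ) := Submodule.subset_span hy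
    have hz : z = ((z * (starRingEnd ℂ) y).im / (x * (starRingEnd ℂ) y).im) • x +
        (-(z * (starRingEnd ℂ) x).im / (x * (starRingEnd ℂ) y).im) • y := by
      rw [im_mul_conj] at hxy
      apply Complex.ext
      · rw [im_mul_conj, im_mul_conj, im_mul_conj]
        simp only [Complex.add_re, Complex.real_smul, Complex.mul_re, Complex.ofReal_re,
          Complex.ofReal_im, zero_mul, sub_zero]
        rw [div_mul_eq_mul_div, div_mul_eq_mul_div, ← add_div, eq_div_iff hxy]
        ring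
      · rw [im_mul_conj, im_mul_conj, im_mul_conj]
        simp only [Complex.add_im, Complex.real_smul, Complex.mul_im, Complex.ofReal_re,
          Complex.ofReal_im, zero_mul, add_zero]
        rw [div_mul_eq_mul_div, div_mul_eq_mul_div, ← add_div, eq_div_iff hxy]
        ring
    rw [hz]
    exact Submodule.add_mem _ (Submodule.smul_mem _ _ hx') (Submodule.smul_mem _ _ hy')
  have hfin : Module.Finite ℤ L := ZLattice.module_finite ℝ L
  have hfree : Module.Free ℤ L := ZLattice.module_free ℝ L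
  have hr : Module.finrank ℤ L = 2 := by
    rw [ZLattice.rank ℝ L, Complex.finrank_real_complex]
  let b : Module.Basis (Fin 2) ℤ L := Module.finBasisOfFinrankEq ℤ L hr
  have hli : LinearIndependent ℝ (fun i : Fin 2 => ((b i : L) : ℂ)) := by
    have h1 := (b.ofZLatticeBasis ℝ L).linearIndependent
    have h2 : (fun i => b.ofZLatticeBasis ℝ L i) = (fun i : Fin 2 => ((b i : L) : ℂ)) := by
      funext i
      exact b.ofZLatticeBasis_apply ℝ L i
    rw [← h2]
    exact h1
  have hb1 : ((b 1 : L) : ℂ) ≠ 0 := hli.ne_zero 1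
  have him : (((b 0 : L) : ℂ) / ((b 1 : L) : ℂ)).im ≠ 0 := by
    intro h
    set r := ((b 0 : L) : ℂ) / ((b 1 : L) : ℂ) with hr
    have h1 : r = (r.re : ℂ) := by
      apply Complex.ext
      · simp
      · simpa using h
    have h2 : ((b 0 : L) : ℂ) = (r.re : ℂ) * ((b 1 : L) : ℂ) := by
      rw [← h1, hr]
      field_simp
    have h3 := (LinearIndependent.pair_iff (R := ℝ) (x := ((b 0 : L) : ℂ)) (y := ((b 1 : L) : ℂ))).mp
      (by
        have h4 : (![((b 0 : L) : ℂ), ((b 1 : L) : ℂ)] : Fin 2 → ℂ) =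
            (fun i : Fin 2 => ((b i : L) : ℂ)) := by
          funext i
          fin_cases i <;> rfl
        rw [h4]
        exact hli) 1 (-r.re) (by
          rw [h2]
          simp)
    exact one_ne_zero h3.1
  have hrepr : ∀ x ∈ G, ∃ p q : ℤ, x = p * ((b 0 : L) : ℂ) + q * ((b 1 : L) : ℂ) := by
    intro x hx
    refine ⟨b.repr ⟨x, hx⟩ 0, b.repr ⟨x, hx⟩ 1, ?_⟩
    have h1 := b.sum_repr ⟨x, hx⟩
    rw [Fin.sum_univ_two] at h1
    have h2 := congrArg (fun v : L => (v : ℂ)) h1
    simp only [Submodule.coe_add, Submodule.coe_smul, zsmul_eq_mul] at h2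
    exact h2.symm
  rcases lt_or_gt_of_ne him with h | h
  · refine ⟨-((b 0 : L) : ℂ), neg_mem (b 0).2, ((b 1 : L) : ℂ), (b 1).2, hb1, ?_, ?_⟩
    · rw [neg_div, Complex.neg_im]
      linarith
    · intro x hx
      obtain ⟨p, q, hpq⟩ := hrepr x hx
      refine ⟨-p, q, ?_⟩
      rw [hpq]
      push_cast
      ring
  · exact ⟨((b 0 : L) : ℂ), (b 0).2, ((b 1 : L) : ℂ), (b 1).2, hb1, h, hrepr⟩

end MP6feb
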