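import Pool.Agent.Lib.MP_6febbd_ag.Defs
import Pool.Agent.Lib.MP_6febbd_ag.ESd
import Pool.Agent.Lib.MP_6febbd_ag.ThC
import Pool.Agent.Lib.MP_6febbd_ag.ThF
import Pool.Agent.Lib.MP_6febbd_ag.ThN
import Pool.Agent.Lib.MP_6febbd_ag.LatE
import Pool.Agent.Lib.MP_6febbd_ag.HyL

set_option autoImplicit false

open scoped Matrix.Norms.Elementwise Real
open Complex Matrix

noncomputable section

namespace MP6feb

/-- the group of values of `l` on the lattice -/
private def grp {k : ℕ} (τ : Matrix (Fin (k + 1)) (Fin (k + 1)) ℂ)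
    (l : (Fin (k + 1) → ℂ) →ₗ[ℂ] ℂ) : AddSubgroup ℂ where
  carrier := {x | ∃ p q : Fin (k + 1) → ℤ,
    x = l (fun i => ∑ j, τ i j * (p j : ℂ) + (q i : ℂ))}
  zero_mem' := by
    refine ⟨0, 0, ?_⟩
    have : (fun i => ∑ j, τ i j * (((0 : Fin (k + 1) → ℤ) j : ℤ) : ℂ) +
        (((0 : Fin (k + 1) → ℤ) i : ℤ) : ℂ)) = (0 : Fin (k + 1) → ℂ) := by
      funext i; simp
    rw [this, map_zero]
  add_mem' := by
    rintro x y ⟨p, q, rfl⟩ ⟨p', q', rfl⟩
    refine ⟨p + p', q + q', ?_⟩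
    rw [← map_add]
    congr 1
    funext i
    simp only [Pi.add_apply, Int.cast_add, mul_add, Finset.sum_add_distrib]
    ring
  neg_mem' := by
    rintro x ⟨p, q, rfl⟩
    refine ⟨-p, -q, ?_⟩
    rw [← map_neg]
    congr 1
    funext i
    simp only [Pi.neg_apply, Int.cast_neg, mul_neg, Finset.sum_neg_distrib]
    ring

private theorem mem_grp {k : ℕ} {τ : Matrix (Fin (k + 1)) (Fin (k + 1)) ℂ}
    {l : (Fin (k + 1) → ℂ) →ₗ[ℂ] ℂ} {x : ℂ} : x ∈ grp τ l ↔ ∃ p q : Fin (k + 1) → ℤ,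
    x = l (fun i => ∑ j, τ i j * (p j : ℂ) + (q i : ℂ)) := Iff.rfl

private theorem van_grp {k : ℕ} {τ : Matrix (Fin (k + 1)) (Fin (k + 1)) ℂ}
    (hτ : τ ∈ Siegel (k + 1)) (l : (Fin (k + 1) → ℂ) →ₗ[ℂ] ℂ) (c : ℂ)
    (h0 : ∀ z, l z = c → Th τ z = 0) {g : ℂ} (hg : g ∈ grp τ l) (z : Fin (k + 1) → ℂ)
    (hz : l z = c + g) : Th τ z = 0 := by
  obtain ⟨p, q, rfl⟩ := mem_grp.1 hg
  set w : Fin (k + 1) → ℂ := fun i => ∑ j, τ i j * (p j : ℂ) + (q i : ℂ) with hw
  have h1 : l (z - w) = c := by rw [map_sub, hz]; ring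
  have h2 := Th_quasi hτ (z - w) p q
  rw [h0 _ h1, mul_zero] at h2
  have h3 : (fun i => (z - w) i + ∑ j, τ i j * (p j : ℂ) + (q i : ℂ)) = z := by
    funext i
    simp only [Pi.sub_apply, hw]
    ring
  rw [h3] at h2
  exact h2

private theorem grp_discrete {k : ℕ} {τ : Matrix (Fin (k + 1)) (Fin (k + 1)) ℂ}
    (hτ : τ ∈ Siegel (k + 1)) (l : (Fin (k + 1) → ℂ) →ₗ[ℂ] ℂ) (hl : l ≠ 0) (c : ℂ)
    (h0 : ∀ z, l z = c → Th τ z = 0) :
    ∃ ε : ℝ, 0 < ε ∧ ∀ x ∈ grp τ l, x ≠ 0 → ε ≤ ‖x‖ := by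
  by_contra hcon
  push Not at hcon
  obtain ⟨v, hv⟩ : ∃ v, l v ≠ 0 := by
    by_contra h
    push Not at h
    exact hl (LinearMap.ext h)
  obtain ⟨z₀, hz₀⟩ := Th_ne_zero hτ
  apply hz₀
  set v₀ : Fin (k + 1) → ℂ := (l v)⁻¹ • v with hv₀
  have hlv : l v₀ = 1 := by rw [hv₀, map_smul, smul_eq_mul, inv_mul_cancel₀ hv]
  let f : ℂ → ℂ := fun t => Th τ (z₀ + t • v₀)
  have hf : Differentiable ℂ f := by
    have h1 : Differentiable ℂ (ES (thC τ)) := ES_differentiable (thC_gdec hτ)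
    have h2 : Differentiable ℂ (fun t : ℂ => z₀ + t • v₀) := by fun_prop
    exact h1.comp h2
  have hfa : AnalyticOnNhd ℂ f Set.univ := hf.differentiableOn.analyticOnNhd isOpen_univ
  set t₀ : ℂ := c - l z₀ with ht₀
  have hfz : ∀ g ∈ grp τ l, f (t₀ + g) = 0 := by
    intro g hg
    refine van_grp hτ l c h0 hg _ ?_
    rw [map_add, map_smul, hlv, smul_eq_mul, mul_one, ht₀]
    ring
  have hfreq : ∃ᶠ t in nhdsWithin t₀ {t₀}ᶜ, f t = 0 := by
    rw [Filter.frequently_iff]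
    intro U hU
    rw [mem_nhdsWithin_iff_exists_mem_nhds_inter] at hU
    obtain ⟨W, hW, hWU⟩ := hU
    obtain ⟨ε, hε, hεW⟩ := Metric.mem_nhds_iff.1 hW
    obtain ⟨g, hg, hg0, hgε⟩ := hcon ε hε
    refine ⟨t₀ + g, hWU ⟨hεW ?_, ?_⟩, hfz g hg⟩
    · rw [Metric.mem_ball, dist_eq_norm]
      simpa using hgε
    · simpa using hg0
  have hzero := hfa.eqOn_zero_of_preconnected_of_frequently_eq_zero isPreconnected_univ
    (Set.mem_univ t₀) hfreq
  have := hzero (Set.mem_univ 0)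
  simpa [f] using this

private theorem grp_span {k : ℕ} {τ : Matrix (Fin (k + 1)) (Fin (k + 1)) ℂ}
    (hτ : τ ∈ Siegel (k + 1)) (l : (Fin (k + 1) → ℂ) →ₗ[ℂ] ℂ) (hl : l ≠ 0) :
    ∃ x ∈ grp τ l, ∃ y ∈ grp τ l, (x * (starRingEnd ℂ) y).im ≠ 0 := by
  by_contra hcon
  push Not at hcon
  obtain ⟨L, hL⟩ := exists_crd hτ
  obtain ⟨v, hv⟩ : ∃ v, l v ≠ 0 := by
    by_contra h
    push Not at h
    exact hl (LinearMap.ext h)
  -- a real submodule containing the group is everything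
  have key : ∀ W : Submodule ℝ ℂ, (∀ x ∈ grp τ l, x ∈ W) → ∀ w : ℂ, w ∈ W := by
    intro W hW w
    let T : (Fin (k + 1) ⊕ Fin (k + 1) → ℝ) →ₗ[ℝ] ℂ :=
      (l.restrictScalars ℝ).comp (L : (Fin (k + 1) ⊕ Fin (k + 1) → ℝ) →ₗ[ℝ] (Fin (k + 1) → ℂ))
    have hT : ∀ x, T x ∈ W := by
      intro x
      rw [LinearMap.pi_apply_eq_sum_univ T x]
      refine Submodule.sum_mem _ (fun s _ => Submodule.smul_mem _ _ (hW _ ?_))
      refine mem_grp.2 ⟨fun j => if s = Sum.inl j then 1 else 0,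
        fun i => if s = Sum.inr i then 1 else 0, ?_⟩
      change l (L _) = _
      rw [hL]
      congr 1
      funext i
      unfold Lat
      congr 1
      · refine Finset.sum_congr rfl (fun j _ => ?_)
        congr 1
        simp only
        split_ifs <;> simp
      · simp only
        split_ifs <;> simp
    have hw : w = T (L.symm ((w * (l v)⁻¹) • v)) := by
      change w = l (L (L.symm ((w * (l v)⁻¹) • v)))
      rw [LinearEquiv.apply_symm_apply, map_smul, smul_eq_mul, mul_assoc, inv_mul_cancel₀ hv,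
        mul_one]
    rw [hw]
    exact hT _
  -- the elements of the group vanish
  have hzero : ∀ y ∈ grp τ l, y = 0 := by
    intro y hy
    let W : Submodule ℝ ℂ :=
      { carrier := {w | (w * (starRingEnd ℂ) y).im = 0}
        zero_mem' := by simp
        add_mem' := by
          intro a b ha hb
          change ((a + b) * (starRingEnd ℂ) y).im = 0
          rw [add_mul, Complex.add_im]
          change (a * (starRingEnd ℂ) y).im = 0 at ha
          change (b * (starRingEnd ℂ) y).im = 0 at hb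
          rw [ha, hb, add_zero]
        smul_mem' := by
          intro r a ha
          change ((r • a) * (starRingEnd ℂ) y).im = 0
          change (a * (starRingEnd ℂ) y).im = 0 at ha
          rw [smul_mul_assoc, Complex.smul_im, ha, smul_zero] }
    have hW := key W (fun x hx => hcon x hx y hy)
    have h1 : (Complex.I * (starRingEnd ℂ) y).im = 0 := hW Complex.I
    have h2 : ((1 : ℂ) * (starRingEnd ℂ) y).im = 0 := hW 1
    apply Complex.ext
    · simpa using h1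
    · simpa using h2
  have h1 := key ⊥ (fun x hx => by rw [Submodule.mem_bot]; exact hzero x hx) 1
  rw [Submodule.mem_bot] at h1
  exact one_ne_zero h1

/-- A theta function vanishing on a hyperplane. Proof. Let `l z = ∑ v_i z_i`. The set
`G = {l (τ p + q)}` is a subgroup of `ℂ`; by `Th_quasi` the theta function vanishes on
`l z = c + g` for all `g ∈ G`. (1) `G` is discrete: otherwise it has arbitrarily small
nonzero elements `g_j`; on every line `z₀ + t v₀`, `l v₀ = 1`, the entire function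
`t ↦ Th τ (z₀ + t v₀)` vanishes at `c - l z₀ + g_j`, which accumulate at `c - l z₀`, so it
is identically zero, contradicting `Th_ne_zero`. (2) `G` spans `ℂ` over `ℝ` because the
vectors `τ p + q` span `ℂ^(k+1)` over `ℝ` (`exists_crd`) and `l` is onto. By
`lattice_basis` `G = ℤ ω₁ + ℤ ω₂`; put `σ = ω₁/ω₂`, `u = v/ω₂`, `c' = c/ω₂`; then
`u_i = l(e_i)/ω₂` and `(τ u)_i = l(τ e_i)/ω₂` (as `τ` is symmetric) are in `ℤσ + ℤ`, and
every `pσ + q` is `g/ω₂` with `g ∈ G`. -/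
theorem hyper_data {k : ℕ} {τ : Matrix (Fin (k + 1)) (Fin (k + 1)) ℂ}
    (hτ : τ ∈ Siegel (k + 1)) (l : (Fin (k + 1) → ℂ) →ₗ[ℂ] ℂ) (hl : l ≠ 0) (c : ℂ)
    (h0 : ∀ z, l z = c → Th τ z = 0) :
    ∃ (α β : Fin (k + 1) ⊕ Fin (k + 1) → ℤ) (σ c' : ℂ) (u : Fin (k + 1) → ℂ),
      0 < σ.im ∧ u ≠ 0 ∧ (∀ i, u i = α (Sum.inr i) * σ + β (Sum.inr i)) ∧
      (∀ i, ∑ j, τ i j * u j = α (Sum.inl i) * σ + β (Sum.inl i)) ∧
      ∀ z : Fin (k + 1) → ℂ, ∀ p q : ℤ, ∑ i, u i * z i = c' + p * σ + q → Th τ z = 0 := by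
  obtain ⟨ε, hε, hdisc⟩ := grp_discrete hτ l hl c h0
  obtain ⟨ω₁, hω₁, ω₂, hω₂, hne, him, hbasis⟩ :=
    lattice_basis (grp τ l) hε hdisc (grp_span hτ l hl)
  set v : Fin (k + 1) → ℂ := fun i => l (fun j => if i = j then 1 else 0) with hv
  have hlz : ∀ z, l z = ∑ i, z i * v i := by
    intro z
    rw [LinearMap.pi_apply_eq_sum_univ l z]
    rfl
  have hA : ∀ i, v i ∈ grp τ l := by
    intro i
    refine mem_grp.2 ⟨0, fun j => if i = j then 1 else 0, ?_⟩
    change l (fun j => if i = j then 1 else 0) = _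
    congr 1
    funext j
    simp only
    split_ifs <;> simp
  have hB : ∀ i, ∑ j, τ i j * v j ∈ grp τ l := by
    intro i
    refine mem_grp.2 ⟨fun j => if j = i then 1 else 0, 0, ?_⟩
    rw [hlz]
    refine Finset.sum_congr rfl (fun j _ => ?_)
    congr 1
    have hsym : τ i j = τ j i := (congrFun (congrFun hτ.1 i) j).symm
    rw [hsym]
    simp
  choose a b hab using fun i => hbasis _ (hA i)
  choose a' b' hab' using fun i => hbasis _ (hB i)
  refine ⟨Sum.elim a' a, Sum.elim b' b, ω₁ / ω₂, c / ω₂, fun i => v i / ω₂, him, ?_, ?_, ?_, ?_⟩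
  · intro h
    apply hl
    apply LinearMap.ext
    intro z
    rw [hlz, LinearMap.zero_apply]
    refine Finset.sum_eq_zero (fun i _ => ?_)
    have h1 := congrFun h i
    simp only [Pi.zero_apply, div_eq_zero_iff, hne, or_false] at h1
    rw [h1, mul_zero]
  · intro i
    simp only [Sum.elim_inr]
    rw [hab i]
    field_simp
  · intro i
    simp only [Sum.elim_inl]
    have h1 : ∑ j, τ i j * (v j / ω₂) = (∑ j, τ i j * v j) / ω₂ := by
      rw [Finset.sum_div]
      exact Finset.sum_congr rfl (fun j _ => by ring)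
    rw [h1, hab' i]
    field_simp
  · intro z p q hz
    have h1 : ∑ i, v i / ω₂ * z i = (l z) / ω₂ := by
      rw [hlz, Finset.sum_div]
      exact Finset.sum_congr rfl (fun j _ => by ring)
    have h2 : l z = c + (p • ω₁ + q • ω₂) := by
      have h3 : l z / ω₂ = c / ω₂ + p * (ω₁ / ω₂) + q := by rw [← h1]; exact hz
      rw [div_eq_iff hne] at h3
      rw [h3, zsmul_eq_mul, zsmul_eq_mul]
      field_simp
      ring
    refine van_grp hτ l c h0 (g := p • ω₁ + q • ω₂) ?_ z h2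
    exact (grp τ l).add_mem ((grp τ l).zsmul_mem hω₁ p) ((grp τ l).zsmul_mem hω₂ q)

end MP6feb
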