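import Pool.Agent.Lib.MP_6febbd_ag.Defs

set_option autoImplicit false

open scoped Matrix.Norms.Elementwise Real
open Complex Matrix

noncomputable section

namespace MP6feb

private theorem hyp_aux {k : ℕ} {τ : Matrix (Fin (k + 1)) (Fin (k + 1)) ℂ}
    (hτ : τ ∈ Siegel (k + 1)) (u : Fin (k + 1) → ℂ) :
    (∑ i, ∑ j, (starRingEnd ℂ) (u i) * ((τ i j).im : ℂ) * u j) =
      (((∑ i, ∑ j, (u i).re * (τ i j).im * (u j).re) +
        ∑ i, ∑ j, (u i).im * (τ i j).im * (u j).im : ℝ) : ℂ) := by
  have hsym : ∀ i j, τ i j = τ j i := fun i j => (congrFun (congrFun hτ.1 i) j).symm.trans rfl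
  apply Complex.ext
  · simp only [Complex.re_sum, Complex.ofReal_re, ← Finset.sum_add_distrib]
    refine Finset.sum_congr rfl fun i _ => Finset.sum_congr rfl fun j _ => ?_
    simp
  · simp only [Complex.im_sum, Complex.ofReal_im]
    have h1 : ∀ i j, ((starRingEnd ℂ) (u i) * ((τ i j).im : ℂ) * u j).im =
        (u i).re * (τ i j).im * (u j).im - (u i).im * (τ i j).im * (u j).re := by
      intro i j
      simp
      ring
    simp only [h1, Finset.sum_sub_distrib]
    rw [sub_eq_zero, Finset.sum_comm]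
    refine Finset.sum_congr rfl fun i _ => Finset.sum_congr rfl fun j _ => ?_
    rw [hsym i j]
    ring

theorem hyper_pos {k : ℕ} {τ : Matrix (Fin (k + 1)) (Fin (k + 1)) ℂ}
    (hτ : τ ∈ Siegel (k + 1)) {α β : Fin (k + 1) ⊕ Fin (k + 1) → ℤ} {σ : ℂ}
    {u : Fin (k + 1) → ℂ} (hσ : 0 < σ.im) (hu : u ≠ 0)
    (h1 : ∀ i, u i = α (Sum.inr i) * σ + β (Sum.inr i))
    (h2 : ∀ i, ∑ j, τ i j * u j = α (Sum.inl i) * σ + β (Sum.inl i)) :
    ((∑ i, ∑ j, (starRingEnd ℂ) (u i) * ((τ i j).im : ℂ) * u j) =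
      ((Es α β : ℝ) * σ.im : ℝ)) ∧ 1 ≤ Es α β := by
  have hsym : ∀ i j, τ i j = τ j i := fun i j => (congrFun (congrFun hτ.1 i) j).symm.trans rfl
  -- imaginary part of conj(u)ᵀ τ u, computed in two ways
  have hA : (∑ i, (starRingEnd ℂ) (u i) * ∑ j, τ i j * u j).im = (Es α β : ℝ) * σ.im := by
    simp only [h2, Complex.im_sum, Es, Int.cast_sum, Finset.sum_mul]
    refine Finset.sum_congr rfl fun i _ => ?_
    rw [h1 i]
    simp
    ring
  have hB : (∑ i, (starRingEnd ℂ) (u i) * ∑ j, τ i j * u j).im =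
      (∑ i, ∑ j, (u i).re * (τ i j).im * (u j).re) +
        ∑ i, ∑ j, (u i).im * (τ i j).im * (u j).im := by
    simp only [Finset.mul_sum, Complex.im_sum]
    have h3 : ∀ i j, ((starRingEnd ℂ) (u i) * (τ i j * u j)).im =
        ((u i).re * (τ i j).im * (u j).re + (u i).im * (τ i j).im * (u j).im) +
        ((u i).re * (τ i j).re * (u j).im - (u i).im * (τ i j).re * (u j).re) := by
      intro i j
      simp
      ring
    simp only [h3, Finset.sum_add_distrib, Finset.sum_sub_distrib]
    have h4 : (∑ i, ∑ j, (u i).re * (τ i j).re * (u j).im) =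
        ∑ i, ∑ j, (u i).im * (τ i j).re * (u j).re := by
      rw [Finset.sum_comm]
      refine Finset.sum_congr rfl fun i _ => Finset.sum_congr rfl fun j _ => ?_
      rw [hsym i j]
      ring
    rw [h4]
    ring
  have hC : (∑ i, ∑ j, (starRingEnd ℂ) (u i) * ((τ i j).im : ℂ) * u j) =
      ((Es α β : ℝ) * σ.im : ℝ) := by
    rw [hyp_aux hτ u, ← hB, hA]
  refine ⟨hC, ?_⟩
  -- positivity
  have hpd := hτ.2
  have hquad : ∀ w : Fin (k + 1) → ℝ, w ≠ 0 → 0 < ∑ i, ∑ j, w i * (τ i j).im * w j := by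
    intro w hw
    have := hpd.dotProduct_mulVec_pos hw
    simpa [dotProduct, mulVec, Finset.mul_sum, mul_assoc] using this
  have hquad0 : ∀ w : Fin (k + 1) → ℝ, 0 ≤ ∑ i, ∑ j, w i * (τ i j).im * w j := by
    intro w
    by_cases hw : w = 0
    · simp [hw]
    · exact (hquad w hw).le
  have hpos : 0 < (Es α β : ℝ) * σ.im := by
    rw [← hA, hB]
    by_cases hre : (fun i => (u i).re) = 0
    · have him : (fun i => (u i).im) ≠ 0 := by
        intro him
        apply hu
        funext i
        apply Complex.ext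
        · exact congrFun hre i
        · exact congrFun him i
      have := hquad _ him
      have h0 := hquad0 (fun i => (u i).re)
      linarith
    · have := hquad _ hre
      have h0 := hquad0 (fun i => (u i).im)
      linarith
  have : (0 : ℝ) < Es α β := (pos_iff_pos_of_mul_pos hpos).mpr hσ
  have h5 : (0 : ℤ) < Es α β := by exact_mod_cast this
  omega

end MP6feb
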