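import Pool.Agent.Lib.MP_6febbd_ag.Defs
import Pool.Agent.Lib.MP_6febbd_ag.JL
import Pool.Agent.Lib.MP_6febbd_ag.ThG
import Pool.Agent.Lib.MP_6febbd_ag.ThN
import Pool.Agent.Lib.MP_6febbd_ag.ESd
import Pool.Agent.Lib.MP_6febbd_ag.ThF
import Pool.Agent.Lib.MP_6febbd_ag.HyP

set_option autoImplicit false

open scoped Matrix.Norms.Elementwise Real
open Complex Matrix

noncomputable section

namespace MP6feb

private theorem dd_eq {g : ℕ} (M : Matrix (Fin g) (Fin g) ℝ) (v w : Fin g → ℝ) :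
    ∑ i, ∑ j, v i * M i j * w j = v ⬝ᵥ (M *ᵥ w) := by
  simp only [dotProduct, mulVec, Finset.mul_sum, mul_assoc]

/-- The hermitian form in real and imaginary parts. -/
private theorem herm_parts {g : ℕ} {M : Matrix (Fin g) (Fin g) ℝ} (hM : Mᵀ = M)
    (u : Fin g → ℂ) :
    (∑ i, ∑ j, (starRingEnd ℂ) (u i) * ((M i j : ℝ) : ℂ) * u j) =
      (((fun i => (u i).re) ⬝ᵥ (M *ᵥ (fun i => (u i).re)) +
        (fun i => (u i).im) ⬝ᵥ (M *ᵥ (fun i => (u i).im)) : ℝ) : ℂ) := by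
  have hsym : ∀ i j, M i j = M j i := fun i j => (congrFun (congrFun hM i) j).symm.trans rfl
  rw [← dd_eq, ← dd_eq]
  apply Complex.ext
  · simp only [Complex.re_sum, Complex.ofReal_re, ← Finset.sum_add_distrib]
    refine Finset.sum_congr rfl fun i _ => Finset.sum_congr rfl fun j _ => ?_
    simp
  · simp only [Complex.im_sum, Complex.ofReal_im]
    have h1 : ∀ i j, ((starRingEnd ℂ) (u i) * ((M i j : ℝ) : ℂ) * u j).im =
        (u i).re * M i j * (u j).im - (u i).im * M i j * (u j).re := by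
      intro i j
      simp
      ring
    simp only [h1, Finset.sum_sub_distrib]
    rw [sub_eq_zero, Finset.sum_comm]
    refine Finset.sum_congr rfl fun i _ => Finset.sum_congr rfl fun j _ => ?_
    rw [hsym i j]
    ring

private theorem quad_expand {g : ℕ} (M : Matrix (Fin g) (Fin g) ℝ) (y a b : Fin g → ℝ)
    (s t : ℝ) :
    (y + (s • a + t • b)) ⬝ᵥ (M *ᵥ (y + (s • a + t • b))) =
      y ⬝ᵥ (M *ᵥ y) + s * (y ⬝ᵥ (M *ᵥ a) + a ⬝ᵥ (M *ᵥ y)) +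
        t * (y ⬝ᵥ (M *ᵥ b) + b ⬝ᵥ (M *ᵥ y)) + s ^ 2 * (a ⬝ᵥ (M *ᵥ a)) +
        s * t * (a ⬝ᵥ (M *ᵥ b) + b ⬝ᵥ (M *ᵥ a)) + t ^ 2 * (b ⬝ᵥ (M *ᵥ b)) := by
  simp only [Matrix.mulVec_add, Matrix.mulVec_smul, dotProduct_add, add_dotProduct,
    smul_dotProduct, dotProduct_smul, smul_eq_mul]
  ring

theorem hyper_one {k : ℕ} {τ : Matrix (Fin (k + 1)) (Fin (k + 1)) ℂ}
    (hτ : τ ∈ Siegel (k + 1)) {α β : Fin (k + 1) ⊕ Fin (k + 1) → ℤ} {σ c' : ℂ}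
    {u : Fin (k + 1) → ℂ} (hσ : 0 < σ.im) (hu : u ≠ 0)
    (h1 : ∀ i, u i = α (Sum.inr i) * σ + β (Sum.inr i))
    (h2 : ∀ i, ∑ j, τ i j * u j = α (Sum.inl i) * σ + β (Sum.inl i))
    (h3 : ∀ z : Fin (k + 1) → ℂ, ∀ p q : ℤ, ∑ i, u i * z i = c' + p * σ + q → Th τ z = 0) :
    Es α β = 1 := by
  obtain ⟨hherm, hge⟩ := hyper_pos hτ hσ hu h1 h2
  set Y : Matrix (Fin (k + 1)) (Fin (k + 1)) ℝ := τ.map Complex.im with hY
  have hsym : Yᵀ = Y := by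
    ext i j
    have := congrFun (congrFun hτ.1 i) j
    simp only [Matrix.transpose_apply] at this
    simp [hY, this]
  have hdet : IsUnit Y.det := (Matrix.isUnit_iff_isUnit_det Y).mp hτ.2.isUnit
  set N : ℝ := (Es α β : ℝ) * σ.im with hN
  have hδ : (1 : ℝ) ≤ Es α β := by exact_mod_cast hge
  have hN0 : 0 < N := by
    rw [hN]
    exact mul_pos (by linarith) hσ
  set ur : Fin (k + 1) → ℝ := fun i => (u i).re with hur
  set ui : Fin (k + 1) → ℝ := fun i => (u i).im with hui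
  have hNval : ur ⬝ᵥ (Y *ᵥ ur) + ui ⬝ᵥ (Y *ᵥ ui) = N := by
    have h4 := herm_parts hsym u
    have h5 : (∑ i, ∑ j, (starRingEnd ℂ) (u i) * ((Y i j : ℝ) : ℂ) * u j) = ((N : ℝ) : ℂ) := hherm
    rw [h5] at h4
    exact_mod_cast h4.symm
  -- the direction
  set v : Fin (k + 1) → ℂ := fun i => (∑ j, ((Y i j : ℝ) : ℂ) * (starRingEnd ℂ) (u j)) / (N : ℂ)
    with hv
  have hNc : (N : ℂ) ≠ 0 := by exact_mod_cast hN0.ne'
  have huv : ∑ i, u i * v i = 1 := by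
    have h5 : (∑ i, ∑ j, (starRingEnd ℂ) (u i) * ((Y i j : ℝ) : ℂ) * u j) = ((N : ℝ) : ℂ) := hherm
    have h6 : ∑ i, u i * v i =
        (∑ i, ∑ j, (starRingEnd ℂ) (u i) * ((Y i j : ℝ) : ℂ) * u j) / N := by
      rw [Finset.sum_comm, Finset.sum_div]
      refine Finset.sum_congr rfl fun i _ => ?_
      rw [hv]
      simp only
      rw [mul_div_assoc', Finset.mul_sum]
      congr 1
      refine Finset.sum_congr rfl fun j _ => ?_
      have h7 : Y i j = Y j i := congrFun (congrFun hsym j) i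
      rw [h7]
      ring
    rw [h6, h5, div_self hNc]
  set vr : Fin (k + 1) → ℝ := fun i => (v i).re with hvr
  set vi : Fin (k + 1) → ℝ := fun i => (v i).im with hvi
  have hvr' : vr = N⁻¹ • (Y *ᵥ ur) := by
    funext i
    simp only [hvr, hv, Pi.smul_apply, smul_eq_mul, mulVec, dotProduct]
    rw [Complex.div_ofReal_re, Complex.re_sum, div_eq_inv_mul]
    congr 1
    refine Finset.sum_congr rfl fun j _ => ?_
    simp [hur]
  have hvi' : vi = -(N⁻¹ • (Y *ᵥ ui)) := by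
    funext i
    simp only [hvi, hv, Pi.smul_apply, Pi.neg_apply, smul_eq_mul, mulVec, dotProduct]
    rw [Complex.div_ofReal_im, Complex.im_sum, div_eq_inv_mul, ← mul_neg]
    congr 1
    rw [← Finset.sum_neg_distrib]
    refine Finset.sum_congr rfl fun j _ => ?_
    simp [hui]
  have hquadv : ∀ w : Fin (k + 1) → ℝ,
      (Y *ᵥ w) ⬝ᵥ (Y⁻¹ *ᵥ (Y *ᵥ w)) = w ⬝ᵥ (Y *ᵥ w) := by
    intro w
    rw [Matrix.mulVec_mulVec, Matrix.nonsing_inv_mul Y hdet, Matrix.one_mulVec, dotProduct_comm]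
  have hsumQ : vi ⬝ᵥ (Y⁻¹ *ᵥ vi) + vr ⬝ᵥ (Y⁻¹ *ᵥ vr) = 1 / N := by
    rw [hvr', hvi']
    simp only [Matrix.mulVec_smul, Matrix.mulVec_neg, neg_dotProduct, dotProduct_neg,
      smul_dotProduct, dotProduct_smul, smul_eq_mul, hquadv]
    have h8 : -(N⁻¹ * -(N⁻¹ * ui ⬝ᵥ (Y *ᵥ ui))) + N⁻¹ * (N⁻¹ * ur ⬝ᵥ (Y *ᵥ ur)) =
        N⁻¹ * N⁻¹ * (ur ⬝ᵥ (Y *ᵥ ur) + ui ⬝ᵥ (Y *ᵥ ui)) := by ring
    rw [h8, hNval]
    field_simp
  -- the function of one variable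
  obtain ⟨z₀, hz₀⟩ := Th_ne_zero hτ
  obtain ⟨C, hC, hgr⟩ := Th_growth hτ
  set f : ℂ → ℂ := fun t => Th τ (z₀ + t • v) with hf
  have hfd : Differentiable ℂ f := fun t => (ES_line (thC_gdec hτ) z₀ v t).differentiableAt
  have hfne : ∃ z, f z ≠ 0 := ⟨0, by simpa [hf] using hz₀⟩
  set y₀ : Fin (k + 1) → ℝ := fun i => (z₀ i).im with hy₀
  set b₁ : ℝ := y₀ ⬝ᵥ (Y⁻¹ *ᵥ vi) + vi ⬝ᵥ (Y⁻¹ *ᵥ y₀) with hb₁
  set b₂ : ℝ := y₀ ⬝ᵥ (Y⁻¹ *ᵥ vr) + vr ⬝ᵥ (Y⁻¹ *ᵥ y₀) with hb₂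
  set b₃ : ℝ := vi ⬝ᵥ (Y⁻¹ *ᵥ vr) + vr ⬝ᵥ (Y⁻¹ *ᵥ vi) with hb₃
  set q₀ : ℝ := y₀ ⬝ᵥ (Y⁻¹ *ᵥ y₀) with hq₀
  have hgrow : ∀ t : ℂ, ‖f t‖ ≤ Real.exp (π * (vi ⬝ᵥ (Y⁻¹ *ᵥ vi)) * t.re ^ 2 +
      π * b₃ * t.re * t.im + π * (vr ⬝ᵥ (Y⁻¹ *ᵥ vr)) * t.im ^ 2 +
      (|Real.log C| + π * |q₀| + π * (|b₁| + |b₂|)) * (1 + ‖t‖)) := by
    intro t
    refine (hgr (z₀ + t • v)).trans ?_
    have him : (fun i => ((z₀ + t • v) i).im) = y₀ + (t.re • vi + t.im • vr) := by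
      funext i
      simp [hy₀, hvi, hvr]
    have hQ : ∑ i, ∑ j, ((z₀ + t • v) i).im * (τ.map Complex.im)⁻¹ i j * ((z₀ + t • v) j).im =
        (y₀ + (t.re • vi + t.im • vr)) ⬝ᵥ (Y⁻¹ *ᵥ (y₀ + (t.re • vi + t.im • vr))) := by
      rw [← him, ← dd_eq]
    rw [hQ, quad_expand]
    have hCexp : C = Real.exp (Real.log C) := (Real.exp_log hC).symm
    rw [hCexp, ← Real.exp_add, ← hCexp]
    apply Real.exp_le_exp.mpr
    rw [← hb₁, ← hb₂, ← hb₃, ← hq₀]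
    have hn0 := norm_nonneg t
    have hre := Complex.abs_re_le_norm t
    have him' := Complex.abs_im_le_norm t
    have i1 : Real.log C ≤ |Real.log C| * (1 + ‖t‖) := by
      have := le_abs_self (Real.log C)
      nlinarith [abs_nonneg (Real.log C)]
    have i2 : π * q₀ ≤ π * |q₀| * (1 + ‖t‖) := by
      have h := le_abs_self q₀
      have h' := abs_nonneg q₀
      have : q₀ ≤ |q₀| * (1 + ‖t‖) := by nlinarith
      calc π * q₀ ≤ π * (|q₀| * (1 + ‖t‖)) := mul_le_mul_of_nonneg_left this Real.pi_pos.le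
        _ = _ := by ring
    have i3 : π * (t.re * b₁ + t.im * b₂) ≤ π * (|b₁| + |b₂|) * (1 + ‖t‖) := by
      have j1 : t.re * b₁ ≤ ‖t‖ * |b₁| := by
        calc t.re * b₁ ≤ |t.re * b₁| := le_abs_self _
          _ = |t.re| * |b₁| := abs_mul _ _
          _ ≤ ‖t‖ * |b₁| := mul_le_mul_of_nonneg_right hre (abs_nonneg _)
      have j2 : t.im * b₂ ≤ ‖t‖ * |b₂| := by
        calc t.im * b₂ ≤ |t.im * b₂| := le_abs_self _
          _ = |t.im| * |b₂| := abs_mul _ _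
          _ ≤ ‖t‖ * |b₂| := mul_le_mul_of_nonneg_right him' (abs_nonneg _)
      have : t.re * b₁ + t.im * b₂ ≤ (|b₁| + |b₂|) * (1 + ‖t‖) := by
        nlinarith [abs_nonneg b₁, abs_nonneg b₂]
      calc π * (t.re * b₁ + t.im * b₂) ≤ π * ((|b₁| + |b₂|) * (1 + ‖t‖)) :=
            mul_le_mul_of_nonneg_left this Real.pi_pos.le
        _ = _ := by ring
    nlinarith [i1, i2, i3]
  set s : ℂ := c' - ∑ i, u i * z₀ i with hs
  have hS : ∀ s' ∈ ({s} : Finset ℂ), ∀ p q : ℤ, f (s' + p * σ + q) = 0 := by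
    intro s' hs' p q
    rw [Finset.mem_singleton] at hs'
    subst hs'
    refine h3 _ p q ?_
    simp only [Pi.add_apply, Pi.smul_apply, smul_eq_mul, mul_add, Finset.sum_add_distrib]
    have h9 : ∑ i, u i * ((s + p * σ + q) * v i) = (s + p * σ + q) * ∑ i, u i * v i := by
      rw [Finset.mul_sum]
      exact Finset.sum_congr rfl fun i _ => by ring
    rw [h9, huv, hs]
    ring
  have hinc : ∀ a ∈ ({s} : Finset ℂ), ∀ b ∈ ({s} : Finset ℂ), a ≠ b →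
      ∀ p q : ℤ, b ≠ a + p * σ + q := by
    intro a ha b hb hab
    rw [Finset.mem_singleton] at ha hb
    exact absurd (ha.trans hb.symm) hab
  have hJ := jensen_lattice hfd hfne hσ _ _ _ _ hgrow {s} hS hinc
  rw [Finset.card_singleton, Nat.cast_one, mul_one, ← mul_add, hsumQ] at hJ
  have hσne : σ.im ≠ 0 := hσ.ne'
  have hE0 : (Es α β : ℝ) ≠ 0 := by linarith
  have h10 : π * (1 / N) * σ.im = π / (Es α β : ℝ) := by
    rw [hN]
    field_simp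
  rw [h10, le_div_iff₀ (by linarith)] at hJ
  have h11 : (Es α β : ℝ) ≤ 1 := by
    have := Real.pi_pos
    nlinarith
  have h12 : Es α β ≤ 1 := by exact_mod_cast h11
  omega

end MP6feb
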