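import Pool.Agent.Lib.MP_6febbd_ag.Defs
import Pool.Agent.Lib.MP_6febbd_ag.SpA
import Pool.Agent.Lib.MP_6febbd_ag.SpS
import Pool.Agent.Lib.MP_6febbd_ag.SpH
import Pool.Agent.Lib.MP_6febbd_ag.SpG
import Pool.Agent.Lib.MP_6febbd_ag.ThB

set_option autoImplicit false

open scoped Matrix.Norms.Elementwise Real
open Complex Matrix

noncomputable section

namespace MP6feb

private theorem block_mulVec {k : ℕ} (A B : Matrix (Fin (k + 1)) (Fin (k + 1)) ℤ)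
    {τ : Matrix (Fin (k + 1)) (Fin (k + 1)) ℂ} {α β : Fin (k + 1) ⊕ Fin (k + 1) → ℤ} {σ : ℂ}
    {u : Fin (k + 1) → ℂ}
    (h1 : ∀ i, u i = α (Sum.inr i) * σ + β (Sum.inr i))
    (h2 : ∀ i, ∑ j, τ i j * u j = α (Sum.inl i) * σ + β (Sum.inl i)) (i : Fin (k + 1)) :
    ((A.map (Int.cast : ℤ → ℂ) * τ + B.map (Int.cast : ℤ → ℂ)) *ᵥ u) i =
      ((∑ j, A i j * α (Sum.inl j) + ∑ j, B i j * α (Sum.inr j) : ℤ) : ℂ) * σ +
      ((∑ j, A i j * β (Sum.inl j) + ∑ j, B i j * β (Sum.inr j) : ℤ) : ℂ) := by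
  have h2' : τ *ᵥ u = fun i => (α (Sum.inl i) : ℂ) * σ + β (Sum.inl i) := by
    funext i
    exact h2 i
  have h1' : u = fun i => (α (Sum.inr i) : ℂ) * σ + β (Sum.inr i) := funext h1
  rw [Matrix.add_mulVec, ← Matrix.mulVec_mulVec, h2', h1']
  simp only [Pi.add_apply, Matrix.mulVec, dotProduct, Matrix.map_apply]
  push_cast
  simp only [mul_add, Finset.sum_add_distrib, add_mul, Finset.sum_mul]
  have e1 : ∀ x : Fin (k + 1), (A i x : ℂ) * (α (Sum.inl x) * σ) =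
      (A i x : ℂ) * α (Sum.inl x) * σ := fun x => by ring
  have e2 : ∀ x : Fin (k + 1), (B i x : ℂ) * (α (Sum.inr x) * σ) =
      (B i x : ℂ) * α (Sum.inr x) * σ := fun x => by ring
  simp only [e1, e2]
  ring

private theorem mulVec_inl {k : ℕ} (γ : Matrix (Fin (k + 1) ⊕ Fin (k + 1))
    (Fin (k + 1) ⊕ Fin (k + 1)) ℤ) (α : Fin (k + 1) ⊕ Fin (k + 1) → ℤ) (i : Fin (k + 1)) :
    (γ *ᵥ α) (Sum.inl i) = ∑ j, γ.toBlocks₁₁ i j * α (Sum.inl j) +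
      ∑ j, γ.toBlocks₁₂ i j * α (Sum.inr j) := by
  simp only [Matrix.mulVec, dotProduct, Fintype.sum_sum_type]
  rfl

private theorem mulVec_inr {k : ℕ} (γ : Matrix (Fin (k + 1) ⊕ Fin (k + 1))
    (Fin (k + 1) ⊕ Fin (k + 1)) ℤ) (α : Fin (k + 1) ⊕ Fin (k + 1) → ℤ) (i : Fin (k + 1)) :
    (γ *ᵥ α) (Sum.inr i) = ∑ j, γ.toBlocks₂₁ i j * α (Sum.inl j) +
      ∑ j, γ.toBlocks₂₂ i j * α (Sum.inr j) := by
  simp only [Matrix.mulVec, dotProduct, Fintype.sum_sum_type]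
  rfl

/-- Splitting off a one by one block. Proof. `hyperbolic` gives `γ ∈ Gam` with
`γ α = (e₀, 0)`, `γ β = (0, e₀)`. From `(num; den) = γ (τ; 1)`:
`num γ τ u = σ (γα)' + (γβ)' = σ e₀` and `den γ τ u = σ (γα)'' + (γβ)'' = e₀`, so
`act γ τ e₀ = act γ τ (den γ τ u) = num γ τ u = σ e₀` (`act_mem_siegel`: the determinant of
`den` is not zero). Since `act γ τ` is symmetric it is `bd σ τ'`. -/
theorem hyper_split {k : ℕ} {τ : Matrix (Fin (k + 1)) (Fin (k + 1)) ℂ}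
    (hτ : τ ∈ Siegel (k + 1)) {α β : Fin (k + 1) ⊕ Fin (k + 1) → ℤ} {σ : ℂ}
    {u : Fin (k + 1) → ℂ}
    (h1 : ∀ i, u i = α (Sum.inr i) * σ + β (Sum.inr i))
    (h2 : ∀ i, ∑ j, τ i j * u j = α (Sum.inl i) * σ + β (Sum.inl i))
    (hE : Es α β = 1) :
    ∃ γ ∈ Gam (k + 1), ∃ τ' : Matrix (Fin k) (Fin k) ℂ, act γ τ = bd σ τ' := by
  obtain ⟨γ, hγ, hα, hβ⟩ := hyperbolic α β hE
  obtain ⟨⟨hsym, -⟩, hdet⟩ := act_mem_siegel (gam_le hγ) hτ
  have hnum : num γ τ *ᵥ u = Pi.single 0 σ := by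
    funext i
    unfold num
    rw [block_mulVec γ.toBlocks₁₁ γ.toBlocks₁₂ h1 h2 i, ← mulVec_inl, ← mulVec_inl, hα, hβ]
    by_cases hi : i = 0
    · subst hi; simp
    · simp [hi]
  have hden : den γ τ *ᵥ u = Pi.single 0 1 := by
    funext i
    unfold den
    rw [block_mulVec γ.toBlocks₂₁ γ.toBlocks₂₂ h1 h2 i, ← mulVec_inr, ← mulVec_inr, hα, hβ]
    by_cases hi : i = 0
    · subst hi; simp
    · simp [hi]
  have hact : act γ τ *ᵥ Pi.single 0 1 = Pi.single 0 σ := by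
    rw [← hden, Matrix.mulVec_mulVec, act, Matrix.mul_assoc,
      Matrix.nonsing_inv_mul _ (isUnit_iff_ne_zero.2 hdet), Matrix.mul_one, hnum]
  have hcol : ∀ i, act γ τ i 0 = (Pi.single 0 σ : Fin (k + 1) → ℂ) i := by
    intro i
    rw [← hact, Matrix.mulVec_single_one]
    rfl
  have hrow : ∀ j, act γ τ 0 j = (Pi.single 0 σ : Fin (k + 1) → ℂ) j := by
    intro j
    rw [← hcol j]
    exact (congrFun (congrFun hsym 0) j).symm
  refine ⟨γ, hγ, Matrix.of (fun i j => act γ τ i.succ j.succ), ?_⟩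
  ext i j
  refine Fin.cases ?_ (fun i => ?_) i
  · refine Fin.cases ?_ (fun j => ?_) j
    · rw [hcol 0]; simp [bd]
    · rw [hrow j.succ]; simp [bd]
  · refine Fin.cases ?_ (fun j => ?_) j
    · rw [hcol i.succ]; simp [bd]
    · simp [bd]

end MP6feb
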