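import Pool.Agent.Lib.MP_6febbd_ag.Defs

set_option autoImplicit false

open scoped Matrix.Norms.Elementwise Real
open Complex Matrix

noncomputable section

namespace MP6feb

/-- Base case: size zero. There is one characteristic, the theta constant is `1` (one term,
`exp 0`), and the condition on the `c i` is void. -/
theorem evGood_zero (τ : Matrix (Fin 0) (Fin 0) ℂ) : EvGood τ := by
  refine Filter.Eventually.of_forall fun k => ⟨?_, ?_⟩
  · refine ⟨fun _ => 0, ?_⟩
    simp only [NV, Set.Finite.mem_toFinset, Set.mem_ofPred_eq]
    rw [thx, th, tsum_eq_single (fun i : Fin 0 => i.elim0)]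
    · exact Complex.exp_ne_zero _
    · intro m hm
      exact absurd (Subsingleton.elim m _) hm
  · rintro c ⟨i, _⟩
    cases i with
    | inl i => exact i.elim0
    | inr i => exact i.elim0

end MP6feb
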