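import Pool.Agent.Lib.MP_6febbd_ag.Defs
import Pool.Agent.Lib.MP_6febbd_ag.Ind0
import Pool.Agent.Lib.MP_6febbd_ag.Cnt
import Pool.Agent.Lib.MP_6febbd_ag.CntG
import Pool.Agent.Lib.MP_6febbd_ag.LatE
import Pool.Agent.Lib.MP_6febbd_ag.HyA
import Pool.Agent.Lib.MP_6febbd_ag.HyB
import Pool.Agent.Lib.MP_6febbd_ag.HyC
import Pool.Agent.Lib.MP_6febbd_ag.GdZ
import Pool.Agent.Lib.MP_6febbd_ag.GdP
import Pool.Agent.Lib.MP_6febbd_ag.SpA
import Pool.Agent.Lib.MP_6febbd_ag.SpS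
import Pool.Agent.Lib.MP_6febbd_ag.SpE
import Pool.Agent.Lib.MP_6febbd_ag.SpG
import Pool.Agent.Lib.MP_6febbd_ag.ThB
import Pool.Agent.Lib.MP_6febbd_ag.ThF
import Pool.Agent.Lib.MP_6febbd_ag.ThN
import Pool.Agent.Lib.MP_6febbd_ag.ESd

set_option autoImplicit false

open scoped Matrix.Norms.Elementwise Real
open Complex Matrix

noncomputable section

namespace MP6feb

/-- Every point of the Siegel space has a translate with good sets of non-vanishing
characteristics. -/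
theorem exists_evGood : ∀ (g : ℕ) (τ : Matrix (Fin g) (Fin g) ℂ), τ ∈ Siegel g →
    ∃ γ ∈ Gam g, EvGood (act γ τ) := by
  intro g
  induction g with
  | zero => exact fun τ _ => ⟨1, Submonoid.one_mem _, evGood_zero _⟩
  | succ k ih =>
    intro τ hτ
    obtain ⟨L, hL⟩ := exists_crd hτ
    by_cases hflat : ∀ l : (Fin (k + 1) → ℂ) →ₗ[ℂ] ℂ, l ≠ 0 → ∀ c : ℂ,
        ∃ z, l z = c ∧ ES (thC τ) z ≠ 0
    · refine ⟨1, Submonoid.one_mem _, ?_⟩
      rw [act_one]
      exact evGood_of_count hτ L hL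
        (count_lemma (thC_gdec hτ) (Th_ne_zero hτ) hflat L one_pos)
    · push Not at hflat
      obtain ⟨l, hl, c, h0⟩ := hflat
      obtain ⟨α, β, σ, c', u, hσ, hu, h1, h2, h3⟩ := hyper_data hτ l hl c h0
      have hE := hyper_one hτ hσ hu h1 h2 h3
      obtain ⟨γ, hγ, τ', hact⟩ := hyper_split hτ h1 h2 hE
      have hmem := (act_mem_siegel (gam_le hγ) hτ)
      have hbd : bd σ τ' ∈ Siegel (k + 1) := hact ▸ hmem.1
      have hτ' : τ' ∈ Siegel k := (bd_mem.mp hbd).2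
      obtain ⟨δ, hδ, hgood⟩ := ih τ' hτ'
      have hδm := act_mem_siegel (gam_le hδ) hτ'
      refine ⟨emb δ * γ, Submonoid.mul_mem _ (emb_mem hδ) hγ, ?_⟩
      rw [act_mul _ _ _ hmem.2, hact, act_emb _ _ _ hδm.2]
      filter_upwards [hgood, Filter.eventually_ge_atTop 1] with j hj hj1
      exact good_bd (by
        calc 2 = 2 ^ 1 := by norm_num
          _ ≤ 2 ^ j := Nat.pow_le_pow_right (by norm_num) hj1) hσ hδm.1 (zeros_one hσ) hj

end MP6feb
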