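import Pool.Agent.Lib.MP_6febbd_ag.Defs

set_option autoImplicit false

open scoped Matrix.Norms.Elementwise Real
open Complex Matrix

noncomputable section

namespace MP6feb

private theorem ps_poly {α : Type} (s : Finset α) (t : α → ℂ)
    (h : ∀ j : ℕ, 1 ≤ j → ∑ i ∈ s, t i ^ j = 0) (p : Polynomial ℂ) :
    ∑ i ∈ s, t i * p.eval (t i) = 0 := by
  have h1 : ∀ i, t i * p.eval (t i) = ∑ k ∈ Finset.range (p.natDegree + 1),
      p.coeff k * t i ^ (k + 1) := by
    intro i
    rw [Polynomial.eval_eq_sum_range, Finset.mul_sum]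
    refine Finset.sum_congr rfl fun k _ => ?_
    ring
  simp only [h1]
  rw [Finset.sum_comm]
  refine Finset.sum_eq_zero fun k _ => ?_
  rw [← Finset.mul_sum, h (k + 1) (by omega), mul_zero]

/-- Some power sum of finitely many complex numbers, not all zero, does not vanish.
Proof. Otherwise `∑ p(t_i) = 0` for all polynomials with `p(0) = 0`; take
`p = X ∏ (X - v)` over the values `v ≠ t_x` of `t`: the sum is
(number of `i` with `t_i = t_x`) times `p(t_x) ≠ 0`. -/
theorem power_sum_ne {α : Type} [DecidableEq α] (s : Finset α) (t : α → ℂ) {x : α}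
    (hx : x ∈ s) (ht : t x ≠ 0) : ∃ j : ℕ, 1 ≤ j ∧ ∑ i ∈ s, t i ^ j ≠ 0 := by
  classical
  by_contra hne
  push Not at hne
  let p : Polynomial ℂ := ∏ v ∈ (s.image t).erase (t x), (Polynomial.X - Polynomial.C v)
  have h1 := ps_poly s t hne p
  have hp : ∀ z, p.eval z = ∏ v ∈ (s.image t).erase (t x), (z - v) := by
    intro z
    rw [Polynomial.eval_prod]
    simp
  have h2 : ∑ i ∈ s, t i * p.eval (t i) =
      ∑ i ∈ s.filter (fun i => t i = t x), t x * p.eval (t x) := by
    rw [Finset.sum_filter]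
    refine Finset.sum_congr rfl fun i hi => ?_
    by_cases h : t i = t x
    · rw [if_pos h, h]
    · rw [if_neg h, hp, Finset.prod_eq_zero (i := t i), mul_zero]
      · exact Finset.mem_erase.mpr ⟨h, Finset.mem_image_of_mem t hi⟩
      · rw [sub_self]
  rw [h2, Finset.sum_const, nsmul_eq_mul] at h1
  rcases mul_eq_zero.mp h1 with h3 | h3
  · have h4 : (s.filter fun i => t i = t x).card = 0 := by exact_mod_cast h3
    rw [Finset.card_eq_zero] at h4
    have h5 : x ∈ s.filter fun i => t i = t x := Finset.mem_filter.mpr ⟨hx, rfl⟩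
    rw [h4] at h5
    exact absurd h5 (Finset.notMem_empty x)
  · rcases mul_eq_zero.mp h3 with h4 | h4
    · exact ht h4
    · rw [hp, Finset.prod_eq_zero_iff] at h4
      obtain ⟨v, hv, h5⟩ := h4
      exact (Finset.mem_erase.mp hv).1 (sub_eq_zero.mp h5).symm

end MP6feb
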