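import Pool.Agent.Lib.MP_6febbd_ag.Defs
import Pool.Agent.Lib.MP_6febbd_ag.Ind
import Pool.Agent.Lib.MP_6febbd_ag.Fam
import Pool.Agent.Lib.MP_6febbd_ag.Cusp
import Pool.Agent.Lib.MP_6febbd_ag.PowS
import Pool.Agent.Lib.MP_6febbd_ag.Ari
import Pool.Agent.Lib.MP_6febbd_ag.SpG
import Pool.Agent.Lib.MP_6febbd_ag.SpA
import Pool.Agent.Lib.MP_6febbd_ag.SpS

set_option autoImplicit false

open scoped Matrix.Norms.Elementwise Real
open Complex Matrix

noncomputable section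

namespace MP6feb

/-- The theorem. -/
theorem main_theorem (g : ℕ) (τ : Matrix (Fin g) (Fin g) ℂ) (hτ : τ ∈ Siegel g) :
    ∃ (m : ℕ) (F : Matrix (Fin g) (Fin g) ℂ → ℂ), 1 ≤ m ∧ IsSiegelForm g (12 * m) F ∧
      VanishesAtBoundary g m F ∧ F τ ≠ 0 := by
  obtain ⟨γ, hγ, hgood⟩ := exists_evGood g τ hτ
  obtain ⟨k, hk, hk1⟩ := (hgood.and (Filter.eventually_ge_atTop 1)).exists
  set n : ℕ := 2 ^ k with hn
  have hn0 : 0 < n := by positivity
  have hev : Even n := ⟨2 ^ (k - 1), by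
    rw [hn, ← two_mul, ← pow_succ']
    congr 1
    omega⟩
  set X : Finset (Fin g ⊕ Fin g → ZMod n) := NV n (act γ τ) with hX
  have hXc : 1 ≤ X.card := Finset.card_pos.mpr hk.1
  have hfam : X ∈ famF g n X.card := by
    simp only [famF, Set.Finite.mem_toFinset, Set.mem_ofPred_eq]
    exact ⟨rfl, fun c hc => cusp_of_good hk1 X hk c hc⟩
  have hne : (∏ x ∈ X, TX n x (act γ τ)) ≠ 0 := by
    refine Finset.prod_ne_zero_iff.mpr (fun x hx => pow_ne_zero _ ?_)
    simpa [hX, NV] using hx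
  classical
  obtain ⟨j, hj, hsum⟩ := power_sum_ne (famF g n X.card)
    (fun Y => ∏ x ∈ Y, TX n x (act γ τ)) hfam hne
  refine ⟨n ^ 2 * X.card * j, Pj g n X.card j, ?_, Pj_form hev, Pj_cusp, ?_⟩
  · have : 0 < n ^ 2 * X.card * j := by positivity
    exact this
  · intro h0
    have := Pj_gam (g := g) (n := n) (M := X.card) (j := j) hev hγ hτ
    rw [h0, mul_zero] at this
    exact hsum this

end MP6feb
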